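import Pool.Agent.Work.MP_05d08f_al.AS.Defs

set_option autoImplicit false

/-!
# A01: basic facts on similarity (size S-M)

Everything is elementary: `Sim A A'` means `P * Q = 1`, `Q * P = 1`, `Q * A * P = A'`.

* `refl`: `P = Q = 1`. `symm`: exchange `P` and `Q` (`P * A' * Q = P * Q * A * P * Q = A`).
* `trans`: multiply.
* `card_eq`: square invertible rectangular matrices: `P * Q = 1`, `Q * P = 1` give linear maps
  `(ι → K) ≃ (κ → K)`; compare `Module.finrank` (or `Matrix.trace_mul_comm` is not enough in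
  characteristic p; use ranks: `rank 1 = card`, `rank (P * Q) ≤ rank P ≤ min`).
* `trace_eq`: `trace (Q * A * P) = trace (A * (P * Q))` by `Matrix.trace_mul_cycle`.
* `rank_eq`: `rank (Q * A * P) ≤ rank A` by `Matrix.rank_mul_le_left/right`, and conversely by symmetry.
* `sub_smul`: `Q * (A - μ • 1) * P = A' - μ • 1`.
* `conj`: from `G * G' = 1`, `G' * G = 1` on the same index type.
* `submatrix`: re-indexing along an equivalence is a similarity
  (`P = (1 : Matrix ι ι K).submatrix id e`, `Q = (1 : Matrix ι ι K).submatrix e id`).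
-/

namespace ALK

open Matrix

namespace Sim

variable {K : Type*} [Field K] {ι κ ν : Type*} [Fintype ι] [DecidableEq ι] [Fintype κ] [DecidableEq κ]
  [Fintype ν] [DecidableEq ν]

theorem refl (A : Matrix ι ι K) : Sim A A :=
  ⟨1, 1, Matrix.one_mul 1, Matrix.one_mul 1, by rw [Matrix.one_mul, Matrix.mul_one]⟩

theorem symm {A : Matrix ι ι K} {A' : Matrix κ κ K} (h : Sim A A') : Sim A' A := by
  obtain ⟨P, Q, h1, h2, h3⟩ := h
  refine ⟨Q, P, h2, h1, ?_⟩
  rw [← h3]
  calc P * (Q * A * P) * Q = (P * Q) * A * (P * Q) := by simp only [Matrix.mul_assoc]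
    _ = A := by rw [h1, Matrix.one_mul, Matrix.mul_one]

theorem trans {A : Matrix ι ι K} {A' : Matrix κ κ K} {A'' : Matrix ν ν K} (h : Sim A A')
    (h' : Sim A' A'') : Sim A A'' := by
  obtain ⟨P, Q, h1, h2, h3⟩ := h
  obtain ⟨P', Q', h1', h2', h3'⟩ := h'
  refine ⟨P * P', Q' * Q, ?_, ?_, ?_⟩
  · calc P * P' * (Q' * Q) = P * (P' * Q') * Q := by simp only [Matrix.mul_assoc]
      _ = 1 := by rw [h1', Matrix.mul_one, h1]
  · calc Q' * Q * (P * P') = Q' * (Q * P) * P' := by simp only [Matrix.mul_assoc]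
      _ = 1 := by rw [h2, Matrix.mul_one, h2']
  · calc Q' * Q * A * (P * P') = Q' * (Q * A * P) * P' := by simp only [Matrix.mul_assoc]
      _ = A'' := by rw [h3, h3']

theorem card_eq {A : Matrix ι ι K} {A' : Matrix κ κ K} (h : Sim A A') :
    Fintype.card ι = Fintype.card κ := by
  obtain ⟨P, Q, h1, h2, -⟩ := h
  exact Matrix.square_of_invertible P Q h1 h2

theorem trace_eq {A : Matrix ι ι K} {A' : Matrix κ κ K} (h : Sim A A') : A.trace = A'.trace := by
  obtain ⟨P, Q, h1, h2, rfl⟩ := h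
  rw [Matrix.trace_mul_cycle, h1, Matrix.one_mul]

private theorem rank_le {A : Matrix ι ι K} {A' : Matrix κ κ K} (h : Sim A A') :
    A'.rank ≤ A.rank := by
  obtain ⟨P, Q, h1, h2, rfl⟩ := h
  exact (Matrix.rank_mul_le_left _ _).trans (Matrix.rank_mul_le_right _ _)

theorem rank_eq {A : Matrix ι ι K} {A' : Matrix κ κ K} (h : Sim A A') : A.rank = A'.rank :=
  le_antisymm h.symm.rank_le h.rank_le

theorem sub_smul {A : Matrix ι ι K} {A' : Matrix κ κ K} (h : Sim A A') (μ : K) :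
    Sim (A - μ • (1 : Matrix ι ι K)) (A' - μ • (1 : Matrix κ κ K)) := by
  obtain ⟨P, Q, h1, h2, rfl⟩ := h
  refine ⟨P, Q, h1, h2, ?_⟩
  rw [Matrix.mul_sub, Matrix.sub_mul, Matrix.mul_smul, Matrix.smul_mul, Matrix.mul_one, h2]

theorem add_smul {A : Matrix ι ι K} {A' : Matrix κ κ K} (h : Sim A A') (μ : K) :
    Sim (A + μ • (1 : Matrix ι ι K)) (A' + μ • (1 : Matrix κ κ K)) := by
  obtain ⟨P, Q, h1, h2, rfl⟩ := h
  refine ⟨P, Q, h1, h2, ?_⟩
  rw [Matrix.mul_add, Matrix.add_mul, Matrix.mul_smul, Matrix.smul_mul, Matrix.mul_one, h2]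

theorem conj (A G G' : Matrix ι ι K) (h : G * G' = 1) (h' : G' * G = 1) : Sim A (G' * A * G) :=
  ⟨G, G', h, h', rfl⟩

theorem submatrix (A : Matrix ι ι K) (e : κ ≃ ι) : Sim A (A.submatrix e e) := by
  refine ⟨(1 : Matrix ι ι K).submatrix id e, (1 : Matrix ι ι K).submatrix e id, ?_, ?_, ?_⟩
  · rw [Matrix.submatrix_mul_equiv, Matrix.one_mul, Matrix.submatrix_id_id]
  · rw [← Matrix.submatrix_mul _ _ e id e Function.bijective_id, Matrix.one_mul,
      Matrix.submatrix_one_equiv]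
  · ext a b
    simp [Matrix.mul_apply, Matrix.one_apply]

end Sim

end ALK
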