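import Pool.Agent.Work.MP_05d08f_al.AS.A01

set_option autoImplicit false

/-!
# A02: `ZB` is invariant under similarity and re-indexing (size S-M)

`ZB.of_sim`: let `Sim A A'` (index types `ι`, `κ`) and `ZB r A'` with witnesses `A''`, `f : κ → ℕ`.
By `Sim.card_eq` there is `e : ι ≃ κ` (`Fintype.equivOfCardEq`). The matrix `A''.submatrix e e` on `ι`
is similar to `A''` (`Sim.submatrix`), so `Sim A (A''.submatrix e e)`, and the class function is
`f ∘ e`; class sizes are the same (`Fintype.card_congr` with `e.subtypeEquiv`).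

`ZB.of_classes`: the same with a class function into any type `β`
(compose with an injection of the finite set of values into `ℕ`, for example
`fun x => (Fintype.equivFin ι) (chosen representative of the class of x)`, or choose an injection
`β₀ → ℕ` of the finite range of `κ`; `Finset.univ.image κ` is finite so it embeds into `ℕ` by
`Finset.equivFin`).

`ZB.zero`: the zero matrix with `r ≤ card ι`: constant class function.

`ZB.mono` is not needed.
-/

namespace ALK

open Matrix

variable {K : Type*} [Field K] {ι κ : Type*} [Fintype ι] [DecidableEq ι] [Fintype κ] [DecidableEq κ]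

theorem ZB.of_sim {r : ℕ} {A : Matrix ι ι K} {A' : Matrix κ κ K} (h : Sim A A') (h' : ZB r A') :
    ZB r A := by
  obtain ⟨A'', f, hs, hc, hz⟩ := h'
  let e : ι ≃ κ := Fintype.equivOfCardEq h.card_eq
  refine ⟨A''.submatrix e e, f ∘ e, h.trans (hs.trans (Sim.submatrix A'' e)), fun x => ?_,
    fun x y hxy => hz _ _ hxy⟩
  refine (hc (e x)).trans_eq (Fintype.card_congr ?_).symm
  exact e.subtypeEquiv fun y => Iff.rfl

theorem ZB.of_classes {β : Type*} [DecidableEq β] {r : ℕ} (A : Matrix ι ι K) (f : ι → β)
    (hf : ∀ x, r ≤ Fintype.card {y // f y = f x}) (hA : ∀ x y, f x = f y → A x y = 0) :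
    ZB r A := by
  obtain ⟨g, hg⟩ := Countable.exists_injective_nat (Set.range f)
  refine ⟨A, fun x => g ⟨f x, x, rfl⟩, Sim.refl A, fun x => ?_,
    fun x y h => hA x y (congrArg Subtype.val (hg h))⟩
  refine (hf x).trans_eq (Fintype.card_congr (Equiv.subtypeEquivRight fun y => ?_))
  exact ⟨fun h => congrArg g (Subtype.ext h), fun h => congrArg Subtype.val (hg h)⟩

theorem ZB.zero {r : ℕ} (h : r ≤ Fintype.card ι) : ZB r (0 : Matrix ι ι K) := by
  refine ZB.of_classes 0 (fun _ => ()) (fun x => ?_) (fun _ _ _ => rfl)
  exact h.trans_eq (Fintype.card_congr (Equiv.subtypeUnivEquiv fun _ => rfl)).symm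

end ALK
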