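import Pool.Agent.Work.MP_05d08f_al.AS.A02

set_option autoImplicit false

/-!
# A03: joining and glueing (size M)

`ZB.join`: let `A ~ A₁` with classes `f : ι → ℕ` and `D ~ D₁` with classes `g : κ → ℕ` (witnesses
`P, Q` and `P', Q'`). Then `fromBlocks A b c D ~ fromBlocks A₁ (Q b P') (Q' c P) D₁` by the block
diagonal matrices `fromBlocks P 0 0 P'`, `fromBlocks Q 0 0 Q'`. The classes are
`Sum.elim (fun x => Sum.inl (f x)) (fun y => Sum.inr (g y)) : ι ⊕ κ → ℕ ⊕ ℕ` (use `ZB.of_classes`);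
a class of `Sum.inl x` is the image of the class of `x` under `Sum.inl`.

`ZB.glue`: let `D = h₁ + h₂`. With `G = fromBlocks 1 (-h₁) 0 1`, `G' = fromBlocks 1 h₁ 0 1`:
`G' * fromBlocks 0 b 1 D * G = fromBlocks h₁ (b + h₁ * D - h₁ * h₁) 1 (D - h₁)`
(compute: `fromBlocks 1 h₁ 0 1 * fromBlocks 0 b 1 D = fromBlocks h₁ (b + h₁ D) 1 D`, and then multiply
by `fromBlocks 1 (-h₁) 0 1` on the right: `fromBlocks h₁ (-h₁ h₁ + b + h₁ D) 1 (-h₁ + D)`), and
`D - h₁ = h₂`. Now `ZB.join`.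
-/

namespace ALK

open Matrix

variable {K : Type*} [Field K] {ι κ : Type*} [Fintype ι] [DecidableEq ι] [Fintype κ] [DecidableEq κ]

theorem ZB.join {r : ℕ} {A : Matrix ι ι K} {D : Matrix κ κ K} (b : Matrix ι κ K) (c : Matrix κ ι K)
    (hA : ZB r A) (hD : ZB r D) : ZB r (Matrix.fromBlocks A b c D) := by
  obtain ⟨A₁, f, ⟨P, Q, h1, h2, h3⟩, hc, hz⟩ := hA
  obtain ⟨D₁, g, ⟨P', Q', h1', h2', h3'⟩, hc', hz'⟩ := hD
  have hs : Sim (Matrix.fromBlocks A b c D)
      (Matrix.fromBlocks A₁ (Q * b * P') (Q' * c * P) D₁) := by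
    refine ⟨Matrix.fromBlocks P 0 0 P', Matrix.fromBlocks Q 0 0 Q', ?_, ?_, ?_⟩
    · rw [Matrix.fromBlocks_multiply]
      simp only [Matrix.mul_zero, Matrix.zero_mul, add_zero, zero_add, h1, h1',
        Matrix.fromBlocks_one]
    · rw [Matrix.fromBlocks_multiply]
      simp only [Matrix.mul_zero, Matrix.zero_mul, add_zero, zero_add, h2, h2',
        Matrix.fromBlocks_one]
    · rw [Matrix.fromBlocks_multiply, Matrix.fromBlocks_multiply]
      simp only [Matrix.mul_zero, Matrix.zero_mul, add_zero, zero_add, h3, h3']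
  refine ZB.of_sim hs (ZB.of_classes _
    (Sum.elim (fun x => (Sum.inl (f x) : ℕ ⊕ ℕ)) (fun y => Sum.inr (g y))) ?_ ?_)
  · rintro (x | x)
    · refine (hc x).trans (Fintype.card_le_of_injective (fun y => ⟨Sum.inl y.1, ?_⟩) ?_)
      · simp only [Sum.elim_inl, y.2]
      · intro y y' h
        exact Subtype.ext (Sum.inl.inj (congrArg Subtype.val h))
    · refine (hc' x).trans (Fintype.card_le_of_injective (fun y => ⟨Sum.inr y.1, ?_⟩) ?_)
      · simp only [Sum.elim_inr, y.2]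
      · intro y y' h
        exact Subtype.ext (Sum.inr.inj (congrArg Subtype.val h))
  · rintro (x | x) (y | y) h
    · exact hz x y (Sum.inl.inj h)
    · exact absurd h (by simp)
    · exact absurd h (by simp)
    · exact hz' x y (Sum.inr.inj h)

theorem ZB.glue {r : ℕ} (b D h₁ h₂ : Matrix ι ι K) (hD : D = h₁ + h₂) (h1 : ZB r h₁)
    (h2 : ZB r h₂) : ZB r (Matrix.fromBlocks 0 b 1 D) := by
  have hG : Matrix.fromBlocks (1 : Matrix ι ι K) (-h₁) 0 (1 : Matrix ι ι K) *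
      Matrix.fromBlocks 1 h₁ 0 1 = 1 := by
    rw [Matrix.fromBlocks_multiply]
    simp
  have hG' : Matrix.fromBlocks (1 : Matrix ι ι K) h₁ 0 (1 : Matrix ι ι K) *
      Matrix.fromBlocks 1 (-h₁) 0 1 = 1 := by
    rw [Matrix.fromBlocks_multiply]
    simp
  have hs := Sim.conj (Matrix.fromBlocks 0 b 1 D) _ _ hG hG'
  have e : Matrix.fromBlocks (1 : Matrix ι ι K) h₁ 0 (1 : Matrix ι ι K) *
      Matrix.fromBlocks 0 b 1 D * Matrix.fromBlocks 1 (-h₁) 0 1 =
      Matrix.fromBlocks h₁ (h₁ * (-h₁) + (b + h₁ * D)) 1 h₂ := by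
    rw [Matrix.fromBlocks_multiply, Matrix.fromBlocks_multiply, hD]
    simp
  rw [e] at hs
  exact ZB.of_sim hs (ZB.join _ _ h1 h2)

end ALK
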