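import Pool.Agent.Work.MP_05d08f_al.AS.A02

set_option autoImplicit false

/-!
# A04: a nonscalar trace zero matrix is a sum of two `ZB` matrices (size M)

Let `D` be a `j × j` matrix over a field, `tr D = 0`, `D` not scalar, `(r + 2) * (r + 3) < j`.
By `MLI.exists_hollow` there are `G * G' = 1`, `G' * G = 1` with all diagonal entries of
`E := G' * D * G` zero. Let `q` be the least natural number with `j ≤ q * (q + 1)` (`Nat.find`); then
`1 ≤ q` and `(q - 1) * q < j`; since `(r + 2) * (r + 3) < j ≤ q (q + 1)` we have `r + 3 ≤ q`. Put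

  `E₁ a b = if (a : ℕ) % q = (b : ℕ) % q then 0 else E a b`,  `E₂ = E - E₁`.

`E₁` vanishes inside the classes modulo `q`. `E₂ a b ≠ 0` implies `a ≡ b (mod q)` and `a ≠ b`
(`E a a = 0`), hence `a ≢ b (mod q + 1)`: otherwise `q (q + 1)` (coprime) divides `a - b`, but
`|a - b| < j ≤ q (q + 1)`. So `E₂` vanishes inside the classes modulo `q + 1`.
The class of `x` modulo `q' ∈ {q, q + 1}` has at least `j / q' ≥ r` elements: it contains the
`r` different numbers `x % q' + k q'`, `k < r`, which are `< j` because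
`x % q' + (r - 1) q' < r q' ≤ r (q + 1) ≤ (q - 1) q < j`; here
`r (q + 1) ≤ (q - 3) (q + 1) = q ^ 2 - 2 q - 3 ≤ (q - 1) q`. (If `r = 0` there is nothing to show.)
Hence `E₁`, `E₂` are `ZB r` (`ZB.of_classes`), so are `G E₁ G'`, `G E₂ G'` (`ZB.of_sim`, `Sim.conj`),
and their sum is `D`.
-/

namespace ALK

open Matrix

variable {K : Type*} [Field K]

private theorem class_card {r j q : ℕ} (hq : 1 ≤ q) (h : r * q ≤ j) (x : Fin j) :
    r ≤ Fintype.card {y : Fin j // (y : ℕ) % q = (x : ℕ) % q} := by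
  have hlt : ∀ k : Fin r, (x : ℕ) % q + k * q < j := by
    intro k
    have h1 : (x : ℕ) % q < q := Nat.mod_lt _ hq
    have h2 : ((k : ℕ) + 1) * q ≤ r * q := Nat.mul_le_mul_right q k.2
    nlinarith
  let g : Fin r → {y : Fin j // (y : ℕ) % q = (x : ℕ) % q} := fun k =>
    ⟨⟨(x : ℕ) % q + k * q, hlt k⟩, by
      change ((x : ℕ) % q + k * q) % q = (x : ℕ) % q
      rw [Nat.add_mul_mod_self_right, Nat.mod_mod]⟩
  have hg : Function.Injective g := by
    intro k k' hkk
    have h1 : (x : ℕ) % q + k * q = (x : ℕ) % q + k' * q :=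
      congrArg (fun y : {y : Fin j // (y : ℕ) % q = (x : ℕ) % q} => ((y.1 : Fin j) : ℕ)) hkk
    have h2 : (k : ℕ) * q = k' * q := Nat.add_left_cancel h1
    exact Fin.ext (Nat.eq_of_mul_eq_mul_right hq h2)
  have h3 := Fintype.card_le_of_injective g hg
  rwa [Fintype.card_fin] at h3

theorem hol_split {r j : ℕ} (hj : (r + 2) * (r + 3) < j) (D : Matrix (Fin j) (Fin j) K)
    (htr : D.trace = 0) (hD : ∀ t : K, D ≠ t • (1 : Matrix (Fin j) (Fin j) K)) :
    ∃ h₁ h₂ : Matrix (Fin j) (Fin j) K, D = h₁ + h₂ ∧ ZB r h₁ ∧ ZB r h₂ := by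
  obtain ⟨G, G', hG1, hG2, hG3⟩ := MLI.exists_hollow D htr (Or.inr fun t h => hD t (by
    rw [h, Matrix.scalar_apply, Matrix.smul_one_eq_diagonal]))
  obtain ⟨q, hq1, hq2, hq3⟩ : ∃ q, 1 ≤ q ∧ j ≤ q * (q + 1) ∧ (q - 1) * q < j := by
    classical
    have hex : ∃ q, j ≤ q * (q + 1) := ⟨j, by nlinarith⟩
    refine ⟨Nat.find hex, ?_, Nat.find_spec hex, ?_⟩
    · by_contra h0
      have h1 : Nat.find hex = 0 := by omega
      have h2 := Nat.find_spec hex
      rw [h1] at h2
      omega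
    · have h0 : Nat.find hex ≠ 0 := by
        intro h1
        have h2 := Nat.find_spec hex
        rw [h1] at h2
        omega
      have h3 := Nat.find_min hex (m := Nat.find hex - 1) (by omega)
      have h4 : Nat.find hex - 1 + 1 = Nat.find hex := by omega
      rw [h4] at h3
      omega
  have hqr : r + 3 ≤ q := by
    by_contra hcon
    have h1 : q ≤ r + 2 := by omega
    have h2 : q * (q + 1) ≤ (r + 2) * (r + 3) := Nat.mul_le_mul h1 (by omega)
    omega
  obtain ⟨s, rfl⟩ : ∃ s, q = r + 3 + s := ⟨q - (r + 3), by omega⟩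
  have hq3' : (r + 2 + s) * (r + 3 + s) < j := by
    have h1 : r + 3 + s - 1 = r + 2 + s := by omega
    rwa [h1] at hq3
  have hb1 : r * (r + 3 + s) ≤ j := by nlinarith
  have hb2 : r * (r + 3 + s + 1) ≤ j := by nlinarith
  let E := G' * D * G
  let E₁ : Matrix (Fin j) (Fin j) K := Matrix.of fun a b =>
    if (a : ℕ) % (r + 3 + s) = (b : ℕ) % (r + 3 + s) then 0 else E a b
  let E₂ : Matrix (Fin j) (Fin j) K := Matrix.of fun a b =>
    if (a : ℕ) % (r + 3 + s) = (b : ℕ) % (r + 3 + s) then E a b else 0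
  have hE : E = E₁ + E₂ := by
    ext a b
    rw [Matrix.add_apply]
    change _ = (if (a : ℕ) % (r + 3 + s) = (b : ℕ) % (r + 3 + s) then 0 else E a b) +
      (if (a : ℕ) % (r + 3 + s) = (b : ℕ) % (r + 3 + s) then E a b else 0)
    split_ifs <;> simp
  have hZ1 : ZB r E₁ := by
    refine ZB.of_classes E₁ (fun x : Fin j => (x : ℕ) % (r + 3 + s))
      (fun x => class_card (by omega) hb1 x) ?_
    intro x y hxy
    exact if_pos hxy
  have hZ2 : ZB r E₂ := by
    refine ZB.of_classes E₂ (fun x : Fin j => (x : ℕ) % (r + 3 + s + 1))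
      (fun x => class_card (by omega) hb2 x) ?_
    intro x y hxy
    change (if (x : ℕ) % (r + 3 + s) = (y : ℕ) % (r + 3 + s) then E x y else 0) = 0
    split_ifs with h
    · have h1 : (x : ℕ) ≡ y [MOD (r + 3 + s) * (r + 3 + s + 1)] :=
        (Nat.modEq_and_modEq_iff_modEq_mul (by simp)).1 ⟨h, hxy⟩
      have h2 : (x : ℕ) = y := Nat.ModEq.eq_of_lt_of_lt h1 (lt_of_lt_of_le x.2 hq2)
        (lt_of_lt_of_le y.2 hq2)
      have h3 : x = y := Fin.ext h2
      subst h3
      exact hG3 x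
    · rfl
  refine ⟨G * E₁ * G', G * E₂ * G', ?_, ?_, ?_⟩
  · rw [← Matrix.add_mul, ← Matrix.mul_add, ← hE]
    change D = G * (G' * D * G) * G'
    calc D = (G * G') * D * (G * G') := by rw [hG1, Matrix.one_mul, Matrix.mul_one]
      _ = G * (G' * D * G) * G' := by simp only [Matrix.mul_assoc]
  · exact ZB.of_sim (Sim.conj E₁ G' G hG2 hG1).symm hZ1
  · exact ZB.of_sim (Sim.conj E₂ G' G hG2 hG1).symm hZ2

end ALK
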