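import Pool.Agent.Work.MP_05d08f_al.AS.A02

set_option autoImplicit false

/-!
# A05: a scalar trace zero matrix is a sum of two `ZB` matrices (size M)

Let `t • 1` be a scalar `j × j` matrix of trace `0`, `1 ≤ r`, `3 r ≤ j`. Let `J` be the nilpotent
Jordan block, `J a b = 1` if `(a : ℕ) = b + 1` and `0` otherwise, so `J e_b = e_{b+1}`.
`t • 1 = J + (t • 1 - J)`. Both summands have trace zero and a cyclic vector:
`J ^ k *ᵥ e_0 = e_k` for `k < j`; and `(t • 1 - J) ^ k *ᵥ e_0 = (-1)^k e_k + (combination of e_l, l < k)`,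
so these `j` vectors are linearly independent too (triangular with nonzero diagonal; for instance
`linearIndependent` via the determinant of a triangular matrix, `Matrix.det_of_lowerTriangular` or
`det_of_upperTriangular`, or by induction).
A trace zero matrix `A` with a cyclic vector is `ZB r` when `3 r ≤ j`, `1 ≤ r`: take the class function
`κ : Fin j → Fin 3` of `MLI.word j r` (see `Word.lean`: consecutive indices lie in different classes,
every distance `d < j` occurs between different classes, all classes have at least `r` elements) and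
apply `MLI.hess`; see `MLI.cyclic_hit` in `Final.lean` for how the two are combined.
-/

namespace ALK

open Matrix

variable {K : Type*} [Field K]

theorem ZB.of_cyclic {r j : ℕ} (hr : 1 ≤ r) (hj : 3 * r ≤ j) (A : Matrix (Fin j) (Fin j) K)
    (htr : A.trace = 0) (v : Fin j → K)
    (hv : LinearIndependent K (fun k : Fin j => (A ^ (k : ℕ)) *ᵥ v)) : ZB r A := by
  obtain ⟨κ, ha, hu, hk⟩ := MLI.word j r hr hj
  obtain ⟨G, G', h1, h2, h3⟩ := MLI.hess A htr v hv κ ha hu
  refine ZB.of_sim (Sim.conj A G G' h1 h2) (ZB.of_classes _ κ (fun x => hk (κ x)) h3)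

/-- `s` on the diagonal, `u` below the diagonal -/
private def bid (j : ℕ) (s u : K) : Matrix (Fin j) (Fin j) K :=
  Matrix.of fun a b => (if a = b then s else 0) + (if (a : ℕ) = b + 1 then u else 0)

private theorem bid_vanish {j : ℕ} (s u : K) (w : Fin j → K) (k : ℕ)
    (hw : ∀ i : Fin j, k < (i : ℕ) → w i = 0) (i : Fin j) (hi : k + 1 < (i : ℕ)) :
    (bid j s u *ᵥ w) i = 0 := by
  change ∑ l : Fin j, ((if i = l then s else 0) + (if (i : ℕ) = l + 1 then u else 0)) * w l = 0
  refine Finset.sum_eq_zero fun l _ => ?_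
  change ((if i = l then s else 0) + (if (i : ℕ) = l + 1 then u else 0)) * w l = 0
  by_cases h1 : k < (l : ℕ)
  · rw [hw l h1, mul_zero]
  · rw [if_neg, if_neg, add_zero, zero_mul]
    · omega
    · rintro rfl
      omega

private theorem bid_top {j : ℕ} (s u : K) (w : Fin j → K) (k : ℕ)
    (hw : ∀ i : Fin j, k < (i : ℕ) → w i = 0) (hk : k + 1 < j) :
    (bid j s u *ᵥ w) ⟨k + 1, hk⟩ = u * w ⟨k, by omega⟩ := by
  change ∑ l : Fin j, ((if (⟨k + 1, hk⟩ : Fin j) = l then s else 0) +
    (if k + 1 = (l : ℕ) + 1 then u else 0)) * w l = _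
  rw [Finset.sum_eq_single (⟨k, by omega⟩ : Fin j)]
  · rw [if_neg, if_pos rfl, zero_add]
    intro h
    have := congrArg Fin.val h
    simp at this
  · intro l _ hl
    by_cases h1 : k < (l : ℕ)
    · rw [hw l h1, mul_zero]
    · have h2 : (l : ℕ) ≠ k := fun h => hl (Fin.ext h)
      rw [if_neg, if_neg, add_zero, zero_mul]
      · omega
      · intro h
        have := congrArg Fin.val h
        simp at this
        omega
  · intro h
    exact absurd (Finset.mem_univ _) h

private theorem bid_pow {j : ℕ} (h0 : 0 < j) (s u : K) (k : ℕ) :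
    (∀ i : Fin j, k < (i : ℕ) → ((bid j s u ^ k) *ᵥ (Pi.single ⟨0, h0⟩ 1 : Fin j → K)) i = 0) ∧
    ∀ hk : k < j, ((bid j s u ^ k) *ᵥ (Pi.single ⟨0, h0⟩ 1 : Fin j → K)) ⟨k, hk⟩ = u ^ k := by
  induction k with
  | zero =>
    rw [pow_zero, Matrix.one_mulVec]
    constructor
    · intro i hi
      rw [Pi.single_eq_of_ne]
      rintro rfl
      simp at hi
    · intro hk
      rw [Pi.single_eq_same, pow_zero]
  | succ k ih =>
    rw [pow_succ', ← Matrix.mulVec_mulVec]
    refine ⟨fun i hi => bid_vanish s u _ k ih.1 i hi, fun hk => ?_⟩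
    rw [bid_top s u _ k ih.1 hk, ih.2, pow_succ']

private theorem bid_li {j : ℕ} (h0 : 0 < j) (s u : K) (hu : u ≠ 0) :
    LinearIndependent K (fun k : Fin j => (bid j s u ^ (k : ℕ)) *ᵥ
      (Pi.single ⟨0, h0⟩ 1 : Fin j → K)) := by
  let M : Matrix (Fin j) (Fin j) K := Matrix.of fun k i =>
    ((bid j s u ^ (k : ℕ)) *ᵥ (Pi.single ⟨0, h0⟩ 1 : Fin j → K)) i
  have hM : M.det ≠ 0 := by
    rw [Matrix.det_of_isLowerTriangular M]
    · refine Finset.prod_ne_zero_iff.2 fun i _ => ?_
      change ((bid j s u ^ (i : ℕ)) *ᵥ (Pi.single ⟨0, h0⟩ 1 : Fin j → K)) ⟨i, i.2⟩ ≠ 0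
      rw [(bid_pow h0 s u i).2 i.2]
      exact pow_ne_zero _ hu
    · intro a b hab
      exact (bid_pow h0 s u a).1 b hab
  exact Matrix.linearIndependent_rows_of_det_ne_zero hM

private theorem bid_trace {j : ℕ} (s u : K) :
    (bid j s u).trace = (s • (1 : Matrix (Fin j) (Fin j) K)).trace := by
  refine Finset.sum_congr rfl fun i _ => ?_
  change (if i = i then s else 0) + (if (i : ℕ) = i + 1 then u else 0) = s * (1 : Matrix _ _ K) i i
  rw [if_pos rfl, if_neg (by omega), add_zero, Matrix.one_apply_eq, mul_one]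

theorem scal_split {r j : ℕ} (hr : 1 ≤ r) (hj : 3 * r ≤ j) (t : K)
    (htr : (t • (1 : Matrix (Fin j) (Fin j) K)).trace = 0) :
    ∃ h₁ h₂ : Matrix (Fin j) (Fin j) K, t • (1 : Matrix (Fin j) (Fin j) K) = h₁ + h₂ ∧
      ZB r h₁ ∧ ZB r h₂ := by
  have h0 : 0 < j := by omega
  refine ⟨bid j 0 1, bid j t (-1), ?_, ?_, ?_⟩
  · ext a b
    rw [Matrix.add_apply]
    change t * (1 : Matrix _ _ K) a b = ((if a = b then 0 else 0) +
      (if (a : ℕ) = b + 1 then 1 else 0)) + ((if a = b then t else 0) +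
      (if (a : ℕ) = b + 1 then -1 else 0))
    by_cases h : a = b
    · subst h
      simp
    · rw [Matrix.one_apply_ne h, if_neg h, if_neg h]
      split_ifs <;> simp
  · refine ZB.of_cyclic hr hj _ ?_ _ (bid_li h0 0 1 one_ne_zero)
    rw [bid_trace, zero_smul, Matrix.trace_zero]
  · refine ZB.of_cyclic hr hj _ ?_ _ (bid_li h0 t (-1) (neg_ne_zero.2 one_ne_zero))
    rw [bid_trace, htr]

end ALK
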