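import Mathlib

/-!
# A06: linear maps which are scalar modulo a subspace (Mathlib only, size S-M)

`scal_mod`: let `S` be a subspace of `E` of codimension at least 2 and `B` an endomorphism such that
`B x ∈ S + K x` for every `x ∉ S`. Then there is `μ` with `B x - μ x ∈ S` for all `x ∈ E`.
PROOF. Let `π : E → E ⧸ S` and `A = π ∘ B`. For `x ∉ S` there is `μ_x` with `A x = μ_x π x` (unique,
as `π x ≠ 0`). If `π x, π y` are linearly independent then
`μ_{x+y} (π x + π y) = A (x + y) = μ_x π x + μ_y π y` gives `μ_x = μ_y (= μ_{x+y})`. If `x, y ∉ S` and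
`π x, π y` are dependent, take `z` with `π z ∉ K π x` (codimension at least 2): `μ_x = μ_z = μ_y`.
So `A x = μ π x` for all `x ∉ S`. For `s ∈ S` and any `x ∉ S`: `x + s ∉ S` and
`A s = A (x + s) - A x = μ π (x + s) - μ π x = 0 = μ π s`.

`scal_mod_avoid`: the same conclusion for an infinite field if the hypothesis is known only for the
`x ∉ S` which also avoid two given proper subspaces `F₁`, `F₂`.
PROOF. It suffices to prove `B x ∈ S + K x` for every `x ∉ S` and to apply `scal_mod`. Let `x ∉ S`.
Suppose `B x ∉ S + K x`. Since a vector space over an infinite field is not the union of the three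
proper subspaces `S`, `F₁`, `F₂` there is `y ∉ S ∪ F₁ ∪ F₂` (`Subspace.biUnion_ne_univ_of_top_nmem`
or `Submodule.iUnion_ne_univ...`; or argue along lines). Consider `x_c := x + c y`, `c ∈ K`. For
all but finitely many `c` we have `x_c ∉ S ∪ F₁ ∪ F₂` (for each of these three subspaces `F` at most one
`c` has `x + c y ∈ F`, since two of them would give `(c - c') y ∈ F`). For such `c` the vectors
`π x_c` and `π B x_c` are linearly dependent. As `π x`, `π B x` are independent in `E ⧸ S`, choose
linear functionals `f, g` on `E ⧸ S` with `f (π x) g (π B x) - f (π B x) g (π x) ≠ 0` (for example a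
dual basis of a basis extending `π x, π B x`). The function
`P c := f (π x_c) g (π B x_c) - f (π B x_c) g (π x_c)` is a polynomial in `c` of degree at most 2 which
vanishes for infinitely many `c`, hence identically, but `P 0 ≠ 0`. Contradiction.
-/

set_option autoImplicit false

namespace ALK

variable {K E : Type*} [Field K] [AddCommGroup E] [Module K E] [FiniteDimensional K E]

omit [FiniteDimensional K E] in
private theorem ind_eq (B : E →ₗ[K] E) (S : Submodule K E) (x y : E) (a b c : K)
    (ha : B x - a • x ∈ S) (hb : B y - b • y ∈ S) (hc : B (x + y) - c • (x + y) ∈ S)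
    (hind : ∀ u v : K, u • x + v • y ∈ S → u = 0 ∧ v = 0) : a = b := by
  have h : (a - c) • x + (b - c) • y ∈ S := by
    have h1 := S.sub_mem hc (S.add_mem ha hb)
    have e : (a - c) • x + (b - c) • y =
        B (x + y) - c • (x + y) - (B x - a • x + (B y - b • y)) := by
      rw [map_add]
      module
    rw [e]
    exact h1
  obtain ⟨h1, h2⟩ := hind _ _ h
  rw [sub_eq_zero.1 h1, sub_eq_zero.1 h2]

theorem scal_mod (B : E →ₗ[K] E) (S : Submodule K E)
    (hS : Module.finrank K S + 2 ≤ Module.finrank K E)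
    (hB : ∀ x, x ∉ S → B x ∈ S ⊔ Submodule.span K {x}) :
    ∃ μ : K, ∀ x, B x - μ • x ∈ S := by
  have h1 : ∀ x, x ∉ S → ∃ μ : K, B x - μ • x ∈ S := by
    intro x hx
    obtain ⟨s, hs, t, ht, hst⟩ := Submodule.mem_sup.1 (hB x hx)
    obtain ⟨c, rfl⟩ := Submodule.mem_span_singleton.1 ht
    exact ⟨c, by rw [← hst, add_sub_cancel_right]; exact hs⟩
  have hST : S ≠ ⊤ := by
    rintro rfl
    rw [finrank_top] at hS
    omega
  obtain ⟨x0, hx0⟩ : ∃ x0, x0 ∉ S := by
    by_contra hcon
    push Not at hcon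
    exact hST (eq_top_iff.2 fun x _ => hcon x)
  have hST1 : S ⊔ Submodule.span K {x0} ≠ ⊤ := by
    intro h
    have h2 := Submodule.finrank_add_le_finrank_add_finrank S (Submodule.span K {x0})
    rw [h, finrank_top] at h2
    have h3 : Module.finrank K (Submodule.span K {x0}) ≤ 1 := by
      have := finrank_span_le_card (R := K) ({x0} : Set E)
      simpa using this
    omega
  obtain ⟨x1, hx1⟩ : ∃ x1, x1 ∉ S ⊔ Submodule.span K {x0} := by
    by_contra hcon
    push Not at hcon
    exact hST1 (eq_top_iff.2 fun x _ => hcon x)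
  have hind0 : ∀ y, y ∉ S ⊔ Submodule.span K {x0} → ∀ u v : K, u • x0 + v • y ∈ S →
      u = 0 ∧ v = 0 := by
    intro y hy u v huv
    have hv : v = 0 := by
      by_contra hv
      apply hy
      have e : y = v⁻¹ • (u • x0 + v • y) + (-(v⁻¹ * u)) • x0 := by
        rw [smul_add, smul_smul, smul_smul, inv_mul_cancel₀ hv]
        module
      rw [e]
      exact Submodule.add_mem_sup (S.smul_mem _ huv)
        (Submodule.smul_mem _ _ (Submodule.mem_span_singleton_self x0))
    refine ⟨?_, hv⟩
    rw [hv, zero_smul, add_zero] at huv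
    by_contra hu
    apply hx0
    have := S.smul_mem u⁻¹ huv
    rwa [smul_smul, inv_mul_cancel₀ hu, one_smul] at this
  have hadd : ∀ x y : E, (∀ u v : K, u • x + v • y ∈ S → u = 0 ∧ v = 0) → x + y ∉ S := by
    intro x y h hxy
    have := h 1 1 (by simpa using hxy)
    exact one_ne_zero this.1
  obtain ⟨μ, hμ⟩ := h1 x0 hx0
  have hx1S : x1 ∉ S := fun h => hx1 (Submodule.mem_sup_left h)
  obtain ⟨μ1, hμ1⟩ := h1 x1 hx1S
  have hμμ : μ = μ1 := by
    obtain ⟨c, hc⟩ := h1 (x0 + x1) (hadd x0 x1 (hind0 x1 hx1))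
    exact ind_eq B S x0 x1 μ μ1 c hμ hμ1 hc (hind0 x1 hx1)
  have hall : ∀ y, y ∉ S → B y - μ • y ∈ S := by
    intro y hy
    obtain ⟨b, hb⟩ := h1 y hy
    by_cases hy0 : y ∈ S ⊔ Submodule.span K {x0}
    · have hind1 : ∀ u v : K, u • x1 + v • y ∈ S → u = 0 ∧ v = 0 := by
        intro u v huv
        obtain ⟨s, hs, t, ht, hst⟩ := Submodule.mem_sup.1 hy0
        obtain ⟨a, rfl⟩ := Submodule.mem_span_singleton.1 ht
        have ha : a ≠ 0 := by
          rintro rfl
          apply hy
          rw [← hst, zero_smul, add_zero]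
          exact hs
        have h2 : (v * a) • x0 + u • x1 ∈ S := by
          have h3 := S.sub_mem huv (S.smul_mem v hs)
          have e : (v * a) • x0 + u • x1 = u • x1 + v • y - v • s := by
            rw [← hst]
            module
          rw [e]
          exact h3
        obtain ⟨h3, h4⟩ := hind0 x1 hx1 _ _ h2
        exact ⟨h4, (mul_eq_zero.1 h3).resolve_right ha⟩
      obtain ⟨c, hc⟩ := h1 (x1 + y) (hadd x1 y hind1)
      have := ind_eq B S x1 y μ1 b c hμ1 hb hc hind1
      rw [hμμ, this]
      exact hb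
    · obtain ⟨c, hc⟩ := h1 (x0 + y) (hadd x0 y (hind0 y hy0))
      have := ind_eq B S x0 y μ b c hμ hb hc (hind0 y hy0)
      rw [this]
      exact hb
  refine ⟨μ, fun x => ?_⟩
  by_cases hx : x ∈ S
  · have hxs : x0 + x ∉ S := fun h => hx0 (by simpa using S.sub_mem h hx)
    have h2 := S.sub_mem (hall _ hxs) hμ
    have e : B x - μ • x = B (x0 + x) - μ • (x0 + x) - (B x0 - μ • x0) := by
      rw [map_add]
      module
    rw [e]
    exact h2
  · exact hall x hx

omit [FiniteDimensional K E] in
private theorem line_avoid (F : Submodule K E) (x y : E) (hy : y ∉ F) :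
    {c : K | x + c • y ∈ F}.Subsingleton := by
  intro c hc d hd
  by_contra hcd
  apply hy
  have h := F.sub_mem hc hd
  have e : x + c • y - (x + d • y) = (c - d) • y := by module
  rw [e] at h
  have := F.smul_mem (c - d)⁻¹ h
  rwa [smul_smul, inv_mul_cancel₀ (sub_ne_zero.2 hcd), one_smul] at this

theorem scal_mod_avoid [Infinite K] (B : E →ₗ[K] E) (S F₁ F₂ : Submodule K E)
    (hS : Module.finrank K S + 2 ≤ Module.finrank K E) (hF₁ : F₁ ≠ ⊤) (hF₂ : F₂ ≠ ⊤)
    (hB : ∀ x, x ∉ S → x ∉ F₁ → x ∉ F₂ → B x ∈ S ⊔ Submodule.span K {x}) :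
    ∃ μ : K, ∀ x, B x - μ • x ∈ S := by
  have hST : S ≠ ⊤ := by
    rintro rfl
    rw [finrank_top] at hS
    omega
  refine scal_mod B S hS fun x hx => ?_
  by_contra hcon
  obtain ⟨y, hy⟩ : ∃ y, y ∉ S ∧ y ∉ F₁ ∧ y ∉ F₂ := by
    by_contra hcon2
    push Not at hcon2
    have hcov : ⋃ i : Fin 3, ((![S, F₁, F₂] i : Subspace K E) : Set E) = Set.univ := by
      rw [Set.eq_univ_iff_forall]
      intro y
      rw [Set.mem_iUnion]
      by_cases h1 : y ∈ S
      · exact ⟨0, h1⟩
      by_cases h2 : y ∈ F₁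
      · exact ⟨1, h2⟩
      exact ⟨2, hcon2 y h1 h2⟩
    obtain ⟨i, hi⟩ := Subspace.exists_eq_top_of_iUnion_eq_univ hcov
    fin_cases i
    · exact hST hi
    · exact hF₁ hi
    · exact hF₂ hi
  obtain ⟨hyS, hy1, hy2⟩ := hy
  obtain ⟨f, hf, hfS⟩ := Submodule.exists_le_ker_of_notMem hx
  obtain ⟨g, hg, hgS⟩ := Submodule.exists_le_ker_of_notMem hcon
  have hgS' : S ≤ LinearMap.ker g := le_sup_left.trans hgS
  have hgx : g x = 0 := hgS (Submodule.mem_sup_right (Submodule.mem_span_singleton_self x))
  let P : Polynomial K := Polynomial.C (f x * g (B x) - f (B x) * g x) +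
    Polynomial.C (f x * g (B y) + f y * g (B x) - f (B x) * g y - f (B y) * g x) * Polynomial.X +
    Polynomial.C (f y * g (B y) - f (B y) * g y) * Polynomial.X ^ 2
  have hPeval : ∀ c : K, P.eval c = f (x + c • y) * g (B (x + c • y)) -
      f (B (x + c • y)) * g (x + c • y) := by
    intro c
    simp only [P, Polynomial.eval_add, Polynomial.eval_mul, Polynomial.eval_C, Polynomial.eval_X,
      Polynomial.eval_pow, map_add, map_smul, smul_eq_mul]
    ring
  have hbadfin : ({c : K | x + c • y ∈ S} ∪ {c : K | x + c • y ∈ F₁} ∪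
      {c : K | x + c • y ∈ F₂}).Finite :=
    ((line_avoid S x y hyS).finite.union (line_avoid F₁ x y hy1).finite).union
      (line_avoid F₂ x y hy2).finite
  have hP : P = 0 := by
    apply Polynomial.eq_zero_of_infinite_isRoot
    refine hbadfin.infinite_compl.mono fun c hc => ?_
    simp only [Set.mem_compl_iff, Set.mem_union, Set.mem_ofPred_eq, not_or] at hc
    show P.eval c = 0
    obtain ⟨s, hs, t, ht, hst⟩ := Submodule.mem_sup.1 (hB _ hc.1.1 hc.1.2 hc.2)
    obtain ⟨a, rfl⟩ := Submodule.mem_span_singleton.1 ht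
    have hfs : f s = 0 := hfS hs
    have hgs : g s = 0 := hgS' hs
    rw [hPeval, ← hst]
    simp only [map_add, map_smul, smul_eq_mul, hfs, hgs]
    ring
  have h0 : P.eval 0 = f x * g (B x) := by
    rw [hPeval]
    simp [hgx]
  rw [hP, Polynomial.eval_zero] at h0
  exact mul_ne_zero hf hg h0.symm

end ALK
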