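import Pool.Agent.Work.MP_05d08f_al.AS.A06

set_option autoImplicit false
set_option linter.unusedSectionVars false

/-!
# A07: the pencil lemma (size M-L; uses only `scal_mod` of A06)

Let `E` have dimension `n`, `2 j ≤ n`, and `rank (B - μ) ≥ j` for every `μ ∈ K`. Then there is a
subspace `V` of dimension `j` with `dim (V + B V) = 2 j`.

PROOF. Among all `V` of dimension `j` choose one with `dim (V + B V) = j + m` maximal (`m ≤ j` always).
Call such `V` MAXIMAL. Assume `m < j`; so `j + m < 2 j ≤ n` (and `1 ≤ j`).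

(1) Let `V` be maximal, `v ∈ V`, `v ≠ 0`, `B v ∈ V`, and let `V₀` be a complement of `K v` in `V`
(`V₀ ≤ V`, `v ∉ V₀`, `K v + V₀ = V`, `dim V₀ = j - 1`). Put `S₀ = V₀ + B V₀`. Then `V + B V = K v + S₀`
(because `B v ∈ V = K v + V₀`). If `v ∈ S₀` then `S₀ = V + B V ≠ E` (dimension `j + m < n`); take
`y ∉ S₀`; `V' = V₀ + K y` has dimension `j` and `V' + B V'` contains `S₀ + K y` of dimension `j + m + 1`,
contradicting maximality. So `v ∉ S₀` and `dim S₀ = j + m - 1`. For every `x ∉ S₀` the space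
`V_x = V₀ + K x` has dimension `j` and `V_x + B V_x = S₀ + K x + K B x` has dimension at most `j + m`, while
`dim (S₀ + K x) = j + m`; so `B x ∈ S₀ + K x`. As `dim E - dim S₀ = n - j - m + 1 ≥ 2`, `scal_mod` gives
`μ` with `(B - μ) E ⊆ S₀`.

(2) The scalar `μ` of (1) depends only on the maximal space `V`: if `(B - μ) E` and `(B - μ') E` are both
contained in `V + B V ≠ E` and `μ ≠ μ'` then `(μ - μ') E ⊆ V + B V`, impossible. Write `μ = μ_V`,
`N = B - μ_V`. CLAIM: for `v` as in (1), `N v = 0`. Indeed `N v ∈ S₀` and `N v ∈ V` (as `B v ∈ V`), and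
`V ∩ S₀ = V₀` (since `V = K v ⊕ V₀`, `V₀ ⊆ S₀`, `v ∉ S₀`). So `N v ∈ V₀` for EVERY complement `V₀` of
`K v` in `V`. If `w = N v ≠ 0`, then `w ∈ V₀` for every complement; but there is a complement of `K v`
in `V` not containing `w`: if `w ∉ V₀` we are done already; otherwise `w, v` are independent and a
complement of `K v` containing `v + w` does not contain `w` (else it contains `v`). Contradiction.

(3) Let `V` be maximal, `N = B - μ_V`; for `v ∈ V`: `N v ∈ V ↔ B v ∈ V`, and then `N v = 0` by (2).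
(There is at least one `v ≠ 0` in `V` with `B v ∈ V`, because the linear map `V → E ⧸ V`, `v ↦ B v`, has
rank `m < j`; this is needed to define `μ_V` by (1).) Hence `V ∩ N V = 0`, the kernel of
`V → E ⧸ V`, `v ↦ N v` (same map as for `B`), is `V ∩ ker N`, and so `dim (N V) = j - dim (V ∩ ker N) = m`,
`V + B V = V ⊕ N V`.

(4) CLAIM `range N = N V`; then `rank (B - μ_V) = m < j`, contradicting the hypothesis. Let `N x` be given.
By (1) `N x ∈ S₀ ⊆ V + B V = V + N V`: write `N x = a + N b`, `a, b ∈ V`. Put `y = x - b`; `N y = a ∈ V`.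
Suppose `a ≠ 0`. Take `0 ≠ v ∈ V` with `B v ∈ V`; so `N v = 0`. `a ∉ K v`: otherwise `v ∈ range N ⊆ S₀`
for any complement `V₀` of `K v`, contradicting `v ∉ S₀`. Choose a complement `V₀` of `K v` in `V` with
`a ∈ V₀`, `S₀ = V₀ + B V₀ = V₀ + N V₀ ∌ v`. Choose `κ ∈ {0, 1}` with `z := κ v + y ∉ S₀` (if both `y` and
`v + y` were in `S₀` then `v ∈ S₀`). `V_z = V₀ + K z` has dimension `j` and
`V_z + B V_z = S₀ + K z + K N z` with `N z = N y = a ∈ V₀`, so its dimension is `dim S₀ + 1 = j + m`: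
`V_z` is maximal. `z ∈ V_z`, `z ≠ 0` and `B z = μ_V z + a ∈ V_z`. By (2) applied to `V_z`:
`B z = μ_{V_z} z`, so `a = N z = (μ_{V_z} - μ_V) z`. As `a ≠ 0` this gives `z ∈ K a ⊆ V₀ ⊆ S₀`, a
contradiction. Hence `a = 0` and `N x = N b ∈ N V`.
-/

namespace ALK

variable {K E : Type*} [Field K] [AddCommGroup E] [Module K E] [FiniteDimensional K E]

private theorem exists_fun {W : Submodule K E} {v : E} (hv : v ∉ W) :
    ∃ φ : E →ₗ[K] K, φ v = 1 ∧ ∀ w ∈ W, φ w = 0 := by
  obtain ⟨f, hf, hW⟩ := Submodule.exists_le_ker_of_notMem hv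
  refine ⟨(f v)⁻¹ • f, ?_, fun w hw => ?_⟩
  · rw [LinearMap.smul_apply, smul_eq_mul, inv_mul_cancel₀ hf]
  · rw [LinearMap.smul_apply, LinearMap.mem_ker.1 (hW hw), smul_zero]

/-- the complement of `v` in `V` -/
private def V0 (V : Submodule K E) (φ : E →ₗ[K] K) : Submodule K E := V ⊓ LinearMap.ker φ

private theorem V0_le (V : Submodule K E) (φ : E →ₗ[K] K) : V0 V φ ≤ V := inf_le_left

private theorem mem_V0 {V : Submodule K E} {φ : E →ₗ[K] K} {x : E} : x ∈ V0 V φ ↔ x ∈ V ∧ φ x = 0 := by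
  unfold V0
  rw [Submodule.mem_inf, LinearMap.mem_ker]

private theorem sub_mem_V0 {V : Submodule K E} {φ : E →ₗ[K] K} {v x : E} (hv : v ∈ V) (hφ : φ v = 1) (hx : x ∈ V) :
    x - φ x • v ∈ V0 V φ := by
  rw [mem_V0]
  refine ⟨V.sub_mem hx (V.smul_mem _ hv), ?_⟩
  rw [map_sub, map_smul, hφ, smul_eq_mul, mul_one, sub_self]

private theorem V0_sup {V : Submodule K E} {φ : E →ₗ[K] K} {v : E} (hv : v ∈ V) (hφ : φ v = 1) :
    V0 V φ ⊔ Submodule.span K {v} = V := by
  apply le_antisymm
  · exact sup_le (V0_le V φ) (by rw [Submodule.span_singleton_le_iff_mem]; exact hv)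
  · intro x hx
    have h1 : x = (x - φ x • v) + φ x • v := by abel
    rw [h1]
    exact Submodule.add_mem_sup (sub_mem_V0 hv hφ hx) (Submodule.smul_mem _ _ (Submodule.mem_span_singleton_self v))

private theorem notMem_V0 {V : Submodule K E} {φ : E →ₗ[K] K} {v : E} (hφ : φ v = 1) : v ∉ V0 V φ := by
  rw [mem_V0, hφ]
  exact fun h => one_ne_zero h.2

private theorem finrank_V0 {V : Submodule K E} {φ : E →ₗ[K] K} {v : E} (hv : v ∈ V) (hφ : φ v = 1) :
    Module.finrank K (V0 V φ) + 1 = Module.finrank K V := by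
  rw [← Submodule.finrank_sup_span_singleton (notMem_V0 (V := V) hφ), V0_sup hv hφ]

/-- `V + B V` -/
private def D (B : E →ₗ[K] E) (V : Submodule K E) : Submodule K E := V ⊔ V.map B

private theorem D_mono (B : E →ₗ[K] E) {V W : Submodule K E} (h : V ≤ W) : D B V ≤ D B W :=
  sup_le_sup h (Submodule.map_mono h)

private theorem le_D (B : E →ₗ[K] E) (V : Submodule K E) : V ≤ D B V := le_sup_left

private theorem map_mem_D (B : E →ₗ[K] E) {V : Submodule K E} {x : E} (h : x ∈ V) : B x ∈ D B V :=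
  (le_sup_right : V.map B ≤ D B V) (Submodule.mem_map_of_mem h)

/-- `V₀ + K x` -/
private theorem D_sup_span (B : E →ₗ[K] E) (V : Submodule K E) (x : E) (S : Submodule K E) (hS : D B V ≤ S)
    (hx : x ∈ S) (hBx : B x ∈ S) : D B (V ⊔ Submodule.span K {x}) ≤ S := by
  unfold D at hS ⊢
  refine sup_le (sup_le (le_sup_left.trans hS) ?_) ?_
  · rw [Submodule.span_singleton_le_iff_mem]
    exact hx
  · rw [Submodule.map_sup, Submodule.map_span, Set.image_singleton]
    refine sup_le (le_sup_right.trans hS) ?_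
    rw [Submodule.span_singleton_le_iff_mem]
    exact hBx

section Max

variable {B : E →ₗ[K] E} {j d : ℕ}

/-- the hypotheses: `d < 2 j ≤ n` is the maximal dimension of `V + B V` -/
private structure Hyp (B : E →ₗ[K] E) (j d : ℕ) : Prop where
  hd : d < 2 * j
  hj : 2 * j ≤ Module.finrank K E
  hmax : ∀ V : Submodule K E, Module.finrank K V = j → Module.finrank K (D B V) ≤ d

private structure Mx (B : E →ₗ[K] E) (j d : ℕ) (V : Submodule K E) : Prop where
  dim : Module.finrank K V = j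
  dimD : Module.finrank K (D B V) = d

/-- (0) -/
private theorem exists_v (H : Hyp B j d) {V : Submodule K E} (hV : Mx B j d V) :
    ∃ v ∈ V, v ≠ 0 ∧ B v ∈ V := by
  let f : (V × V) →ₗ[K] E := LinearMap.coprod V.subtype (B.comp V.subtype)
  have hr : LinearMap.range f ≤ D B V := by
    rintro _ ⟨⟨x, y⟩, rfl⟩
    have h1 : f (x, y) = (x : E) + B y := by simp [f]
    rw [h1]
    exact Submodule.add_mem _ (le_D B V x.2) (map_mem_D B y.2)
  have h1 := LinearMap.finrank_range_add_finrank_ker f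
  have h2 : Module.finrank K (V × V) = 2 * j := by
    rw [Module.finrank_prod, hV.dim]
    ring
  have h3 : Module.finrank K (LinearMap.range f) ≤ d := by
    rw [← hV.dimD]
    exact Submodule.finrank_mono hr
  have h4 : 0 < Module.finrank K (LinearMap.ker f) := by
    have := H.hd
    omega
  obtain ⟨⟨⟨x, y⟩, hxy⟩, hne⟩ := (Module.finrank_pos_iff_exists_ne_zero).1 h4
  have h5 : (x : E) + B y = 0 := by
    have := LinearMap.mem_ker.1 hxy
    simpa [f] using this
  have h6 : B (y : E) = -(x : E) := eq_neg_of_add_eq_zero_right h5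
  refine ⟨y, y.2, ?_, ?_⟩
  · intro hy
    apply hne
    rw [hy, map_zero, eq_comm, neg_eq_zero] at h6
    have hx0 : x = 0 := Subtype.ext h6
    have hy0 : y = 0 := Subtype.ext hy
    subst hx0
    subst hy0
    rfl
  · rw [h6]
    exact V.neg_mem x.2

/-- (1) -/
private theorem step1 (H : Hyp B j d) {V : Submodule K E} (hV : Mx B j d V) {v : E} (hv : v ∈ V) (hBv : B v ∈ V)
    {φ : E →ₗ[K] K} (hφ : φ v = 1) :
    v ∉ D B (V0 V φ) ∧ Module.finrank K (D B (V0 V φ)) + 1 = d ∧ ∃ μ : K, ∀ x, B x - μ • x ∈ D B (V0 V φ) := by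
  have hd := H.hd
  have hj := H.hj
  have hsup : D B (V0 V φ) ⊔ Submodule.span K {v} = D B V := by
    apply le_antisymm
    · refine sup_le (D_mono B (V0_le V φ)) ?_
      rw [Submodule.span_singleton_le_iff_mem]
      exact le_D B V hv
    · have h1 : V ≤ D B (V0 V φ) ⊔ Submodule.span K {v} := by
        conv_lhs => rw [← V0_sup hv hφ]
        exact sup_le_sup (le_D B _) le_rfl
      have h2 := D_sup_span B (V0 V φ) v (D B (V0 V φ) ⊔ Submodule.span K {v}) le_sup_left
        ((le_sup_right : Submodule.span K {v} ≤ _) (Submodule.mem_span_singleton_self v)) (h1 hBv)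
      rwa [V0_sup hv hφ] at h2
  have hfin0 : Module.finrank K (V0 V φ) + 1 = j := by rw [finrank_V0 hv hφ, hV.dim]
  have hext : ∀ y : E, y ∉ D B (V0 V φ) → Module.finrank K (V0 V φ ⊔ Submodule.span K {y} : Submodule K E) = j := by
    intro y hy
    rw [Submodule.finrank_sup_span_singleton (fun h => hy (le_D B _ h)), hfin0]
  have hle : ∀ y : E, D B (V0 V φ) ⊔ Submodule.span K {y} ≤ D B (V0 V φ ⊔ Submodule.span K {y}) := by
    intro y
    refine sup_le (D_mono B le_sup_left) (le_sup_right.trans (le_D B _))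
  have hv0 : v ∉ D B (V0 V φ) := by
    intro hmem
    have h1 : D B (V0 V φ) = D B V := by
      rw [← hsup]
      symm
      rw [sup_eq_left, Submodule.span_singleton_le_iff_mem]
      exact hmem
    have h2 : Module.finrank K (D B (V0 V φ)) = d := by rw [h1, hV.dimD]
    have h3 : D B (V0 V φ) ≠ ⊤ := by
      intro h
      rw [h, finrank_top] at h2
      omega
    obtain ⟨y, hy⟩ : ∃ y, y ∉ D B (V0 V φ) := by
      by_contra hcon
      push Not at hcon
      exact h3 (eq_top_iff.2 fun y _ => hcon y)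
    have h4 := H.hmax _ (hext y hy)
    have h5 := Submodule.finrank_mono (hle y)
    rw [Submodule.finrank_sup_span_singleton hy] at h5
    omega
  have hfD : Module.finrank K (D B (V0 V φ)) + 1 = d := by
    rw [← Submodule.finrank_sup_span_singleton hv0, hsup, hV.dimD]
  refine ⟨hv0, hfD, scal_mod B _ (by omega) fun x hx => ?_⟩
  have h4 := H.hmax _ (hext x hx)
  have h5 : D B (V0 V φ) ⊔ Submodule.span K {x} = D B (V0 V φ ⊔ Submodule.span K {x}) := by
    apply Submodule.eq_of_le_of_finrank_le (hle x)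
    rw [Submodule.finrank_sup_span_singleton hx, hfD]
    exact h4
  rw [h5]
  exact map_mem_D B ((le_sup_right : Submodule.span K {x} ≤ _) (Submodule.mem_span_singleton_self x))

/-- (2) -/
private theorem uniq (H : Hyp B j d) {V : Submodule K E} (hV : Mx B j d V) {μ μ' : K}
    (h : ∀ x, B x - μ • x ∈ D B V) (h' : ∀ x, B x - μ' • x ∈ D B V) : μ = μ' := by
  by_contra hne
  have hd := H.hd
  have hj := H.hj
  have htop : D B V = ⊤ := by
    rw [eq_top_iff]
    intro x _
    have h1 := (D B V).sub_mem (h' x) (h x)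
    have h2 : B x - μ' • x - (B x - μ • x) = (μ - μ') • x := by
      rw [sub_smul]
      abel
    rw [h2] at h1
    have h3 := (D B V).smul_mem (μ - μ')⁻¹ h1
    rwa [smul_smul, inv_mul_cancel₀ (sub_ne_zero.2 hne), one_smul] at h3
  have h1 := hV.dimD
  rw [htop, finrank_top] at h1
  omega

private theorem step2 (H : Hyp B j d) {V : Submodule K E} (hV : Mx B j d V) {μ : K}
    (h : ∀ x, B x - μ • x ∈ D B V) {v : E} (hv : v ∈ V) (hBv : B v ∈ V)
    {φ : E →ₗ[K] K} (hφ : φ v = 1) : ∀ x, B x - μ • x ∈ D B (V0 V φ) := by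
  obtain ⟨-, -, μ', hμ'⟩ := step1 H hV hv hBv hφ
  have h1 := uniq H hV h fun x => D_mono B (V0_le V φ) (hμ' x)
  rwa [h1]

private theorem step3 (H : Hyp B j d) {V : Submodule K E} (hV : Mx B j d V) {μ : K}
    (h : ∀ x, B x - μ • x ∈ D B V) {v : E} (hv : v ∈ V) (hBv : B v ∈ V) : B v = μ • v := by
  by_contra hne
  set w := B v - μ • v with hw
  have hw0 : w ≠ 0 := fun h0 => hne (sub_eq_zero.1 h0)
  have hv0 : v ≠ 0 := by
    rintro rfl
    apply hw0
    rw [hw, map_zero, smul_zero, sub_zero]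
  have hwV : w ∈ V := V.sub_mem hBv (V.smul_mem _ hv)
  have key : ∀ φ : E →ₗ[K] K, φ v = 1 → φ w = 0 := by
    intro φ hφ
    have h1 : w ∈ D B (V0 V φ) := step2 H hV h hv hBv hφ v
    have h2 := (step1 H hV hv hBv hφ).1
    have h3 := sub_mem_V0 hv hφ hwV
    have h4 : φ w • v ∈ D B (V0 V φ) := by
      have h5 := (D B (V0 V φ)).sub_mem h1 (le_D B _ h3)
      rwa [sub_sub_cancel] at h5
    by_contra hne0
    exact h2 (((D B (V0 V φ)).smul_mem_iff hne0).1 h4)
  obtain ⟨φ, hφ, -⟩ := exists_fun (W := (⊥ : Submodule K E)) (v := v) (by rwa [Submodule.mem_bot])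
  have hφw := key φ hφ
  have hws : w ∉ Submodule.span K {v} := by
    intro hmem
    obtain ⟨c, hc⟩ := Submodule.mem_span_singleton.1 hmem
    rw [← hc, map_smul, hφ, smul_eq_mul, mul_one] at hφw
    rw [hφw, zero_smul] at hc
    exact hw0 hc.symm
  obtain ⟨ψ, hψ, hψ0⟩ := exists_fun hws
  have h1 := key (φ + ψ) (by
    rw [LinearMap.add_apply, hφ, hψ0 v (Submodule.mem_span_singleton_self v), add_zero])
  rw [LinearMap.add_apply, hφw, hψ, zero_add] at h1
  exact one_ne_zero h1

/-- (4) -/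
private theorem step4 (H : Hyp B j d) {V : Submodule K E} (hV : Mx B j d V) :
    ∃ μ : K, Module.finrank K (LinearMap.range (B - μ • LinearMap.id)) < j := by
  obtain ⟨v, hv, hv0, hBv⟩ := exists_v H hV
  obtain ⟨φ₁, hφ₁, -⟩ := exists_fun (W := (⊥ : Submodule K E)) (v := v) (by rwa [Submodule.mem_bot])
  obtain ⟨-, -, μ, hμ₁⟩ := step1 H hV hv hBv hφ₁
  have hμ : ∀ x, B x - μ • x ∈ D B V := fun x => D_mono B (V0_le V φ₁) (hμ₁ x)
  set N : E →ₗ[K] E := B - μ • LinearMap.id with hN
  have hNx : ∀ x, N x = B x - μ • x := by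
    intro x
    rw [hN, LinearMap.sub_apply, LinearMap.smul_apply, LinearMap.id_apply]
  have hNv : N v = 0 := by
    rw [hNx, step3 H hV hμ hv hBv, sub_self]
  refine ⟨μ, ?_⟩
  have hDN : ∀ x ∈ D B V, ∃ a ∈ V, ∃ b ∈ V, x = a + N b := by
    intro x hx
    obtain ⟨a, ha, y, hy, rfl⟩ := Submodule.mem_sup.1 hx
    obtain ⟨b, hb, rfl⟩ := Submodule.mem_map.1 hy
    refine ⟨a + μ • b, V.add_mem ha (V.smul_mem _ hb), b, hb, ?_⟩
    rw [hNx]
    abel
  have hrange : LinearMap.range N ≤ V.map N := by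
    rintro _ ⟨x, rfl⟩
    obtain ⟨a, ha, b, hb, hab⟩ := hDN (N x) (by rw [hNx]; exact hμ x)
    by_cases ha0 : a = 0
    · rw [hab, ha0, zero_add]
      exact Submodule.mem_map_of_mem hb
    exfalso
    set y := x - b with hy
    have hNy : N y = a := by
      rw [hy, map_sub, hab, add_sub_cancel_right]
    -- `v` is not a multiple of `a`
    have hva : v ∉ Submodule.span K {a} := by
      intro hmem
      obtain ⟨c, hc⟩ := Submodule.mem_span_singleton.1 hmem
      have h1 : N (c • y) = v := by rw [map_smul, hNy, hc]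
      have h2 := (step1 H hV hv hBv hφ₁).1
      apply h2
      rw [← h1, hNx]
      exact step2 H hV hμ hv hBv hφ₁ (c • y)
    obtain ⟨φ, hφ, hφa⟩ := exists_fun hva
    have haV0 : a ∈ V0 V φ := mem_V0.2 ⟨ha, hφa a (Submodule.mem_span_singleton_self a)⟩
    obtain ⟨hvS, hfS, -⟩ := step1 H hV hv hBv hφ
    obtain ⟨z, hzS, hNz⟩ : ∃ z, z ∉ D B (V0 V φ) ∧ N z = a := by
      by_cases hyS : y ∈ D B (V0 V φ)
      · refine ⟨v + y, fun h => hvS ?_, ?_⟩
        · have := (D B (V0 V φ)).sub_mem h hyS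
          rwa [add_sub_cancel_right] at this
        · rw [map_add, hNv, hNy, zero_add]
      · exact ⟨y, hyS, hNy⟩
    have hBz : B z = μ • z + a := by
      rw [← hNz, hNx]
      abel
    have hzs := Submodule.mem_span_singleton_self (R := K) z
    set Vz : Submodule K E := V0 V φ ⊔ Submodule.span K {z} with hVz
    have hzV : z ∈ Vz := (le_sup_right : Submodule.span K {z} ≤ Vz) hzs
    have haVz : a ∈ Vz := (le_sup_left : V0 V φ ≤ Vz) haV0
    have hBzV : B z ∈ Vz := by
      rw [hBz]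
      exact Vz.add_mem (Vz.smul_mem _ hzV) haVz
    have hDle : D B Vz ≤ D B (V0 V φ) ⊔ Submodule.span K {z} := by
      have h1 : z ∈ D B (V0 V φ) ⊔ Submodule.span K {z} := (le_sup_right : Submodule.span K {z} ≤ _) hzs
      refine D_sup_span B (V0 V φ) z _ le_sup_left h1 ?_
      rw [hBz]
      exact Submodule.add_mem _ (Submodule.smul_mem _ _ h1)
        ((le_sup_left : D B (V0 V φ) ≤ _) (le_D B _ haV0))
    have hDge : D B (V0 V φ) ⊔ Submodule.span K {z} ≤ D B Vz :=
      sup_le (D_mono B le_sup_left) (le_sup_right.trans (le_D B _))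
    have hMz : Mx B j d Vz := by
      refine ⟨?_, ?_⟩
      · rw [hVz, Submodule.finrank_sup_span_singleton (fun h => hzS (le_D B _ h)), finrank_V0 hv hφ, hV.dim]
      · rw [le_antisymm hDle hDge, Submodule.finrank_sup_span_singleton hzS, hfS]
    have hz0 : z ≠ 0 := by
      rintro rfl
      exact hzS (Submodule.zero_mem _)
    obtain ⟨φz, hφz, -⟩ := exists_fun (W := (⊥ : Submodule K E)) (v := z) (by rwa [Submodule.mem_bot])
    obtain ⟨-, -, μ', hμ'⟩ := step1 H hMz hzV hBzV hφz
    have h3 := step3 H hMz (fun x => D_mono B (V0_le Vz φz) (hμ' x)) hzV hBzV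
    have h4 : a = (μ' - μ) • z := by
      rw [sub_smul, ← h3, hBz]
      abel
    have h5 : μ' - μ ≠ 0 := by
      intro h0
      rw [h0, zero_smul] at h4
      exact ha0 h4
    apply hzS
    refine ((D B (V0 V φ)).smul_mem_iff h5).1 ?_
    rw [← h4]
    exact le_D B _ haV0
  have h1 := Submodule.finrank_mono hrange
  have h2 : Module.finrank K (V.map N) < j := by
    have h3 := LinearMap.finrank_range_add_finrank_ker (N.domRestrict V)
    have h4 : 0 < Module.finrank K (LinearMap.ker (N.domRestrict V)) := by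
      rw [Module.finrank_pos_iff_exists_ne_zero]
      refine ⟨⟨⟨v, hv⟩, ?_⟩, ?_⟩
      · rw [LinearMap.mem_ker]
        exact hNv
      · intro h0
        apply hv0
        have := congrArg (fun u : LinearMap.ker (N.domRestrict V) => ((u : V) : E)) h0
        exact this
    have h5 : LinearMap.range (N.domRestrict V) = V.map N := by
      rw [LinearMap.range_domRestrict]
    rw [h5, hV.dim] at h3
    omega
  exact lt_of_le_of_lt h1 h2

end Max

theorem pencil (B : E →ₗ[K] E) (j : ℕ) (hj : 2 * j ≤ Module.finrank K E)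
    (hB : ∀ μ : K, j ≤ Module.finrank K (LinearMap.range (B - μ • LinearMap.id))) :
    ∃ V : Submodule K E, Module.finrank K V = j ∧
      Module.finrank K (V ⊔ V.map B : Submodule K E) = 2 * j := by
  -- the maximal dimension
  set T : Set ℕ := {d | ∃ V : Submodule K E, Module.finrank K V = j ∧ Module.finrank K (D B V) = d} with hT
  have hle : ∀ V : Submodule K E, Module.finrank K V = j → Module.finrank K (D B V) ≤ 2 * j := by
    intro V hV
    have h1 := Submodule.finrank_add_le_finrank_add_finrank V (V.map B)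
    have h2 := Submodule.finrank_map_le B V
    have h3 : Module.finrank K (D B V) = Module.finrank K (V ⊔ V.map B : Submodule K E) := rfl
    omega
  have hne : T.Nonempty := by
    obtain ⟨f, hf⟩ := exists_linearIndependent_of_le_finrank (R := K) (M := E) (n := j) (by omega)
    refine ⟨_, Submodule.span K (Set.range f), ?_, rfl⟩
    rw [finrank_span_eq_card hf, Fintype.card_fin]
  have hbdd : BddAbove T := by
    refine ⟨2 * j, ?_⟩
    rintro _ ⟨V, hV, rfl⟩
    exact hle V hV
  obtain ⟨V, hV, hVd⟩ := Nat.sSup_mem hne hbdd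
  have hmax : ∀ W : Submodule K E, Module.finrank K W = j → Module.finrank K (D B W) ≤ sSup T :=
    fun W hW => le_csSup hbdd ⟨W, hW, rfl⟩
  refine ⟨V, hV, ?_⟩
  by_contra hcon
  have hVd' : Module.finrank K (V ⊔ V.map B : Submodule K E) = sSup T := hVd
  rw [hVd'] at hcon
  have hlt : sSup T < 2 * j := lt_of_le_of_ne (by rw [← hVd]; exact hle V hV) hcon
  obtain ⟨μ, hμ⟩ := step4 (B := B) ⟨hlt, hj, hmax⟩ ⟨hV, hVd⟩
  have := hB μ
  omega

end ALK
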