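import Pool.Agent.Work.MP_05d08f_al.AS.A01
import Pool.Agent.Work.MP_05d08f_al.AS.A07

set_option autoImplicit false

/-!
# A08: normal form of even size (size M)

Let `B` be an `ι × ι` matrix, `card ι = 2 j`, `rank (B - μ) ≥ j` for all `μ`. Apply `pencil` to the
linear map `B.mulVecLin` on `ι → K` (`Matrix.rank` is by definition the `finrank` of the range of
`mulVecLin`, and `(B - μ • 1).mulVecLin = B.mulVecLin - μ • id`). We get `V` with `dim V = j` and
`dim (V + B V) = 2 j = dim E`, so `V + B V = E`, and `dim (B V) ≥ j`, i.e. `B` is injective on `V` and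
`V ∩ B V = 0`. Let `v_1, …, v_j` be a basis of `V`. Then `v_1, …, v_j, B v_1, …, B v_j` span `E` and are
`2 j` vectors: a basis `b` of `E` indexed by `Fin j ⊕ Fin j`. The matrix of `B` in this basis has first
block column `(0, 1)`: `B (b (inl a)) = b (inr a)`. So it is `fromBlocks 0 b 1 D`. The similarity is given
by the matrix `P` whose columns are the basis vectors and its inverse (`Module.Basis.toMatrix` with the
standard basis `Pi.basisFun`; or take `P x k = b k x` and `Q = ` matrix of coordinates).
-/

namespace ALK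

open Matrix

variable {K : Type*} [Field K] {ι : Type*} [Fintype ι] [DecidableEq ι]

theorem pencil_nf (B : Matrix ι ι K) (j : ℕ) (hj : Fintype.card ι = 2 * j)
    (hB : ∀ μ : K, j ≤ (B - μ • (1 : Matrix ι ι K)).rank) :
    ∃ b D : Matrix (Fin j) (Fin j) K, Sim B (Matrix.fromBlocks 0 b 1 D) := by
  have hfin : Module.finrank K (ι → K) = 2 * j := by
    rw [Module.finrank_fintype_fun_eq_card, hj]
  obtain ⟨V, hV1, hV2⟩ := pencil (B.mulVecLin) j hfin.ge (fun μ => by
    have h1 : B.mulVecLin - μ • LinearMap.id = (B - μ • (1 : Matrix ι ι K)).mulVecLin := by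
      refine LinearMap.ext fun v => ?_
      rw [LinearMap.sub_apply, LinearMap.smul_apply, LinearMap.id_apply, Matrix.mulVecLin_apply,
        Matrix.mulVecLin_apply, Matrix.sub_mulVec, Matrix.smul_mulVec, Matrix.one_mulVec]
    rw [h1]
    exact hB μ)
  have htop : V ⊔ V.map B.mulVecLin = ⊤ := by
    apply Submodule.eq_top_of_finrank_eq
    rw [hV2, hfin]
  let b0 : Module.Basis (Fin j) K V := Module.finBasisOfFinrankEq K V hV1
  let F : Fin j ⊕ Fin j → (ι → K) :=
    Sum.elim (fun k => (b0 k : ι → K)) (fun k => B.mulVecLin (b0 k : ι → K))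
  have hspan : Submodule.span K (Set.range F) = ⊤ := by
    rw [← htop, Set.Sum.elim_range, Submodule.span_union]
    congr 1
    · have h1 : (Set.range fun k => (b0 k : ι → K)) = V.subtype '' Set.range b0 := by
        rw [← Set.range_comp]
        rfl
      rw [h1, ← Submodule.map_span, b0.span_eq, Submodule.map_top, Submodule.range_subtype]
    · have h1 : (Set.range fun k => B.mulVecLin (b0 k : ι → K)) =
          (B.mulVecLin.comp V.subtype) '' Set.range b0 := by
        rw [← Set.range_comp]
        rfl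
      rw [h1, ← Submodule.map_span, b0.span_eq, Submodule.map_comp, Submodule.map_top,
        Submodule.range_subtype]
  let bb : Module.Basis (Fin j ⊕ Fin j) K (ι → K) :=
    basisOfTopLeSpanOfCardEqFinrank F hspan.ge (by
      rw [Fintype.card_sum, Fintype.card_fin, hfin]
      ring)
  have hbb : ∀ k, bb k = F k := fun k => by
    change (basisOfTopLeSpanOfCardEqFinrank F _ _) k = F k
    rw [coe_basisOfTopLeSpanOfCardEqFinrank]
  let M : Matrix (Fin j ⊕ Fin j) (Fin j ⊕ Fin j) K := LinearMap.toMatrix bb bb B.mulVecLin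
  have hcol : ∀ x k, M x (Sum.inl k) = if x = Sum.inr k then 1 else 0 := by
    intro x k
    change LinearMap.toMatrix bb bb B.mulVecLin x (Sum.inl k) = _
    rw [LinearMap.toMatrix_apply]
    have h1 : B.mulVecLin (bb (Sum.inl k)) = bb (Sum.inr k) := by
      rw [hbb, hbb]
      rfl
    rw [h1, Module.Basis.repr_self, Finsupp.single_apply]
    by_cases h : x = Sum.inr k
    · rw [if_pos h, if_pos h.symm]
    · rw [if_neg h, if_neg (Ne.symm h)]
  have hM : M = Matrix.fromBlocks 0 M.toBlocks₁₂ 1 M.toBlocks₂₂ := by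
    conv_lhs => rw [← Matrix.fromBlocks_toBlocks M]
    congr 1
    · ext x k
      change M (Sum.inl x) (Sum.inl k) = 0
      rw [hcol, if_neg (by simp)]
    · ext x k
      change M (Sum.inr x) (Sum.inl k) = (1 : Matrix _ _ K) x k
      rw [hcol, Matrix.one_apply]
      by_cases h : x = k
      · rw [if_pos (by rw [h]), if_pos h]
      · rw [if_neg (by simpa using h), if_neg h]
  refine ⟨M.toBlocks₁₂, M.toBlocks₂₂, ?_⟩
  rw [← hM]
  refine ⟨(Pi.basisFun K ι).toMatrix bb, bb.toMatrix (Pi.basisFun K ι),
    Module.Basis.toMatrix_mul_toMatrix_flip _ _, Module.Basis.toMatrix_mul_toMatrix_flip _ _, ?_⟩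
  have h2 : LinearMap.toMatrix (Pi.basisFun K ι) (Pi.basisFun K ι) B.mulVecLin = B := by
    have h3 : B.mulVecLin = Matrix.toLin' B := rfl
    rw [LinearMap.toMatrix_eq_toMatrix', h3, LinearMap.toMatrix'_toLin']
  conv_lhs => rw [← h2]
  exact basis_toMatrix_mul_linearMap_toMatrix_mul_basis_toMatrix _ _ _ _ _

end ALK
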