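import Pool.Agent.Work.MP_05d08f_al.AS.A06

set_option autoImplicit false
set_option linter.unusedSectionVars false

/-!
# A09: removal lemma, choice of the vectors (size M; uses only `scal_mod_avoid` of A06)

PROOF. Choose `t 0, t 1, …` one after the other. Suppose `t 0, …, t (a-1)` (`a < r`) have been chosen such
that `t 0, …, t (a-1), B (t 0), …, B (t (a-1))` are linearly independent and
`T_a = span (t 0, …, t (a-1))` is disjoint from `F₁` and `F₂`. Let `S_a` be the span of these `2 a`
vectors (dimension `2 a`; `2 a + 2 ≤ 2 r ≤ rank (B - 0) ≤ dim E`). CLAIM: there is `x ∉ S_a`,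
`x ∉ F₁ + T_a`, `x ∉ F₂ + T_a` with `B x ∉ S_a + K x`. Otherwise `scal_mod_avoid` (the spaces
`F_i + T_a` are proper since `dim F_i + r < dim E`) gives `μ` with `range (B - μ) ⊆ S_a`, so
`rank (B - μ) ≤ 2 a < 2 r`, a contradiction. Put `t a := x`. Then `x, B x` are independent modulo `S_a`
(`x ∉ S_a`, `B x ∉ S_a + K x`), so the extended family of `2 a + 2` vectors is independent, and
`T_a + K x` is disjoint from `F_i`: if `y + c x ∈ F_i` with `y ∈ T_a`, `c ≠ 0`, then `x ∈ F_i + T_a`.

Formally: prove by induction on `a ≤ r` the existence of `t : Fin a → E` with the three properties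
(`Fin.snoc` or `Fin.cons`), or use lists.
-/

namespace ALK

variable {K E : Type*} [Field K] [AddCommGroup E] [Module K E] [FiniteDimensional K E]

/-- a disjoint space may be enlarged -/
private theorem disj_cons {T F : Submodule K E} {x : E} (h : Disjoint T F) (hx : x ∉ F ⊔ T) :
    Disjoint (Submodule.span K {x} ⊔ T) F := by
  rw [Submodule.disjoint_def]
  intro y hy hyF
  obtain ⟨w, hw, u, hu, rfl⟩ := Submodule.mem_sup.1 hy
  obtain ⟨c, rfl⟩ := Submodule.mem_span_singleton.1 hw
  by_cases hc : c = 0
  · subst hc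
    rw [zero_smul, zero_add] at hyF ⊢
    exact Submodule.disjoint_def.1 h u hu hyF
  · exfalso
    apply hx
    have h1 : c • x ∈ F ⊔ T := by
      have h2 : c • x = (c • x + u) + -u := by abel
      rw [h2]
      exact Submodule.add_mem_sup hyF (T.neg_mem hu)
    exact ((F ⊔ T).smul_mem_iff hc).1 h1

private theorem li_cons (B : E →ₗ[K] E) {a : ℕ} {t : Fin a → E}
    (ht : LinearIndependent K (Sum.elim t (fun i => B (t i)))) {x : E}
    (hx : x ∉ Submodule.span K (Set.range (Sum.elim t (fun i => B (t i)))))
    (hBx : B x ∉ Submodule.span K (Set.range (Sum.elim t (fun i => B (t i)))) ⊔ Submodule.span K {x}) :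
    LinearIndependent K (Sum.elim (Fin.cons x t : Fin (a + 1) → E)
      (fun i => B ((Fin.cons x t : Fin (a + 1) → E) i))) := by
  set S := Submodule.span K (Set.range (Sum.elim t (fun i => B (t i)))) with hS
  rw [Fintype.linearIndependent_iff]
  intro g hg
  rw [Fintype.sum_sum_type, Fin.sum_univ_succ, Fin.sum_univ_succ] at hg
  simp only [Sum.elim_inl, Sum.elim_inr, Fin.cons_zero, Fin.cons_succ] at hg
  set s : E := ∑ i : Fin a, g (Sum.inl i.succ) • t i + ∑ i : Fin a, g (Sum.inr i.succ) • B (t i) with hs
  have hsS : s ∈ S := by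
    refine S.add_mem (S.sum_mem fun i _ => S.smul_mem _ ?_) (S.sum_mem fun i _ => S.smul_mem _ ?_)
    · exact Submodule.subset_span ⟨Sum.inl i, rfl⟩
    · exact Submodule.subset_span ⟨Sum.inr i, rfl⟩
  have h0 : g (Sum.inr 0) • B x + (g (Sum.inl 0) • x + s) = 0 := by
    rw [← hg, hs]
    abel
  have h1 : g (Sum.inr 0) = 0 := by
    by_contra hne
    apply hBx
    refine ((S ⊔ Submodule.span K {x}).smul_mem_iff hne).1 ?_
    rw [eq_neg_of_add_eq_zero_left h0]
    refine Submodule.neg_mem _ (Submodule.add_mem _ ?_ ?_)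
    · exact (le_sup_right : Submodule.span K {x} ≤ _)
        (Submodule.smul_mem _ _ (Submodule.mem_span_singleton_self x))
    · exact (le_sup_left : S ≤ _) hsS
  rw [h1, zero_smul, zero_add] at h0
  have h2 : g (Sum.inl 0) = 0 := by
    by_contra hne
    apply hx
    refine (S.smul_mem_iff hne).1 ?_
    rw [eq_neg_of_add_eq_zero_left h0]
    exact S.neg_mem hsS
  rw [h2, zero_smul, zero_add] at h0
  have h3 : ∑ i, (Sum.elim (fun i : Fin a => g (Sum.inl i.succ)) (fun i : Fin a => g (Sum.inr i.succ)) i) •
      Sum.elim t (fun i => B (t i)) i = 0 := by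
    rw [Fintype.sum_sum_type]
    exact h0
  have h4 := Fintype.linearIndependent_iff.1 ht _ h3
  rintro (i | i)
  · refine Fin.cases h2 (fun i => ?_) i
    exact h4 (Sum.inl i)
  · refine Fin.cases h1 (fun i => ?_) i
    exact h4 (Sum.inr i)

theorem rem_vectors [Infinite K] (B : E →ₗ[K] E) (r : ℕ)
    (hB : ∀ μ : K, 2 * r ≤ Module.finrank K (LinearMap.range (B - μ • LinearMap.id)))
    (F₁ F₂ : Submodule K E) (h₁ : Module.finrank K F₁ + r < Module.finrank K E)
    (h₂ : Module.finrank K F₂ + r < Module.finrank K E) :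
    ∃ t : Fin r → E, LinearIndependent K (Sum.elim t (fun a => B (t a))) ∧
      Disjoint (Submodule.span K (Set.range t)) F₁ ∧
      Disjoint (Submodule.span K (Set.range t)) F₂ := by
  have key : ∀ a ≤ r, ∃ t : Fin a → E, LinearIndependent K (Sum.elim t (fun i => B (t i))) ∧
      Disjoint (Submodule.span K (Set.range t)) F₁ ∧
      Disjoint (Submodule.span K (Set.range t)) F₂ := by
    intro a
    induction a with
    | zero =>
      intro _
      refine ⟨Fin.elim0, linearIndependent_empty_type, ?_, ?_⟩
      · rw [Set.range_eq_empty, Submodule.span_empty]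
        exact disjoint_bot_left
      · rw [Set.range_eq_empty, Submodule.span_empty]
        exact disjoint_bot_left
    | succ a ih =>
      intro ha
      obtain ⟨t, ht, hd1, hd2⟩ := ih (by omega)
      set S := Submodule.span K (Set.range (Sum.elim t (fun i => B (t i)))) with hS
      set T := Submodule.span K (Set.range t) with hT
      have hSd : Module.finrank K S = 2 * a := by
        rw [hS, finrank_span_eq_card ht, Fintype.card_sum, Fintype.card_fin]
        ring
      have hTd : Module.finrank K T ≤ a := by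
        have := finrank_range_le_card (R := K) t
        rwa [Fintype.card_fin] at this
      have hE : 2 * r ≤ Module.finrank K E := (hB 0).trans (Submodule.finrank_le _)
      have hne : ∀ F : Submodule K E, Module.finrank K F + r < Module.finrank K E → F ⊔ T ≠ ⊤ := by
        intro F hF h
        have h1 := Submodule.finrank_add_le_finrank_add_finrank F T
        rw [h, finrank_top] at h1
        omega
      obtain ⟨x, hx, hx1, hx2, hBx⟩ : ∃ x, x ∉ S ∧ x ∉ F₁ ⊔ T ∧ x ∉ F₂ ⊔ T ∧ B x ∉ S ⊔ Submodule.span K {x} := by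
        by_contra hcon
        obtain ⟨μ, hμ⟩ := scal_mod_avoid B S (F₁ ⊔ T) (F₂ ⊔ T) (by omega) (hne F₁ h₁) (hne F₂ h₂) (by
          intro x hx hx1 hx2
          by_contra hBx
          exact hcon ⟨x, hx, hx1, hx2, hBx⟩)
        have h1 : LinearMap.range (B - μ • LinearMap.id) ≤ S := by
          rintro _ ⟨x, rfl⟩
          exact hμ x
        have h2 := Submodule.finrank_mono h1
        have h3 := hB μ
        omega
      have hspan : Submodule.span K (Set.range (Fin.cons x t : Fin (a + 1) → E)) = Submodule.span K {x} ⊔ T := by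
        rw [Fin.range_cons, Submodule.span_insert]
      refine ⟨Fin.cons x t, li_cons B ht hx hBx, ?_, ?_⟩
      · rw [hspan]
        exact disj_cons hd1 hx1
      · rw [hspan]
        exact disj_cons hd2 hx2
  exact key r le_rfl

end ALK
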