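import Mathlib

/-!
# A10: removal lemma, choice of the functionals (Mathlib only, size M)

PROOF. Let `S` be the span of the `2 r` independent vectors `t a`, `s a`. As `dim K₁ ≥ 3 r` there are
`k₁ : Fin r → E` with values in `K₁` such that the `3 r` vectors `t, s, k₁` are independent:
`dim (K₁ ∩ S) ≤ 2 r`, so a complement of `K₁ ∩ S` in `K₁` has dimension at least `r`; take the first `r`
vectors of a basis of it (a vector space complement meets `S` trivially: an element of it in `S` lies in
`K₁ ∩ S`). Similarly, as `dim K₂ ≥ 4 r`, there are `k₂ : Fin r → E` with values in `K₂` such that the `4 r`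
vectors `t, s, k₁, k₂` are independent. So there is a linear map `φ : E → (Fin r → K)` with
`φ (t a) = Pi.single a 1`, `φ (s a) = 0`, `φ (k₁ a) = φ (k₂ a) = Pi.single a 1` (extend the
independent family to a basis, e.g. `LinearIndependent.extend` / `Basis.extend` and `Basis.constr`).
Then `φ` maps `K₁` and `K₂` onto `Fin r → K`.
A convenient lemma to prove first and to use twice: if `v : ι → E` is independent, `card ι + r ≤ dim K'`,
then there is `k : Fin r → E`, `k a ∈ K'`, with `Sum.elim v k` independent.
-/

set_option autoImplicit false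

namespace ALK

variable {K E : Type*} [Field K] [AddCommGroup E] [Module K E] [FiniteDimensional K E]

private theorem ext_ind {ι : Type*} [Fintype ι] (v : ι → E) (hv : LinearIndependent K v) (r : ℕ)
    (K' : Submodule K E) (h : Fintype.card ι + r ≤ Module.finrank K K') :
    ∃ k : Fin r → E, (∀ a, k a ∈ K') ∧ LinearIndependent K (Sum.elim v k) := by
  induction r with
  | zero =>
    refine ⟨Fin.elim0, fun a => a.elim0, ?_⟩
    rw [linearIndependent_sum]
    refine ⟨hv, linearIndependent_empty_type, ?_⟩
    have : Set.range (Sum.elim v (Fin.elim0 : Fin 0 → E) ∘ Sum.inr) = ∅ := by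
      rw [Set.range_eq_empty_iff]
      infer_instance
    rw [this, Submodule.span_empty]
    exact disjoint_bot_right
  | succ r ih =>
    obtain ⟨k, hk, hind⟩ := ih (by omega)
    have hlt : Module.finrank K (Submodule.span K (Set.range (Sum.elim v k))) <
        Module.finrank K K' := by
      rw [finrank_span_eq_card hind, Fintype.card_sum, Fintype.card_fin]
      omega
    obtain ⟨x, hxK, hx⟩ : ∃ x ∈ K', x ∉ Submodule.span K (Set.range (Sum.elim v k)) := by
      by_contra hcon
      push Not at hcon
      exact absurd (Submodule.finrank_mono (show K' ≤ _ from hcon)) (not_le.2 hlt)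
    refine ⟨Fin.snoc k x, ?_, ?_⟩
    · intro a
      refine Fin.lastCases ?_ (fun i => ?_) a
      · rw [Fin.snoc_last]; exact hxK
      · rw [Fin.snoc_castSucc]; exact hk i
    · have h1 : LinearIndependent K (fun o : Option (ι ⊕ Fin r) =>
          Option.casesOn' o x (Sum.elim v k)) := by
        rw [linearIndependent_option']
        exact ⟨hind, hx⟩
      let e : ι ⊕ Fin (r + 1) → Option (ι ⊕ Fin r) := Sum.elim (fun i => some (Sum.inl i))
        (fun a => Fin.lastCases (motive := fun _ => Option (ι ⊕ Fin r)) none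
          (fun i => some (Sum.inr i)) a)
      have he : Function.Injective e := by
        rintro (i | a) (j | b) hij
        · simpa [e] using hij
        · exfalso
          revert hij
          refine Fin.lastCases ?_ (fun b => ?_) b <;> simp [e]
        · exfalso
          revert hij
          refine Fin.lastCases ?_ (fun b => ?_) a <;> simp [e]
        · revert hij
          refine Fin.lastCases ?_ (fun a => ?_) a <;> refine Fin.lastCases ?_ (fun b => ?_) b <;>
            simp [e]
      have h2 := h1.comp e he
      convert h2 using 1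
      funext i
      rcases i with i | a
      · rfl
      · refine Fin.lastCases ?_ (fun a => ?_) a <;> simp [e]

theorem rem_functionals (r : ℕ) (t s : Fin r → E) (hts : LinearIndependent K (Sum.elim t s))
    (K₁ K₂ : Submodule K E) (h₁ : 4 * r ≤ Module.finrank K K₁) (h₂ : 4 * r ≤ Module.finrank K K₂) :
    ∃ φ : E →ₗ[K] (Fin r → K), (∀ a, φ (t a) = Pi.single a 1) ∧ (∀ a, φ (s a) = 0) ∧
      K₁.map φ = ⊤ ∧ K₂.map φ = ⊤ := by
  obtain ⟨k₁, hk₁, hi₁⟩ := ext_ind (Sum.elim t s) hts r K₁ (by simp; omega)
  obtain ⟨k₂, hk₂, hi₂⟩ := ext_ind (Sum.elim (Sum.elim t s) k₁) hi₁ r K₂ (by simp; omega)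
  let val : ((Fin r ⊕ Fin r) ⊕ Fin r) ⊕ Fin r → (Fin r → K) :=
    Sum.elim (Sum.elim (Sum.elim (fun a => Pi.single a 1) (fun _ => 0)) (fun a => Pi.single a 1))
      (fun a => Pi.single a 1)
  obtain ⟨φ, hφ⟩ : ∃ φ : E →ₗ[K] (Fin r → K), ∀ i,
      φ (Sum.elim (Sum.elim (Sum.elim t s) k₁) k₂ i) = val i := by
    let W := Submodule.span K (Set.range (Sum.elim (Sum.elim (Sum.elim t s) k₁) k₂))
    let bs := Module.Basis.span hi₂
    obtain ⟨ψ, hψ⟩ := LinearMap.exists_extend (bs.constr K val)
    refine ⟨ψ, fun i => ?_⟩
    have h1 : ψ (W.subtype (bs i)) = val i := by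
      have := congrArg (fun f => f (bs i)) hψ
      simpa using this
    rw [← h1]
    congr 1
    exact congrArg Subtype.val (Module.Basis.span_apply hi₂ i).symm
  have hsurj : ∀ (K' : Submodule K E) (k : Fin r → E), (∀ a, k a ∈ K') →
      (∀ a, φ (k a) = Pi.single a 1) → K'.map φ = ⊤ := by
    intro K' k hk hφk
    rw [eq_top_iff]
    intro w _
    rw [Submodule.mem_map]
    refine ⟨∑ a, w a • k a, Submodule.sum_mem _ fun a _ => Submodule.smul_mem _ _ (hk a), ?_⟩
    rw [map_sum]
    simp only [map_smul, hφk]
    ext j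
    simp [Finset.sum_apply, Pi.single_apply]
  refine ⟨φ, fun a => hφ (Sum.inl (Sum.inl (Sum.inl a))),
    fun a => hφ (Sum.inl (Sum.inl (Sum.inr a))),
    hsurj K₁ k₁ hk₁ fun a => hφ (Sum.inl (Sum.inr a)),
    hsurj K₂ k₂ hk₂ fun a => hφ (Sum.inr a)⟩

end ALK
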