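import Mathlib

/-!
# A11: ranks of block matrices (Mathlib only, size S-M)

`rank_le_blocks`: `M = fromBlocks A b c D`. `M = fromBlocks 0 0 0 D + fromBlocks A b 0 0 + fromBlocks 0 0 c 0`;
the first has rank `rank D` (or `≤`: its range is contained in the image of `range D` under
`z ↦ Sum.elim 0 z`), the second has at most `r` nonzero rows and the third at most `r` nonzero columns, so
their ranks are at most `r`. `Matrix.rank_add_le`.

`rank_eq_blocks`: assume
(k) for every `y` there is `z` with `M *ᵥ (Sum.elim y z) = 0`,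
(i) `M *ᵥ x = Sum.elim y 0` implies `y = 0`.
Then `rank D = rank M` (only `≤` is needed: `rank M ≤ rank D`): by (k) every vector of the range of `M`
is of the form `M *ᵥ (Sum.elim 0 z)` (subtract the kernel vector `(y, z_y)` from `(y, z')`), and its
second component is `D *ᵥ z`. So the linear map `w ↦ w ∘ Sum.inr` maps `range M` into `range D`; it is
injective on `range M` by (i) (an element of the range with zero second component is `Sum.elim y 0`, so
it is `0`). Hence `finrank (range M) ≤ finrank (range D)`.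
-/

set_option autoImplicit false

namespace ALK

open Matrix

variable {K : Type*} [Field K] {r n : ℕ}

private theorem fb_mulVec_inr (A : Matrix (Fin r) (Fin r) K) (b : Matrix (Fin r) (Fin n) K)
    (c : Matrix (Fin n) (Fin r) K) (D : Matrix (Fin n) (Fin n) K) (z : Fin n → K) :
    (Matrix.fromBlocks A b c D) *ᵥ (Sum.elim 0 z) = Sum.elim (b *ᵥ z) (D *ᵥ z) := by
  rw [Matrix.fromBlocks_mulVec]
  simp

private theorem rank_single_row (A : Matrix (Fin r) (Fin r) K) (b : Matrix (Fin r) (Fin n) K) :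
    (Matrix.fromBlocks A b 0 0 : Matrix (Fin r ⊕ Fin n) (Fin r ⊕ Fin n) K).rank ≤ r := by
  have h : (Matrix.fromBlocks A b 0 0 : Matrix (Fin r ⊕ Fin n) (Fin r ⊕ Fin n) K) =
      (Matrix.fromRows (1 : Matrix (Fin r) (Fin r) K) 0) * (Matrix.fromCols A b) := by
    ext i j
    rcases i with i | i <;> rcases j with j | j <;>
      simp [Matrix.mul_apply, Matrix.fromBlocks, Matrix.fromRows, Matrix.fromCols, Matrix.one_apply]
  rw [h]
  refine (Matrix.rank_mul_le_left _ _).trans ?_
  refine (Matrix.rank_le_card_width _).trans ?_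
  simp

private theorem rank_single_col (c : Matrix (Fin n) (Fin r) K) :
    (Matrix.fromBlocks 0 0 c 0 : Matrix (Fin r ⊕ Fin n) (Fin r ⊕ Fin n) K).rank ≤ r := by
  have h : (Matrix.fromBlocks 0 0 c 0 : Matrix (Fin r ⊕ Fin n) (Fin r ⊕ Fin n) K) =
      (Matrix.fromRows (0 : Matrix (Fin r) (Fin r) K) c) *
        (Matrix.fromCols (1 : Matrix (Fin r) (Fin r) K) 0) := by
    ext i j
    rcases i with i | i <;> rcases j with j | j <;>
      simp [Matrix.mul_apply, Matrix.fromBlocks, Matrix.fromRows, Matrix.fromCols, Matrix.one_apply]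
  rw [h]
  refine (Matrix.rank_mul_le_left _ _).trans ?_
  refine (Matrix.rank_le_card_width _).trans ?_
  simp

private theorem rank_corner (D : Matrix (Fin n) (Fin n) K) :
    (Matrix.fromBlocks 0 0 0 D : Matrix (Fin r ⊕ Fin n) (Fin r ⊕ Fin n) K).rank ≤ D.rank := by
  have h : (Matrix.fromBlocks 0 0 0 D : Matrix (Fin r ⊕ Fin n) (Fin r ⊕ Fin n) K) =
      (Matrix.fromRows (0 : Matrix (Fin r) (Fin n) K) 1) * D *
        (Matrix.fromCols (0 : Matrix (Fin n) (Fin r) K) 1) := by
    ext i j
    rcases i with i | i <;> rcases j with j | j <;>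
      simp [Matrix.mul_apply, Matrix.fromBlocks, Matrix.fromRows, Matrix.fromCols, Matrix.one_apply]
  rw [h]
  exact (Matrix.rank_mul_le_left _ _).trans (Matrix.rank_mul_le_right _ _)

private theorem rank_add_le_aux {ι : Type*} [Fintype ι] (X Y : Matrix ι ι K) :
    (X + Y).rank ≤ X.rank + Y.rank := by
  have h : LinearMap.range (X + Y).mulVecLin ≤
      LinearMap.range X.mulVecLin ⊔ LinearMap.range Y.mulVecLin := by
    rintro _ ⟨v, rfl⟩
    rw [Matrix.mulVecLin_apply, Matrix.add_mulVec]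
    exact Submodule.add_mem_sup ⟨v, rfl⟩ ⟨v, rfl⟩
  exact (Submodule.finrank_mono h).trans (Submodule.finrank_add_le_finrank_add_finrank _ _)

theorem rank_le_blocks (A : Matrix (Fin r) (Fin r) K) (b : Matrix (Fin r) (Fin n) K)
    (c : Matrix (Fin n) (Fin r) K) (D : Matrix (Fin n) (Fin n) K) :
    (Matrix.fromBlocks A b c D).rank ≤ D.rank + 2 * r := by
  have h : (Matrix.fromBlocks A b c D : Matrix (Fin r ⊕ Fin n) (Fin r ⊕ Fin n) K) =
      Matrix.fromBlocks 0 0 0 D + Matrix.fromBlocks A b 0 0 + Matrix.fromBlocks 0 0 c 0 := by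
    rw [Matrix.fromBlocks_add, Matrix.fromBlocks_add]
    simp
  rw [h]
  have h1 := rank_add_le_aux (Matrix.fromBlocks 0 0 0 D + Matrix.fromBlocks A b 0 0)
    (Matrix.fromBlocks 0 0 c 0 : Matrix (Fin r ⊕ Fin n) (Fin r ⊕ Fin n) K)
  have h2 := rank_add_le_aux (Matrix.fromBlocks 0 0 0 D)
    (Matrix.fromBlocks A b 0 0 : Matrix (Fin r ⊕ Fin n) (Fin r ⊕ Fin n) K)
  have h3 := rank_corner (r := r) D
  have h4 := rank_single_row A b
  have h5 := rank_single_col c
  omega

theorem rank_eq_blocks (A : Matrix (Fin r) (Fin r) K) (b : Matrix (Fin r) (Fin n) K)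
    (c : Matrix (Fin n) (Fin r) K) (D : Matrix (Fin n) (Fin n) K)
    (hk : ∀ y : Fin r → K, ∃ z : Fin n → K, (Matrix.fromBlocks A b c D) *ᵥ (Sum.elim y z) = 0)
    (hi : ∀ (x : Fin r ⊕ Fin n → K) (y : Fin r → K),
      (Matrix.fromBlocks A b c D) *ᵥ x = Sum.elim y 0 → y = 0) :
    (Matrix.fromBlocks A b c D).rank ≤ D.rank := by
  let M := Matrix.fromBlocks A b c D
  let π : (Fin r ⊕ Fin n → K) →ₗ[K] (Fin n → K) := LinearMap.funLeft K K Sum.inr
  have hmap : ∀ w ∈ LinearMap.range M.mulVecLin, π w ∈ LinearMap.range D.mulVecLin := by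
    rintro w ⟨x, rfl⟩
    obtain ⟨z, hz⟩ := hk (x ∘ Sum.inl)
    refine ⟨x ∘ Sum.inr - z, ?_⟩
    have hx : x = Sum.elim (x ∘ Sum.inl) z + Sum.elim (0 : Fin r → K) (x ∘ Sum.inr - z) := by
      ext i
      rcases i with i | i <;> simp
    have h1 : M *ᵥ x = Sum.elim (b *ᵥ (x ∘ Sum.inr - z)) (D *ᵥ (x ∘ Sum.inr - z)) := by
      rw [← fb_mulVec_inr A b c D]
      conv_lhs => rw [hx]
      rw [Matrix.mulVec_add]
      show (Matrix.fromBlocks A b c D) *ᵥ _ + _ = _
      rw [hz, zero_add]
    show D *ᵥ (x ∘ Sum.inr - z) = π (M *ᵥ x)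
    rw [h1]
    ext i
    simp [π, LinearMap.funLeft_apply]
  let f : LinearMap.range M.mulVecLin →ₗ[K] LinearMap.range D.mulVecLin :=
    LinearMap.restrict π hmap
  have hinj : Function.Injective f := by
    rw [← LinearMap.ker_eq_bot, LinearMap.ker_eq_bot']
    rintro ⟨w, hw⟩ h0
    have h1 : π w = 0 := congrArg Subtype.val h0
    have h2 : w = Sum.elim (w ∘ Sum.inl) 0 := by
      ext i
      rcases i with i | i
      · simp
      · have := congrFun h1 i
        simpa [π, LinearMap.funLeft_apply] using this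
    obtain ⟨x, hx⟩ := hw
    have h3 : w ∘ Sum.inl = 0 := by
      apply hi x
      rw [← h2]
      exact hx
    apply Subtype.ext
    show w = 0
    rw [h2, h3]
    ext i
    rcases i with i | i <;> simp
  exact LinearMap.finrank_le_finrank_of_injective hinj

end ALK
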