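import Mathlib

/-!
# A12: at most two eigenvalues with large eigenspaces (Mathlib only, size S-M)

Let `dim E = n`, `12 r + 4 ≤ n`, `2 s ≤ n + 1`. The scalars `μ` with `rank (B - μ) < s + 2 r` are at most
two: for such `μ` the eigenspace has dimension `n - rank (B - μ) ≥ n - s - 2 r + 1 ≥ (n + 1) / 2 - 2 r`
(rank-nullity); eigenspaces for different eigenvalues are independent
(`Module.End.eigenspaces_iSupIndep`; for three of them: `dim E₁ + dim E₂ + dim E₃ ≤ n`), so three
different ones would give `3 (n + 1) / 2 - 6 r ≤ n`, i.e. `n + 3 ≤ 12 r`.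
-/

set_option autoImplicit false

namespace ALK

variable {K E : Type*} [Field K] [AddCommGroup E] [Module K E] [FiniteDimensional K E]

private theorem three_eig (B : E →ₗ[K] E) (a b c : K) (hab : a ≠ b) (hac : a ≠ c) (hbc : b ≠ c) :
    Module.finrank K (Module.End.eigenspace B a) + Module.finrank K (Module.End.eigenspace B b) +
      Module.finrank K (Module.End.eigenspace B c) ≤ Module.finrank K E := by
  have hind := Module.End.eigenspaces_iSupIndep B
  have h1 : Disjoint (Module.End.eigenspace B a) (Module.End.eigenspace B b) :=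
    hind.pairwiseDisjoint hab
  have h2 : Disjoint (Module.End.eigenspace B c)
      (Module.End.eigenspace B a ⊔ Module.End.eigenspace B b) := by
    refine (hind c).mono_right (sup_le ?_ ?_)
    · exact le_iSup₂_of_le a hac le_rfl
    · exact le_iSup₂_of_le b hbc le_rfl
  have e1 := Submodule.finrank_sup_add_finrank_inf_eq (Module.End.eigenspace B a)
    (Module.End.eigenspace B b)
  rw [h1.eq_bot, finrank_bot] at e1
  have e2 := Submodule.finrank_sup_add_finrank_inf_eq (Module.End.eigenspace B c)
    (Module.End.eigenspace B a ⊔ Module.End.eigenspace B b)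
  rw [h2.eq_bot, finrank_bot] at e2
  have e3 := Submodule.finrank_le (Module.End.eigenspace B c ⊔
    (Module.End.eigenspace B a ⊔ Module.End.eigenspace B b))
  omega

theorem crit_two (B : E →ₗ[K] E) (r s : ℕ) (hn : 12 * r + 4 ≤ Module.finrank K E)
    (hs : 2 * s ≤ Module.finrank K E + 1) :
    ∃ μ₁ μ₂ : K, ∀ μ : K, Module.finrank K (LinearMap.range (B - μ • LinearMap.id)) < s + 2 * r →
      μ = μ₁ ∨ μ = μ₂ := by
  by_contra hcon
  push Not at hcon
  obtain ⟨a, ha, _, _⟩ := hcon 0 0
  obtain ⟨b, hb, hba, _⟩ := hcon a a
  obtain ⟨c, hc, hca, hcb⟩ := hcon a b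
  have key : ∀ μ : K, Module.finrank K (LinearMap.range (B - μ • LinearMap.id)) < s + 2 * r →
      Module.finrank K E < Module.finrank K (Module.End.eigenspace B μ) + s + 2 * r := by
    intro μ hμ
    have h1 := LinearMap.finrank_range_add_finrank_ker (B - μ • LinearMap.id)
    have h2 : Module.End.eigenspace B μ = LinearMap.ker (B - μ • LinearMap.id) := by
      rw [Module.End.eigenspace_def]
      rfl
    rw [h2]
    omega
  have h := three_eig B a b c (Ne.symm hba) (Ne.symm hca) (Ne.symm hcb)
  have ka := key a ha
  have kb := key b hb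
  have kc := key c hc
  omega

end ALK
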