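import Pool.Agent.Work.MP_05d08f_al.AS.A01
import Pool.Agent.Work.MP_05d08f_al.AS.A09
import Pool.Agent.Work.MP_05d08f_al.AS.A10
import Pool.Agent.Work.MP_05d08f_al.AS.A11
import Pool.Agent.Work.MP_05d08f_al.AS.A12

set_option autoImplicit false
set_option linter.unusedSectionVars false

/-!
# A13: removal lemma (assembly of A09 - A12, size M-L)

Let `B` be an `ι × ι` matrix, `card ι = r + n'`, `12 r + 4 ≤ card ι`, `2 s ≤ card ι + 1`, `2 r ≤ s` and
`rank (B - μ) ≥ s` for all `μ`. Then `B` is similar to `fromBlocks 0 b c D` (blocks of sizes `r`, `n'`)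
with `rank (D - μ) ≥ s` for all `μ`.

PROOF. Work with `f = B.mulVecLin` on `E = ι → K`, `n = card ι`, `N_μ = f - μ`. By `crit_two` there are `μ₁, μ₂` such
that `rank N_μ ≥ s + 2 r` for `μ ∉ {μ₁, μ₂}`. For `k = 1, 2` put `F_k = range N_{μ_k}`,
`K_k = ker N_{μ_k}` if `rank N_{μ_k} < s + 2 r` (call `μ_k` critical) and `F_k = ⊥`, `K_k = ⊤` otherwise.
If `μ_k` is critical: `dim F_k + r ≤ s + 3 r - 1 < n` (as `2 s ≤ n + 1`, `12 r + 4 ≤ n`) and
`dim K_k = n - rank ≥ n - s - 2 r + 1 ≥ 4 r`; otherwise the two inequalities are trivial.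
`rem_vectors` gives `t : Fin r → E` (the hypothesis `2 r ≤ rank` holds as `2 r ≤ s`), and
`rem_functionals` with `s a := f (t a)` gives `φ : E → (Fin r → K)` with `φ (t a) = e_a`,
`φ (f (t a)) = 0`, `φ (K_k) = ⊤`. Let `W = ker φ`; `φ` is onto (the `φ (t a)` are the standard basis), so
`dim W = n - r = n'`. Let `w : Fin n' → E` be a basis of `W`. Then `t, w` is a basis of `E` indexed by
`Fin r ⊕ Fin n'` (independent: apply `φ`), and the coordinates of `x` on the `t a` are `φ x`. Let
`M = fromBlocks A b c D` be the matrix of `f` in this basis (columns = coordinates of the images). The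
column of `t a` has `t`-coordinates `φ (f (t a)) = 0`, so `A = 0`. `Sim B M`, hence
`Sim (B - μ • 1) (M - μ • 1)`, and `M - μ • 1 = fromBlocks (A - μ • 1) b c (D - μ • 1)`.
Let `μ ∈ K`. If `μ` is not critical: `rank_le_blocks` gives
`rank (D - μ) ≥ rank (B - μ) - 2 r ≥ s`. If `μ = μ_k` is critical: apply `rank_eq_blocks` to `M - μ • 1`:
(k) for `y : Fin r → K` there is `x ∈ K_k = ker N_μ` with `φ x = y`; in coordinates `x = (y, z)`;
(i) if `N_μ x = ∑ y_a t a` then this vector lies in `span t ∩ range N_μ = 0`, so `y = 0`.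
So `rank (D - μ) ≥ rank (B - μ) ≥ s`.
-/

namespace ALK

open Matrix

variable {K : Type*} [Field K] {ι : Type*} [Fintype ι] [DecidableEq ι]

/-- the basis `t, w` -/
private theorem exists_basis {r n' : ℕ} (hcard : Fintype.card ι = r + n') (t : Fin r → (ι → K))
    (φ : (ι → K) →ₗ[K] (Fin r → K)) (hφt : ∀ a, φ (t a) = Pi.single a 1) :
    ∃ bb : Module.Basis (Fin r ⊕ Fin n') K (ι → K), (∀ a, bb (Sum.inl a) = t a) ∧
      ∀ x a, bb.repr x (Sum.inl a) = φ x a := by
  have hsurj : LinearMap.range φ = ⊤ := by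
    rw [eq_top_iff]
    intro y _
    refine ⟨∑ a, y a • t a, ?_⟩
    rw [map_sum]
    simp only [map_smul, hφt]
    funext b
    simp [Finset.sum_apply, Pi.single_apply]
  have hdim : Module.finrank K (LinearMap.ker φ) = n' := by
    have h1 := LinearMap.finrank_range_add_finrank_ker φ
    rw [hsurj, finrank_top, Module.finrank_fintype_fun_eq_card, Module.finrank_fintype_fun_eq_card,
      Fintype.card_fin, hcard] at h1
    omega
  let w : Module.Basis (Fin n') K (LinearMap.ker φ) := Module.finBasisOfFinrankEq K _ hdim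
  have hw : ∀ b, φ (w b : ι → K) = 0 := fun b => LinearMap.mem_ker.1 (w b).2
  have hφsum : ∀ g : Fin r ⊕ Fin n' → K,
      φ (∑ i, g i • Sum.elim t (fun b => (w b : ι → K)) i) = fun a => g (Sum.inl a) := by
    intro g
    rw [Fintype.sum_sum_type, map_add, map_sum, map_sum]
    simp only [Sum.elim_inl, Sum.elim_inr, map_smul, hφt, hw, smul_zero, Finset.sum_const_zero, add_zero]
    funext b
    simp [Finset.sum_apply, Pi.single_apply]
  have hli : LinearIndependent K (Sum.elim t (fun b => (w b : ι → K))) := by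
    rw [Fintype.linearIndependent_iff]
    intro g hg
    have h1 : ∀ a, g (Sum.inl a) = 0 := by
      intro a
      have h2 := hφsum g
      rw [hg, map_zero] at h2
      exact (congrFun h2 a).symm
    have h3 : ∑ b, g (Sum.inr b) • w b = 0 := by
      apply Subtype.ext
      rw [Fintype.sum_sum_type] at hg
      simp only [Sum.elim_inl, Sum.elim_inr, h1, zero_smul, Finset.sum_const_zero, zero_add] at hg
      rw [Submodule.coe_sum]
      simpa using hg
    have h4 := Fintype.linearIndependent_iff.1 w.linearIndependent _ h3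
    rintro (a | b)
    · exact h1 a
    · exact h4 b
  have hc : Fintype.card (Fin r ⊕ Fin n') = Module.finrank K (ι → K) := by
    rw [Fintype.card_sum, Fintype.card_fin, Fintype.card_fin, Module.finrank_fintype_fun_eq_card, hcard]
  rcases isEmpty_or_nonempty (Fin r ⊕ Fin n') with hemp | hne
  · have h0 : Module.finrank K (ι → K) = 0 := by
      rw [← hc]
      exact Fintype.card_eq_zero
    have hsub : Subsingleton (ι → K) := Module.finrank_zero_iff.1 h0
    refine ⟨Module.Basis.empty _, fun a => (hemp.false (Sum.inl a)).elim, fun x a => (hemp.false (Sum.inl a)).elim⟩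
  · let bb := basisOfLinearIndependentOfCardEqFinrank hli hc
    have hbb : ∀ i, bb i = Sum.elim t (fun b => (w b : ι → K)) i := by
      intro i
      have := coe_basisOfLinearIndependentOfCardEqFinrank hli hc
      exact congrFun this i
    refine ⟨bb, fun a => by rw [hbb]; rfl, fun x a => ?_⟩
    have h1 := hφsum (fun i => bb.repr x i)
    have h2 : ∑ i, bb.repr x i • Sum.elim t (fun b => (w b : ι → K)) i = x := by
      conv_rhs => rw [← bb.sum_repr x]
      exact Finset.sum_congr rfl fun i _ => by rw [hbb]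
    rw [h2] at h1
    exact (congrFun h1 a).symm

theorem removal [Infinite K] (B : Matrix ι ι K) (r n' s : ℕ) (hcard : Fintype.card ι = r + n')
    (hn : 12 * r + 4 ≤ Fintype.card ι) (hs : 2 * s ≤ Fintype.card ι + 1) (hrs : 2 * r ≤ s)
    (hB : ∀ μ : K, s ≤ (B - μ • (1 : Matrix ι ι K)).rank) :
    ∃ (b : Matrix (Fin r) (Fin n') K) (c : Matrix (Fin n') (Fin r) K)
      (D : Matrix (Fin n') (Fin n') K),
      Sim B (Matrix.fromBlocks (0 : Matrix (Fin r) (Fin r) K) b c D) ∧
      ∀ μ : K, s ≤ (D - μ • (1 : Matrix (Fin n') (Fin n') K)).rank := by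
  classical
  set f : (ι → K) →ₗ[K] (ι → K) := B.mulVecLin with hf
  have hfin : Module.finrank K (ι → K) = Fintype.card ι := Module.finrank_fintype_fun_eq_card K
  have hrank : ∀ μ : K, (B - μ • (1 : Matrix ι ι K)).rank =
      Module.finrank K (LinearMap.range (f - μ • LinearMap.id)) := by
    intro μ
    have h1 : (B - μ • (1 : Matrix ι ι K)).mulVecLin = f - μ • LinearMap.id := by
      ext x i
      simp [hf]
    rw [Matrix.rank, h1]
  obtain ⟨μ₁, μ₂, hcrit⟩ := crit_two f r s (by rw [hfin]; exact hn) (by rw [hfin]; exact hs)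
  have hex : ∀ μ : K, ∃ F W : Submodule K (ι → K), Module.finrank K F + r < Module.finrank K (ι → K) ∧
      4 * r ≤ Module.finrank K W ∧
      (Module.finrank K (LinearMap.range (f - μ • LinearMap.id)) < s + 2 * r →
        F = LinearMap.range (f - μ • LinearMap.id) ∧ W = LinearMap.ker (f - μ • LinearMap.id)) := by
    intro μ
    by_cases h : Module.finrank K (LinearMap.range (f - μ • LinearMap.id)) < s + 2 * r
    · refine ⟨_, _, ?_, ?_, fun _ => ⟨rfl, rfl⟩⟩
      · rw [hfin]
        omega
      · have := LinearMap.finrank_range_add_finrank_ker (f - μ • LinearMap.id)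
        rw [hfin] at this
        omega
    · refine ⟨⊥, ⊤, ?_, ?_, fun h' => absurd h' h⟩
      · rw [finrank_bot, hfin]
        omega
      · rw [finrank_top, hfin]
        omega
  obtain ⟨F₁, W₁, h1a, h1b, h1c⟩ := hex μ₁
  obtain ⟨F₂, W₂, h2a, h2b, h2c⟩ := hex μ₂
  obtain ⟨t, hts, hd1, hd2⟩ := rem_vectors f r (fun μ => hrs.trans (by rw [← hrank]; exact hB μ)) F₁ F₂ h1a h2a
  obtain ⟨φ, hφt, hφs, hφ1, hφ2⟩ := rem_functionals r t (fun a => f (t a)) hts W₁ W₂ h1b h2b
  obtain ⟨bb, hbt, hbφ⟩ := exists_basis hcard t φ hφt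
  set M := LinearMap.toMatrix bb bb f with hM
  have hsim : Sim B M := by
    refine ⟨(Pi.basisFun K ι).toMatrix bb, bb.toMatrix (Pi.basisFun K ι), ?_, ?_, ?_⟩
    · exact Module.Basis.toMatrix_mul_toMatrix_flip _ _
    · exact Module.Basis.toMatrix_mul_toMatrix_flip _ _
    · have h1 := basis_toMatrix_mul_linearMap_toMatrix_mul_basis_toMatrix bb (Pi.basisFun K ι) bb (Pi.basisFun K ι) f
      have h2 : LinearMap.toMatrix (Pi.basisFun K ι) (Pi.basisFun K ι) f = B := by
        rw [LinearMap.toMatrix_eq_toMatrix', hf]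
        exact LinearMap.toMatrix'_toLin' B
      rw [h2] at h1
      exact h1
  have h11 : M.toBlocks₁₁ = 0 := by
    ext a' a
    show M (Sum.inl a') (Sum.inl a) = 0
    rw [hM, LinearMap.toMatrix_apply, hbφ, hbt, hφs]
    rfl
  have hMb : M = Matrix.fromBlocks 0 M.toBlocks₁₂ M.toBlocks₂₁ M.toBlocks₂₂ := by
    rw [← h11, Matrix.fromBlocks_toBlocks]
  refine ⟨M.toBlocks₁₂, M.toBlocks₂₁, M.toBlocks₂₂, by rw [← hMb]; exact hsim, fun μ => ?_⟩
  have hMμ : M - μ • (1 : Matrix (Fin r ⊕ Fin n') (Fin r ⊕ Fin n') K) =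
      Matrix.fromBlocks (0 - μ • (1 : Matrix (Fin r) (Fin r) K)) M.toBlocks₁₂ M.toBlocks₂₁
        (M.toBlocks₂₂ - μ • (1 : Matrix (Fin n') (Fin n') K)) := by
    conv_lhs => rw [hMb]
    ext (a | b) (a' | b')
    · simp [Matrix.one_apply]
    · simp
    · simp
    · simp [Matrix.one_apply]
  have hMf : LinearMap.toMatrix bb bb (f - μ • LinearMap.id) =
      M - μ • (1 : Matrix (Fin r ⊕ Fin n') (Fin r ⊕ Fin n') K) := by
    rw [map_sub, map_smul, LinearMap.toMatrix_id]
  have hr : (M - μ • (1 : Matrix (Fin r ⊕ Fin n') (Fin r ⊕ Fin n') K)).rank =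
      (B - μ • (1 : Matrix ι ι K)).rank := (hsim.sub_smul μ).rank_eq.symm
  have hBμ := hB μ
  by_cases hc : Module.finrank K (LinearMap.range (f - μ • LinearMap.id)) < s + 2 * r
  · -- critical
    have hW : (LinearMap.ker (f - μ • LinearMap.id)).map φ = ⊤ ∧
        Disjoint (Submodule.span K (Set.range t)) (LinearMap.range (f - μ • LinearMap.id)) := by
      rcases hcrit μ hc with rfl | rfl
      · obtain ⟨e1, e2⟩ := h1c hc
        rw [← e1, ← e2]
        exact ⟨hφ1, hd1⟩
      · obtain ⟨e1, e2⟩ := h2c hc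
        rw [← e1, ← e2]
        exact ⟨hφ2, hd2⟩
    have h2 := rank_eq_blocks (0 - μ • (1 : Matrix (Fin r) (Fin r) K)) M.toBlocks₁₂ M.toBlocks₂₁
      (M.toBlocks₂₂ - μ • (1 : Matrix (Fin n') (Fin n') K)) ?_ ?_
    · rw [← hMμ, hr] at h2
      exact hBμ.trans h2
    · intro y
      have hy : y ∈ (LinearMap.ker (f - μ • LinearMap.id)).map φ := by
        rw [hW.1]
        trivial
      obtain ⟨x, hx, hxy⟩ := Submodule.mem_map.1 hy
      refine ⟨fun b => bb.repr x (Sum.inr b), ?_⟩
      have h3 : Sum.elim y (fun b => bb.repr x (Sum.inr b)) = ⇑(bb.repr x) := by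
        funext i
        rcases i with a | b
        · rw [Sum.elim_inl, hbφ, hxy]
        · rfl
      rw [← hMμ, ← hMf, h3, LinearMap.toMatrix_mulVec_repr, LinearMap.mem_ker.1 hx, map_zero]
      rfl
    · intro x y hxy
      set X := bb.equivFun.symm x with hX
      have hXx : ⇑(bb.repr X) = x := by
        have := bb.equivFun.apply_symm_apply x
        exact this
      rw [← hMμ, ← hMf, ← hXx, LinearMap.toMatrix_mulVec_repr] at hxy
      have h3 : (f - μ • LinearMap.id : (ι → K) →ₗ[K] (ι → K)) X = ∑ a, y a • t a := by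
        apply bb.repr.injective
        apply Finsupp.ext
        intro i
        rw [congrFun hxy i]
        rcases i with a | b
        · rw [hbφ, map_sum]
          simp [hφt, Finset.sum_apply, Pi.single_apply]
        · rw [map_sum, Finsupp.finsetSum_apply]
          simp only [map_smul, ← hbt, Module.Basis.repr_self, Finsupp.smul_apply]
          simp
      have h4 : ∑ a, y a • t a = 0 := by
        have h5 : ∑ a, y a • t a ∈ Submodule.span K (Set.range t) :=
          Submodule.sum_mem _ fun a _ => Submodule.smul_mem _ _ (Submodule.subset_span ⟨a, rfl⟩)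
        have h6 : ∑ a, y a • t a ∈ LinearMap.range (f - μ • LinearMap.id) := ⟨X, h3⟩
        exact Submodule.disjoint_def.1 hW.2 _ h5 h6
      have h7 := congrArg φ h4
      rw [map_sum, map_zero] at h7
      funext a
      have h8 := congrFun h7 a
      simpa [hφt, Finset.sum_apply, Pi.single_apply] using h8
  · have h2 := rank_le_blocks (0 - μ • (1 : Matrix (Fin r) (Fin r) K)) M.toBlocks₁₂ M.toBlocks₂₁
      (M.toBlocks₂₂ - μ • (1 : Matrix (Fin n') (Fin n') K))
    rw [← hMμ, hr, hrank] at h2
    omega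

end ALK
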