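import Pool.Agent.Work.MP_05d08f_al.AS.A03
import Pool.Agent.Work.MP_05d08f_al.AS.A04
import Pool.Agent.Work.MP_05d08f_al.AS.A05
import Pool.Agent.Work.MP_05d08f_al.AS.A08
import Pool.Agent.Work.MP_05d08f_al.AS.A13

set_option autoImplicit false

/-!
# A14: matrices far from scalars are similar to matrices with zero diagonal blocks (size M)

`even_case`: `pencil_nf` gives `Sim B (fromBlocks 0 b 1 D)` and `tr D = tr B = 0` (`Sim.trace_eq`,
`Matrix.trace_fromBlocks`). If `D` is not scalar use `hol_split`, otherwise `scal_split`; then `ZB.glue`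
and `ZB.of_sim`.

`la_main`: strong induction on `n = card ι` (for all `ι`, generalising over `B`; it is convenient to
induct on `n` for `ι = Fin n` and to transport with `Sim.submatrix`, `ZB.of_sim`). Note `sig r ≤ n`
(`rank ≤ n`, take `μ = 0`).
 * `n = 2 j` even and `rank (B - μ) ≥ j` for all `μ`: `even_case`; `2 j = n ≥ sig r` gives
   `(r + 2) (r + 3) < j` and `3 r ≤ j`.
 * `n = 2 j + 1` odd and `rank (B - μ) ≥ j + 1` for all `μ`: let `r' ∈ {r, r + 1}` be odd. `removal` with
   `r'`, `n' = n - r'`, `s = j + 1` (`2 s ≤ n + 1`, `2 r' ≤ s`) gives `Sim B (fromBlocks 0 b c D)` with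
   `rank (D - μ) ≥ j + 1 ≥ n' / 2`, `n'` even; `tr D = 0`. `even_case` applies to `D`
   (`n' ≥ sig r - r - 1 ≥ 2 ((r + 2) (r + 3) + 1)`), and `ZB.join` with `ZB.zero` (`r ≤ r'`) gives
   `ZB r (fromBlocks 0 b c D)`.
 * otherwise there is `μ₀` with `2 rank (B - μ₀) ≤ n`. Let `s` be the minimum of the numbers
   `rank (B - μ)` (`Nat.find` or `Nat.sInf`); `sig r ≤ s`, `2 s ≤ n`. `removal` with `r`, `n' = n - r`, `s` gives
   `fromBlocks 0 b c D` with `rank (D - μ) ≥ s ≥ sig r`, `tr D = 0`; the induction hypothesis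
   gives `ZB r D` (`1 ≤ r` so `n' < n`), then `ZB.join`.
-/

namespace ALK

open Matrix

variable {K : Type*} [Field K] {ι : Type*} [Fintype ι] [DecidableEq ι]

private theorem tr_blocks {α α' : Type*} [Fintype α] [Fintype α'] (A : Matrix α α K)
    (b : Matrix α α' K) (c : Matrix α' α K) (D : Matrix α' α' K) :
    (Matrix.fromBlocks A b c D).trace = A.trace + D.trace := by
  simp only [Matrix.trace, Fintype.sum_sum_type, Matrix.diag_apply, Matrix.fromBlocks_apply₁₁,
    Matrix.fromBlocks_apply₂₂]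

/-- The bound for the distance to the scalars. -/
def sig (r : ℕ) : ℕ := 2 * ((r + 2) * (r + 3) + 1) + (r + 1) + 12 * (r + 1) + 4

theorem even_case {r j : ℕ} (hr : 1 ≤ r) (hj : (r + 2) * (r + 3) < j) (hj' : 3 * r ≤ j)
    (B : Matrix ι ι K) (hcard : Fintype.card ι = 2 * j) (htr : B.trace = 0)
    (hB : ∀ μ : K, j ≤ (B - μ • (1 : Matrix ι ι K)).rank) : ZB r B := by
  obtain ⟨b, D, hs⟩ := pencil_nf B j hcard hB
  have hD : D.trace = 0 := by
    have h1 := hs.trace_eq
    rw [tr_blocks, Matrix.trace_zero, zero_add, htr] at h1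
    exact h1.symm
  by_cases h : ∃ t : K, D = t • (1 : Matrix (Fin j) (Fin j) K)
  · obtain ⟨t, rfl⟩ := h
    obtain ⟨h₁, h₂, h3, h4, h5⟩ := scal_split hr hj' t hD
    exact ZB.of_sim hs (ZB.glue b _ h₁ h₂ h3 h4 h5)
  · obtain ⟨h₁, h₂, h3, h4, h5⟩ := hol_split hj D hD (fun t e => h ⟨t, e⟩)
    exact ZB.of_sim hs (ZB.glue b _ h₁ h₂ h3 h4 h5)

private theorem trace_block {m n k : ℕ} {B : Matrix (Fin m) (Fin m) K} {b : Matrix (Fin n) (Fin k) K}
    {c : Matrix (Fin k) (Fin n) K} {D : Matrix (Fin k) (Fin k) K}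
    (hs : Sim B (Matrix.fromBlocks (0 : Matrix (Fin n) (Fin n) K) b c D)) (htr : B.trace = 0) :
    D.trace = 0 := by
  have h1 := hs.trace_eq
  rw [tr_blocks, Matrix.trace_zero, zero_add, htr] at h1
  exact h1.symm

private theorem la_fin [Infinite K] {r : ℕ} (hr : 1 ≤ r) (n : ℕ) :
    ∀ B : Matrix (Fin n) (Fin n) K, B.trace = 0 →
      (∀ μ : K, sig r ≤ (B - μ • (1 : Matrix (Fin n) (Fin n) K)).rank) → ZB r B := by
  induction n using Nat.strong_induction_on with
  | _ n ih =>
    intro B htr hB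
    have hn : sig r ≤ n := by
      refine (hB 0).trans ?_
      have h1 := Matrix.rank_le_card_width (B - (0 : K) • (1 : Matrix (Fin n) (Fin n) K))
      rwa [Fintype.card_fin] at h1
    obtain ⟨q, hq⟩ : ∃ q, q = (r + 2) * (r + 3) := ⟨_, rfl⟩
    have hsig : sig r = 2 * (q + 1) + (r + 1) + 12 * (r + 1) + 4 := by
      unfold sig
      rw [hq]
    by_cases hex : ∃ μ : K, 2 * (B - μ • (1 : Matrix (Fin n) (Fin n) K)).rank ≤ n
    · obtain ⟨μ₀, hμ₀⟩ := hex
      classical
      have hex2 : ∃ s, ∃ μ : K, (B - μ • (1 : Matrix (Fin n) (Fin n) K)).rank = s := ⟨_, μ₀, rfl⟩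
      obtain ⟨s, hs⟩ : ∃ s, s = Nat.find hex2 := ⟨_, rfl⟩
      have h1 : ∀ μ : K, s ≤ (B - μ • (1 : Matrix (Fin n) (Fin n) K)).rank := by
        intro μ
        rw [hs]
        exact Nat.find_min' hex2 ⟨μ, rfl⟩
      have h2 : sig r ≤ s := by
        obtain ⟨μ, hμ⟩ := Nat.find_spec hex2
        rw [hs, ← hμ]
        exact hB μ
      have h3 := h1 μ₀
      obtain ⟨b, c, D, h4, h5⟩ := removal B r (n - r) s (by rw [Fintype.card_fin]; omega)
        (by rw [Fintype.card_fin]; omega) (by rw [Fintype.card_fin]; omega) (by omega) h1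
      refine ZB.of_sim h4 (ZB.join b c (ZB.zero (by rw [Fintype.card_fin])) ?_)
      exact ih (n - r) (by omega) D (trace_block h4 htr) (fun μ => h2.trans (h5 μ))
    · push Not at hex
      rcases Nat.even_or_odd' n with ⟨j, hj | hj⟩
      · subst hj
        refine even_case hr (j := j) (by rw [← hq]; omega) (by omega) B (by rw [Fintype.card_fin]) htr
          (fun μ => ?_)
        have := hex μ
        omega
      · subst hj
        obtain ⟨r', hr1, hr2, hr3⟩ : ∃ r', r ≤ r' ∧ r' ≤ r + 1 ∧ r' % 2 = 1 := by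
          rcases Nat.even_or_odd' r with ⟨k, hk | hk⟩
          · exact ⟨r + 1, by omega, le_rfl, by omega⟩
          · exact ⟨r, le_rfl, by omega, by omega⟩
        obtain ⟨b, c, D, h4, h5⟩ := removal B r' (2 * j + 1 - r') (j + 1)
          (by rw [Fintype.card_fin]; omega) (by rw [Fintype.card_fin]; omega)
          (by rw [Fintype.card_fin]; omega) (by omega) (fun μ => by
            have := hex μ
            omega)
        refine ZB.of_sim h4 (ZB.join b c (ZB.zero (by rw [Fintype.card_fin]; exact hr1)) ?_)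
        refine even_case hr (j := (2 * j + 1 - r') / 2) (by rw [← hq]; omega) (by omega) D
          (by rw [Fintype.card_fin]; omega) (trace_block h4 htr) (fun μ => ?_)
        have := h5 μ
        omega

theorem la_main [Infinite K] {r : ℕ} (hr : 1 ≤ r) (B : Matrix ι ι K) (htr : B.trace = 0)
    (hB : ∀ μ : K, sig r ≤ (B - μ • (1 : Matrix ι ι K)).rank) : ZB r B := by
  let e : Fin (Fintype.card ι) ≃ ι := (Fintype.equivFin ι).symm
  have hs := Sim.submatrix B e
  refine ZB.of_sim hs (la_fin hr _ _ ?_ fun μ => ?_)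
  · rw [← hs.trace_eq, htr]
  · rw [← (hs.sub_smul μ).rank_eq]
    exact hB μ

end ALK
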