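import Pool.Agent.Work.MP_05d08f_al.AS.A01

set_option autoImplicit false

/-!
# A15: matrices of small rank (size M)

`low_nf`: let `rank N ≤ ρ`, `2 ρ ≤ n₀`, `card ι = n₀ + n₁`. Then `N` is similar to `fromBlocks N₀ 0 0 0`.
PROOF. `E = ι → K`, `f = N.mulVecLin`. Let `C` be a complement of `ker f`; `dim C = rank N ≤ ρ`. Let
`U = range f + C`, `dim U ≤ 2 ρ ≤ n₀`. There is a subspace `E₁ ≤ ker f` with `dim E₁ = n₁` and
`E₁ ∩ U = 0`: a complement `E₁'` of `ker f ∩ U` in `ker f` has `E₁' ∩ U = 0` and `E₁' + U = E` (as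
`ker f + C = E`), so `dim E₁' ≥ (n₀ + n₁) - n₀ = n₁`; take a subspace of dimension `n₁` of `E₁'`. Let `E₀` be a
complement of `E₁` in `E` containing `U` (`Submodule.exists_isCompl` in a suitable form:
since `E₁ ∩ U = 0` there is a complement of `E₁` containing `U`: take a complement `E₂` of `E₁ + U`
and `E₀ = U + E₂`). `dim E₀ = n₀`. Take a basis of `E` consisting of a basis of `E₀` (indexed by
`Fin n₀`) and a basis of `E₁` (indexed by `Fin n₁`). `f` kills `E₁` and `range f ≤ U ≤ E₀`. So the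
matrix is `fromBlocks N₀ 0 0 0`.
-/

namespace ALK

open Matrix

variable {K : Type*} [Field K] {ι : Type*} [Fintype ι] [DecidableEq ι]

private theorem exists_sub_finrank {V : Type*} [AddCommGroup V] [Module K V]
    [FiniteDimensional K V] (W : Submodule K V) (n : ℕ) (hn : n ≤ Module.finrank K W) :
    ∃ W' : Submodule K V, W' ≤ W ∧ Module.finrank K W' = n := by
  obtain ⟨f, hf⟩ := exists_linearIndependent_of_le_finrank hn
  have hf' : LinearIndependent K (fun j => (f j : V)) :=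
    hf.map' W.subtype (Submodule.ker_subtype W)
  refine ⟨Submodule.span K (Set.range fun j => (f j : V)), ?_, ?_⟩
  · rw [Submodule.span_le]
    rintro _ ⟨j, rfl⟩
    exact (f j).2
  · rw [finrank_span_eq_card hf', Fintype.card_fin]

private theorem exists_split {V : Type*} [AddCommGroup V] [Module K V]
    [FiniteDimensional K V] (f : V →ₗ[K] V) (ρ n₀ n₁ : ℕ)
    (hρ : Module.finrank K (LinearMap.range f) ≤ ρ) (hn₀ : 2 * ρ ≤ n₀)
    (hn : Module.finrank K V = n₀ + n₁) :
    ∃ E₀ E₁ : Submodule K V, IsCompl E₀ E₁ ∧ Module.finrank K E₀ = n₀ ∧ Module.finrank K E₁ = n₁ ∧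
      LinearMap.range f ≤ E₀ ∧ E₁ ≤ LinearMap.ker f := by
  obtain ⟨C, hC⟩ := Submodule.exists_isCompl (LinearMap.ker f ⊓ LinearMap.range f)
  -- a complement in the kernel
  have hk := LinearMap.finrank_range_add_finrank_ker f
  let W : Submodule K V := LinearMap.ker f ⊓ C
  have hW1 : Disjoint (LinearMap.range f) W := by
    rw [disjoint_iff]
    have h1 : LinearMap.range f ⊓ W = (LinearMap.ker f ⊓ LinearMap.range f) ⊓ C := by
      show LinearMap.range f ⊓ (LinearMap.ker f ⊓ C) = _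
      rw [← inf_assoc, inf_comm (LinearMap.range f)]
    rw [h1]
    exact hC.inf_eq_bot
  have hW2 : n₁ ≤ Module.finrank K W := by
    have h1 := Submodule.finrank_add_eq_of_isCompl hC
    have h2 : Module.finrank K ↥(LinearMap.ker f ⊓ LinearMap.range f) ≤
        Module.finrank K (LinearMap.range f) := Submodule.finrank_mono inf_le_right
    have h3 := Submodule.finrank_sup_add_finrank_inf_eq (LinearMap.ker f) C
    have h4 : Module.finrank K ↥(LinearMap.ker f ⊔ C) ≤ Module.finrank K V :=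
      Submodule.finrank_le _
    show n₁ ≤ Module.finrank K ↥(LinearMap.ker f ⊓ C)
    omega
  obtain ⟨E₁, hE₁, hd₁⟩ := exists_sub_finrank W n₁ hW2
  obtain ⟨E₀, hE₀, hc⟩ := (hW1.mono_right hE₁).exists_isCompl
  refine ⟨E₀, E₁, hc, ?_, hd₁, hE₀, hE₁.trans inf_le_left⟩
  have h1 := Submodule.finrank_add_eq_of_isCompl hc
  omega

theorem low_nf (N : Matrix ι ι K) (ρ n₀ n₁ : ℕ) (hρ : N.rank ≤ ρ) (hn₀ : 2 * ρ ≤ n₀)
    (hn : Fintype.card ι = n₀ + n₁) :
    ∃ N₀ : Matrix (Fin n₀) (Fin n₀) K,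
      Sim N (Matrix.fromBlocks N₀ 0 0 (0 : Matrix (Fin n₁) (Fin n₁) K)) := by
  classical
  obtain ⟨f, hf⟩ : ∃ f : (ι → K) →ₗ[K] (ι → K), f = Matrix.toLin' N := ⟨_, rfl⟩
  obtain ⟨E₀, E₁, hc, h0, h1, hr, hk⟩ := exists_split f ρ n₀ n₁ (by
    rw [hf]; exact hρ) hn₀ (by rw [Module.finrank_fintype_fun_eq_card, hn])
  let b : Module.Basis (Fin n₀ ⊕ Fin n₁) K (ι → K) :=
    ((Module.finBasisOfFinrankEq K E₀ h0).prod (Module.finBasisOfFinrankEq K E₁ h1)).map
      (Submodule.prodEquivOfIsCompl E₀ E₁ hc)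
  have hbl : ∀ j, b (Sum.inl j) ∈ E₀ := by
    intro j
    simp [b]
  have hbr : ∀ j, b (Sum.inr j) ∈ E₁ := by
    intro j
    simp [b]
  have hrepr : ∀ x ∈ E₀, ∀ j, b.repr x (Sum.inr j) = 0 := by
    intro x hx j
    simp only [b, Module.Basis.map_repr, LinearEquiv.trans_apply, Module.Basis.prod_repr_inr]
    have : (Submodule.prodEquivOfIsCompl E₀ E₁ hc).symm x = (⟨x, hx⟩, 0) := by
      rw [LinearEquiv.symm_apply_eq]
      simp
    rw [this]
    simp
  have hmat : LinearMap.toMatrix b b f = Matrix.fromBlocks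
      (Matrix.of fun i j => b.repr (f (b (Sum.inl j))) (Sum.inl i)) 0 0
      (0 : Matrix (Fin n₁) (Fin n₁) K) := by
    ext i j
    rw [LinearMap.toMatrix_apply]
    rcases j with j | j
    · rcases i with i | i
      · simp
      · rw [hrepr _ (hr (LinearMap.mem_range_self f _))]
        simp
    · rw [LinearMap.mem_ker.1 (hk (hbr j))]
      rcases i with i | i <;> simp
  refine ⟨Matrix.of fun i j => b.repr (f (b (Sum.inl j))) (Sum.inl i), (Pi.basisFun K ι).toMatrix b, b.toMatrix (Pi.basisFun K ι), ?_, ?_, ?_⟩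
  · exact Module.Basis.toMatrix_mul_toMatrix_flip _ _
  · exact Module.Basis.toMatrix_mul_toMatrix_flip _ _
  · have hN : N = LinearMap.toMatrix (Pi.basisFun K ι) (Pi.basisFun K ι) f := by
      rw [hf, LinearMap.toMatrix_eq_toMatrix', LinearMap.toMatrix'_toLin']
    rw [← hmat, hN]
    exact basis_toMatrix_mul_linearMap_toMatrix_mul_basis_toMatrix b (Pi.basisFun K ι)
      b (Pi.basisFun K ι) f

end ALK
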