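import Pool.Agent.Work.MP_05d08f_al.AS.A02
import Pool.Agent.Work.MP_05d08f_al.AS.A15

set_option autoImplicit false

/-!
# A16: trace zero matrices of small rank (size S-M)

Let `rank B ≤ ρ`, `tr B = 0`, `(2 ρ + 1) (r + 1) ≤ n = card ι`. Then `ZB r B`.
PROOF. `low_nf` with `n₀ = 2 ρ + 1`, `n₁ = n - n₀`: `Sim B (fromBlocks B₀ 0 0 0)`. `tr B₀ = 0`, and
`rank B₀ ≤ rank (fromBlocks B₀ 0 0 0) = rank B ≤ ρ < n₀` (`B₀` is a submatrix; or the range), so `B₀` is
`0` or not scalar (a nonzero scalar matrix has rank `n₀`). By `MLI.exists_hollow` `B₀` is similar to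
a matrix `B₁` with zero diagonal, so `Sim B (fromBlocks B₁ 0 0 0)`. Classes: `Sum.inl a ↦ a`,
`Sum.inr b ↦ b % n₀`. Two indices in the same class have entry `0` (`(inl a, inl a)`: the diagonal of
`B₁`; all others are `0`). The class of value `a < n₀` contains `inl a` and the `inr b`,
`b = a + k n₀ < n₁`, `k < r`: indeed `a + (r - 1) n₀ < r n₀ ≤ n₁` as `n ≥ n₀ (r + 1)`. So it has at least
`r` elements.
-/

namespace ALK

open Matrix

variable {K : Type*} [Field K] {ι : Type*} [Fintype ι] [DecidableEq ι]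

theorem low_zb {r ρ : ℕ} (B : Matrix ι ι K) (htr : B.trace = 0) (hρ : B.rank ≤ ρ)
    (hn : (2 * ρ + 1) * (r + 1) ≤ Fintype.card ι) : ZB r B := by
  obtain ⟨n₀, hn₀⟩ : ∃ n₀, n₀ = 2 * ρ + 1 := ⟨_, rfl⟩
  rw [← hn₀] at hn
  have hn0r : n₀ * (r + 1) = n₀ * r + n₀ := by ring
  obtain ⟨n₁, hn₁⟩ : ∃ n₁, Fintype.card ι = n₀ + n₁ := ⟨Fintype.card ι - n₀, by omega⟩
  have hle : n₀ * r ≤ n₁ := by omega
  obtain ⟨B₀, hS⟩ := low_nf B ρ n₀ n₁ hρ (by omega) hn₁
  have htr₀ : B₀.trace = 0 := by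
    have h1 := hS.trace_eq
    rw [htr] at h1
    have h2 : (Matrix.fromBlocks B₀ 0 0 (0 : Matrix (Fin n₁) (Fin n₁) K)).trace = B₀.trace := by
      simp [Matrix.trace, Fintype.sum_sum_type]
    rw [h2] at h1
    exact h1.symm
  have hrk : B₀.rank ≤ ρ := by
    have h1 : B₀ = (Matrix.fromCols 1 0 : Matrix (Fin n₀) (Fin n₀ ⊕ Fin n₁) K) *
        Matrix.fromBlocks B₀ 0 0 (0 : Matrix (Fin n₁) (Fin n₁) K) *
        (Matrix.fromRows 1 0 : Matrix (Fin n₀ ⊕ Fin n₁) (Fin n₀) K) := by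
      simp [Matrix.fromCols_mul_fromBlocks, Matrix.fromCols_mul_fromRows]
    calc B₀.rank = ((Matrix.fromCols 1 0 : Matrix (Fin n₀) (Fin n₀ ⊕ Fin n₁) K) *
          Matrix.fromBlocks B₀ 0 0 (0 : Matrix (Fin n₁) (Fin n₁) K) *
          (Matrix.fromRows 1 0 : Matrix (Fin n₀ ⊕ Fin n₁) (Fin n₀) K)).rank := by rw [← h1]
      _ ≤ ((Matrix.fromCols 1 0 : Matrix (Fin n₀) (Fin n₀ ⊕ Fin n₁) K) *
          Matrix.fromBlocks B₀ 0 0 (0 : Matrix (Fin n₁) (Fin n₁) K)).rank := Matrix.rank_mul_le_left _ _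
      _ ≤ (Matrix.fromBlocks B₀ 0 0 (0 : Matrix (Fin n₁) (Fin n₁) K)).rank := Matrix.rank_mul_le_right _ _
      _ = B.rank := hS.rank_eq.symm
      _ ≤ ρ := hρ
  have hsc : B₀ = 0 ∨ ∀ t : K, B₀ ≠ Matrix.scalar (Fin n₀) t := by
    by_cases h : ∀ t : K, B₀ ≠ Matrix.scalar (Fin n₀) t
    · exact Or.inr h
    · push Not at h
      obtain ⟨t, ht⟩ := h
      left
      by_cases ht0 : t = 0
      · rw [ht, ht0, map_zero]
      · exfalso
        have h2 : IsUnit B₀ := by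
          rw [ht]
          exact (isUnit_iff_ne_zero.2 ht0).map (Matrix.scalar (Fin n₀))
        have h3 := Matrix.rank_of_isUnit B₀ h2
        rw [Fintype.card_fin] at h3
        omega
  obtain ⟨G, G', hG, hG', hdiag⟩ := MLI.exists_hollow B₀ htr₀ hsc
  have hS2 : Sim (Matrix.fromBlocks B₀ 0 0 (0 : Matrix (Fin n₁) (Fin n₁) K))
      (Matrix.fromBlocks (G' * B₀ * G) 0 0 (0 : Matrix (Fin n₁) (Fin n₁) K)) := by
    refine ⟨Matrix.fromBlocks G 0 0 1, Matrix.fromBlocks G' 0 0 1, ?_, ?_, ?_⟩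
    · rw [Matrix.fromBlocks_multiply]
      simp [hG]
    · rw [Matrix.fromBlocks_multiply]
      simp [hG']
    · rw [Matrix.fromBlocks_multiply, Matrix.fromBlocks_multiply]
      simp
  refine ZB.of_sim (hS.trans hS2) ?_
  refine ZB.of_classes _ (Sum.elim (fun a : Fin n₀ => (a : ℕ)) (fun b : Fin n₁ => (b : ℕ) % n₀)) ?_ ?_
  · intro x
    have hpos : 0 < n₀ := by omega
    obtain ⟨a, ha, hax⟩ : ∃ a, a < n₀ ∧
        (Sum.elim (fun a : Fin n₀ => (a : ℕ)) (fun b : Fin n₁ => (b : ℕ) % n₀)) x = a := by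
      rcases x with a | b
      · exact ⟨a, a.2, rfl⟩
      · exact ⟨_, Nat.mod_lt _ hpos, rfl⟩
    rw [hax]
    have hb : ∀ k : Fin r, a + k * n₀ < n₁ := by
      intro k
      have h1 : ((k : ℕ) + 1) * n₀ ≤ r * n₀ := Nat.mul_le_mul_right _ k.2
      have h2 : ((k : ℕ) + 1) * n₀ = k * n₀ + n₀ := by ring
      have h3 : r * n₀ = n₀ * r := mul_comm _ _
      omega
    have hinj := Fintype.card_le_of_injective (fun k : Fin r =>
      (⟨Sum.inr ⟨a + k * n₀, hb k⟩, by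
        show (a + (k : ℕ) * n₀) % n₀ = a
        rw [Nat.add_mul_mod_self_right, Nat.mod_eq_of_lt ha]⟩ :
        {y // (Sum.elim (fun a : Fin n₀ => (a : ℕ)) (fun b : Fin n₁ => (b : ℕ) % n₀)) y = a})) (by
        intro k k' hk
        have h1 := congrArg Subtype.val hk
        simp only [Sum.inr.injEq, Fin.mk.injEq] at h1
        have h2 : (k : ℕ) * n₀ = k' * n₀ := by omega
        exact Fin.ext (Nat.eq_of_mul_eq_mul_right hpos h2))
    rw [Fintype.card_fin] at hinj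
    exact hinj
  · intro x y hxy
    rcases x with a | a <;> rcases y with b | b
    · have : a = b := Fin.ext hxy
      subst this
      rw [Matrix.fromBlocks_apply₁₁]
      exact hdiag a
    · rfl
    · rfl
    · rfl

end ALK
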