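import Pool.Agent.Work.MP_05d08f_al.AS.A01

set_option autoImplicit false

/-!
# A17: Fillmore's theorem, prescribed diagonal (size M)

A nonscalar `s × s` matrix `A` over a field is similar to a matrix with any prescribed diagonal `d` with
`∑ d = tr A`.

PROOF (induction on `s`; `s = 0, 1` are impossible since all matrices are scalar; compare the proof of
`MLI.exists_hollow` in `Hollow.lean`, the case `d = 0`). Let `s ≥ 2`. There is `v` such that `v, A v` are
linearly independent (otherwise every vector is an eigenvector and `A` is scalar). Put `e₁ = v`,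
`e₂ = A v - d₁ v` and extend to a basis `e₁, …, e_s`; so `A ~ [[d₁, β], [ε, A']]` with the first column
`(d₁, 1, 0, …, 0)`, `ε = (1, 0, …, 0)`. If `s = 2` then `A'` is the `1 × 1` matrix `tr A - d₁ = d₂`. Let
`s ≥ 3`. We may assume that `A'` is not scalar: if `A' = t` then conjugate by `fromBlocks 1 h 0 1` with
the row vector `h = (0, 1, 0, …)` (`h ε = 0`):
`[[1, h], [0, 1]] [[d₁, β], [ε, A']] [[1, -h], [0, 1]] = [[d₁ + h ε, *], [ε, A' - ε h]]`, and
`A' - ε h = t - E_{12}` is not scalar. By induction `A'` is similar to a matrix with diagonal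
`d₂, …, d_s` (`tr A' = tr A - d₁`), by a conjugation which extends to the block matrix
(`fromBlocks 1 0 0 P`).
-/

namespace ALK

open Matrix

variable {K : Type*} [Field K]

/-- Similar to a matrix with diagonal `d`. -/
private def Hol {ι : Type*} [Fintype ι] [DecidableEq ι] (A : Matrix ι ι K) (d : ι → K) : Prop :=
  ∃ G G' : Matrix ι ι K, G * G' = 1 ∧ G' * G = 1 ∧ ∀ i, (G' * A * G) i i = d i

private theorem Hol.conj {ι : Type*} [Fintype ι] [DecidableEq ι] (A P P' : Matrix ι ι K)
    (d : ι → K) (h1 : P * P' = 1) (h2 : P' * P = 1) (h : Hol (P' * A * P) d) : Hol A d := by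
  obtain ⟨G, G', hG, hG', hd⟩ := h
  refine ⟨P * G, G' * P', ?_, ?_, ?_⟩
  · calc P * G * (G' * P') = P * (G * G') * P' := by simp only [mul_assoc]
      _ = 1 := by rw [hG, mul_one, h1]
  · calc G' * P' * (P * G) = G' * (P' * P) * G := by simp only [mul_assoc]
      _ = 1 := by rw [h2, mul_one, hG']
  · intro i
    have : G' * P' * A * (P * G) = G' * (P' * A * P) * G := by simp only [mul_assoc]
    rw [this]; exact hd i

private theorem Hol.reindex {ι κ : Type*} [Fintype ι] [DecidableEq ι] [Fintype κ] [DecidableEq κ]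
    (e : κ ≃ ι) (A : Matrix ι ι K) (d : ι → K) (h : Hol (A.submatrix e e) (d ∘ e)) : Hol A d := by
  obtain ⟨G, G', hG, hG', hd⟩ := h
  refine ⟨G.submatrix e.symm e.symm, G'.submatrix e.symm e.symm, ?_, ?_, ?_⟩
  · rw [Matrix.submatrix_mul_equiv, hG, Matrix.submatrix_one_equiv]
  · rw [Matrix.submatrix_mul_equiv, hG', Matrix.submatrix_one_equiv]
  · intro i
    have h1 : A = (A.submatrix e e).submatrix e.symm e.symm := by
      ext x y; simp
    rw [h1, Matrix.submatrix_mul_equiv, Matrix.submatrix_mul_equiv]
    have h2 := hd (e.symm i)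
    rw [Function.comp_apply, e.apply_symm_apply] at h2
    exact h2

private theorem hol_block {n : ℕ}
    (ih : ∀ (A : Matrix (Fin n) (Fin n) K) (d : Fin n → K), ∑ i, d i = A.trace →
      ((∀ i, A i i = d i) ∨ ∀ t : K, A ≠ t • (1 : Matrix (Fin n) (Fin n) K)) → Hol A d)
    (A' : Matrix (Fin n) (Fin n) K) (c : Matrix (Fin n) PUnit.{1} K)
    (r : Matrix PUnit.{1} (Fin n) K) (a : Matrix PUnit.{1} PUnit.{1} K)
    (d : Fin n ⊕ PUnit.{1} → K)
    (htr : ∑ x, d (Sum.inl x) + d (Sum.inr PUnit.unit) = A'.trace + a PUnit.unit PUnit.unit)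
    (hc : c ≠ 0) : Hol (Matrix.fromBlocks A' c r a) d := by
  have hc' : ∃ i, c i PUnit.unit ≠ 0 := by
    by_contra hcon
    push Not at hcon
    exact hc (by ext i u; exact hcon i)
  obtain ⟨i, hi⟩ := hc'
  set a₀ : Matrix PUnit.{1} PUnit.{1} K :=
    Matrix.of fun _ _ => a PUnit.unit PUnit.unit - d (Sum.inr PUnit.unit) with ha₀
  have htr0 : A'.trace + a₀.trace = ∑ x, d (Sum.inl x) := by
    have h1 : a₀.trace = a PUnit.unit PUnit.unit - d (Sum.inr PUnit.unit) := by
      simp [Matrix.trace, ha₀]
    rw [h1, ← add_sub_assoc, ← htr]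
    ring
  -- choose `S`
  have hS : ∃ S : Matrix PUnit.{1} (Fin n) K, S * c = a₀ ∧
      ((∀ x, (A' + c * S) x x = d (Sum.inl x)) ∨
        ∀ t : K, A' + c * S ≠ t • (1 : Matrix (Fin n) (Fin n) K)) := by
    set S₀ : Matrix PUnit.{1} (Fin n) K :=
      Matrix.of fun _ k => if k = i then a₀ PUnit.unit PUnit.unit / c i PUnit.unit else 0 with hS₀
    have hS₀c : S₀ * c = a₀ := by
      ext u w
      rw [Matrix.mul_apply]
      simp only [hS₀, Matrix.of_apply, ite_mul, zero_mul, Finset.sum_ite_eq', Finset.mem_univ,
        if_true]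
      exact div_mul_cancel₀ _ hi
    by_cases hsc : ∃ t : K, A' + c * S₀ = t • (1 : Matrix (Fin n) (Fin n) K)
    · obtain ⟨t, ht⟩ := hsc
      by_cases hj : ∃ j : Fin n, j ≠ i
      · obtain ⟨j, hj⟩ := hj
        set S₁ : Matrix PUnit.{1} (Fin n) K :=
          Matrix.of fun _ k => if k = j then c i PUnit.unit else if k = i then
            - c j PUnit.unit else 0 with hS₁
        have hS₁c : S₁ * c = 0 := by
          ext u w
          rw [Matrix.mul_apply]
          have : ∀ k, S₁ u k * c k w = (if k = j then c i PUnit.unit * c j PUnit.unit else 0) +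
              (if k = i then - (c j PUnit.unit * c i PUnit.unit) else 0) := by
            intro k
            simp only [hS₁, Matrix.of_apply]
            by_cases h1 : k = j
            · subst h1
              rw [if_pos rfl, if_pos rfl, if_neg hj, add_zero]
            · by_cases h2 : k = i
              · subst h2
                rw [if_neg h1, if_pos rfl, if_neg h1, if_pos rfl, zero_add, neg_mul]
              · simp [h1, h2]
          rw [Finset.sum_congr rfl fun k _ => this k, Finset.sum_add_distrib]
          simp only [Finset.sum_ite_eq', Finset.mem_univ, if_true, Matrix.zero_apply]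
          ring
        refine ⟨S₀ + S₁, by rw [Matrix.add_mul, hS₀c, hS₁c, add_zero], Or.inr fun s hs => ?_⟩
        have h1 : A' + c * (S₀ + S₁) = t • (1 : Matrix (Fin n) (Fin n) K) + c * S₁ := by
          rw [Matrix.mul_add, ← add_assoc, ht]
        rw [h1] at hs
        have h2 := congrFun (congrFun hs i) j
        rw [Matrix.add_apply, Matrix.smul_apply, Matrix.smul_apply,
          Matrix.one_apply_ne hj.symm, smul_zero, smul_zero, zero_add, Matrix.mul_apply] at h2
        simp only [Finset.univ_unique, Finset.sum_singleton, hS₁, Matrix.of_apply, if_true] at h2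
        exact hi (mul_self_eq_zero.1 h2)
      · push Not at hj
        refine ⟨S₀, hS₀c, Or.inl ?_⟩
        -- one index
        have htr2 : (A' + c * S₀).trace = ∑ x, d (Sum.inl x) := by
          rw [Matrix.trace_add, Matrix.trace_mul_comm, hS₀c, htr0]
        rw [Matrix.trace, Finset.sum_eq_single i (fun b _ hb => absurd (hj b) hb)
          (fun h => absurd (Finset.mem_univ i) h),
          Finset.sum_eq_single i (fun b _ hb => absurd (hj b) hb)
          (fun h => absurd (Finset.mem_univ i) h)] at htr2
        intro x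
        rw [hj x]
        exact htr2
    · push Not at hsc
      exact ⟨S₀, hS₀c, Or.inr hsc⟩
  obtain ⟨S, hSc, hS⟩ := hS
  refine Hol.conj _ (Matrix.fromBlocks 1 0 S 1) (Matrix.fromBlocks 1 0 (-S) 1) d ?_ ?_ ?_
  · rw [Matrix.fromBlocks_multiply]; simp
  · rw [Matrix.fromBlocks_multiply]; simp
  · rw [Matrix.fromBlocks_multiply, Matrix.fromBlocks_multiply]
    have htr2 : ∑ x, d (Sum.inl x) = (A' + c * S).trace := by
      rw [Matrix.trace_add, Matrix.trace_mul_comm, hSc, htr0]
    obtain ⟨G, G', hG, hG', hd⟩ := ih _ (fun x => d (Sum.inl x)) htr2 hS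
    refine ⟨Matrix.fromBlocks G 0 0 1, Matrix.fromBlocks G' 0 0 1, ?_, ?_, ?_⟩
    · rw [Matrix.fromBlocks_multiply]; simp [hG]
    · rw [Matrix.fromBlocks_multiply]; simp [hG']
    · intro x
      rw [Matrix.fromBlocks_multiply, Matrix.fromBlocks_multiply]
      rcases x with x | x
      · rw [Matrix.fromBlocks_apply₁₁]
        have := hd x
        simpa using this
      · rw [Matrix.fromBlocks_apply₂₂]
        have h1 : (S * c) x x = a x x - d (Sum.inr x) := by
          rw [hSc]
          rfl
        simp [h1]

private theorem hol_all (n : ℕ) : ∀ (A : Matrix (Fin n) (Fin n) K) (d : Fin n → K),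
    ∑ i, d i = A.trace →
    ((∀ i, A i i = d i) ∨ ∀ t : K, A ≠ t • (1 : Matrix (Fin n) (Fin n) K)) → Hol A d := by
  induction n with
  | zero =>
    intro A d _ _
    exact ⟨1, 1, by simp, by simp, fun i => i.elim0⟩
  | succ n ih =>
    -- nondiagonal matrices
    have hnd : ∀ (A : Matrix (Fin (n + 1)) (Fin (n + 1)) K) (d : Fin (n + 1) → K),
        ∑ i, d i = A.trace → (∃ i j, i ≠ j ∧ A i j ≠ 0) → Hol A d := by
      intro A d htr hA
      obtain ⟨i, j, hij, hA⟩ := hA
      set e : Fin (n + 1) ≃ Fin n ⊕ PUnit.{1} :=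
        (finSuccEquiv' j).trans (Equiv.optionEquivSumPUnit (Fin n)) with he
      have hej : e.symm (Sum.inr PUnit.unit) = j := by
        rw [Equiv.symm_apply_eq]; simp [he]
      obtain ⟨k, hk⟩ : ∃ k, e.symm (Sum.inl k) = i := by
        rcases h : e i with k | u
        · exact ⟨k, by rw [← h, e.symm_apply_apply]⟩
        · exfalso
          have : i = j := by
            rw [← hej, Equiv.eq_symm_apply]; exact h
          exact hij this
      refine Hol.reindex e.symm A d ?_
      have hB := Matrix.fromBlocks_toBlocks (A.submatrix e.symm e.symm)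
      rw [← hB]
      refine hol_block ih _ _ _ _ _ ?_ ?_
      · have h1 : ∑ x, (d ∘ e.symm) x = (A.submatrix e.symm e.symm).trace := by
          have h2 : (A.submatrix e.symm e.symm).trace = A.trace :=
            Equiv.sum_comp e.symm (fun x => A x x)
          rw [h2, ← htr]
          exact Equiv.sum_comp e.symm d
        rw [← hB] at h1
        rw [Fintype.sum_sum_type] at h1
        simp only [Matrix.trace, Fintype.sum_sum_type, Matrix.diag_apply, Matrix.fromBlocks_apply₁₁,
          Matrix.fromBlocks_apply₂₂, Finset.univ_unique, Finset.sum_singleton] at h1 ⊢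
        exact h1
      · intro h0
        have := congrFun (congrFun h0 k) PUnit.unit
        rw [Matrix.toBlocks₁₂, Matrix.of_apply, Matrix.submatrix_apply, hk, hej] at this
        exact hA this
    intro A d htr hA
    rcases hA with hA | hA
    · exact ⟨1, 1, by simp, by simp, fun i => by simpa using hA i⟩
    · by_cases hex : ∃ i j, i ≠ j ∧ A i j ≠ 0
      · exact hnd A d htr hex
      · push Not at hex
        have h2 : ∃ i j, A i i ≠ A j j := by
          by_contra hcon
          push Not at hcon
          refine hA (A 0 0) ?_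
          ext x y
          rw [Matrix.smul_apply]
          by_cases hxy : x = y
          · subst hxy; rw [Matrix.one_apply_eq, smul_eq_mul, mul_one]; exact hcon _ _
          · rw [Matrix.one_apply_ne hxy, smul_zero]; exact hex x y hxy
        obtain ⟨i, j, hij⟩ := h2
        have hne : i ≠ j := fun h => hij (by rw [h])
        have hsq : Matrix.single i j (1 : K) * Matrix.single i j (1 : K) = 0 :=
          Matrix.single_mul_single_of_ne _ _ _ _ hne.symm _
        have hP1 : (1 + Matrix.single i j (1 : K)) * (1 - Matrix.single i j (1 : K)) = 1 := by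
          rw [add_mul, mul_sub, mul_sub, hsq]; simp
        have hP2 : (1 - Matrix.single i j (1 : K)) * (1 + Matrix.single i j (1 : K)) = 1 := by
          rw [sub_mul, mul_add, mul_add, hsq]; simp
        refine Hol.conj A (1 + Matrix.single i j (1 : K)) (1 - Matrix.single i j (1 : K)) d hP1 hP2
          (hnd _ d ?_ ⟨i, j, hne, ?_⟩)
        · rw [Matrix.trace_mul_comm, ← mul_assoc, hP1, one_mul, htr]
        · have hE : (1 - Matrix.single i j (1 : K)) * A * (1 + Matrix.single i j (1 : K)) =
              A + A * Matrix.single i j (1 : K) - Matrix.single i j (1 : K) * A -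
                Matrix.single i j (1 : K) * A * Matrix.single i j (1 : K) := by
            noncomm_ring
          rw [hE, Matrix.sub_apply, Matrix.sub_apply, Matrix.add_apply, hex i j hne]
          rw [Matrix.mul_single_apply_same, Matrix.single_mul_apply_same,
            Matrix.mul_single_apply_same, Matrix.single_mul_apply_same, hex j i hne.symm]
          simp only [mul_one, one_mul, zero_add, sub_zero]
          exact sub_ne_zero.2 hij

theorem fillmore {s : ℕ} (A : Matrix (Fin s) (Fin s) K)
    (hA : ∀ t : K, A ≠ t • (1 : Matrix (Fin s) (Fin s) K)) (d : Fin s → K)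
    (hd : ∑ a, d a = A.trace) :
    ∃ A' : Matrix (Fin s) (Fin s) K, Sim A A' ∧ ∀ a, A' a a = d a := by
  obtain ⟨G, G', h1, h2, h3⟩ := hol_all s A d hd (Or.inr hA)
  exact ⟨G' * A * G, ⟨G, G', h1, h2, rfl⟩, h3⟩

end ALK
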