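import Pool.Agent.Work.MP_05d08f_al.AS.A15
import Pool.Agent.Work.MP_05d08f_al.AS.A17

set_option autoImplicit false

/-!
# A18: scalar plus small rank, trace zero: diagonal trace zero diagonal blocks (size M)

PROOF. `N = B - t • 1`, `s = card β`, `n = card ι = ∑ b, card (H b) ≥ s`. `low_nf` with `ρ = σ`, `n₀ = s`,
`n₁ = n - s`: `Sim N (fromBlocks N₀ 0 0 0)`, `N₀ ∈ M_s`. `rank N₀ ≤ rank N ≤ σ < s`, `N ≠ 0`. So `N₀` is not
scalar: `N₀ = u • 1` with `u ≠ 0` has rank `s > σ`, and `u = 0` gives `N = 0`. `tr N₀ = tr N = - n t`. Fix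
`e : Fin s ≃ β`. By `fillmore` `N₀ ~ N₁` with `N₁ a a = - t * card (H (e a))` (the sum is
`- t n`, in `K`). So `Sim N (fromBlocks N₁ 0 0 0)`. Choose a base point `x_b ∈ H b` for each `b`, and a
bijection `g : (Σ b, H b) ≃ Fin s ⊕ Fin n₁` with `g ⟨b, x_b⟩ = inl (e.symm b)` (the complement of the set of the
base points has `n - s = n₁` elements). Put
`A' = (fromBlocks N₁ 0 0 0).submatrix g g` and `A = A' + t • 1`. Then `Sim B A`
(`Sim.submatrix`, `Sim.add_smul`). In the diagonal block of `b` the matrix `A'` has only one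
nonzero entry, at `(x_b, x_b)`, equal to `- t * card (H b)`. So the block of `A` is diagonal with
`y x = t - (if x = x_b then t * card (H b) else 0)`, and `∑ y = card (H b) * t - t * card (H b) = 0`.
-/

namespace ALK

open Matrix

variable {K : Type*} [Field K] {ι : Type*} [Fintype ι] [DecidableEq ι]

private theorem tr_blocks {α α' : Type*} [Fintype α] [Fintype α'] (A : Matrix α α K)
    (b : Matrix α α' K) (c : Matrix α' α K) (D : Matrix α' α' K) :
    (Matrix.fromBlocks A b c D).trace = A.trace + D.trace := by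
  simp only [Matrix.trace, Fintype.sum_sum_type, Matrix.diag_apply, Matrix.fromBlocks_apply₁₁,
    Matrix.fromBlocks_apply₂₂]

private theorem rank_corner {a b : ℕ} (N₀ : Matrix (Fin a) (Fin a) K) :
    N₀.rank ≤ (Matrix.fromBlocks N₀ 0 0 (0 : Matrix (Fin b) (Fin b) K)).rank := by
  have h : N₀ = (Matrix.fromCols (1 : Matrix (Fin a) (Fin a) K) (0 : Matrix (Fin a) (Fin b) K)) *
      Matrix.fromBlocks N₀ 0 0 (0 : Matrix (Fin b) (Fin b) K) *
      (Matrix.fromRows (1 : Matrix (Fin a) (Fin a) K) (0 : Matrix (Fin b) (Fin a) K)) := by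
    rw [Matrix.fromCols_mul_fromBlocks, Matrix.fromCols_mul_fromRows]
    simp
  conv_lhs => rw [h]
  exact (Matrix.rank_mul_le_left _ _).trans (Matrix.rank_mul_le_right _ _)

private theorem sim_corner {a b : ℕ} {N₀ N₁ : Matrix (Fin a) (Fin a) K} (h : Sim N₀ N₁) :
    Sim (Matrix.fromBlocks N₀ 0 0 (0 : Matrix (Fin b) (Fin b) K))
      (Matrix.fromBlocks N₁ 0 0 (0 : Matrix (Fin b) (Fin b) K)) := by
  obtain ⟨P, Q, h1, h2, h3⟩ := h
  refine ⟨Matrix.fromBlocks P 0 0 1, Matrix.fromBlocks Q 0 0 1, ?_, ?_, ?_⟩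
  · rw [Matrix.fromBlocks_multiply]
    simp [h1]
  · rw [Matrix.fromBlocks_multiply]
    simp [h2]
  · rw [Matrix.fromBlocks_multiply, Matrix.fromBlocks_multiply]
    simp [h3]

private theorem exists_reidx {β : Type} [Fintype β] [DecidableEq β] (H : β → Type)
    [∀ b, Fintype (H b)] [∀ b, DecidableEq (H b)] (x0 : ∀ b, H b) {s n₁ : ℕ} (e : Fin s ≃ β)
    (hc : Fintype.card (Σ b, H b) = s + n₁) :
    ∃ g : (Σ b, H b) ≃ Fin s ⊕ Fin n₁, ∀ b, g ⟨b, x0 b⟩ = Sum.inl (e.symm b) := by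
  classical
  let f : β → Σ b, H b := fun b => ⟨b, x0 b⟩
  have hf : Function.Injective f := fun b b' h => congrArg Sigma.fst h
  have hs : Fintype.card β = s := by
    rw [← Fintype.card_congr e, Fintype.card_fin]
  have h1 : Fintype.card ((Set.range f)ᶜ : Set (Σ b, H b)) = n₁ := by
    rw [Fintype.card_compl_set, Set.card_range_of_injective hf, hc, hs]
    omega
  let e2 : Fin n₁ ≃ ((Set.range f)ᶜ : Set (Σ b, H b)) := (Fintype.equivFinOfCardEq h1).symm
  let G : Fin s ⊕ Fin n₁ ≃ Σ b, H b :=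
    (Equiv.sumCongr (e.trans (Equiv.ofInjective f hf)) e2).trans (Equiv.Set.sumCompl (Set.range f))
  have hG : ∀ a, G (Sum.inl a) = ⟨e a, x0 (e a)⟩ := by
    intro a
    change (Equiv.Set.sumCompl (Set.range f)) (Sum.inl (Equiv.ofInjective f hf (e a))) = _
    rw [Equiv.Set.sumCompl_apply_inl]
    rfl
  refine ⟨G.symm, fun b => ?_⟩
  rw [Equiv.symm_apply_eq, hG, e.apply_symm_apply]

theorem scalar_low {β : Type} [Fintype β] [DecidableEq β] (H : β → Type) [∀ b, Fintype (H b)]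
    [∀ b, DecidableEq (H b)] [∀ b, Nonempty (H b)] (B : Matrix ι ι K) (t : K) (σ : ℕ)
    (hrank : (B - t • (1 : Matrix ι ι K)).rank ≤ σ) (hne : B ≠ t • (1 : Matrix ι ι K))
    (htr : B.trace = 0) (hcard : Fintype.card ι = ∑ b, Fintype.card (H b))
    (hβ : 2 * σ + 1 ≤ Fintype.card β) :
    ∃ A : Matrix (Σ b, H b) (Σ b, H b) K, Sim B A ∧
      ∀ b, ∃ y : H b → K, ∑ x, y x = 0 ∧
        ∀ x x', A ⟨b, x⟩ ⟨b, x'⟩ = if x = x' then y x else 0 := by
  have hle : Fintype.card β ≤ Fintype.card ι := by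
    rw [hcard, ← Finset.card_univ, Finset.card_eq_sum_ones]
    exact Finset.sum_le_sum fun b _ => Fintype.card_pos
  obtain ⟨n₁, hn₁⟩ := Nat.exists_eq_add_of_le hle
  obtain ⟨N₀, hN₀⟩ := low_nf (B - t • (1 : Matrix ι ι K)) σ (Fintype.card β) n₁ hrank (by omega) hn₁
  have htrN : N₀.trace = -(t * Fintype.card ι) := by
    have h1 := hN₀.trace_eq
    rw [tr_blocks, Matrix.trace_zero, add_zero, Matrix.trace_sub, htr,
      Matrix.trace_smul, Matrix.trace_one, smul_eq_mul, zero_sub] at h1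
    exact h1.symm
  have hns : ∀ u : K, N₀ ≠ u • (1 : Matrix (Fin (Fintype.card β)) (Fin (Fintype.card β)) K) := by
    intro u hu
    by_cases h0 : u = 0
    · rw [h0, zero_smul] at hu
      rw [hu, Matrix.fromBlocks_zero] at hN₀
      obtain ⟨P, Q, -, h2, h3⟩ := hN₀.symm
      rw [Matrix.mul_zero, Matrix.zero_mul] at h3
      exact hne (sub_eq_zero.1 h3.symm)
    · have h1 := (rank_corner (b := n₁) N₀).trans (hN₀.rank_eq.symm.le.trans hrank)
      have h2 : N₀.rank = Fintype.card β := by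
        have h3 : IsUnit N₀ := by
          rw [hu]
          exact IsUnit.smul (Units.mk0 u h0) isUnit_one
        rw [Matrix.rank_of_isUnit _ h3, Fintype.card_fin]
      omega
  let e : Fin (Fintype.card β) ≃ β := (Fintype.equivFin β).symm
  obtain ⟨N₁, hN₁, hdiag⟩ := fillmore N₀ hns (fun a => -(t * Fintype.card (H (e a)))) (by
    rw [htrN, hcard, Finset.sum_neg_distrib, ← Finset.mul_sum]
    congr 2
    rw [Nat.cast_sum]
    exact Equiv.sum_comp e (fun b => (Fintype.card (H b) : K)))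
  have hx0 : ∀ b, ∃ x : H b, True := fun b => ⟨Classical.arbitrary _, trivial⟩
  choose x0 _ using hx0
  obtain ⟨g, hg⟩ := exists_reidx H x0 e (n₁ := n₁) (by
    rw [Fintype.card_sigma, ← hcard, hn₁])
  have hg' : ∀ (b : β) (x : H b), x ≠ x0 b → ∃ k, g ⟨b, x⟩ = Sum.inr k := by
    intro b x hx
    rcases h : g ⟨b, x⟩ with a | k
    · exfalso
      apply hx
      have h1 := hg (e a)
      rw [e.symm_apply_apply, ← h] at h1
      have h2 := g.injective h1
      obtain ⟨h3, h4⟩ := Sigma.mk.inj_iff.1 h2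
      subst h3
      exact (eq_of_heq h4).symm
    · exact ⟨k, rfl⟩
  let A' : Matrix (Σ b, H b) (Σ b, H b) K :=
    (Matrix.fromBlocks N₁ 0 0 (0 : Matrix (Fin n₁) (Fin n₁) K)).submatrix g g
  have hsim : Sim B (A' + t • (1 : Matrix (Σ b, H b) (Σ b, H b) K)) := by
    have h1 := ((hN₀.trans (sim_corner (b := n₁) hN₁)).trans (Sim.submatrix _ g)).add_smul t
    rwa [sub_add_cancel] at h1
  refine ⟨_, hsim, fun b => ⟨fun x => t - if x = x0 b then t * Fintype.card (H b) else 0, ?_, ?_⟩⟩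
  · rw [Finset.sum_sub_distrib, Finset.sum_const, Finset.sum_ite_eq' Finset.univ (x0 b),
      if_pos (Finset.mem_univ _), Finset.card_univ, nsmul_eq_mul, mul_comm, sub_self]
  · intro x x'
    have h1 : (A' + t • (1 : Matrix (Σ b, H b) (Σ b, H b) K)) ⟨b, x⟩ ⟨b, x'⟩ =
        A' ⟨b, x⟩ ⟨b, x'⟩ + t * (if x = x' then 1 else 0) := by
      rw [Matrix.add_apply, Matrix.smul_apply, Matrix.one_apply, smul_eq_mul]
      congr 2
      by_cases h : x = x'
      · rw [h, if_pos rfl, if_pos rfl]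
      · rw [if_neg h, if_neg]
        intro h2
        exact h (eq_of_heq (Sigma.mk.inj_iff.1 h2).2)
    rw [h1]
    change _ = if x = x' then t - (if x = x0 b then t * (Fintype.card (H b) : K) else 0) else 0
    have h2 : A' ⟨b, x⟩ ⟨b, x'⟩ = Matrix.fromBlocks N₁ 0 0 (0 : Matrix (Fin n₁) (Fin n₁) K)
        (g ⟨b, x⟩) (g ⟨b, x'⟩) := rfl
    rw [h2]
    by_cases hx : x = x0 b
    · by_cases hx' : x' = x0 b
      · subst hx
        subst hx'
        rw [hg, Matrix.fromBlocks_apply₁₁, hdiag, if_pos rfl, if_pos rfl, if_pos rfl,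
          e.apply_symm_apply]
        ring
      · obtain ⟨k, hk⟩ := hg' b x' hx'
        have h3 : x ≠ x' := fun h => hx' (h ▸ hx)
        rw [hk, hx, hg, Matrix.fromBlocks_apply₁₂, ← hx, if_neg h3, if_neg h3]
        simp
    · obtain ⟨k, hk⟩ := hg' b x hx
      have h3 : ∀ z, Matrix.fromBlocks N₁ 0 0 (0 : Matrix (Fin n₁) (Fin n₁) K)
          (Sum.inr k) z = 0 := by
        rintro (z | z)
        · rfl
        · rfl
      rw [hk, h3]
      by_cases h : x = x'
      · rw [if_pos h, if_pos h, if_neg hx]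
        ring
      · rw [if_neg h, if_neg h]
        ring

end ALK
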