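import Pool.Agent.Work.MP_05d08f_al.Final

set_option autoImplicit false

/-!
# MP_05d08f_al, asymptotic theorem: definitions

* `Sim A A'`: the square matrices `A`, `A'` (index types may differ) are similar.
* `ZB r A`: `A` is similar to a matrix with zero diagonal blocks, for a partition of the indices into
  classes of size at least `r`.
* `Tour`, `Dif`, `bet`, `alp`, `Harm`: combinatorics of words.
* `TL c i`: the coefficient family `c` is traceless (as a condition on the cyclic words around `i`).
* `Dat m i`: a product of prime fields `G = ∏ ZMod (p u)` with degrees `h j`.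
-/

namespace ALK

open Matrix Equiv MLI

section Sim

variable {K : Type*} [Field K]

/-- Similarity of square matrices with possibly different index types. -/
def Sim {ι κ : Type*} [Fintype ι] [DecidableEq ι] [Fintype κ] [DecidableEq κ]
    (A : Matrix ι ι K) (A' : Matrix κ κ K) : Prop :=
  ∃ (P : Matrix ι κ K) (Q : Matrix κ ι K), P * Q = 1 ∧ Q * P = 1 ∧ Q * A * P = A'

/-- `A` is similar to a matrix with zero diagonal blocks, the blocks having size at least `r`. -/
def ZB (r : ℕ) {ι : Type*} [Fintype ι] [DecidableEq ι] (A : Matrix ι ι K) : Prop :=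
  ∃ (A' : Matrix ι ι K) (κ : ι → ℕ), Sim A A' ∧
    (∀ x, r ≤ Fintype.card {y // κ y = κ x}) ∧ ∀ x y, κ x = κ y → A' x y = 0

end Sim

section Diff

variable {ι : Type*} [Fintype ι] [DecidableEq ι]

/-- `B a j = 1` means: `a` comes before `j`. -/
structure Tour (B : ι → ι → ℤ) : Prop where
  diag : ∀ a, B a a = 0
  zo : ∀ a j, B a j = 0 ∨ B a j = 1
  anti : ∀ a j, a ≠ j → B a j + B j a = 1

/-- Differences of two tournaments. -/
structure Dif (v : ι → ι → ℤ) : Prop where
  diag : ∀ a, v a a = 0
  ent : ∀ a j, v a j = 0 ∨ v a j = 1 ∨ v a j = -1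
  anti : ∀ a j, v a j = - v j a

/-- The part of the exponent at the distinguished letter `i`. -/
def bet {R : Type*} [CommRing R] (i : ι) (v : ι → ι → ℤ) (h : ι → R) : R :=
  ∑ a, (v a i : R) * h a

/-- The part of the exponent at the other letters. -/
def alp {R : Type*} [CommRing R] (i : ι) (v : ι → ι → ℤ) (h ω : ι → R) : R :=
  ∑ j ∈ Finset.univ.erase i, ∑ a, (v a j : R) * h a * ω j

/-- Nondegenerate at `i`: some letter changes its position with respect to `i`. -/
def NzI (i : ι) (v : ι → ι → ℤ) : Prop := ∃ a, v a i ≠ 0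

/-- Nondegenerate off `i`: some pair of letters different from `i` changes its order. -/
def NzO (i : ι) (v : ι → ι → ℤ) : Prop := ∃ a j, a ≠ i ∧ j ≠ i ∧ v a j ≠ 0

/-- `v` is harmful for the support `T`. -/
def Harm {S : Type*} (i : ι) (B : S → ι → ι → ℤ) (T : Finset S) (v : ι → ι → ℤ) : Prop :=
  Dif v ∧ NzI i v ∧ NzO i v ∧ ∀ σ ∈ T, ∃ τ ∈ T, B σ - B τ = v ∨ B σ - B τ = -v

end Diff

section Words

variable {m : ℕ}

open Classical in
/-- The polynomial with coefficients `c` is traceless: for every word `π` in the letters different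
from `i` the coefficients of the cyclic rotations of `π i` add up to zero. -/
def TL {K : Type*} [Field K] (c : Perm (Fin m) → K) (i : Fin m) : Prop :=
  ∀ σ₀ : Perm (Fin m), ∑ σ : Perm (Fin m),
    (if wr σ i ++ wl σ i = wr σ₀ i ++ wl σ₀ i then c σ else 0) = 0

/-- `Bw i σ a j = 1` if `a` is before `j` in the word `(wr σ i) i (wl σ i)`, and `0` otherwise. -/
def Bw (i : Fin m) (σ : Perm (Fin m)) (a j : Fin m) : ℤ :=
  if (wr σ i ++ i :: wl σ i).idxOf a < (wr σ i ++ i :: wl σ i).idxOf j then 1 else 0

end Words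

/-- Degrees in a finite product of prime fields with pairwise different subset sums. -/
structure Dat (m : ℕ) (i : Fin m) where
  k : ℕ
  p : Fin k → ℕ
  hp : ∀ u, (p u).Prime
  h : Fin m → ∀ u, ZMod (p u)
  hi : h i = 0
  hsub : ∀ A A' : Finset (Fin m), i ∉ A → i ∉ A' → ∑ j ∈ A, h j = ∑ j ∈ A', h j → A = A'

namespace Dat

variable {m : ℕ} {i : Fin m}

/-- The group (ring) of the data. -/
abbrev G (d : Dat m i) : Type := ∀ u : Fin d.k, ZMod (d.p u)

instance (d : Dat m i) (u : Fin d.k) : NeZero (d.p u) := ⟨(d.hp u).ne_zero⟩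

instance (d : Dat m i) (u : Fin d.k) : Fact (d.p u).Prime := ⟨d.hp u⟩

end Dat

/-- The matrix of the diagonal part, plus the rank one matrix `1 ψᵀ`. -/
def LamD {K : Type*} [Field K] {m : ℕ} {G : Type*} [AddCommGroup G] [Fintype G] [DecidableEq G]
    (c : Perm (Fin m) → K) (i : Fin m) (h : Fin m → G) (D : Fin m → G → K) (φ : G → K) :
    Matrix G G K :=
  Lam c i h (-∑ j, h j) D D + Matrix.of fun _ a' => φ a'

end ALK
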