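import Pool.Agent.Work.MP_05d08f_al.AS.Defs

set_option autoImplicit false

/-!
# E01: words as tournaments (size M)

For a permutation `σ` of the letters `Fin m` and a letter `i`, `wl σ i`, `wr σ i` are the words left and right of `i`
in the word `σ` (`Basic.lean`), `L_σ = wr σ i ++ i :: wl σ i` is a list without repetition containing every letter
(`nodup_wl`, `nodup_wr`, `wl_wr_disjoint`, `not_mem_wl`, `not_mem_wr`, `mem_wl_or_wr`), and
`Bw i σ a j = 1` iff `a` comes before `j` in `L_σ`.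

* `Bw_tour`: clear, since `idxOf` is injective on the members of a list without repetition.
* `Bw_inj`: two lists without repetition with the same members and the same order relation are equal
  (for instance: `idxOf a` is the number of the members before `a`, i.e. `∑ b, Bw i σ b a`, and
  `L[idxOf a] = a`); so `L_σ = L_{σ'}`. Splitting at `i` (`i ∉ wr σ i`) gives
  `wr σ i = wr σ' i` and `wl σ i = wl σ' i`, hence `List.ofFn σ = wl ++ i :: wr` (`ofFn_split`) is the same for both
  and `σ = σ'`.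
* `Bw_off`: the relations agree off `i` iff the lists `L_σ` without `i`, i.e. `wr σ i ++ wl σ i`, are equal: same
  argument for the lists `wr σ i ++ wl σ i` (for `a, j ≠ i`: `a` is before `j` in `L_σ` iff it is before `j` in
  `wr σ i ++ wl σ i`; `List.erase` or direct case distinction).
-/

namespace ALK

open Equiv MLI

variable {m : ℕ}

private theorem pw_idx {α : Type*} [DecidableEq α] (l : List α) (hn : l.Nodup) :
    l.Pairwise fun a b => l.idxOf a < l.idxOf b := by
  rw [List.pairwise_iff_getElem]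
  intro i j hi hj hij
  rw [hn.idxOf_getElem i hi, hn.idxOf_getElem j hj]
  exact hij

private theorem eq_of_order {α : Type*} [DecidableEq α] (l l' : List α) (hn : l.Nodup)
    (hn' : l'.Nodup) (hm : ∀ a, a ∈ l ↔ a ∈ l')
    (h : ∀ a ∈ l, ∀ b ∈ l, (l'.idxOf a < l'.idxOf b → l.idxOf a < l.idxOf b)) : l = l' := by
  refine List.Perm.eq_of_pairwise (le := fun a b => l.idxOf a < l.idxOf b) ?_ (pw_idx l hn) ?_
    ((List.perm_ext_iff_of_nodup hn hn').2 hm)
  · intro a b _ _ h1 h2
    exact absurd h1 (not_lt.2 h2.le)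
  · have h1 := pw_idx l' hn'
    rw [List.pairwise_iff_getElem] at h1 ⊢
    intro i j hi hj hij
    exact h _ ((hm _).2 (List.getElem_mem hi)) _ ((hm _).2 (List.getElem_mem hj))
      (h1 i j hi hj hij)

private theorem nodup_L (σ : Perm (Fin m)) (i : Fin m) : (wr σ i ++ i :: wl σ i).Nodup := by
  rw [List.nodup_append]
  refine ⟨nodup_wr σ i, List.nodup_cons.2 ⟨not_mem_wl σ i, nodup_wl σ i⟩, ?_⟩
  rintro a ha b hb rfl
  rcases List.mem_cons.1 hb with rfl | hb
  · exact not_mem_wr σ _ ha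
  · exact wl_wr_disjoint σ i a hb ha

private theorem nodup_w (σ : Perm (Fin m)) (i : Fin m) : (wr σ i ++ wl σ i).Nodup := by
  rw [List.nodup_append]
  refine ⟨nodup_wr σ i, nodup_wl σ i, ?_⟩
  rintro a ha b hb rfl
  exact wl_wr_disjoint σ i a hb ha

private theorem mem_w (σ : Perm (Fin m)) (i a : Fin m) : a ∈ wr σ i ++ wl σ i ↔ a ≠ i := by
  rw [List.mem_append]
  constructor
  · rintro (h | h) rfl
    · exact not_mem_wr σ _ h
    · exact not_mem_wl σ _ h
  · intro h
    exact (mem_wl_or_wr σ i a h).symm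

private theorem mem_L (σ : Perm (Fin m)) (i a : Fin m) : a ∈ wr σ i ++ i :: wl σ i := by
  rw [List.mem_append, List.mem_cons]
  by_cases h : a = i
  · exact Or.inr (Or.inl h)
  · rcases mem_wl_or_wr σ i a h with h1 | h1
    · exact Or.inr (Or.inr h1)
    · exact Or.inl h1

private theorem ord_iff (σ : Perm (Fin m)) (i a j : Fin m) (ha : a ≠ i) (hj : j ≠ i) :
    ((wr σ i ++ i :: wl σ i).idxOf a < (wr σ i ++ i :: wl σ i).idxOf j) ↔
      ((wr σ i ++ wl σ i).idxOf a < (wr σ i ++ wl σ i).idxOf j) := by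
  have h1 : ∀ b : Fin m, b ≠ i → b ∉ wr σ i →
      (wr σ i ++ i :: wl σ i).idxOf b = (wr σ i ++ wl σ i).idxOf b + 1 := by
    intro b hb hb'
    rw [List.idxOf_append_of_notMem hb', List.idxOf_append_of_notMem hb',
      List.idxOf_cons_ne _ (Ne.symm hb)]
    omega
  have h2 : ∀ b : Fin m, b ∈ wr σ i →
      (wr σ i ++ i :: wl σ i).idxOf b = (wr σ i).idxOf b ∧
        (wr σ i ++ wl σ i).idxOf b = (wr σ i).idxOf b := by
    intro b hb
    exact ⟨List.idxOf_append_of_mem hb, List.idxOf_append_of_mem hb⟩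
  have h3 : ∀ b : Fin m, b ∈ wr σ i → (wr σ i).idxOf b < (wr σ i).length := by
    intro b hb
    exact List.idxOf_lt_length_iff.2 hb
  have h4 : ∀ b : Fin m, b ∉ wr σ i → (wr σ i).length ≤ (wr σ i ++ wl σ i).idxOf b := by
    intro b hb
    rw [List.idxOf_append_of_notMem hb]
    omega
  by_cases ha' : a ∈ wr σ i
  · by_cases hj' : j ∈ wr σ i
    · rw [(h2 a ha').1, (h2 a ha').2, (h2 j hj').1, (h2 j hj').2]
    · rw [(h2 a ha').1, (h2 a ha').2, h1 j hj hj']
      have := h3 a ha'
      have := h4 j hj'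
      omega
  · by_cases hj' : j ∈ wr σ i
    · rw [(h2 j hj').1, (h2 j hj').2, h1 a ha ha']
      have := h3 j hj'
      have := h4 a ha'
      omega
    · rw [h1 a ha ha', h1 j hj hj']
      omega

private theorem Bw_one (i : Fin m) (σ : Perm (Fin m)) (a j : Fin m) :
    Bw i σ a j = 1 ↔
      (wr σ i ++ i :: wl σ i).idxOf a < (wr σ i ++ i :: wl σ i).idxOf j := by
  unfold Bw
  split_ifs with h
  · simp [h]
  · simp [h]

private theorem Bw_cases (i : Fin m) (σ : Perm (Fin m)) (a j : Fin m) :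
    Bw i σ a j = 0 ∨ Bw i σ a j = 1 := by
  unfold Bw
  split_ifs
  · exact Or.inr rfl
  · exact Or.inl rfl

private theorem Bw_eq_iff (i : Fin m) (σ σ' : Perm (Fin m)) (a j : Fin m) :
    Bw i σ a j = Bw i σ' a j ↔
      ((wr σ i ++ i :: wl σ i).idxOf a < (wr σ i ++ i :: wl σ i).idxOf j ↔
        (wr σ' i ++ i :: wl σ' i).idxOf a < (wr σ' i ++ i :: wl σ' i).idxOf j) := by
  rw [← Bw_one i σ a j, ← Bw_one i σ' a j]
  rcases Bw_cases i σ a j with h | h <;> rcases Bw_cases i σ' a j with h' | h' <;>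
    rw [h, h'] <;> decide

theorem Bw_tour (i : Fin m) (σ : Perm (Fin m)) : Tour (Bw i σ) := by
  refine ⟨fun a => ?_, Bw_cases i σ, fun a j haj => ?_⟩
  · unfold Bw
    rw [if_neg (lt_irrefl _)]
  · have h1 : (wr σ i ++ i :: wl σ i).idxOf a ≠ (wr σ i ++ i :: wl σ i).idxOf j := by
      intro h
      exact haj ((List.idxOf_inj (mem_L σ i a)).1 h)
    unfold Bw
    rcases lt_or_gt_of_ne h1 with h | h
    · rw [if_pos h, if_neg (not_lt.2 h.le)]; rfl
    · rw [if_pos h, if_neg (not_lt.2 h.le)]; rfl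

theorem Bw_inj (i : Fin m) : Function.Injective (Bw (m := m) i) := by
  intro σ σ' h
  have hL : wr σ i ++ i :: wl σ i = wr σ' i ++ i :: wl σ' i := by
    refine eq_of_order _ _ (nodup_L σ i) (nodup_L σ' i)
      (fun a => ⟨fun _ => mem_L σ' i a, fun _ => mem_L σ i a⟩) ?_
    intro a _ b _ hab
    exact ((Bw_eq_iff i σ σ' a b).1 (congrFun (congrFun h a) b)).2 hab
  have hlen : (wr σ i).length = (wr σ' i).length := by
    have h1 : (wr σ i ++ i :: wl σ i).idxOf i = (wr σ i).length := by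
      rw [List.idxOf_append_of_notMem (not_mem_wr σ i), List.idxOf_cons_self]; rfl
    have h2 : (wr σ' i ++ i :: wl σ' i).idxOf i = (wr σ' i).length := by
      rw [List.idxOf_append_of_notMem (not_mem_wr σ' i), List.idxOf_cons_self]; rfl
    rw [← h1, ← h2, hL]
  obtain ⟨h1, h2⟩ := List.append_inj hL hlen
  have h3 : wl σ i = wl σ' i := (List.cons.inj h2).2
  have h4 : (List.ofFn fun k => σ k) = List.ofFn fun k => σ' k := by
    rw [ofFn_split σ i, ofFn_split σ' i, h1, h3]
  have h5 := List.ofFn_injective h4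
  exact Equiv.ext fun k => congrFun h5 k

theorem Bw_off (i : Fin m) (σ σ' : Perm (Fin m)) :
    (∀ a j, a ≠ i → j ≠ i → Bw i σ a j = Bw i σ' a j) ↔
      wr σ i ++ wl σ i = wr σ' i ++ wl σ' i := by
  constructor
  · intro h
    refine eq_of_order _ _ (nodup_w σ i) (nodup_w σ' i)
      (fun a => by rw [mem_w, mem_w]) ?_
    intro a ha b hb hab
    rw [mem_w] at ha hb
    have h1 := (Bw_eq_iff i σ σ' a b).1 (h a b ha hb)
    exact (ord_iff σ i a b ha hb).1 (h1.2 ((ord_iff σ' i a b ha hb).2 hab))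
  · intro h a j ha hj
    rw [Bw_eq_iff, ord_iff σ i a j ha hj, ord_iff σ' i a j ha hj, h]

end ALK
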