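import Pool.Agent.Work.MP_05d08f_al.AS.Defs

set_option autoImplicit false

/-!
# E02: exponents of words (size M)

`G` is a commutative ring, `h i = 0`. For a list `l` of letters let
`qe h ω [] = 0` and `qe h ω (j :: l) = h j * (∑ of ω over l) + qe h ω l`: this is the sum of
`h a * ω j` over all pairs of positions `a` before `j` of `l`.

`alp_eq`: for `σ : Perm (Fin m)` and `t : G`,
`alp i (Bw i σ) h ω + t * bet i (Bw i σ) h
   = qe h ω (wr σ i) + t * sh h (wr σ i) + sh h (wr σ i) * ∑ ω over wl σ i + qe h ω (wl σ i)`.
PROOF. The left hand side is the sum of `h a * ω' j` over all pairs of letters `a` before `j` in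
`L_σ = wr σ i ++ i :: wl σ i`, where `ω' = Function.update ω i t`; i.e. it is `qe h ω' L_σ`
(general lemma: for a list `L` without repetition containing all letters and `B` its order relation,
`∑_j ∑_a B a j h a ω' j = qe h ω' L`; induction on `L` for lists without repetition, with sums over the members of
the list). Then `qe h ω' (l₁ ++ l₂) = qe h ω' l₁ + (sum of h over l₁) * (sum of ω' over l₂) + qe h ω' l₂`, and
`h i = 0`, `ω' i = t`, `i ∉ wr σ i`, `i ∉ wl σ i` (so `ω'` can be replaced by `ω` on these lists).

`wt_char`: `ψ : AddChar G Ω`; with `D j a = ψ (ω j * a)` the weight of a word is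
`wt h D l a = ψ ((∑ ω over l) * a + qe' l)` where `qe' l` is the sum of `ω j * h b` over the pairs of positions
`b` before `j`; as `G` is commutative this is `qe h ω l`. Induction on `l`:
`wt h D (j :: l) a = ψ (ω j * a) * wt h D l (a + h j)`, and
`(∑ ω over l) * (a + h j) = (∑ ω over l) * a + h j * (∑ ω over l)`.
-/

namespace ALK

open Equiv MLI

variable {m : ℕ}

/-- Sum of `h a * ω j` over the pairs of positions `a` before `j`. -/
def qe {G : Type*} [CommRing G] (h ω : Fin m → G) : List (Fin m) → G
  | [] => 0
  | j :: l => h j * (l.map ω).sum + qe h ω l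

private theorem qe_append {G : Type*} [CommRing G] (h ω : Fin m → G) (l₁ l₂ : List (Fin m)) :
    qe h ω (l₁ ++ l₂) = qe h ω l₁ + (l₁.map h).sum * (l₂.map ω).sum + qe h ω l₂ := by
  induction l₁ with
  | nil => simp [qe]
  | cons x l ih =>
    simp only [List.cons_append, qe, List.map_append, List.sum_append, List.map_cons,
      List.sum_cons]
    rw [ih]
    ring

private theorem qe_congr {G : Type*} [CommRing G] (h ω ω' : Fin m → G) (l : List (Fin m))
    (hl : ∀ x ∈ l, ω x = ω' x) : qe h ω l = qe h ω' l := by
  induction l with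
  | nil => rfl
  | cons x l ih =>
    simp only [qe]
    rw [ih fun y hy => hl y (List.mem_cons_of_mem _ hy),
      List.map_congr_left fun y hy => hl y (List.mem_cons_of_mem _ hy)]

private theorem qe_sum {G : Type*} [CommRing G] (h ω : Fin m → G) (l : List (Fin m))
    (hl : l.Nodup) :
    (l.map fun j => (l.map fun a => if l.idxOf a < l.idxOf j then h a * ω j else 0).sum).sum =
      qe h ω l := by
  induction l with
  | nil => rfl
  | cons x l ih =>
    obtain ⟨hx, hl'⟩ := List.nodup_cons.1 hl
    simp only [qe]
    rw [List.map_cons, List.sum_cons]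
    have h0 : ((x :: l).map fun a => if (x :: l).idxOf a < (x :: l).idxOf x then
        h a * ω x else 0).sum = 0 := by
      have : ((x :: l).map fun a => if (x :: l).idxOf a < (x :: l).idxOf x then
          h a * ω x else 0) = (x :: l).map fun _ => (0 : G) := by
        refine List.map_congr_left fun a _ => ?_
        rw [List.idxOf_cons_self, if_neg (Nat.not_lt_zero _)]
      rw [this]
      simp
    rw [h0, zero_add]
    have h1 : (l.map fun j => ((x :: l).map fun a => if (x :: l).idxOf a < (x :: l).idxOf j then
        h a * ω j else 0).sum) = l.map fun j => h x * ω j +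
          (l.map fun a => if l.idxOf a < l.idxOf j then h a * ω j else 0).sum := by
      refine List.map_congr_left fun j hj => ?_
      have hj' : x ≠ j := fun e => hx (e ▸ hj)
      rw [List.map_cons, List.sum_cons, List.idxOf_cons_self, List.idxOf_cons_ne _ hj',
        if_pos (Nat.succ_pos _)]
      congr 2
      refine List.map_congr_left fun a ha => ?_
      have ha' : x ≠ a := fun e => hx (e ▸ ha)
      rw [List.idxOf_cons_ne _ ha']
      simp only [Nat.succ_lt_succ_iff]
    rw [h1, List.sum_map_add, ih hl', List.sum_map_mul_left]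

private theorem nodup_L (σ : Perm (Fin m)) (i : Fin m) : (wr σ i ++ i :: wl σ i).Nodup := by
  rw [List.nodup_append]
  refine ⟨nodup_wr σ i, List.nodup_cons.2 ⟨not_mem_wl σ i, nodup_wl σ i⟩, ?_⟩
  rintro a ha b hb rfl
  rcases List.mem_cons.1 hb with rfl | hb
  · exact not_mem_wr σ _ ha
  · exact wl_wr_disjoint σ i a hb ha

private theorem mem_L (σ : Perm (Fin m)) (i a : Fin m) : a ∈ wr σ i ++ i :: wl σ i := by
  rw [List.mem_append, List.mem_cons]
  by_cases h : a = i
  · exact Or.inr (Or.inl h)
  · rcases mem_wl_or_wr σ i a h with h1 | h1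
    · exact Or.inr (Or.inr h1)
    · exact Or.inl h1

private theorem sum_univ_list {G : Type*} [AddCommMonoid G] (L : List (Fin m)) (hL : L.Nodup)
    (hm : ∀ a, a ∈ L) (f : Fin m → G) : ∑ a, f a = (L.map f).sum := by
  rw [← List.sum_toFinset f hL]
  congr 1
  ext a
  simp [hm a]

private theorem tour_sum {G : Type*} [CommRing G] (i : Fin m) (σ : Perm (Fin m))
    (h ω : Fin m → G) :
    ∑ j, ∑ a, (Bw i σ a j : G) * h a * ω j = qe h ω (wr σ i ++ i :: wl σ i) := by
  rw [← qe_sum h ω _ (nodup_L σ i), sum_univ_list _ (nodup_L σ i) (mem_L σ i)]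
  congr 1
  refine List.map_congr_left fun j _ => ?_
  rw [sum_univ_list _ (nodup_L σ i) (mem_L σ i)]
  congr 1
  refine List.map_congr_left fun a _ => ?_
  unfold Bw
  split_ifs
  · simp
  · simp

theorem alp_eq {G : Type*} [CommRing G] (i : Fin m) (σ : Perm (Fin m)) (h ω : Fin m → G)
    (hi : h i = 0) (t : G) :
    alp i (Bw i σ) h ω + t * bet i (Bw i σ) h =
      qe h ω (wr σ i) + t * sh h (wr σ i) + sh h (wr σ i) * ((wl σ i).map ω).sum +
        qe h ω (wl σ i) := by
  have hup : ∀ x, x ≠ i → Function.update ω i t x = ω x := fun x hx =>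
    Function.update_of_ne hx _ _
  have h1 : alp i (Bw i σ) h ω + t * bet i (Bw i σ) h =
      ∑ j, ∑ a, (Bw i σ a j : G) * h a * Function.update ω i t j := by
    rw [← Finset.sum_erase_add _ _ (Finset.mem_univ i)]
    congr 1
    · unfold alp
      refine Finset.sum_congr rfl fun j hj => Finset.sum_congr rfl fun a _ => ?_
      rw [hup j (Finset.ne_of_mem_erase hj)]
    · unfold bet
      rw [Function.update_self, Finset.mul_sum]
      exact Finset.sum_congr rfl fun a _ => by ring
  have h2 : qe h (Function.update ω i t) (wr σ i) = qe h ω (wr σ i) :=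
    qe_congr h _ _ _ fun x hx => hup x fun e => not_mem_wr σ i (e ▸ hx)
  have h3 : qe h (Function.update ω i t) (wl σ i) = qe h ω (wl σ i) :=
    qe_congr h _ _ _ fun x hx => hup x fun e => not_mem_wl σ i (e ▸ hx)
  have h4 : (wl σ i).map (Function.update ω i t) = (wl σ i).map ω :=
    List.map_congr_left fun x hx => hup x fun e => not_mem_wl σ i (e ▸ hx)
  rw [h1, tour_sum, qe_append, h2]
  simp only [qe, List.map_cons, List.sum_cons]
  rw [h3, h4, hi, Function.update_self]
  unfold sh
  ring

theorem wt_char {G Ω : Type*} [CommRing G] [Fintype G] [DecidableEq G] [Field Ω] (ψ : AddChar G Ω)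
    (h ω : Fin m → G) (l : List (Fin m)) (a : G) :
    wt h (fun j x => ψ (ω j * x)) l a = ψ ((l.map ω).sum * a + qe h ω l) := by
  induction l generalizing a with
  | nil => simp [wt, qe]
  | cons j l ih =>
    simp only [wt, qe, List.map_cons, List.sum_cons]
    rw [ih, ← AddChar.map_add_eq_mul]
    congr 1
    ring

end ALK
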