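import Pool.Agent.Work.MP_05d08f_al.AS.E01
import Pool.Agent.Work.MP_05d08f_al.AS.E02

set_option autoImplicit false

/-!
# E03: the special point (size M-L)

`G` is a finite commutative ring, `ψ : G → Ω` an additive character with `∑_x ψ (a x) = 0` for `a ≠ 0`,
`card G ≠ 0` in `Ω`, `h i = 0`. Put `R(t) = ∑_σ c σ ψ (alp i (Bw i σ) h ω + t * bet i (Bw i σ) h)` and assume
`R(t) ≠ 0` for `t ≠ 0`, and for all `t` if `c` is not traceless. Then for `D j a = ψ (ω j * a)` and a suitable `φ`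
(`φ = 0` if `c` is not traceless) `LamD c i h D φ` is invertible.

(1) With `H = ∑ j, h j`, `W = ∑_{j ≠ i} ω j`, `A = Lam c i h (-H) D D`:
    `∑_a ψ (t a) A a a' = ψ ((t + W) a') ψ (- H (t + W)) R(t)`  for all `t, a'`.
PROOF. `A a a' = ∑_σ [a' = a + sh h (wl σ)] c σ * (wt h D (wl σ) a * wt h D (wr σ) (a' - H))`. Fix `σ`; write
`s = sh h (wl σ)`, `s' = sh h (wr σ)`, so `s + s' = H` (`sh_word`, `h i = 0`), `w = ∑ ω over wl σ`, `w' = ∑ ω over wr σ`,
`w + w' = W`. Only `a = a' - s` contributes, and by `wt_char` the exponent is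
`t (a' - s) + w (a' - s) + qe (wl) + w' (a' - H) + qe (wr)`
`= (t + W) a' - t s - w s - w' H + qe (wl) + qe (wr)`; with `s = H - s'`:
`= (t + W) a' - H (t + W) + [t s' + s' w + qe (wl) + qe (wr)]`, and the bracket is
`alp i (Bw i σ) h ω + t * bet i (Bw i σ) h` by `alp_eq`.
(2) If `c` is traceless then `R(0) = 0`: `alp i (Bw i σ) h ω` depends only on the relation off `i` (terms with
`a = i` vanish because `h i = 0`), i.e. on `wr σ i ++ wl σ i` (`Bw_off`); group the sum over `σ`.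
(3) Choose `φ = 0` if `¬ TL c i`, and `φ a' = ψ (W a')` if `TL c i`. Let `F t a = ψ (t a)` (a `G × G` matrix) and
`M = LamD c i h D φ`. Then `(F * M) t a' = μ_t F (t + W) a'` with `μ_t = ψ (- H (t + W)) R(t)` if `¬ TL c i`; if
`TL c i` the extra term is `(∑_a ψ (t a)) φ a' = card G [t = 0] ψ (W a')`, so `μ_t = ψ (- H (t + W)) R(t)` for
`t ≠ 0` and `μ_0 = 0 + card G`. All `μ_t ≠ 0`. `F` is invertible: `∑_a F t a * ψ (- a t') = card G [t = t']`.
So `F * M = diagonal μ * F.submatrix (· + W) id` is invertible and `det M ≠ 0`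
(`Matrix.det_mul`, `Matrix.det_diagonal`, `Matrix.det_permute'` or invertibility of the submatrix along
`Equiv.addRight W`).
-/

namespace ALK

open Equiv MLI Matrix

variable {m : ℕ}

private theorem qe_append {G : Type*} [CommRing G] (h ω : Fin m → G) (l₁ l₂ : List (Fin m)) :
    qe h ω (l₁ ++ l₂) = qe h ω l₁ + (l₁.map h).sum * (l₂.map ω).sum + qe h ω l₂ := by
  induction l₁ with
  | nil => simp [qe]
  | cons j l ih =>
    simp only [List.cons_append, qe, ih, List.map_append, List.sum_append, List.map_cons,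
      List.sum_cons]
    ring

private theorem alp_key {G : Type*} [CommRing G] (i : Fin m) (σ : Perm (Fin m)) (h ω : Fin m → G)
    (hi : h i = 0) : alp i (Bw i σ) h ω = qe h ω (wr σ i ++ wl σ i) := by
  have h1 := alp_eq i σ h ω hi 0
  rw [zero_mul, zero_mul, add_zero, add_zero] at h1
  rw [h1, qe_append]
  rfl

private theorem sum_zero {G Ω : Type*} [CommRing G] [Field Ω]
    (ψ : AddChar G Ω) (c : Perm (Fin m) → Ω) (i : Fin m) (h ω : Fin m → G)
    (hi : h i = 0) (hT : TL c i) :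
    ∑ σ, c σ * ψ (alp i (Bw i σ) h ω + 0 * bet i (Bw i σ) h) = 0 := by
  classical
  have h1 : ∀ σ : Perm (Fin m), c σ * ψ (alp i (Bw i σ) h ω + 0 * bet i (Bw i σ) h) =
      c σ * ψ (qe h ω (wr σ i ++ wl σ i)) := by
    intro σ
    rw [zero_mul, add_zero, alp_key i σ h ω hi]
  rw [Finset.sum_congr rfl fun σ _ => h1 σ]
  rw [← Finset.sum_fiberwise_of_maps_to
    (t := Finset.univ.image fun σ : Perm (Fin m) => wr σ i ++ wl σ i)
    (g := fun σ : Perm (Fin m) => wr σ i ++ wl σ i)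
    (fun σ _ => Finset.mem_image_of_mem _ (Finset.mem_univ σ))]
  refine Finset.sum_eq_zero fun L hL => ?_
  obtain ⟨σ₀, _, rfl⟩ := Finset.mem_image.1 hL
  have h2 : ∀ σ ∈ Finset.univ.filter (fun σ : Perm (Fin m) =>
      wr σ i ++ wl σ i = wr σ₀ i ++ wl σ₀ i),
      c σ * ψ (qe h ω (wr σ i ++ wl σ i)) = c σ * ψ (qe h ω (wr σ₀ i ++ wl σ₀ i)) := by
    intro σ hσ
    rw [(Finset.mem_filter.1 hσ).2]
  rw [Finset.sum_congr rfl h2, ← Finset.sum_mul, Finset.sum_filter]
  have h3 := hT σ₀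
  have h4 : (∑ a : Perm (Fin m), if wr a i ++ wl a i = wr σ₀ i ++ wl σ₀ i then c a else 0) = 0 := by
    rw [← h3]
    refine Finset.sum_congr rfl fun σ _ => ?_
    congr
  rw [h4, zero_mul]

private theorem char_sum {G Ω : Type*} [CommRing G] [Fintype G] [DecidableEq G] [Field Ω]
    (ψ : AddChar G Ω) (hψ : ∀ a : G, a ≠ 0 → ∑ x, ψ (a * x) = 0) (t : G) :
    ∑ x, ψ (t * x) = if t = 0 then (Fintype.card G : Ω) else 0 := by
  by_cases ht : t = 0
  · rw [if_pos ht, ht]
    simp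
  · rw [if_neg ht]
    exact hψ t ht

private theorem det_F {G Ω : Type*} [CommRing G] [Fintype G] [DecidableEq G] [Field Ω]
    (ψ : AddChar G Ω) (hψ : ∀ a : G, a ≠ 0 → ∑ x, ψ (a * x) = 0)
    (hcard : (Fintype.card G : Ω) ≠ 0) :
    (Matrix.of fun t a : G => ψ (t * a)).det ≠ 0 := by
  have h1 : (Matrix.of fun t a : G => ψ (t * a)) * (Matrix.of fun a t : G => ψ (-(t * a))) =
      (Fintype.card G : Ω) • (1 : Matrix G G Ω) := by
    ext t t'
    rw [Matrix.mul_apply, Matrix.smul_apply, Matrix.one_apply, smul_eq_mul]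
    have h2 : ∀ a : G, (Matrix.of fun t a : G => ψ (t * a)) t a *
        (Matrix.of fun a t : G => ψ (-(t * a))) a t' = ψ ((t - t') * a) := by
      intro a
      rw [Matrix.of_apply, Matrix.of_apply, ← AddChar.map_add_eq_mul]
      congr 1
      ring
    rw [Finset.sum_congr rfl fun a _ => h2 a, char_sum ψ hψ]
    by_cases ht : t = t'
    · rw [if_pos (sub_eq_zero.2 ht), if_pos ht, mul_one]
    · rw [if_neg (fun h => ht (sub_eq_zero.1 h)), if_neg ht, mul_zero]
  have h2 := congrArg Matrix.det h1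
  rw [Matrix.det_mul, Matrix.det_smul, Matrix.det_one, mul_one] at h2
  intro h3
  rw [h3, zero_mul] at h2
  exact pow_ne_zero _ hcard h2.symm

private theorem col_eq {G Ω : Type*} [CommRing G] [Fintype G] [DecidableEq G] [Field Ω]
    (ψ : AddChar G Ω) (c : Perm (Fin m) → Ω) (i : Fin m) (h ω : Fin m → G)
    (hi : h i = 0) (t a' : G) :
    ∑ a, ψ (t * a) * Lam c i h (-∑ j, h j) (fun j x => ψ (ω j * x)) (fun j x => ψ (ω j * x)) a a' =
      ψ ((t + (∑ j, ω j - ω i)) * a') * (ψ (-((∑ j, h j) * (t + (∑ j, ω j - ω i)))) *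
        ∑ σ, c σ * ψ (alp i (Bw i σ) h ω + t * bet i (Bw i σ) h)) := by
  have h1 : ∀ a, ψ (t * a) * Lam c i h (-∑ j, h j) (fun j x => ψ (ω j * x))
      (fun j x => ψ (ω j * x)) a a' = ∑ σ : Perm (Fin m), if a = a' - sh h (wl σ i) then
        ψ (t * a) * (c σ * (wt h (fun j x => ψ (ω j * x)) (wl σ i) a *
          wt h (fun j x => ψ (ω j * x)) (wr σ i) (a' + -∑ j, h j))) else 0 := by
    intro a
    rw [Lam, Matrix.of_apply, Finset.mul_sum]
    refine Finset.sum_congr rfl fun σ _ => ?_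
    by_cases ha : a' = a + sh h (wl σ i)
    · rw [if_pos ha, if_pos (eq_sub_of_add_eq ha.symm)]
    · rw [if_neg ha, if_neg (fun h => ha (by rw [h]; ring)), mul_zero]
  rw [Finset.sum_congr rfl fun a _ => h1 a, Finset.sum_comm, Finset.mul_sum, Finset.mul_sum]
  refine Finset.sum_congr rfl fun σ _ => ?_
  rw [Finset.sum_ite_eq' Finset.univ (a' - sh h (wl σ i)), if_pos (Finset.mem_univ _),
    wt_char, wt_char]
  have h2 := sh_word h σ i
  have h3 := sh_word ω σ i
  rw [hi, add_zero] at h2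
  have h4 : ∀ x y z u w : Ω, x * (y * (z * u)) = y * (x * z * u) := by intros; ring
  have h5 : ∀ x y z u : Ω, x * (y * (z * u)) = z * (x * y * u) := by intros; ring
  rw [show ψ (t * (a' - sh h (wl σ i))) * (c σ * (ψ (((wl σ i).map ω).sum *
      (a' - sh h (wl σ i)) + qe h ω (wl σ i)) * ψ (((wr σ i).map ω).sum *
      (a' + -∑ j, h j) + qe h ω (wr σ i)))) = c σ * (ψ (t * (a' - sh h (wl σ i))) *
      ψ (((wl σ i).map ω).sum * (a' - sh h (wl σ i)) + qe h ω (wl σ i)) *
      ψ (((wr σ i).map ω).sum * (a' + -∑ j, h j) + qe h ω (wr σ i))) by ring, h5,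
    ← AddChar.map_add_eq_mul, ← AddChar.map_add_eq_mul, ← AddChar.map_add_eq_mul,
    ← AddChar.map_add_eq_mul, alp_eq i σ h ω hi t]
  congr 2
  rw [← h2, ← h3]
  simp only [sh]
  ring

theorem special_point {G Ω : Type*} [CommRing G] [Fintype G] [DecidableEq G] [Field Ω]
    (ψ : AddChar G Ω) (hψ : ∀ a : G, a ≠ 0 → ∑ x, ψ (a * x) = 0)
    (hcard : (Fintype.card G : Ω) ≠ 0) (c : Perm (Fin m) → Ω) (i : Fin m) (h ω : Fin m → G)
    (hi : h i = 0)
    (hR : ∀ t : G, (t ≠ 0 ∨ ¬ TL c i) →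
      ∑ σ, c σ * ψ (alp i (Bw i σ) h ω + t * bet i (Bw i σ) h) ≠ 0) :
    ∃ (D : Fin m → G → Ω) (φ : G → Ω), (φ = 0 ∨ TL c i) ∧ (LamD c i h D φ).det ≠ 0 := by
  classical
  obtain ⟨R, hRdef⟩ : ∃ R : G → Ω, ∀ t, R t =
      ∑ σ, c σ * ψ (alp i (Bw i σ) h ω + t * bet i (Bw i σ) h) := ⟨_, fun _ => rfl⟩
  obtain ⟨W, hW⟩ : ∃ W : G, W = ∑ j, ω j - ω i := ⟨_, rfl⟩
  refine ⟨fun j x => ψ (ω j * x), if TL c i then fun a' => ψ (W * a') else 0, ?_, ?_⟩
  · by_cases hT : TL c i
    · exact Or.inr hT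
    · left; rw [if_neg hT]
  have hF := det_F ψ hψ hcard
  have key : (Matrix.of fun t a : G => ψ (t * a)) *
      LamD c i h (fun j x => ψ (ω j * x)) (if TL c i then fun a' => ψ (W * a') else 0) =
      Matrix.diagonal (fun t => if TL c i ∧ t = 0 then (Fintype.card G : Ω) else
        ψ (-((∑ j, h j) * (t + W))) * R t) *
      (Matrix.of fun t a : G => ψ (t * a)).submatrix (Equiv.addRight W) id := by
    ext t a'
    rw [Matrix.mul_apply, Matrix.diagonal_mul, Matrix.submatrix_apply, Matrix.of_apply]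
    have h1 : ∀ a : G, (Matrix.of fun t a : G => ψ (t * a)) t a *
        LamD c i h (fun j x => ψ (ω j * x)) (if TL c i then fun a' => ψ (W * a') else 0) a a' =
        ψ (t * a) * Lam c i h (-∑ j, h j) (fun j x => ψ (ω j * x)) (fun j x => ψ (ω j * x)) a a' +
        ψ (t * a) * (if TL c i then fun a' => ψ (W * a') else 0 : G → Ω) a' := by
      intro a
      rw [Matrix.of_apply, LamD, Matrix.add_apply, Matrix.of_apply, mul_add]
    rw [Finset.sum_congr rfl fun a _ => h1 a, Finset.sum_add_distrib, col_eq ψ c i h ω hi,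
      ← Finset.sum_mul, char_sum ψ hψ, ← hW, ← hRdef]
    simp only [Equiv.coe_addRight, id_eq]
    by_cases hT : TL c i
    · by_cases ht : t = 0
      · have h2 : R t = 0 := by
          rw [hRdef, ht]
          exact sum_zero ψ c i h ω hi hT
        rw [if_pos ht, if_pos hT, if_pos ⟨hT, ht⟩, h2, ht, zero_add]
        ring
      · rw [if_neg ht, if_pos hT, if_neg (fun h' : TL c i ∧ t = 0 => ht h'.2)]
        ring
    · rw [if_neg hT, if_neg (fun h' : TL c i ∧ t = 0 => hT h'.1)]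
      simp only [Pi.zero_apply]
      ring
  intro h0
  have h1 := congrArg Matrix.det key
  rw [Matrix.det_mul, Matrix.det_mul, Matrix.det_diagonal, h0, mul_zero,
    Matrix.det_permute] at h1
  have h2 : (∏ t : G, if TL c i ∧ t = 0 then (Fintype.card G : Ω) else
        ψ (-((∑ j, h j) * (t + W))) * R t) ≠ 0 := by
    rw [Finset.prod_ne_zero_iff]
    intro t _
    by_cases ht : TL c i ∧ t = 0
    · rw [if_pos ht]; exact hcard
    · rw [if_neg ht]
      refine mul_ne_zero (AddChar.val_isUnit ψ _).ne_zero ?_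
      rw [hRdef]
      refine hR t ?_
      by_cases ht0 : t = 0
      · right; intro hT; exact ht ⟨hT, ht0⟩
      · left; exact ht0
  have h3 : ((Equiv.Perm.sign (Equiv.addRight W) : ℤˣ) : Ω) ≠ 0 := by
    rcases Int.units_eq_one_or (Equiv.Perm.sign (Equiv.addRight W)) with h | h <;> simp [h]
  exact mul_ne_zero h2 (mul_ne_zero h3 hF) h1.symm

end ALK
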