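import Mathlib

set_option autoImplicit false

/-!
# N01: polynomial functions over an infinite domain (Mathlib only, size S-M)

A copy of the first half of `Pool/Agent/Work/MP_05d08f_al/Gen.lean` (`MLI.IsPoly`, `MLI.exists_common`), for
a commutative domain `R` instead of a field (used with `R = ℤ`). All proofs there work verbatim
(`MvPolynomial.funext` needs an infinite domain).
-/

namespace ALK

variable {R : Type*} [CommRing R] {J : Type*}

/-- Polynomial functions of `x : J → R`. -/
def IsP (P : (J → R) → R) : Prop := ∃ p : MvPolynomial J R, ∀ x, P x = MvPolynomial.eval x p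

theorem IsP.const (t : R) : IsP (fun _ : J → R => t) := ⟨MvPolynomial.C t, by simp⟩

theorem IsP.coord (j : J) : IsP (fun x : J → R => x j) := ⟨MvPolynomial.X j, by simp⟩

theorem IsP.add {P Q : (J → R) → R} (hP : IsP P) (hQ : IsP Q) : IsP (fun x => P x + Q x) := by
  obtain ⟨p, hp⟩ := hP
  obtain ⟨q, hq⟩ := hQ
  exact ⟨p + q, fun x => by simp only [map_add, hp, hq]⟩

theorem IsP.mul {P Q : (J → R) → R} (hP : IsP P) (hQ : IsP Q) : IsP (fun x => P x * Q x) := by
  obtain ⟨p, hp⟩ := hP
  obtain ⟨q, hq⟩ := hQ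
  exact ⟨p * q, fun x => by simp only [map_mul, hp, hq]⟩

theorem IsP.sub {P Q : (J → R) → R} (hP : IsP P) (hQ : IsP Q) : IsP (fun x => P x - Q x) := by
  obtain ⟨p, hp⟩ := hP
  obtain ⟨q, hq⟩ := hQ
  exact ⟨p - q, fun x => by simp only [map_sub, hp, hq]⟩

theorem IsP.sum {ι : Type*} (s : Finset ι) {P : ι → (J → R) → R} (h : ∀ i ∈ s, IsP (P i)) :
    IsP (fun x => ∑ i ∈ s, P i x) := by
  classical
  induction s using Finset.induction_on with
  | empty => simpa using IsP.const (J := J) (0 : R)
  | insert a s ha ih =>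
    have h1 := (h a (Finset.mem_insert_self a s)).add
      (ih fun i hi => h i (Finset.mem_insert_of_mem hi))
    simpa [Finset.sum_insert ha] using h1

/-- Finitely many polynomial functions which are not identically zero have a common nonzero. -/
theorem IsP.common [IsDomain R] [Infinite R] {ι : Type*} (s : Finset ι) {P : ι → (J → R) → R}
    (hP : ∀ i ∈ s, IsP (P i)) (h : ∀ i ∈ s, ∃ x, P i x ≠ 0) : ∃ x, ∀ i ∈ s, P i x ≠ 0 := by
  classical
  choose! p hp using hP
  have hp0 : ∀ i ∈ s, p i ≠ 0 := by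
    intro i hi h0
    obtain ⟨x, hx⟩ := h i hi
    rw [hp i hi, h0, map_zero] at hx
    exact hx rfl
  have hprod : (∏ i ∈ s, p i) ≠ 0 := Finset.prod_ne_zero_iff.2 hp0
  obtain ⟨x, hx⟩ : ∃ x, MvPolynomial.eval x (∏ i ∈ s, p i) ≠ 0 := by
    by_contra hcon
    push Not at hcon
    exact hprod (MvPolynomial.funext fun x => by rw [hcon x, map_zero])
  refine ⟨x, fun i hi => ?_⟩
  rw [map_prod, Finset.prod_ne_zero_iff] at hx
  rw [hp i hi]
  exact hx i hi

end ALK
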