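import Pool.Agent.Work.MP_05d08f_al.AS.Defs

set_option autoImplicit false

/-!
# N02: parallel differences are equal up to sign (size M)

Notation: for `v` with `Dif v` and `h : ι → ℤ` with `h i = 0` put
`V_j(h) = ∑ a, v a j * h a`; so `bet i v h = V_i(h)` and `alp i v h ω = ∑_{j ≠ i} V_j(h) ω j`.

`ker_van` (A): if every `V_j`, `j ≠ i`, vanishes on `{h | h i = 0, V_i(h) = 0}` and `NzI i v`, then
`v a j = 0` for all `a ≠ i`, `j ≠ i`.
PROOF. Let `a` with `v a i ≠ 0` (so `a ≠ i` and `v a i = ± 1`). For `b ≠ a`, `b ≠ i` take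
`h = v a i · e_b - v b i · e_a`: `V_i(h) = v a i · v b i - v b i · v a i = 0`, so
`0 = V_a(h) = v a i · v b a - v b i · v a a = v a i · v b a`, i.e. `v b a = 0`; also `v a a = 0`. So
`v b a = 0 = v a b` for all `b ≠ i` whenever `v a i ≠ 0`. If `a, j ≠ i` and `v a i = 0`: `h = e_a` has
`V_i(h) = 0`, so `v a j = V_j(e_a) = 0`. So `v a j = 0` in all cases.

`par`: let `hid`: `alp i v h ω * bet i v' h = alp i v' h ω * bet i v h` for all `h, ω` with `h i = 0`. Taking
`ω = e_j`: `V_j(h) V'_i(h) = V'_j(h) V_i(h)` for all `j ≠ i`, `h i = 0`.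
(B) If `V'_i = ε V_i` on `{h i = 0}` with `ε = ± 1`, i.e. `v' a i = ε v a i` for all `a`: then for `h` with
`V_i(h) ≠ 0` we get `V'_j(h) = ε V_j(h)`; a linear form which vanishes where `V_i ≠ 0` vanishes
everywhere (if `V_i(h) = 0` take `h₁` with `V_i(h₁) ≠ 0` and use `h + h₁`). So `v' a j = ε v a j` for
`a ≠ i`, all `j`; for `a = i` use antisymmetry (`v' i j = - v' j i`). So `v' = ε v`.
(C) Otherwise there is `h₁` with `h₁ i = 0`, `V_i(h₁) = 0`, `V'_i(h₁) ≠ 0`: if `V'_i` vanished on
`ker V_i`, then with `a` such that `v a i = ± 1`: for every `b ≠ i` the vector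
`h = v a i · e_b - v b i · e_a` gives `v a i · v' b i = v b i · v' a i`, so `v' b i = κ v b i` for all
`b`, with `κ = v a i · v' a i ∈ {0, 1, -1}`, `κ ≠ 0` because of `NzI i v'`; this is case (B). Now every
`V_j` (`j ≠ i`) vanishes on `ker V_i`: let `V_i(h) = 0`. If `V'_i(h) ≠ 0` then
`V_j(h) V'_i(h) = V'_j(h) V_i(h) = 0` gives `V_j(h) = 0`. If `V'_i(h) = 0` apply this to `h + h₁` and `h₁`:
`V_j(h) = V_j(h + h₁) - V_j(h₁) = 0`. By (A) `v` vanishes off `i`, contradicting `NzO i v`.

`aln`: there are `h, ω` with `h i = 0`, `bet i v h = 0`, `alp i v h ω ≠ 0`: by (A) and `NzO` some `V_j`,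
`j ≠ i`, does not vanish on `ker V_i`; take `ω = e_j`.
-/

namespace ALK

variable {ι : Type*} [Fintype ι] [DecidableEq ι]

private theorem sum_two (f : ι → ℤ) (a b : ι) (s t : ℤ) :
    ∑ x, f x * (Pi.single b s - Pi.single a t : ι → ℤ) x = f b * s - f a * t := by
  simp [mul_sub, Finset.sum_sub_distrib, Pi.single_apply]

private theorem sum_one (f : ι → ℤ) (a : ι) (s : ℤ) :
    ∑ x, f x * (Pi.single a s : ι → ℤ) x = f a * s := by
  simp [Pi.single_apply]

private theorem bet_int (i : ι) (v : ι → ι → ℤ) (h : ι → ℤ) : bet i v h = ∑ a, v a i * h a := by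
  simp [bet]

private theorem alp_single (i j : ι) (hj : j ≠ i) (v : ι → ι → ℤ) (h : ι → ℤ) :
    alp i v h (Pi.single j 1) = ∑ a, v a j * h a := by
  unfold alp
  rw [Finset.sum_eq_single j]
  · simp
  · intro b _ hb
    simp [Pi.single_apply, hb]
  · intro h1
    exact (h1 (Finset.mem_erase.2 ⟨hj, Finset.mem_univ j⟩)).elim

theorem ker_van (i : ι) (v : ι → ι → ℤ) (hv : Dif v) (hI : NzI i v)
    (h0 : ∀ j, j ≠ i → ∀ h : ι → ℤ, h i = 0 → bet i v h = 0 → ∑ a, v a j * h a = 0) :
    ¬ NzO i v := by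
  rintro ⟨a, j, ha, hj, hne⟩
  apply hne
  by_cases h1 : v a i = 0
  · have h2 := h0 j hj (Pi.single a 1) (by simp [Pi.single_apply, Ne.symm ha]) (by
      rw [bet_int, sum_one, h1, zero_mul])
    rw [sum_one, mul_one] at h2
    exact h2
  · have h2 := h0 a ha (Pi.single j (v a i) - Pi.single a (v j i))
      (by simp [Pi.single_apply, Ne.symm ha, Ne.symm hj]) (by
      rw [bet_int, sum_two]
      ring)
    rw [sum_two, hv.diag, zero_mul, sub_zero] at h2
    rcases mul_eq_zero.1 h2 with h3 | h3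
    · rw [hv.anti, h3, neg_zero]
    · exact (h1 h3).elim

private theorem case_B (i : ι) (v v' : ι → ι → ℤ) (hv : Dif v) (hv' : Dif v') (hI : NzI i v)
    (hid : ∀ j, j ≠ i → ∀ h : ι → ℤ, h i = 0 →
      (∑ a, v a j * h a) * (∑ a, v' a i * h a) = (∑ a, v' a j * h a) * (∑ a, v a i * h a))
    (ε : ℤ) (hε : ∀ a, v' a i = ε * v a i) : ∀ a j, v' a j = ε * v a j := by
  have hVi : ∀ h : ι → ℤ, (∑ a, v' a i * h a) = ε * ∑ a, v a i * h a := by
    intro h
    rw [Finset.mul_sum]
    refine Finset.sum_congr rfl fun a _ => ?_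
    rw [hε]
    ring
  have h1 : ∀ j, j ≠ i → ∀ h : ι → ℤ, h i = 0 → (∑ a, v a i * h a) ≠ 0 →
      (∑ a, v' a j * h a) = ε * ∑ a, v a j * h a := by
    intro j hj h hh hne
    have h2 := hid j hj h hh
    rw [hVi] at h2
    have h3 : (∑ a, v a i * h a) * (∑ a, v' a j * h a) =
        (∑ a, v a i * h a) * (ε * ∑ a, v a j * h a) := by linarith
    exact mul_left_cancel₀ hne h3
  obtain ⟨a₀, ha₀⟩ := hI
  have hai : a₀ ≠ i := by
    rintro rfl
    exact ha₀ (hv.diag a₀)
  have h2 : ∀ j, j ≠ i → ∀ h : ι → ℤ, h i = 0 →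
      (∑ a, v' a j * h a) = ε * ∑ a, v a j * h a := by
    intro j hj h hh
    by_cases h3 : (∑ a, v a i * h a) = 0
    · have e1 : ∀ f : ι → ℤ, ∑ a, f a * (h + Pi.single a₀ 1 : ι → ℤ) a =
          (∑ a, f a * h a) + f a₀ := by
        intro f
        simp [mul_add, Finset.sum_add_distrib, Pi.single_apply]
      have h4 := h1 j hj (h + Pi.single a₀ 1) (by simp [hh, Pi.single_apply, Ne.symm hai])
        (by rw [e1, h3, zero_add]; exact ha₀)
      have h5 := h1 j hj (Pi.single a₀ 1) (by simp [Pi.single_apply, Ne.symm hai])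
        (by rw [sum_one, mul_one]; exact ha₀)
      rw [e1, e1] at h4
      rw [sum_one, sum_one] at h5
      linarith
    · exact h1 j hj h hh h3
  intro a j
  by_cases hj : j = i
  · rw [hj]
    exact hε a
  · by_cases ha : a = i
    · rw [ha, hv'.anti, hv.anti i j, hε]
      ring
    · have h3 := h2 j hj (Pi.single a 1) (by simp [Pi.single_apply, Ne.symm ha])
      rw [sum_one, sum_one, mul_one, mul_one] at h3
      exact h3

theorem par (i : ι) (v v' : ι → ι → ℤ) (hv : Dif v) (hv' : Dif v') (hI : NzI i v) (hI' : NzI i v')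
    (hO : NzO i v)
    (hid : ∀ h ω : ι → ℤ, h i = 0 → alp i v h ω * bet i v' h = alp i v' h ω * bet i v h) :
    v' = v ∨ v' = -v := by
  have hid2 : ∀ j, j ≠ i → ∀ h : ι → ℤ, h i = 0 →
      (∑ a, v a j * h a) * (∑ a, v' a i * h a) = (∑ a, v' a j * h a) * (∑ a, v a i * h a) := by
    intro j hj h hh
    have h1 := hid h (Pi.single j 1) hh
    rwa [alp_single i j hj, alp_single i j hj, bet_int, bet_int] at h1
  by_cases hC : ∃ h₁ : ι → ℤ, h₁ i = 0 ∧ (∑ a, v a i * h₁ a) = 0 ∧ (∑ a, v' a i * h₁ a) ≠ 0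
  · exfalso
    obtain ⟨h₁, h1i, h1v, h1v'⟩ := hC
    have key : ∀ j, j ≠ i → ∀ h : ι → ℤ, h i = 0 → (∑ a, v a i * h a) = 0 →
        (∑ a, v' a i * h a) ≠ 0 → (∑ a, v a j * h a) = 0 := by
      intro j hj h hh h2 h3
      have h4 := hid2 j hj h hh
      rw [h2, mul_zero] at h4
      exact (mul_eq_zero.1 h4).resolve_right h3
    refine ker_van i v hv hI ?_ hO
    intro j hj h hh h2
    rw [bet_int] at h2
    by_cases h3 : (∑ a, v' a i * h a) = 0
    · have e1 : ∀ f : ι → ℤ, ∑ a, f a * (h + h₁) a = (∑ a, f a * h a) + ∑ a, f a * h₁ a := by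
        intro f
        simp [mul_add, Finset.sum_add_distrib]
      have h4 := key j hj (h + h₁) (by simp [hh, h1i]) (by rw [e1, h2, h1v, add_zero])
        (by rw [e1, h3, zero_add]; exact h1v')
      have h5 := key j hj h₁ h1i h1v h1v'
      rw [e1, h5, add_zero] at h4
      exact h4
    · exact key j hj h hh h2 h3
  · push Not at hC
    obtain ⟨a, ha⟩ := hI
    have hai : a ≠ i := by
      rintro rfl
      exact ha (hv.diag a)
    have hsq : v a i * v a i = 1 := by
      rcases hv.ent a i with h1 | h1 | h1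
      · exact (ha h1).elim
      · rw [h1]; norm_num
      · rw [h1]; norm_num
    have hκ : ∀ b, v' b i = (v a i * v' a i) * v b i := by
      intro b
      by_cases hb : b = i
      · rw [hb, hv'.diag, hv.diag, mul_zero]
      · have h1 := hC (Pi.single b (v a i) - Pi.single a (v b i))
          (by simp [Pi.single_apply, Ne.symm hb, Ne.symm hai]) (by rw [sum_two]; ring)
        rw [sum_two] at h1
        calc v' b i = v' b i * (v a i * v a i) := by rw [hsq, mul_one]
          _ = (v' b i * v a i) * v a i := by ring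
          _ = (v' a i * v b i) * v a i := by rw [sub_eq_zero.1 h1]
          _ = (v a i * v' a i) * v b i := by ring
    have hκ0 : v a i * v' a i = 1 ∨ v a i * v' a i = -1 := by
      obtain ⟨b, hb⟩ := hI'
      have h1 : v' a i ≠ 0 := by
        intro h1
        apply hb
        rw [hκ, h1]
        ring
      rcases hv.ent a i with h2 | h2 | h2
      · exact (ha h2).elim
      · rcases hv'.ent a i with h3 | h3 | h3
        · exact (h1 h3).elim
        · left; rw [h2, h3]; norm_num
        · right; rw [h2, h3]; norm_num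
      · rcases hv'.ent a i with h3 | h3 | h3
        · exact (h1 h3).elim
        · right; rw [h2, h3]; norm_num
        · left; rw [h2, h3]; norm_num
    rcases hκ0 with h1 | h1
    · left
      funext x y
      have := case_B i v v' hv hv' ⟨a, ha⟩ hid2 1 (fun b => by rw [hκ b, h1]) x y
      rw [this, one_mul]
    · right
      funext x y
      have := case_B i v v' hv hv' ⟨a, ha⟩ hid2 (-1) (fun b => by rw [hκ b, h1]) x y
      rw [this]
      simp

theorem aln (i : ι) (v : ι → ι → ℤ) (hv : Dif v) (hI : NzI i v) (hO : NzO i v) :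
    ∃ h ω : ι → ℤ, h i = 0 ∧ bet i v h = 0 ∧ alp i v h ω ≠ 0 := by
  by_contra hcon
  push Not at hcon
  refine ker_van i v hv hI ?_ hO
  intro j hj h hh hb
  have h1 := hcon h (Pi.single j 1) hh hb
  rwa [alp_single i j hj] at h1

end ALK
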