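import Pool.Agent.Work.MP_05d08f_al.AS.Defs

set_option autoImplicit false

/-!
# N03: the position of `i` for a harmful `v` (size M)

Let `Harm i B T v` and `σ ≠ τ` in `T` be words which agree off `i` (`heq`) but `B σ a i ≠ B τ a i` for some `a`.
CLAIM: there is `h : ι → ℤ` with `h i = 0`, `bet i v h = 0`, `bet i (B σ) h ≠ bet i (B τ) h`.

PROOF. Let `w a = B σ a i - B τ a i`; `w i = 0`, `w a ∈ {0, 1, -1}`, `w ≠ 0`, and
`bet i (B σ) h - bet i (B τ) h = ∑ a, w a * h a`. Suppose the claim is false: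
`∑ w a h a = 0` whenever `h i = 0` and `∑ v a i h a = 0`. By `NzI` there is `a₀` with `v a₀ i ≠ 0`
(`a₀ ≠ i`, `v a₀ i = ± 1`). For `b ≠ i` the vector `h = v a₀ i · e_b - v b i · e_{a₀}` has `h i = 0`,
`∑ v a i h a = 0`, so `v a₀ i · w b = v b i · w a₀`: `w b = κ v b i` for all `b`, `κ = v a₀ i · w a₀`, and
`κ ≠ 0` because `w ≠ 0`; so `κ = ± 1` and `w a₀ ≠ 0`.

TYPES. By `Harm` there are `σ' ∈ T` with `B σ - B σ' = ε v` and `τ' ∈ T` with `B τ - B τ' = δ v`, `ε, δ = ± 1`.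
If `v x y = 1` then `B σ x y - B σ' x y = ε` (entries are `0` or `1`), so `B σ x y = 1` if `ε = 1` and `0` if
`ε = -1`; if `v x y = -1` it is the other way round. In short: for `v x y ≠ 0`,
`B σ x y = 1 ↔ v x y = ε`, and `B τ x y = 1 ↔ v x y = δ`. At `(x, y) = (a₀, i)`: `w a₀ ≠ 0`, i.e.
`B σ a₀ i ≠ B τ a₀ i`, gives `ε ≠ δ`. By `NzO` there are `x, y ≠ i` with `v x y ≠ 0`; as `ε ≠ δ`,
`B σ x y ≠ B τ x y`. This contradicts `heq`.
-/

namespace ALK

variable {ι : Type*} [Fintype ι] [DecidableEq ι]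

private theorem sum_two (f : ι → ℤ) (a b : ι) (s t : ℤ) :
    ∑ x, f x * (Pi.single b s - Pi.single a t : ι → ℤ) x = f b * s - f a * t := by
  simp [mul_sub, Finset.sum_sub_distrib, Pi.single_apply]

omit [DecidableEq ι] in
private theorem bet_int (i : ι) (v : ι → ι → ℤ) (h : ι → ℤ) : bet i v h = ∑ a, v a i * h a := by
  simp [bet]

omit [Fintype ι] [DecidableEq ι] in
private theorem eps {S : Type*} (B : S → ι → ι → ℤ) (hB : ∀ σ, Tour (B σ)) (T : Finset S)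
    (v : ι → ι → ℤ) (hd : Dif v) (hv : ∀ σ ∈ T, ∃ τ ∈ T, B σ - B τ = v ∨ B σ - B τ = -v)
    (σ : S) (hσ : σ ∈ T) : ∃ ε : ℤ, ∀ x y, v x y ≠ 0 → 2 * B σ x y = 1 + ε * v x y := by
  obtain ⟨τ, _, h⟩ := hv σ hσ
  have hen : ∀ x y, v x y ≠ 0 → v x y = 1 ∨ v x y = -1 := fun x y h0 =>
    (hd.ent x y).resolve_left h0
  rcases h with h | h
  · refine ⟨1, fun x y hxy => ?_⟩
    have h1 : B σ x y - B τ x y = v x y := congrFun (congrFun h x) y
    rcases hen x y hxy with h2 | h2 <;> rcases (hB σ).zo x y with h3 | h3 <;>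
      rcases (hB τ).zo x y with h4 | h4 <;> rw [h3, h4, h2] at h1 <;> rw [h3, h2] <;> omega
  · refine ⟨-1, fun x y hxy => ?_⟩
    have h1 : B σ x y - B τ x y = -v x y := congrFun (congrFun h x) y
    rcases hen x y hxy with h2 | h2 <;> rcases (hB σ).zo x y with h3 | h3 <;>
      rcases (hB τ).zo x y with h4 | h4 <;> rw [h3, h4, h2] at h1 <;> rw [h3, h2] <;> omega

theorem typ {S : Type*} (i : ι) (B : S → ι → ι → ℤ) (hB : ∀ σ, Tour (B σ)) (T : Finset S)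
    (v : ι → ι → ℤ) (hv : Harm i B T v) (σ τ : S) (hσ : σ ∈ T) (hτ : τ ∈ T)
    (hne : ∃ a, B σ a i ≠ B τ a i) (heq : ∀ a j, a ≠ i → j ≠ i → B σ a j = B τ a j) :
    ∃ h : ι → ℤ, h i = 0 ∧ bet i v h = 0 ∧ bet i (B σ) h ≠ bet i (B τ) h := by
  by_contra hcon
  push Not at hcon
  obtain ⟨hd, ⟨a₀, ha₀⟩, ⟨x, y, hx, hy, hxy⟩, hp⟩ := hv
  have hai : a₀ ≠ i := by
    rintro rfl
    exact ha₀ (hd.diag a₀)
  have hw : ∀ b, b ≠ i →
      (B σ b i - B τ b i) * v a₀ i = (B σ a₀ i - B τ a₀ i) * v b i := by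
    intro b hb
    have h1 := hcon (Pi.single b (v a₀ i) - Pi.single a₀ (v b i))
      (by simp [Pi.single_apply, Ne.symm hb, Ne.symm hai]) (by rw [bet_int, sum_two]; ring)
    rw [bet_int, bet_int, sum_two, sum_two] at h1
    linarith
  have hw0 : B σ a₀ i ≠ B τ a₀ i := by
    intro h0
    obtain ⟨b, hb⟩ := hne
    by_cases hbi : b = i
    · rw [hbi, (hB σ).diag, (hB τ).diag] at hb
      exact hb rfl
    · have h1 := hw b hbi
      rw [h0, sub_self, zero_mul] at h1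
      exact hb (sub_eq_zero.1 ((mul_eq_zero.1 h1).resolve_right ha₀))
  obtain ⟨ε, hε⟩ := eps B hB T v hd hp σ hσ
  obtain ⟨δ, hδ⟩ := eps B hB T v hd hp τ hτ
  have h1 := hε a₀ i ha₀
  have h2 := hδ a₀ i ha₀
  have h3 := hε x y hxy
  have h4 := hδ x y hxy
  rw [heq x y hx hy] at h3
  have h5 : ε = δ := mul_right_cancel₀ hxy (by linarith)
  rw [h5] at h1
  exact hw0 (by linarith)

end ALK
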