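import Pool.Agent.Work.MP_05d08f_al.AS.Defs
import Pool.Agent.Work.MP_05d08f_al.AS.N01
import Pool.Agent.Work.MP_05d08f_al.AS.N02
import Pool.Agent.Work.MP_05d08f_al.AS.N03

set_option autoImplicit false

/-!
# N05: generic integers for a harmful `v` (size M)

CLAIM: if `Harm i B T v` there are `h, ω : ι → ℤ` with `h i = 0`, `bet i v h = 0`, `alp i v h ω ≠ 0` and
`bet i (B σ) h ≠ bet i (B τ) h` for all `σ, τ ∈ T` which agree off `i` and differ at `i`.

PROOF. By `NzI` there is `a₀` with `v a₀ i ≠ 0`; `a₀ ≠ i` and `v a₀ i = ± 1`. Let `J = ι ⊕ ι`; for `x : J → ℤ` put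
`ω_x j = x (inr j)` and `h_x a = 0` if `a = i`, `h_x a = x (inl a)` if `a ≠ i, a₀`, and
`h_x a₀ = - v a₀ i * ∑_{a ≠ i, a₀} v a i * x (inl a)`. Then `h_x i = 0` and `bet i v h_x = 0` for every `x`, and
every `h` with `h i = 0`, `bet i v h = 0` is of the form `h_x` (take `x (inl a) = h a`; as
`(v a₀ i)^2 = 1`, `bet i v h = 0` gives `h a₀ = - v a₀ i ∑ …`). The functions
`x ↦ alp i v h_x ω_x` and `x ↦ bet i (B σ) h_x - bet i (B τ) h_x` are polynomial and not identically zero by
`aln` and `typ`. Conclude with `IsP.common` (index set: `Option (S × S)`; use the constant function `1` for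
the pairs not satisfying the conditions).
-/

namespace ALK

variable {ι : Type*} [Fintype ι] [DecidableEq ι]

private theorem isP_bet5 {J : Type*} (i : ι) (v : ι → ι → ℤ) {H : (J → ℤ) → ι → ℤ}
    (hH : ∀ a, IsP (fun x => H x a)) : IsP (fun x => bet i v (H x)) := by
  unfold bet
  exact IsP.sum _ fun a _ => (IsP.const _).mul (hH a)

private theorem isP_alp5 {J : Type*} (i : ι) (v : ι → ι → ℤ) {H W : (J → ℤ) → ι → ℤ}
    (hH : ∀ a, IsP (fun x => H x a)) (hW : ∀ a, IsP (fun x => W x a)) :
    IsP (fun x => alp i v (H x) (W x)) := by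
  unfold alp
  exact IsP.sum _ fun j _ => IsP.sum _ fun a _ => ((IsP.const _).mul (hH a)).mul (hW j)

theorem int_harm {S : Type*} [Fintype S] (i : ι) (B : S → ι → ι → ℤ) (hB : ∀ σ, Tour (B σ))
    (T : Finset S) (v : ι → ι → ℤ) (hv : Harm i B T v) :
    ∃ h ω : ι → ℤ, h i = 0 ∧ bet i v h = 0 ∧ alp i v h ω ≠ 0 ∧
      ∀ σ ∈ T, ∀ τ ∈ T, (∃ a, B σ a i ≠ B τ a i) →
        (∀ a j, a ≠ i → j ≠ i → B σ a j = B τ a j) → bet i (B σ) h ≠ bet i (B τ) h := by
  classical
  obtain ⟨hD, hI, hO, -⟩ := id hv
  obtain ⟨a₀, ha₀⟩ := id hI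
  have ha₀i : a₀ ≠ i := by
    rintro rfl
    exact ha₀ (hD.diag _)
  have hsq : v a₀ i * v a₀ i = 1 := by
    rcases hD.ent a₀ i with h | h | h
    · exact absurd h ha₀
    · rw [h]; norm_num
    · rw [h]; norm_num
  set G : (ι ⊕ ι → ℤ) → ι → ℤ := fun x a => if a = i then 0 else x (Sum.inl a) with hGdef
  set H : (ι ⊕ ι → ℤ) → ι → ℤ := fun x a => G x a - (if a = a₀ then v a₀ i else 0) * bet i v (G x)
    with hHdef
  set W : (ι ⊕ ι → ℤ) → ι → ℤ := fun x a => x (Sum.inr a) with hWdef
  have hG : ∀ a, IsP (fun x => G x a) := by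
    intro a
    by_cases ha : a = i
    · have : (fun x => G x a) = fun _ => 0 := by
        funext x
        simp [hGdef, ha]
      rw [this]
      exact IsP.const 0
    · have : (fun x => G x a) = fun x => x (Sum.inl a) := by
        funext x
        simp [hGdef, ha]
      rw [this]
      exact IsP.coord _
  have hH : ∀ a, IsP (fun x => H x a) := by
    intro a
    exact (hG a).sub ((IsP.const _).mul (isP_bet5 i v hG))
  have hW : ∀ a, IsP (fun x => W x a) := fun a => IsP.coord (Sum.inr a)
  have hHi : ∀ x, H x i = 0 := by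
    intro x
    simp only [hHdef, hGdef]
    simp [ha₀i.symm]
  have hHb : ∀ x, bet i v (H x) = 0 := by
    intro x
    have h1 : bet i v (H x) = bet i v (G x) - v a₀ i * v a₀ i * bet i v (G x) := by
      have h2 : bet i v (H x) = ∑ a, ((v a i : ℤ) * G x a -
          (if a = a₀ then (v a i : ℤ) * v a₀ i * bet i v (G x) else 0)) := by
        unfold bet
        refine Finset.sum_congr rfl fun a _ => ?_
        simp only [hHdef, bet, Int.cast_id]
        split_ifs
        · ring
        · ring
      rw [h2, Finset.sum_sub_distrib, Finset.sum_ite_eq' Finset.univ a₀]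
      simp [bet]
    rw [h1, hsq]
    ring
  have hsurj : ∀ h ω : ι → ℤ, h i = 0 → bet i v h = 0 →
      H (Sum.elim h ω) = h ∧ W (Sum.elim h ω) = ω := by
    intro h ω hi hb
    have hGe : G (Sum.elim h ω) = h := by
      funext a
      by_cases ha : a = i
      · simp [hGdef, ha, hi]
      · simp [hGdef, ha]
    constructor
    · funext a
      simp only [hHdef]
      rw [hGe, hb]
      ring
    · funext a
      simp [hWdef]
  set C : S × S → Prop := fun p => (∃ a, B p.1 a i ≠ B p.2 a i) ∧
    (∀ a j, a ≠ i → j ≠ i → B p.1 a j = B p.2 a j) with hC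
  set P : Option (S × S) → (ι ⊕ ι → ℤ) → ℤ := fun o => match o with
    | none => fun x => alp i v (H x) (W x)
    | some p => fun x => if C p then bet i (B p.1) (H x) - bet i (B p.2) (H x) else 1 with hP
  have key : ∃ x, ∀ k ∈ Finset.insertNone (T ×ˢ T), P k x ≠ 0 := by
    refine IsP.common _ ?_ ?_
    · rintro (_ | p) hp
      · exact isP_alp5 i v hH hW
      · by_cases hc : C p
        · have : P (some p) = fun x => bet i (B p.1) (H x) - bet i (B p.2) (H x) := by
            funext x
            simp only [hP, if_pos hc]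
          rw [this]
          exact (isP_bet5 i _ hH).sub (isP_bet5 i _ hH)
        · have : P (some p) = fun x => 1 := by
            funext x
            simp only [hP, if_neg hc]
          rw [this]
          exact IsP.const 1
    · rintro (_ | p) hp
      · obtain ⟨h, ω, hi, hb, ha⟩ := aln i v hD hI hO
        refine ⟨Sum.elim h ω, ?_⟩
        show alp i v (H (Sum.elim h ω)) (W (Sum.elim h ω)) ≠ 0
        rw [(hsurj h ω hi hb).1, (hsurj h ω hi hb).2]
        exact ha
      · by_cases hc : C p
        · rw [Finset.some_mem_insertNone, Finset.mem_product] at hp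
          obtain ⟨h, hi, hb, ha⟩ := typ i B hB T v hv p.1 p.2 hp.1 hp.2 hc.1 hc.2
          refine ⟨Sum.elim h 0, ?_⟩
          simp only [hP, if_pos hc]
          rw [(hsurj h 0 hi hb).1]
          exact sub_ne_zero.2 ha
        · exact ⟨0, by simp only [hP, if_neg hc]; exact one_ne_zero⟩
  obtain ⟨x, hx⟩ := key
  refine ⟨H x, W x, hHi x, hHb x, ?_, ?_⟩
  · exact hx none (Finset.none_mem_insertNone)
  · intro σ hσ τ hτ h1 h2
    have h3 := hx (some (σ, τ)) (by
      rw [Finset.some_mem_insertNone, Finset.mem_product]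
      exact ⟨hσ, hτ⟩)
    have hc : C (σ, τ) := ⟨h1, h2⟩
    simp only [hP, if_pos hc] at h3
    exact sub_ne_zero.1 h3

end ALK
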