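import Pool.Agent.Work.MP_05d08f_al.AS.N06

set_option autoImplicit false

/-!
# N07: few characters of `∏ ZMod (p u)` are linearly independent over a number field (size M)

`Ω` algebraically closed of characteristic 0 and algebraic over `ℚ`; `F` a number field in `Ω`. CLAIM: for all
`n₀, X, k` there are primes `p_u > X` and primitive `p_u`-th roots of unity `ζ_u ∈ Ω` (`u < k`) such that for
every finite family of at most `n₀` terms `c_σ ∏_u ζ_u ^ (e_σ u)` (`c_σ ∈ F`, `e_σ ∈ ∏ ZMod (p u)`) with sum `0`,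
the sum of the `c_σ` over each class of equal exponents `e_σ` is `0`.

PROOF. Induction on `k`, for fixed `F`, `n₀`, `X`. `k = 0`: there is only one exponent, and the hypothesis says
`∑ c_σ = 0`. Step `k → k + 1`: let `(p', ζ')` be the data for `k`, and let `F' = F(ζ'_0, …, ζ'_{k-1})`
(`F ⊔ IntermediateField.adjoin ℚ (Set.range ζ')`), finite over `ℚ` (the `ζ'_u` are integral). Apply
`few_ind` to `F'`, `n₀`, `X`: `(q, η)`. The data for `k + 1` are `Fin.snoc p' q`, `Fin.snoc ζ' η` (or `Fin.cons`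
if more convenient). Given a vanishing sum, put for `s < q`
`C_s = ∑_{σ ∈ T, (e_σ last).val = s} c_σ ∏_{u < k} ζ'_u ^ (e_σ u).val ∈ F'`. At most `card T ≤ n₀` of them are nonzero and
`∑ C_s η ^ s = 0`, so all `C_s = 0`. For `σ₀ ∈ T` and `s₀ = (e_{σ₀} last).val` apply the induction
hypothesis to `T' = {σ ∈ T | e_σ last = e_{σ₀} last}` (at most `n₀` elements) and the first `k` coordinates: the
sum of `c_σ` over the `σ ∈ T'` with the same first `k` coordinates as `e_{σ₀}` is `0`. This is the claim.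
(The dependent types `ZMod (Fin.snoc p' q u)` are a little awkward; `Fin.snoc_castSucc`, `Fin.snoc_last`,
or state the induction for exponents in `ℕ`: `e : S → Fin k → ℕ` with `e σ u < p u`, and convert at the end.)
-/

namespace ALK

variable {Ω : Type*} [Field Ω] [CharZero Ω] [IsAlgClosed Ω] [Algebra.IsAlgebraic ℚ Ω]

private theorem tower_nat (F : IntermediateField ℚ Ω) [FiniteDimensional ℚ F] (n₀ X : ℕ) : ∀ k : ℕ,
    ∃ (p : Fin k → ℕ) (ζ : Fin k → Ω),
      (∀ u, (p u).Prime ∧ X < p u ∧ IsPrimitiveRoot (ζ u) (p u)) ∧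
      ∀ (S : Type) (T : Finset S), T.card ≤ n₀ → ∀ c : S → Ω, (∀ σ ∈ T, c σ ∈ F) →
        ∀ e : S → Fin k → ℕ, (∀ σ u, e σ u < p u) → ∑ σ ∈ T, c σ * ∏ u, ζ u ^ e σ u = 0 →
          ∀ σ₀ ∈ T, ∑ σ ∈ T.filter (fun σ => ∀ u, e σ u = e σ₀ u), c σ = 0 := by
  intro k
  induction k with
  | zero =>
    refine ⟨fun _ => 0, fun _ => 0, fun u => u.elim0, ?_⟩
    intro S T hT c hc e he hsum σ₀ hσ₀
    have h1 : T.filter (fun σ => ∀ u, e σ u = e σ₀ u) = T := by
      apply Finset.filter_true_of_mem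
      intro σ _ u
      exact u.elim0
    rw [h1]
    simpa using hsum
  | succ k ih =>
    classical
    obtain ⟨p', ζ', hp', hind⟩ := ih
    have hfin : FiniteDimensional ℚ (IntermediateField.adjoin ℚ (Set.range ζ')) := by
      apply IntermediateField.finiteDimensional_adjoin
      intro x _
      exact Algebra.IsIntegral.isIntegral x
    have hfin2 : FiniteDimensional ℚ (F ⊔ IntermediateField.adjoin ℚ (Set.range ζ') : IntermediateField ℚ Ω) :=
      IntermediateField.finiteDimensional_sup _ _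
    set F' : IntermediateField ℚ Ω := F ⊔ IntermediateField.adjoin ℚ (Set.range ζ') with hF'
    obtain ⟨q, η, hq, hXq, hη, hfew⟩ := few_ind F' n₀ X
    refine ⟨Fin.cons q p', Fin.cons η ζ', ?_, ?_⟩
    · intro u
      refine Fin.cases ?_ (fun u => ?_) u
      · simp only [Fin.cons_zero]
        exact ⟨hq, hXq, hη⟩
      · simp only [Fin.cons_succ]
        exact hp' u
    · intro S T hT c hc e he hsum σ₀ hσ₀
      have hFF' : ∀ x ∈ F, x ∈ F' := fun x hx => (le_sup_left : F ≤ F') hx
      have hζF' : ∀ u, ζ' u ∈ F' := fun u =>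
        (le_sup_right : IntermediateField.adjoin ℚ (Set.range ζ') ≤ F')
          (IntermediateField.subset_adjoin _ _ ⟨u, rfl⟩)
      have he0 : ∀ σ, e σ 0 < q := fun σ => by
        have := he σ 0
        rwa [Fin.cons_zero] at this
      have hes : ∀ σ u, e σ (Fin.succ u) < p' u := fun σ u => by
        have := he σ (Fin.succ u)
        rwa [Fin.cons_succ] at this
      let C : ℕ → Ω := fun s => ∑ σ ∈ T.filter (fun σ => e σ 0 = s), c σ * ∏ u : Fin k, ζ' u ^ e σ (Fin.succ u)
      have hCF : ∀ s, C s ∈ F' := by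
        intro s
        apply sum_mem
        intro σ hσ
        apply mul_mem (hFF' _ (hc σ (Finset.mem_filter.1 hσ).1))
        apply prod_mem
        intro u _
        exact pow_mem (hζF' u) _
      have hcard : {s | s < q ∧ C s ≠ 0}.ncard ≤ n₀ := by
        have hsub : {s | s < q ∧ C s ≠ 0} ⊆ ((T.image fun σ => e σ 0 : Finset ℕ) : Set ℕ) := by
          rintro s ⟨_, hs⟩
          by_contra hcon
          apply hs
          apply Finset.sum_eq_zero
          intro σ hσ
          exfalso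
          obtain ⟨h1, h2⟩ := Finset.mem_filter.1 hσ
          exact hcon (Finset.mem_coe.2 (Finset.mem_image.2 ⟨σ, h1, h2⟩))
        calc {s | s < q ∧ C s ≠ 0}.ncard ≤ ((T.image fun σ => e σ 0 : Finset ℕ) : Set ℕ).ncard :=
              Set.ncard_le_ncard hsub (Finset.finite_toSet _)
          _ = (T.image fun σ => e σ 0).card := Set.ncard_coe_finset _
          _ ≤ T.card := Finset.card_image_le
          _ ≤ n₀ := hT
      have hsum2 : ∑ s ∈ Finset.range q, C s * η ^ s = 0 := by
        rw [← hsum]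
        have h1 : ∀ s ∈ Finset.range q, C s * η ^ s =
            ∑ σ ∈ T.filter (fun σ => e σ 0 = s), c σ * ∏ u, (Fin.cons η ζ' : Fin (k + 1) → Ω) u ^ e σ u := by
          intro s _
          show (∑ σ ∈ T.filter (fun σ => e σ 0 = s), c σ * ∏ u : Fin k, ζ' u ^ e σ (Fin.succ u)) * η ^ s = _
          rw [Finset.sum_mul]
          apply Finset.sum_congr rfl
          intro σ hσ
          rw [Fin.prod_univ_succ]
          simp only [Fin.cons_zero, Fin.cons_succ]
          rw [(Finset.mem_filter.1 hσ).2]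
          ring
        rw [Finset.sum_congr rfl h1]
        exact Finset.sum_fiberwise_of_maps_to (fun σ _ => Finset.mem_range.2 (he0 σ)) _
      have hC0 := hfew C hCF hcard hsum2 (e σ₀ 0) (he0 σ₀)
      have h2 := hind S (T.filter (fun σ => e σ 0 = e σ₀ 0))
        ((Finset.card_le_card (Finset.filter_subset _ _)).trans hT) c
        (fun σ hσ => hc σ (Finset.mem_filter.1 hσ).1) (fun σ u => e σ (Fin.succ u)) hes hC0 σ₀
        (Finset.mem_filter.2 ⟨hσ₀, rfl⟩)
      rw [Finset.filter_filter] at h2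
      rw [← h2]
      apply Finset.sum_congr _ (fun _ _ => rfl)
      apply Finset.filter_congr
      intro σ _
      rw [Fin.forall_fin_succ]

theorem tower (F : IntermediateField ℚ Ω) [FiniteDimensional ℚ F] (n₀ X k : ℕ) :
    ∃ (p : Fin k → ℕ) (ζ : Fin k → Ω),
      (∀ u, (p u).Prime ∧ X < p u ∧ IsPrimitiveRoot (ζ u) (p u)) ∧
      ∀ (S : Type) (T : Finset S), T.card ≤ n₀ → ∀ c : S → Ω, (∀ σ ∈ T, c σ ∈ F) →
        ∀ e : S → ∀ u, ZMod (p u), ∑ σ ∈ T, c σ * ∏ u, ζ u ^ (e σ u).val = 0 →
          ∀ σ₀ ∈ T, ∑ σ ∈ T.filter (fun σ => ∀ u, e σ u = e σ₀ u), c σ = 0 := by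
  obtain ⟨p, ζ, hp, h⟩ := tower_nat F n₀ X k
  refine ⟨p, ζ, hp, ?_⟩
  intro S T hT c hc e hsum σ₀ hσ₀
  have hne : ∀ u, NeZero (p u) := fun u => ⟨(hp u).1.ne_zero⟩
  have h1 := h S T hT c hc (fun σ u => (e σ u).val) (fun σ u => ZMod.val_lt _) hsum σ₀ hσ₀
  rw [← h1]
  apply Finset.sum_congr _ (fun _ _ => rfl)
  apply Finset.filter_congr
  intro σ _
  apply forall_congr'
  intro u
  exact (ZMod.val_injective (p u)).eq_iff.symm

end ALK
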