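import Pool.Agent.Work.MP_05d08f_al.AS.N04
import Pool.Agent.Work.MP_05d08f_al.AS.N05
import Pool.Agent.Work.MP_05d08f_al.AS.N07

set_option autoImplicit false

/-!
# N08: the nonvanishing theorem (size L, assembly of N04, N05, N07)

`S` indexes words, `B σ` is the order relation of the word `σ`, `c σ` its coefficient, `T` the support of `c`.
Let `R(t) = ∑_σ c σ ∏_u ζ_u ^ (e_σ(t) u)` with `e_σ(t) = alp i (B σ) h ω + t * bet i (B σ) h` in the ring
`G = ∏_u ZMod (p u)`. CLAIM: `p, ζ, h, ω` can be chosen (all `p u > X`, `h i = 0`, `h` with different subset sums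
off `i`) such that `R(t) ≠ 0` for every `t ≠ 0`, and also for `t = 0` if some sum of the `c σ` over a class of
words which agree off `i` is nonzero.

DATA. The set of harmful `v` (`Harm i B T v`) is finite (`T` is nonempty, so `v = ± (B σ - B τ)`); enumerate it as
`v_0, …, v_{k-1}`. For `u < k` let `(h^u, ω^u)` be the integers of `int_harm` for `v_u`, and let
`(h^k, ω^k)` be those of `int_last`. Let `X'` be larger than `X` and than the absolute values of all integers
`alp i v_u h^u ω^u`, `bet i (B σ) h^u - bet i (B τ) h^u`, `∑_A h^k - ∑_{A'} h^k`,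
`alp i (B σ) h^k ω^k - alp i (B τ) h^k ω^k`, `alp i v h^k ω^k * bet i v' h^k - alp i v' h^k ω^k * bet i v h^k`
(finitely many). Let `F = ℚ(c σ : σ)` (finite over `ℚ`), and take `p, ζ` from `tower F (card S) X' (k + 1)`. A nonzero
integer of absolute value `≤ X' < p` is nonzero in `ZMod p`. Let `h a u = (h^u a : ZMod (p u))`, `ω` likewise.
The `u`-th coordinate of `alp i (B σ) h ω` is the image of the integer `alp i (B σ) h^u ω^u`, same for `bet`.
Subset sums off `i` are different already in the last coordinate.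

NONVANISHING. Suppose `R(t) = 0`. The terms outside `T` vanish, so `tower` says: for each `σ₀ ∈ T` the sum of the
`c σ` over `σ ∈ T` with `e_σ(t) = e_{σ₀}(t)` is `0`. In particular (as `c σ₀ ≠ 0`) each `σ ∈ T` has a partner
`τ ∈ T`, `τ ≠ σ`, with `e_τ(t) = e_σ(t)`.
Case A: `t (last) ≠ 0`. Let `τ` be a partner of `σ` and `v = B σ - B τ`, `Dif v`, `v ≠ 0`. In the last
coordinate (a field): `alp v + t bet v = 0`.
 - `NzI i v`: otherwise `bet v = 0`, so `alp v = 0`, i.e. `alp (B σ) = alp (B τ)` modulo `p`; but `v ≠ 0` and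
   `v a i = 0 = v i a` for all `a`, so `B σ`, `B τ` differ off `i`, and the two integers are different:
   contradiction.
 - `NzO i v`: otherwise `alp v = 0` (terms with `a = i` vanish as `h i = 0`) and `t bet v = 0`, `bet v = 0`
   modulo `p`; but `bet v = ∑_A h - ∑_{A'} h` with `A = {a | v a i = 1}`, `A' = {a | v a i = -1}`, `A ≠ A'`
   (disjoint, not both empty), `i ∉ A, A'`: contradiction.
 - if `σ'`, `τ'` is another pair of partners, `v' = B σ' - B τ'`: from the two equations
   `alp v bet v' = alp v' bet v` modulo `p`, so `v' = ± v` by the choice of the integers.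
 So (fixing one `v`) every `σ ∈ T` has `τ ∈ T` with `B σ - B τ = ± v`: `Harm i B T v`, `v = v_u`. In the coordinate `u`
 we get `alp v + t bet v = 0` for the integers `h^u, ω^u`, where `bet v h^u = 0` and `alp v h^u ω^u ≠ 0` modulo `p u`:
 contradiction.
Case B: `t (last) = 0`. Partners `σ, τ` have `alp (B σ) = alp (B τ)` modulo the last prime, so they agree off `i`; then
 `alp (B σ) = alp (B τ)` in all coordinates (`h i = 0`); they differ at `i` as `B` is injective. If `t u ≠ 0` for some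
 `u < k`: `t u * (bet (B σ) - bet (B τ)) = 0` in `ZMod (p u)` contradicts the choice of `h^u`. If `t = 0`: let `σ₀` be
 a word such that the sum of the `c σ` over the words which agree with `σ₀` off `i` is nonzero; this class contains
 some `σ₁ ∈ T`, and it is exactly the class of the words with `e_σ(0) = e_{σ₁}(0)` (agreeing off `i` gives equal
 exponents; equal exponents in the last coordinate give agreement off `i`). Contradiction to the sum being `0`.
-/

namespace ALK

private theorem alp_sub {ι R : Type*} [Fintype ι] [DecidableEq ι] [CommRing R] (i : ι)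
    (v v' : ι → ι → ℤ) (h ω : ι → R) :
    alp i (v - v') h ω = alp i v h ω - alp i v' h ω := by
  unfold alp
  rw [← Finset.sum_sub_distrib]
  refine Finset.sum_congr rfl fun j _ => ?_
  rw [← Finset.sum_sub_distrib]
  refine Finset.sum_congr rfl fun a _ => ?_
  simp only [Pi.sub_apply, Int.cast_sub]
  ring

private theorem bet_sub {ι R : Type*} [Fintype ι] [DecidableEq ι] [CommRing R] (i : ι)
    (v v' : ι → ι → ℤ) (h : ι → R) : bet i (v - v') h = bet i v h - bet i v' h := by
  unfold bet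
  rw [← Finset.sum_sub_distrib]
  refine Finset.sum_congr rfl fun a _ => ?_
  simp only [Pi.sub_apply, Int.cast_sub]
  ring

private theorem alp_zero_of_off {ι R : Type*} [Fintype ι] [DecidableEq ι] [CommRing R] (i : ι)
    (v : ι → ι → ℤ) (h ω : ι → R) (hi : h i = 0) (hv : ¬ NzO i v) : alp i v h ω = 0 := by
  unfold alp
  refine Finset.sum_eq_zero fun j hj => Finset.sum_eq_zero fun a _ => ?_
  by_cases ha : a = i
  · rw [ha, hi]; ring
  · have : v a j = 0 := by
      by_contra hne
      exact hv ⟨a, j, ha, (Finset.mem_erase.1 hj).1, hne⟩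
    rw [this]; push_cast; ring

private theorem bet_zero_of {ι R : Type*} [Fintype ι] [DecidableEq ι] [CommRing R] (i : ι)
    (v : ι → ι → ℤ) (h : ι → R) (hv : ¬ NzI i v) : bet i v h = 0 := by
  unfold bet
  refine Finset.sum_eq_zero fun a _ => ?_
  have : v a i = 0 := by
    by_contra hne
    exact hv ⟨a, hne⟩
  rw [this]; push_cast; ring

private theorem alp_neg {ι R : Type*} [Fintype ι] [DecidableEq ι] [CommRing R] (i : ι)
    (v : ι → ι → ℤ) (h ω : ι → R) : alp i (-v) h ω = - alp i v h ω := by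
  have := alp_sub i 0 v h ω
  rw [zero_sub] at this
  rw [this]
  have h0 : alp i (0 : ι → ι → ℤ) h ω = 0 := by
    unfold alp
    simp
  rw [h0, zero_sub]

private theorem alp_apply {ι : Type*} [Fintype ι] [DecidableEq ι] {k : ℕ} (p : Fin k → ℕ) (i : ι)
    (v : ι → ι → ℤ) (H W : Fin k → ι → ℤ) (u : Fin k) :
    (alp i v (fun a u => ((H u a : ℤ) : ZMod (p u))) (fun a u => ((W u a : ℤ) : ZMod (p u)))) u =
      ((alp i v (H u) (W u) : ℤ) : ZMod (p u)) := by
  unfold alp
  rw [Finset.sum_apply, Int.cast_sum]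
  refine Finset.sum_congr rfl fun j _ => ?_
  rw [Finset.sum_apply, Int.cast_sum]
  refine Finset.sum_congr rfl fun a _ => ?_
  simp only [Pi.mul_apply, Pi.intCast_apply, Int.cast_mul, Int.cast_id]

private theorem bet_apply {ι : Type*} [Fintype ι] [DecidableEq ι] {k : ℕ} (p : Fin k → ℕ) (i : ι)
    (v : ι → ι → ℤ) (H : Fin k → ι → ℤ) (u : Fin k) :
    (bet i v (fun a u => ((H u a : ℤ) : ZMod (p u)))) u =
      ((bet i v (H u) : ℤ) : ZMod (p u)) := by
  unfold bet
  rw [Finset.sum_apply, Int.cast_sum]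
  refine Finset.sum_congr rfl fun a _ => ?_
  simp only [Pi.mul_apply, Pi.intCast_apply, Int.cast_mul, Int.cast_id]

private theorem cast_ne {p X : ℕ} (hp : X < p) {z : ℤ} (hz : z.natAbs ≤ X) (h0 : z ≠ 0) :
    ((z : ℤ) : ZMod p) ≠ 0 := by
  intro h
  rw [ZMod.intCast_zmod_eq_zero_iff_dvd] at h
  have h1 := Int.natAbs_dvd_natAbs.2 h
  rw [Int.natAbs_natCast] at h1
  have h2 := Nat.le_of_dvd (Int.natAbs_pos.2 h0) h1
  omega

open Classical in
private theorem core {Ω S ι : Type*} [Field Ω] [Fintype S] [Fintype ι] [DecidableEq ι] (i : ι)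
    (B : S → ι → ι → ℤ) (hB : ∀ σ, Tour (B σ)) (hinj : Function.Injective B) (c : S → Ω)
    (T : Finset S) (hT : ∀ σ, σ ∈ T ↔ c σ ≠ 0) (hTne : T.Nonempty) {k : ℕ} (p : Fin (k + 1) → ℕ)
    (hp : ∀ u, (p u).Prime) (vv : Fin k → ι → ι → ℤ)
    (hvv : ∀ σ τ, Harm i B T (B σ - B τ) → ∃ u, vv u = B σ - B τ)
    (H W : Fin (k + 1) → ι → ℤ) (hHi : ∀ u, H u i = 0)
    (h1 : ∀ u : Fin k, bet i (vv u) (H u.castSucc) = 0)
    (h2 : ∀ u : Fin k, ((alp i (vv u) (H u.castSucc) (W u.castSucc) : ℤ) :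
      ZMod (p u.castSucc)) ≠ 0)
    (h3 : ∀ u : Fin k, ∀ σ ∈ T, ∀ τ ∈ T, (∃ a, B σ a i ≠ B τ a i) →
      (∀ a j, a ≠ i → j ≠ i → B σ a j = B τ a j) →
      ((bet i (B σ - B τ) (H u.castSucc) : ℤ) : ZMod (p u.castSucc)) ≠ 0)
    (h4 : ∀ v : ι → ι → ℤ, Dif v → NzI i v →
      ((bet i v (H (Fin.last k)) : ℤ) : ZMod (p (Fin.last k))) ≠ 0)
    (h5 : ∀ σ τ, (∃ a j, a ≠ i ∧ j ≠ i ∧ B σ a j ≠ B τ a j) →
      ((alp i (B σ - B τ) (H (Fin.last k)) (W (Fin.last k)) : ℤ) : ZMod (p (Fin.last k))) ≠ 0)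
    (h6 : ∀ σ τ σ' τ', NzI i (B σ - B τ) → NzI i (B σ' - B τ') → NzO i (B σ - B τ) →
      B σ' - B τ' ≠ B σ - B τ → B σ' - B τ' ≠ -(B σ - B τ) →
      ((alp i (B σ - B τ) (H (Fin.last k)) (W (Fin.last k)) *
        bet i (B σ' - B τ') (H (Fin.last k)) -
        alp i (B σ' - B τ') (H (Fin.last k)) (W (Fin.last k)) *
        bet i (B σ - B τ) (H (Fin.last k)) : ℤ) : ZMod (p (Fin.last k))) ≠ 0)
    (t : ∀ u, ZMod (p u))
    (hcond : t ≠ 0 ∨ ∃ σ₀, ∑ σ, (if ∀ a j, a ≠ i → j ≠ i → B σ a j = B σ₀ a j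
      then c σ else 0) ≠ 0)
    (E : S → ∀ u, ZMod (p u))
    (hE : ∀ σ u, E σ u = ((alp i (B σ) (H u) (W u) : ℤ) : ZMod (p u)) +
      t u * ((bet i (B σ) (H u) : ℤ) : ZMod (p u)))
    (hclass : ∀ σ₀ ∈ T, ∑ σ ∈ T.filter (fun σ => ∀ u, E σ u = E σ₀ u), c σ = 0) : False := by
  have : ∀ u, Fact (p u).Prime := fun u => ⟨hp u⟩
  -- partners
  have hpart : ∀ σ ∈ T, ∃ τ ∈ T, τ ≠ σ ∧ ∀ u, E τ u = E σ u := by
    intro σ hσ
    by_contra hno
    push Not at hno
    have hfil : T.filter (fun τ => ∀ u, E τ u = E σ u) = {σ} := by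
      ext τ
      rw [Finset.mem_filter, Finset.mem_singleton]
      constructor
      · rintro ⟨hτ, hu⟩
        by_contra hne
        obtain ⟨u, hu'⟩ := hno τ hτ hne
        exact hu' (hu u)
      · rintro rfl
        exact ⟨hσ, fun _ => rfl⟩
    have := hclass σ hσ
    rw [hfil, Finset.sum_singleton] at this
    exact (hT σ).1 hσ this
  -- difference equation
  have hdiff : ∀ σ τ, (∀ u, E τ u = E σ u) → ∀ u,
      ((alp i (B σ - B τ) (H u) (W u) : ℤ) : ZMod (p u)) +
        t u * ((bet i (B σ - B τ) (H u) : ℤ) : ZMod (p u)) = 0 := by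
    intro σ τ h u
    have := h u
    rw [hE, hE] at this
    rw [alp_sub, bet_sub]
    push_cast
    linear_combination -this
  by_cases htl : t (Fin.last k) = 0
  · -- case B
    have hoff : ∀ σ τ, (∀ u, E τ u = E σ u) → ∀ a j, a ≠ i → j ≠ i → B σ a j = B τ a j := by
      intro σ τ h a j ha hj
      by_contra hne
      have h' := hdiff σ τ h (Fin.last k)
      rw [htl, zero_mul, add_zero] at h'
      exact h5 σ τ ⟨a, j, ha, hj, hne⟩ h'
    by_cases ht : t = 0
    · -- t = 0
      rcases hcond with h | ⟨σ₀, h⟩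
      · exact h ht
      · -- the class of σ₀
        obtain ⟨σ₁, -, hσ₁⟩ := Finset.exists_ne_zero_of_sum_ne_zero h
        have hσ₁' : (∀ a j, a ≠ i → j ≠ i → B σ₁ a j = B σ₀ a j) ∧ c σ₁ ≠ 0 := by
          by_cases hc : ∀ a j, a ≠ i → j ≠ i → B σ₁ a j = B σ₀ a j
          · rw [if_pos hc] at hσ₁
            exact ⟨hc, hσ₁⟩
          · rw [if_neg hc] at hσ₁
            exact absurd rfl hσ₁
        have hσ₁T : σ₁ ∈ T := (hT σ₁).2 hσ₁'.2
        have hcl := hclass σ₁ hσ₁T
        apply h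
        refine Eq.trans ?_ hcl
        rw [Finset.sum_filter, ← Finset.sum_subset (Finset.subset_univ T)]
        · refine Finset.sum_congr rfl fun σ hσ => ?_
          have hiff : (∀ a j, a ≠ i → j ≠ i → B σ a j = B σ₀ a j) ↔ ∀ u, E σ u = E σ₁ u := by
            constructor
            · intro hs u
              rw [hE, hE, ht]
              simp only [Pi.zero_apply, zero_mul, add_zero]
              have : alp i (B σ - B σ₁) (H u) (W u) = 0 := by
                refine alp_zero_of_off i _ _ _ (hHi u) ?_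
                rintro ⟨a, j, ha, hj, hne⟩
                apply hne
                rw [Pi.sub_apply, Pi.sub_apply, hs a j ha hj, hσ₁'.1 a j ha hj, sub_self]
              rw [alp_sub, sub_eq_zero] at this
              rw [this]
            · intro hu a j ha hj
              rw [← hoff σ₁ σ hu a j ha hj]
              exact hσ₁'.1 a j ha hj
          by_cases hc : ∀ a j, a ≠ i → j ≠ i → B σ a j = B σ₀ a j
          · rw [if_pos hc, if_pos (hiff.1 hc)]
          · rw [if_neg hc, if_neg fun h' => hc (hiff.2 h')]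
        · intro σ _ hσ
          have : c σ = 0 := by
            by_contra hne
            exact hσ ((hT σ).2 hne)
          rw [this, ite_self]
    · -- some coordinate of t is nonzero
      obtain ⟨u, hu⟩ : ∃ u, t u ≠ 0 := by
        by_contra hno
        push Not at hno
        exact ht (funext hno)
      obtain ⟨u', rfl⟩ : ∃ u' : Fin k, u'.castSucc = u := by
        refine ⟨u.castPred ?_, Fin.castSucc_castPred _ _⟩
        rintro rfl
        exact hu htl
      obtain ⟨σ, hσ⟩ := hTne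
      obtain ⟨τ, hτ, hne, he⟩ := hpart σ hσ
      have hoff' := hoff σ τ he
      have hd := hdiff σ τ he u'.castSucc
      have ha0 : alp i (B σ - B τ) (H u'.castSucc) (W u'.castSucc) = 0 := by
        refine alp_zero_of_off i _ _ _ (hHi _) ?_
        rintro ⟨a, j, ha, hj, hne⟩
        apply hne
        rw [Pi.sub_apply, Pi.sub_apply, hoff' a j ha hj, sub_self]
      rw [ha0, Int.cast_zero, zero_add, mul_eq_zero] at hd
      rcases hd with hd | hd
      · exact hu hd
      · refine h3 u' σ hσ τ hτ ?_ hoff' hd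
        by_contra hno
        push Not at hno
        apply hne
        apply hinj
        funext a j
        by_cases hj : j = i
        · rw [hj, hno a]
        · by_cases ha : a = i
          · rw [ha]
            have e1 := (hB σ).anti i j (Ne.symm hj)
            have e2 := (hB τ).anti i j (Ne.symm hj)
            have e3 := hno j
            omega
          · exact (hoff' a j ha hj).symm
  · -- case A
    have hharm : ∀ σ ∈ T, ∀ τ ∈ T, τ ≠ σ → (∀ u, E τ u = E σ u) →
        NzI i (B σ - B τ) ∧ NzO i (B σ - B τ) := by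
      intro σ hσ τ hτ hne he
      have hd := hdiff σ τ he (Fin.last k)
      have hdif : Dif (B σ - B τ) := (hB σ).dif (hB τ)
      have hI : NzI i (B σ - B τ) := by
        by_contra hno
        rw [bet_zero_of i _ _ hno, Int.cast_zero, mul_zero, add_zero] at hd
        refine h5 σ τ ?_ hd
        by_contra hno'
        push Not at hno'
        apply hne
        apply hinj
        have hcol : ∀ a, B σ a i = B τ a i := by
          intro a
          by_contra hna
          exact hno ⟨a, by rw [Pi.sub_apply, Pi.sub_apply]; exact sub_ne_zero.2 hna⟩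
        funext a j
        by_cases hj : j = i
        · rw [hj, hcol a]
        · by_cases ha : a = i
          · rw [ha]
            have e1 := (hB σ).anti i j (Ne.symm hj)
            have e2 := (hB τ).anti i j (Ne.symm hj)
            have e3 := hcol j
            omega
          · exact (hno' a j ha hj).symm
      refine ⟨hI, ?_⟩
      by_contra hno
      rw [alp_zero_of_off i _ _ _ (hHi _) hno, Int.cast_zero, zero_add, mul_eq_zero] at hd
      rcases hd with hd | hd
      · exact htl hd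
      · exact h4 _ hdif hI hd
    obtain ⟨σ₁, hσ₁⟩ := hTne
    obtain ⟨τ₁, hτ₁, hne₁, he₁⟩ := hpart σ₁ hσ₁
    obtain ⟨hI₁, hO₁⟩ := hharm σ₁ hσ₁ τ₁ hτ₁ hne₁ he₁
    have hv : Harm i B T (B σ₁ - B τ₁) := by
      refine ⟨(hB σ₁).dif (hB τ₁), hI₁, hO₁, ?_⟩
      intro σ hσ
      obtain ⟨τ, hτ, hne, he⟩ := hpart σ hσ
      obtain ⟨hI, hO⟩ := hharm σ hσ τ hτ hne he
      refine ⟨τ, hτ, ?_⟩
      by_contra hno
      push Not at hno
      have hd := hdiff σ τ he (Fin.last k)
      have hd₁ := hdiff σ₁ τ₁ he₁ (Fin.last k)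
      apply h6 σ₁ τ₁ σ τ hI₁ hI hO₁ hno.1 hno.2
      push_cast
      linear_combination ((bet i (B σ - B τ) (H (Fin.last k)) : ℤ) : ZMod (p (Fin.last k))) * hd₁ -
        ((bet i (B σ₁ - B τ₁) (H (Fin.last k)) : ℤ) : ZMod (p (Fin.last k))) * hd
    obtain ⟨u, hu⟩ := hvv σ₁ τ₁ hv
    have hd := hdiff σ₁ τ₁ he₁ u.castSucc
    rw [← hu, h1 u, Int.cast_zero, mul_zero, add_zero] at hd
    exact h2 u hd


private theorem bet_eq_sub {ι : Type*} [Fintype ι] [DecidableEq ι] (i : ι) (v : ι → ι → ℤ)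
    (hv : Dif v) (h : ι → ℤ) :
    bet i v h = ∑ a ∈ Finset.univ.filter (fun a => v a i = 1), h a -
      ∑ a ∈ Finset.univ.filter (fun a => v a i = -1), h a := by
  unfold bet
  rw [Finset.sum_filter, Finset.sum_filter, ← Finset.sum_sub_distrib]
  refine Finset.sum_congr rfl fun a _ => ?_
  rcases hv.ent a i with h0 | h0 | h0 <;> rw [h0] <;> simp

variable {Ω : Type*} [Field Ω] [CharZero Ω] [IsAlgClosed Ω] [Algebra.IsAlgebraic ℚ Ω]

open Classical in
theorem nonvan {S ι : Type} [Fintype S] [Fintype ι] [DecidableEq ι] (i : ι) (B : S → ι → ι → ℤ)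
    (hB : ∀ σ, Tour (B σ)) (hinj : Function.Injective B) (c : S → Ω) (hc : c ≠ 0) (X : ℕ) :
    ∃ (k : ℕ) (p : Fin k → ℕ) (ζ : Fin k → Ω) (h ω : ι → ∀ u, ZMod (p u)),
      (∀ u, (p u).Prime ∧ X < p u ∧ IsPrimitiveRoot (ζ u) (p u)) ∧ h i = 0 ∧
      (∀ A A' : Finset ι, i ∉ A → i ∉ A' → ∑ j ∈ A, h j = ∑ j ∈ A', h j → A = A') ∧
      ∀ t : ∀ u, ZMod (p u),
        (t ≠ 0 ∨ ∃ σ₀, ∑ σ, (if ∀ a j, a ≠ i → j ≠ i → B σ a j = B σ₀ a j then c σ else 0) ≠ 0) →
        ∑ σ, c σ * ∏ u, ζ u ^ ((alp i (B σ) h ω + t * bet i (B σ) h) u).val ≠ 0 := by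
  -- support
  let T : Finset S := Finset.univ.filter fun σ => c σ ≠ 0
  have hT : ∀ σ, σ ∈ T ↔ c σ ≠ 0 := fun σ => by simp [T]
  have hTne : T.Nonempty := by
    by_contra hno
    rw [Finset.not_nonempty_iff_eq_empty] at hno
    apply hc
    funext σ
    by_contra hne
    have := (hT σ).2 hne
    rw [hno] at this
    exact absurd this (Finset.notMem_empty _)
  -- all differences and the harmful ones
  let V : Finset (ι → ι → ℤ) := Finset.univ.image fun x : S × S => B x.1 - B x.2
  have hV : ∀ σ τ, B σ - B τ ∈ V := fun σ τ => Finset.mem_image.2 ⟨(σ, τ), Finset.mem_univ _, rfl⟩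
  let VH : Finset (ι → ι → ℤ) := V.filter fun v => Harm i B T v
  let k := VH.card
  let en : Fin k ≃ VH := VH.equivFin.symm
  let vv : Fin k → ι → ι → ℤ := fun u => (en u : ι → ι → ℤ)
  have hvH : ∀ u, Harm i B T (vv u) := fun u => (Finset.mem_filter.1 (en u).2).2
  have hvV : ∀ u, vv u ∈ V := fun u => (Finset.mem_filter.1 (en u).2).1
  choose hh ww d1 d2 d3 d4 using fun u => int_harm i B hB T (vv u) (hvH u)
  obtain ⟨hl, wl, l1, l2, l3, l4⟩ := int_last i B hB
  let H : Fin (k + 1) → ι → ℤ := Fin.snoc (α := fun _ => ι → ℤ) hh hl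
  let W : Fin (k + 1) → ι → ℤ := Fin.snoc (α := fun _ => ι → ℤ) ww wl
  have Hc : ∀ u : Fin k, H u.castSucc = hh u := fun u => Fin.snoc_castSucc (α := fun _ => ι → ℤ) _ _ u
  have Wc : ∀ u : Fin k, W u.castSucc = ww u := fun u => Fin.snoc_castSucc (α := fun _ => ι → ℤ) _ _ u
  have Hl : H (Fin.last k) = hl := Fin.snoc_last (α := fun _ => ι → ℤ) _ _
  have Wl : W (Fin.last k) = wl := Fin.snoc_last (α := fun _ => ι → ℤ) _ _
  have hHi : ∀ u, H u i = 0 := by
    intro u
    refine Fin.lastCases ?_ (fun u => ?_) u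
    · rw [Hl]; exact l1
    · rw [Hc]; exact d1 u
  -- the bound
  let Z1 : ℕ := ∑ v ∈ V, ∑ u, (alp i v (H u) (W u)).natAbs
  let Z2 : ℕ := ∑ v ∈ V, ∑ u, (bet i v (H u)).natAbs
  let Z3 : ℕ := ∑ v ∈ V, ∑ v' ∈ V, (alp i v hl wl * bet i v' hl - alp i v' hl wl * bet i v hl).natAbs
  let Z4 : ℕ := ∑ A : Finset ι, ∑ A' : Finset ι, (∑ j ∈ A, hl j - ∑ j ∈ A', hl j).natAbs
  let X' : ℕ := X + Z1 + Z2 + Z3 + Z4
  have b1 : ∀ v ∈ V, ∀ u, (alp i v (H u) (W u)).natAbs ≤ X' := by
    intro v hv u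
    have e1 : (alp i v (H u) (W u)).natAbs ≤ ∑ u, (alp i v (H u) (W u)).natAbs :=
      Finset.single_le_sum (f := fun u => (alp i v (H u) (W u)).natAbs) (fun _ _ => Nat.zero_le _)
        (Finset.mem_univ u)
    have e2 : ∑ u, (alp i v (H u) (W u)).natAbs ≤ Z1 :=
      Finset.single_le_sum (f := fun v => ∑ u, (alp i v (H u) (W u)).natAbs)
        (fun _ _ => Nat.zero_le _) hv
    omega
  have b2 : ∀ v ∈ V, ∀ u, (bet i v (H u)).natAbs ≤ X' := by
    intro v hv u
    have e1 : (bet i v (H u)).natAbs ≤ ∑ u, (bet i v (H u)).natAbs :=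
      Finset.single_le_sum (f := fun u => (bet i v (H u)).natAbs) (fun _ _ => Nat.zero_le _)
        (Finset.mem_univ u)
    have e2 : ∑ u, (bet i v (H u)).natAbs ≤ Z2 :=
      Finset.single_le_sum (f := fun v => ∑ u, (bet i v (H u)).natAbs)
        (fun _ _ => Nat.zero_le _) hv
    omega
  have b3 : ∀ v ∈ V, ∀ v' ∈ V,
      (alp i v hl wl * bet i v' hl - alp i v' hl wl * bet i v hl).natAbs ≤ X' := by
    intro v hv v' hv'
    have e1 : (alp i v hl wl * bet i v' hl - alp i v' hl wl * bet i v hl).natAbs ≤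
        ∑ v' ∈ V, (alp i v hl wl * bet i v' hl - alp i v' hl wl * bet i v hl).natAbs :=
      Finset.single_le_sum
        (f := fun v' => (alp i v hl wl * bet i v' hl - alp i v' hl wl * bet i v hl).natAbs)
        (fun _ _ => Nat.zero_le _) hv'
    have e2 : ∑ v' ∈ V, (alp i v hl wl * bet i v' hl - alp i v' hl wl * bet i v hl).natAbs ≤ Z3 :=
      Finset.single_le_sum (f := fun v => ∑ v' ∈ V,
        (alp i v hl wl * bet i v' hl - alp i v' hl wl * bet i v hl).natAbs)
        (fun _ _ => Nat.zero_le _) hv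
    omega
  have b4 : ∀ A A' : Finset ι, (∑ j ∈ A, hl j - ∑ j ∈ A', hl j).natAbs ≤ X' := by
    intro A A'
    have e1 : (∑ j ∈ A, hl j - ∑ j ∈ A', hl j).natAbs ≤
        ∑ A' : Finset ι, (∑ j ∈ A, hl j - ∑ j ∈ A', hl j).natAbs :=
      Finset.single_le_sum (f := fun A' => (∑ j ∈ A, hl j - ∑ j ∈ A', hl j).natAbs)
        (fun _ _ => Nat.zero_le _) (Finset.mem_univ A')
    have e2 : ∑ A' : Finset ι, (∑ j ∈ A, hl j - ∑ j ∈ A', hl j).natAbs ≤ Z4 :=
      Finset.single_le_sum (f := fun A => ∑ A' : Finset ι,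
        (∑ j ∈ A, hl j - ∑ j ∈ A', hl j).natAbs)
        (fun _ _ => Nat.zero_le _) (Finset.mem_univ A)
    omega
  -- the number field
  let F : IntermediateField ℚ Ω := IntermediateField.adjoin ℚ (Set.range c)
  have hF : FiniteDimensional ℚ F := by
    refine IntermediateField.finiteDimensional_adjoin fun x _ => ?_
    exact (Algebra.IsAlgebraic.isAlgebraic x).isIntegral
  obtain ⟨p, ζ, hp, htow⟩ := tower F (Fintype.card S) X' (k + 1)
  have hXp : ∀ u, X' < p u := fun u => (hp u).2.1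
  refine ⟨k + 1, p, ζ, fun a u => ((H u a : ℤ) : ZMod (p u)), fun a u => ((W u a : ℤ) : ZMod (p u)),
    fun u => ⟨(hp u).1, lt_of_le_of_lt (by omega) (hXp u), (hp u).2.2⟩, ?_, ?_, ?_⟩
  · funext u
    simp [hHi u]
  · intro A A' hA hA' hs
    by_contra hne
    have h1 := congrFun hs (Fin.last k)
    rw [Finset.sum_apply, Finset.sum_apply] at h1
    have h2 := cast_ne (hXp (Fin.last k)) (b4 A A') (sub_ne_zero.2 (l2 A A' hA hA' hne))
    apply h2
    push_cast
    rw [sub_eq_zero]
    simp only [Hl] at h1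
    exact h1
  · intro t hcond hsum
    let E : S → ∀ u, ZMod (p u) := fun σ u => ((alp i (B σ) (H u) (W u) : ℤ) : ZMod (p u)) +
      t u * ((bet i (B σ) (H u) : ℤ) : ZMod (p u))
    have hE' : ∀ σ, (alp i (B σ) (fun a u => ((H u a : ℤ) : ZMod (p u)))
        (fun a u => ((W u a : ℤ) : ZMod (p u))) +
        t * bet i (B σ) (fun a u => ((H u a : ℤ) : ZMod (p u)))) = E σ := by
      intro σ
      funext u
      rw [Pi.add_apply, Pi.mul_apply, alp_apply, bet_apply]
    have hsumT : ∑ σ ∈ T, c σ * ∏ u, ζ u ^ (E σ u).val = 0 := by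
      rw [← hsum, ← Finset.sum_subset (Finset.subset_univ T)]
      · refine Finset.sum_congr rfl fun σ _ => ?_
        rw [hE']
      · intro σ _ hσ
        have : c σ = 0 := by
          by_contra hne
          exact hσ ((hT σ).2 hne)
        rw [this, zero_mul]
    have hclass := htow S T (Finset.card_le_univ T) c
      (fun σ _ => IntermediateField.subset_adjoin ℚ _ ⟨σ, rfl⟩) E hsumT
    refine core i B hB hinj c T hT hTne p (fun u => (hp u).1) vv ?_ H W hHi ?_ ?_ ?_ ?_ ?_ ?_ t
      hcond E (fun _ _ => rfl) ?_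
    · intro σ τ h
      refine ⟨en.symm ⟨B σ - B τ, Finset.mem_filter.2 ⟨hV σ τ, h⟩⟩, ?_⟩
      simp only [vv, Equiv.apply_symm_apply]
    · intro u
      rw [Hc]; exact d2 u
    · intro u
      refine cast_ne (hXp _) (b1 _ (hvV u) _) ?_
      rw [Hc, Wc]; exact d3 u
    · intro u σ hσ τ hτ h1 h2
      refine cast_ne (hXp _) (b2 _ (hV σ τ) _) ?_
      rw [Hc, bet_sub]
      exact sub_ne_zero.2 (d4 u σ hσ τ hτ h1 h2)
    · intro v hv hI
      rw [Hl, bet_eq_sub i v hv]
      refine cast_ne (hXp _) (b4 _ _) (sub_ne_zero.2 (l2 _ _ ?_ ?_ ?_))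
      · simp [hv.diag]
      · simp [hv.diag]
      · intro heq
        obtain ⟨a, ha⟩ := hI
        have h1 := Finset.ext_iff.1 heq a
        simp only [Finset.mem_filter, Finset.mem_univ, true_and] at h1
        rcases hv.ent a i with h0 | h0 | h0
        · exact ha h0
        · rw [h0] at h1
          simp at h1
        · rw [h0] at h1
          simp at h1
    · intro σ τ h1
      refine cast_ne (hXp _) (b1 _ (hV σ τ) _) ?_
      rw [Hl, Wl, alp_sub]
      exact sub_ne_zero.2 (l3 σ τ h1)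
    · intro σ τ σ' τ' h1 h2 h3 h4 h5
      rw [Hl, Wl]
      exact cast_ne (hXp _) (b3 _ (hV σ τ) _ (hV σ' τ'))
        (sub_ne_zero.2 (l4 σ τ σ' τ' h1 h2 h3 h4 h5))
    · intro σ₀ hσ₀
      exact hclass σ₀ hσ₀

end ALK
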