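import Pool.Agent.Work.MP_05d08f_al.AS.E03
import Pool.Agent.Work.MP_05d08f_al.AS.N08

set_option autoImplicit false

/-!
# E04: existence of data over the algebraic closure of the rationals (size M)

`prod_char`: for primes `p u` and primitive `p u`-th roots of unity `ζ u` the function
`x ↦ ∏_u ζ u ^ (x u).val` on `G = ∏ ZMod (p u)` is an additive character `ψ`
(`ζ ^ ((x + y).val) = ζ ^ (x.val + y.val)` as `ζ ^ p = 1`, `ZMod.val_add`, `pow_mod_orderOf` or
`IsPrimitiveRoot`; or use the Mathlib characters `ZMod.stdAddChar`-like constructions such as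
`AddChar.zmodChar`) with `∑_x ψ (a x) = 0` for `a ≠ 0`: if `a u ≠ 0` then with `y = Pi.single u 1`
`ψ (a * y) = ζ u ^ (a u).val ≠ 1`, and the substitution `x ↦ x + y` gives `∑ = ψ (a y) ∑`.
(Mathlib: `AddChar.sum_eq_zero_of_ne_one`.)

`exists_data`: let `c ≠ 0`. Apply `nonvan` with `S = Perm (Fin m)`, `B = Bw i` (`Bw_tour`, `Bw_inj`), and `X`.
Its condition in `t` is `t ≠ 0 ∨ ¬ TL c i` by `Bw_off`. We get a `Dat m i` and `special_point` with the
character `ψ` gives `D, φ`. `card G = ∏ p u ≠ 0` in `Ω` (characteristic 0).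
-/

namespace ALK

open Equiv MLI Matrix

variable {m : ℕ} {Ω : Type*} [Field Ω] [CharZero Ω]

theorem prod_char {k : ℕ} (p : Fin k → ℕ) (hp : ∀ u, (p u).Prime) [∀ u, NeZero (p u)]
    (ζ : Fin k → Ω) (hζ : ∀ u, IsPrimitiveRoot (ζ u) (p u)) :
    ∃ ψ : AddChar (∀ u, ZMod (p u)) Ω, (∀ x, ψ x = ∏ u, ζ u ^ (x u).val) ∧
      ∀ a, a ≠ 0 → ∑ x, ψ (a * x) = 0 := by
  classical
  let ψ : AddChar (∀ u, ZMod (p u)) Ω :=
    ∏ u, (AddChar.zmodChar (p u) (hζ u).pow_eq_one).compAddMonoidHom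
      (Pi.evalAddMonoidHom (fun u => ZMod (p u)) u)
  have hψ : ∀ x, ψ x = ∏ u, ζ u ^ (x u).val := by
    intro x
    show (∏ u, (AddChar.zmodChar (p u) (hζ u).pow_eq_one).compAddMonoidHom
      (Pi.evalAddMonoidHom (fun u => ZMod (p u)) u)) x = _
    rw [AddChar.prod_apply]
    rfl
  refine ⟨ψ, hψ, fun a ha => ?_⟩
  obtain ⟨u, hu⟩ : ∃ u, a u ≠ 0 := by
    by_contra hcon
    push Not at hcon
    exact ha (funext hcon)
  have hne : AddChar.mulShift ψ a ≠ 1 := by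
    intro h1
    have h2 : AddChar.mulShift ψ a (Pi.single u 1) = 1 := by rw [h1]; rfl
    rw [AddChar.mulShift_apply, hψ, Finset.prod_eq_single u] at h2
    · have h3 : (a * Pi.single u (1 : ZMod (p u)) : ∀ u, ZMod (p u)) u = a u := by
        rw [Pi.mul_apply, Pi.single_eq_same, mul_one]
      rw [h3] at h2
      refine (hζ u).pow_ne_one_of_pos_of_lt ?_ (ZMod.val_lt (a u)) h2
      intro h4
      exact hu ((ZMod.val_eq_zero (a u)).1 h4)
    · intro v _ hv
      have h3 : (a * Pi.single u (1 : ZMod (p u)) : ∀ u, ZMod (p u)) v = 0 := by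
        rw [Pi.mul_apply, Pi.single_eq_of_ne hv, mul_zero]
      rw [h3, ZMod.val_zero, pow_zero]
    · intro h
      exact absurd (Finset.mem_univ u) h
  have h5 := AddChar.sum_eq_zero_of_ne_one hne
  rw [← h5]
  exact Finset.sum_congr rfl fun x _ => AddChar.mulShift_apply.symm

theorem exists_data [IsAlgClosed Ω] [Algebra.IsAlgebraic ℚ Ω] (c : Perm (Fin m) → Ω) (hc : c ≠ 0)
    (i : Fin m) (X : ℕ) :
    ∃ d : Dat m i, (∀ u, X < d.p u) ∧ ∃ (D : Fin m → d.G → Ω) (φ : d.G → Ω),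
      (φ = 0 ∨ TL c i) ∧ (LamD c i d.h D φ).det ≠ 0 := by
  classical
  obtain ⟨k, p, ζ, h, ω, hpz, hi, hsub, hR⟩ :=
    nonvan i (Bw i) (Bw_tour i) (Bw_inj i) c hc X
  let d : Dat m i := ⟨k, p, fun u => (hpz u).1, h, hi, hsub⟩
  refine ⟨d, fun u => (hpz u).2.1, ?_⟩
  have hNZ : ∀ u, NeZero (d.p u) := fun u => ⟨(d.hp u).ne_zero⟩
  obtain ⟨ψ, hψ, hψ0⟩ := prod_char d.p d.hp ζ fun u => (hpz u).2.2
  refine special_point ψ hψ0 ?_ c i d.h ω hi ?_
  · rw [Fintype.card_pi, Nat.cast_prod, Finset.prod_ne_zero_iff]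
    intro u _
    rw [ZMod.card]
    exact Nat.cast_ne_zero.2 (d.hp u).ne_zero
  · intro t ht
    simp only [hψ]
    refine hR t ?_
    rcases ht with ht | ht
    · exact Or.inl ht
    · right
      unfold TL at ht
      push Not at ht
      obtain ⟨σ₀, hσ₀⟩ := ht
      refine ⟨σ₀, ?_⟩
      intro h0
      apply hσ₀
      refine (Finset.sum_congr rfl fun σ _ => ?_).trans h0
      by_cases hb : wr σ i ++ wl σ i = wr σ₀ i ++ wl σ₀ i
      · rw [if_pos hb, if_pos ((Bw_off i σ σ₀).2 hb)]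
      · rw [if_neg hb, if_neg (fun h6 => hb ((Bw_off i σ σ₀).1 h6))]

end ALK
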