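import Pool.Agent.Work.MP_05d08f_al.AS.Defs

set_option autoImplicit false

/-!
# E05: integer points (size M)

`det_poly`: for fixed `d : Dat m i` and integer valued `D, φ` there is a polynomial
`P ∈ ℤ[X_σ : σ ∈ Perm (Fin m)]` such that for every field `K` and every `c : Perm (Fin m) → K`,
`aeval c P = det (LamD c i d.h (D cast to K) (φ cast to K))`. (All entries of `LamD` are of this form: the entry
`(a, a')` is `∑_σ (if a' = a + sh h (wl σ i) then c σ * n_σ else 0) + φ a'` with integers `n_σ`, the weights `wt`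
computed with integer `D`; so take the matrix over `MvPolynomial (Perm (Fin m)) ℤ` with entries
`∑_σ (if … then X σ * C n_σ else 0) + C (φ a')` and its determinant; `RingHom.map_det`. The integer weight: define
it by the same recursion as `MLI.wt` over `ℤ`, and show by induction on the list that its cast to `K` is
`MLI.wt h (cast D) l a`.)

`int_point`: `Ω` of characteristic 0. If `det (LamD c i h D φ) ≠ 0` for some `D, φ` over `Ω` with `φ = 0` or `TL c i`,
then this holds for some integer valued `D', φ'` with `φ' = 0` or `TL c i`: the determinant is a polynomial in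
the entries of `D` and `φ` (`IsPoly`, see `MLI.IsPoly.Lam_det` and `IsPoly.det`) which does not vanish
identically, so it does not vanish at some integer point (`MvPolynomial.funext_set` with the infinite set
`Set.range (Int.cast : ℤ → Ω)`). If `φ = 0` do this with the variables `D` only, and `φ' = 0`.
-/

namespace ALK

open Equiv MLI Matrix

variable {m : ℕ}

/-- Integer weight of a word. -/
private def wtZ62 {G : Type*} [AddCommGroup G] (h : Fin m → G) (D : Fin m → G → ℤ) :
    List (Fin m) → G → ℤ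
  | [], _ => 1
  | j :: l, a => D j a * wtZ62 h D l (a + h j)

private theorem wtZ62_cast {G : Type*} [AddCommGroup G] {K : Type*} [Field K] (h : Fin m → G)
    (D : Fin m → G → ℤ) (l : List (Fin m)) (a : G) :
    ((wtZ62 h D l a : ℤ) : K) = wt h (fun j a => ((D j a : ℤ) : K)) l a := by
  induction l generalizing a with
  | nil => exact Int.cast_one
  | cons j l ih =>
    show ((D j a * wtZ62 h D l (a + h j) : ℤ) : K) = ((D j a : ℤ) : K) * wt h _ l (a + h j)
    rw [Int.cast_mul, ih]

theorem det_poly {i : Fin m} (d : Dat m i) (D : Fin m → d.G → ℤ) (φ : d.G → ℤ) :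
    ∃ P : MvPolynomial (Perm (Fin m)) ℤ, ∀ (K : Type) [Field K] (c : Perm (Fin m) → K),
      MvPolynomial.aeval c P =
        (LamD c i d.h (fun j a => ((D j a : ℤ) : K)) (fun a => ((φ a : ℤ) : K))).det := by
  refine ⟨(Matrix.of fun a a' : d.G => (∑ σ : Perm (Fin m), if a' = a + sh d.h (wl σ i) then
      MvPolynomial.X σ * MvPolynomial.C (wtZ62 d.h D (wl σ i) a *
        wtZ62 d.h D (wr σ i) (a' + (-∑ j, d.h j))) else 0) + MvPolynomial.C (φ a')).det, ?_⟩
  intro K _ c
  rw [AlgHom.map_det]
  congr 1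
  ext a a'
  rw [AlgHom.mapMatrix_apply, Matrix.map_apply, Matrix.of_apply, map_add, map_sum]
  show _ = (∑ σ : Perm (Fin m), if a' = a + sh d.h (wl σ i) then
    c σ * (wt d.h (fun j a => ((D j a : ℤ) : K)) (wl σ i) a *
      wt d.h (fun j a => ((D j a : ℤ) : K)) (wr σ i) (a' + (-∑ j, d.h j))) else 0) +
    ((φ a' : ℤ) : K)
  congr 1
  · refine Finset.sum_congr rfl fun σ _ => ?_
    split_ifs
    · rw [map_mul, MvPolynomial.aeval_X, MvPolynomial.aeval_C, algebraMap_int_eq, eq_intCast,
        Int.cast_mul, wtZ62_cast, wtZ62_cast]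
    · exact map_zero _
  · rw [MvPolynomial.aeval_C, algebraMap_int_eq, eq_intCast]

private theorem int_nonzero62 {Ω : Type*} [Field Ω] [CharZero Ω] {J : Type*} {P : (J → Ω) → Ω}
    (hP : MLI.IsPoly P) {x : J → Ω} (hx : P x ≠ 0) : ∃ z : J → ℤ, P (fun j => ((z j : ℤ) : Ω)) ≠ 0 := by
  by_contra hcon
  push Not at hcon
  obtain ⟨p, hp⟩ := hP
  have hp0 : p = 0 := by
    refine MvPolynomial.funext_set (fun _ => Set.range (Int.cast : ℤ → Ω))
      (fun _ => Set.infinite_range_of_injective Int.cast_injective) ?_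
    intro y hy
    have h1 : ∀ j, ∃ z : ℤ, (z : Ω) = y j := fun j => hy j (Set.mem_univ j)
    choose z hz using h1
    rw [map_zero, ← hp]
    have h2 : y = fun j => ((z j : ℤ) : Ω) := funext fun j => (hz j).symm
    rw [h2]
    exact hcon z
  apply hx
  rw [hp, hp0, map_zero]

theorem int_point {i : Fin m} {G Ω : Type*} [AddCommGroup G] [Fintype G] [DecidableEq G] [Field Ω]
    [CharZero Ω] (c : Perm (Fin m) → Ω) (h : Fin m → G) (D : Fin m → G → Ω) (φ : G → Ω)
    (hφ : φ = 0 ∨ TL c i) (hdet : (LamD c i h D φ).det ≠ 0) :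
    ∃ (D' : Fin m → G → ℤ) (φ' : G → ℤ), (φ' = 0 ∨ TL c i) ∧
      (LamD c i h (fun j a => ((D' j a : ℤ) : Ω)) (fun a => ((φ' a : ℤ) : Ω))).det ≠ 0 := by
  rcases hφ with rfl | hφ
  · have hP : MLI.IsPoly (fun x : (Fin m × G) → Ω => (LamD c i h (fun j a => x (j, a)) 0).det) := by
      refine MLI.IsPoly.det fun a a' => ?_
      simp only [LamD, Matrix.add_apply, Lam, Matrix.of_apply]
      exact MLI.IsPoly.add (MLI.IsPoly.sum _ fun σ _ => MLI.IsPoly.ite _
        ((MLI.IsPoly.const _).mul ((MLI.IsPoly.wt h (fun j a => MLI.IsPoly.coord _) _ _).mul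
          (MLI.IsPoly.wt h (fun j a => MLI.IsPoly.coord _) _ _))) (MLI.IsPoly.const _)) (MLI.IsPoly.const _)
    obtain ⟨z, hz⟩ := int_nonzero62 hP (x := fun y => D y.1 y.2) hdet
    refine ⟨fun j a => z (j, a), 0, Or.inl rfl, ?_⟩
    have h0 : (fun a : G => (((0 : G → ℤ) a : ℤ) : Ω)) = 0 := by
      funext a
      exact Int.cast_zero
    rw [h0]
    exact hz
  · have hP : MLI.IsPoly (fun x : ((Fin m × G) ⊕ G) → Ω =>
        (LamD c i h (fun j a => x (Sum.inl (j, a))) (fun a => x (Sum.inr a))).det) := by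
      refine MLI.IsPoly.det fun a a' => ?_
      simp only [LamD, Matrix.add_apply, Lam, Matrix.of_apply]
      exact MLI.IsPoly.add (MLI.IsPoly.sum _ fun σ _ => MLI.IsPoly.ite _
        ((MLI.IsPoly.const _).mul ((MLI.IsPoly.wt h (fun j a => MLI.IsPoly.coord _) _ _).mul
          (MLI.IsPoly.wt h (fun j a => MLI.IsPoly.coord _) _ _))) (MLI.IsPoly.const _)) (MLI.IsPoly.coord _)
    obtain ⟨z, hz⟩ := int_nonzero62 hP (x := Sum.elim (fun y => D y.1 y.2) φ) hdet
    exact ⟨fun j a => z (Sum.inl (j, a)), fun a => z (Sum.inr a), Or.inr hφ, hz⟩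

end ALK
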