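import Mathlib

set_option autoImplicit false

/-!
# E06: a uniform Nullstellensatz certificate (Mathlib only, size M)

Let `P k` (`k ∈ ι`, any index set) and `g` be polynomials with integer coefficients in finitely many variables
`σ`, and suppose that `g` vanishes at every common zero of the `P k` in `Ω ^ σ`, `Ω` an algebraically closed
field of characteristic 0. CLAIM: there are a finite set `s ⊆ ι` and an integer `N ≥ 1` such that for every field `K`
with `N ≠ 0` in `K`, `g` vanishes at every common zero of the `P k`, `k ∈ s`, in `K ^ σ`.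

PROOF. Let `I` be the ideal of `ℚ[σ]` generated by the images of the `P k`. By
`MvPolynomial.vanishingIdeal_zeroLocus_eq_radical` (for `k = ℚ`, `K = Ω`) the image of `g` lies in the radical of `I`:
`g ^ e = ∑_{k ∈ s} a_k P_k` in `ℚ[σ]`, `s` finite (`Submodule.mem_span_range_iff_exists_finsupp`,
`Ideal.mem_span_range_iff_exists_fun` on finite subsets, or `Submodule.span_induction`). Let `N` be a common
denominator of all coefficients of the `a_k` (for instance `IsLocalization.exist_integer_multiples_of_finset`, or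
`MvPolynomial` coefficientwise, `N` the product of the denominators): `N g ^ e = ∑ b_k P_k` with
`b_k ∈ ℤ[σ]`; this holds in `ℚ[σ]`, hence in `ℤ[σ]` (`MvPolynomial.map_injective`). Evaluate at `x ∈ K ^ σ` with
`P_k(x) = 0` for `k ∈ s`: `N g(x) ^ e = 0`, so `g(x) = 0`.
-/

namespace ALK

private theorem clear_den {σ : Type*} (q : MvPolynomial σ ℚ) : ∃ N : ℕ, N ≠ 0 ∧ ∃ b : MvPolynomial σ ℤ,
    MvPolynomial.map (Int.castRingHom ℚ) b = MvPolynomial.C (N : ℚ) * q := by
  induction q using MvPolynomial.induction_on with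
  | C a =>
    refine ⟨a.den, a.den_nz, MvPolynomial.C a.num, ?_⟩
    rw [MvPolynomial.map_C, ← map_mul, eq_intCast, mul_comm, Rat.mul_den_eq_num]
  | add p q hp hq =>
    obtain ⟨N, hN, b, hb⟩ := hp
    obtain ⟨N', hN', b', hb'⟩ := hq
    refine ⟨N * N', mul_ne_zero hN hN', MvPolynomial.C (N' : ℤ) * b + MvPolynomial.C (N : ℤ) * b', ?_⟩
    rw [map_add, map_mul, map_mul, hb, hb', MvPolynomial.map_C, MvPolynomial.map_C]
    simp only [Nat.cast_mul, map_mul, map_natCast]
    ring
  | mul_X p i hp =>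
    obtain ⟨N, hN, b, hb⟩ := hp
    refine ⟨N, hN, b * MvPolynomial.X i, ?_⟩
    rw [map_mul, hb, MvPolynomial.map_X, mul_assoc]

private theorem span_den {σ : Type*} {ι : Type*} (P : ι → MvPolynomial σ ℤ) (q : MvPolynomial σ ℚ)
    (hq : q ∈ Ideal.span (Set.range fun k => MvPolynomial.map (Int.castRingHom ℚ) (P k))) :
    ∃ N : ℕ, N ≠ 0 ∧ ∃ b ∈ Ideal.span (Set.range P),
      MvPolynomial.map (Int.castRingHom ℚ) b = MvPolynomial.C (N : ℚ) * q := by
  induction hq using Submodule.span_induction with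
  | mem x hx =>
    obtain ⟨k, rfl⟩ := hx
    exact ⟨1, one_ne_zero, P k, Ideal.subset_span ⟨k, rfl⟩, by simp⟩
  | zero => exact ⟨1, one_ne_zero, 0, zero_mem _, by simp⟩
  | add p q _ _ hp hq =>
    obtain ⟨N, hN, b, hbJ, hb⟩ := hp
    obtain ⟨N', hN', b', hbJ', hb'⟩ := hq
    refine ⟨N * N', mul_ne_zero hN hN', MvPolynomial.C (N' : ℤ) * b + MvPolynomial.C (N : ℤ) * b',
      add_mem (Ideal.mul_mem_left _ _ hbJ) (Ideal.mul_mem_left _ _ hbJ'), ?_⟩
    rw [map_add, map_mul, map_mul, hb, hb', MvPolynomial.map_C, MvPolynomial.map_C]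
    simp only [Nat.cast_mul, map_mul, map_natCast]
    ring
  | smul a q _ hq =>
    obtain ⟨N, hN, b, hbJ, hb⟩ := hq
    obtain ⟨N', hN', a', ha'⟩ := clear_den a
    refine ⟨N' * N, mul_ne_zero hN' hN, a' * b, Ideal.mul_mem_left _ _ hbJ, ?_⟩
    rw [map_mul, hb, ha', smul_eq_mul]
    simp only [Nat.cast_mul, map_mul, map_natCast]
    ring

private theorem span_fin {σ : Type*} {ι : Type*} (P : ι → MvPolynomial σ ℤ) (q : MvPolynomial σ ℤ)
    (hq : q ∈ Ideal.span (Set.range P)) :
    ∃ s : Finset ι, ∀ (K : Type) [Field K], ∀ x : σ → K,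
      (∀ k ∈ s, MvPolynomial.aeval x (P k) = 0) → MvPolynomial.aeval x q = 0 := by
  classical
  induction hq using Submodule.span_induction with
  | mem x hx =>
    obtain ⟨k, rfl⟩ := hx
    exact ⟨{k}, fun K _ x h => h k (by simp)⟩
  | zero => exact ⟨∅, fun K _ x h => map_zero _⟩
  | add p q _ _ hp hq =>
    obtain ⟨s, hs⟩ := hp
    obtain ⟨t, ht⟩ := hq
    refine ⟨s ∪ t, fun K _ x h => ?_⟩
    rw [map_add, hs K x (fun k hk => h k (Finset.mem_union_left _ hk)),
      ht K x (fun k hk => h k (Finset.mem_union_right _ hk)), add_zero]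
  | smul a q _ hq =>
    obtain ⟨s, hs⟩ := hq
    refine ⟨s, fun K _ x h => ?_⟩
    rw [smul_eq_mul, map_mul, hs K x h, mul_zero]

theorem cert {Ω : Type*} [Field Ω] [CharZero Ω] [IsAlgClosed Ω] {σ : Type*} [Finite σ] {ι : Type*}
    (P : ι → MvPolynomial σ ℤ) (g : MvPolynomial σ ℤ)
    (h : ∀ x : σ → Ω, (∀ k, MvPolynomial.aeval x (P k) = 0) → MvPolynomial.aeval x g = 0) :
    ∃ (s : Finset ι) (N : ℕ), N ≠ 0 ∧ ∀ (K : Type) [Field K], (N : K) ≠ 0 → ∀ x : σ → K,
      (∀ k ∈ s, MvPolynomial.aeval x (P k) = 0) → MvPolynomial.aeval x g = 0 := by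
  have hmap : ∀ (x : σ → Ω) (r : MvPolynomial σ ℤ),
      MvPolynomial.aeval x (MvPolynomial.map (Int.castRingHom ℚ) r) = MvPolynomial.aeval x r := by
    intro x r
    rw [MvPolynomial.aeval_def, MvPolynomial.eval₂_map, MvPolynomial.aeval_def]
    congr 1
    exact RingHom.ext_int _ _
  have h1 : MvPolynomial.map (Int.castRingHom ℚ) g ∈
      (Ideal.span (Set.range fun k => MvPolynomial.map (Int.castRingHom ℚ) (P k))).radical := by
    rw [← MvPolynomial.vanishingIdeal_zeroLocus_eq_radical (K := Ω), MvPolynomial.mem_vanishingIdeal_iff]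
    intro x hx
    rw [hmap]
    apply h
    intro k
    rw [← hmap]
    exact hx _ (Ideal.subset_span ⟨k, rfl⟩)
  obtain ⟨e, he⟩ := h1
  obtain ⟨N, hN, b, hbJ, hb⟩ := span_den P _ he
  have hb2 : b = MvPolynomial.C (N : ℤ) * g ^ e := by
    apply MvPolynomial.map_injective (Int.castRingHom ℚ) Int.cast_injective
    rw [hb, map_mul, map_pow, MvPolynomial.map_C]
    simp only [map_natCast]
  obtain ⟨s, hs⟩ := span_fin P b hbJ
  refine ⟨s, N, hN, fun K _ hNK x hx => ?_⟩
  have h2 := hs K x hx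
  rw [hb2, map_mul, map_pow] at h2
  simp only [map_natCast] at h2
  rcases mul_eq_zero.1 h2 with h3 | h3
  · exact absurd h3 hNK
  · exact pow_eq_zero_iff (fun h0 => by rw [h0, pow_zero] at h3; exact one_ne_zero h3) |>.1 h3

end ALK
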