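import Pool.Agent.Work.MP_05d08f_al.AS.E04
import Pool.Agent.Work.MP_05d08f_al.AS.E05
import Pool.Agent.Work.MP_05d08f_al.AS.E06

set_option autoImplicit false

/-!
# E07: uniform data (size M, assembly of E04, E05, E06)

CLAIM: for `m`, `i`, `X` there are a finite list `L` of data all of whose primes are `> X`, and `N ≥ 1`, such that for
every field `K` with `N ≠ 0` in `K` and every `c : Perm (Fin m) → K`, `c ≠ 0`, some `d ∈ L` has `D, φ` over `K` with
`φ = 0` or `TL c i`, and `det (LamD c i d.h D φ) ≠ 0`.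

PROOF. `Ω = AlgebraicClosure ℚ` (it is algebraic over `ℚ`; beware that the algebra structure used by the general
statements is `DivisionRing.toRatAlgebra`, all `ℚ`-algebra structures on a ring are equal,
`Subsingleton (Algebra ℚ Ω)`). Index sets: `ι₁ = {(d, D, φ) : d : Dat m i, all primes > X, D, φ integer valued}` and the
subset `ι₀` of those with `φ = 0`; `P_{(d, D, φ)}` the polynomial of `det_poly`. For `σ₀ : Perm (Fin m)` let
`t_{σ₀} = ∑_σ (if wr σ i ++ wl σ i = wr σ₀ i ++ wl σ₀ i then X σ else 0) ∈ ℤ[X_σ]`; `TL c i` iff all `t_{σ₀}` vanish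
at `c`.
(1) For each `σ₀`, `cert` applies to the family `P`, `ι₀`, and `g = t_{σ₀}`: if `x : Perm (Fin m) → Ω` is a common
zero then `TL x i`; otherwise `x ≠ 0` and `exists_data` + `int_point` give `(d, D, φ)` with `φ = 0` and
nonzero determinant. Result: finite sets `s_{σ₀}` and `N_{σ₀}`.
(2) For each `σ₁`, `cert` applies to the family indexed by `ι₁ ⊕ Perm (Fin m)` consisting of the `P_k` and the `t_{σ₀}`,
and `g = X σ₁`: at a common zero `x` we have `TL x i`, and if `x ≠ 0` then `exists_data` + `int_point` give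
an index with nonzero determinant; so `x = 0` and `g(x) = 0`. Result: finite sets `s'_{σ₁}`, `N'_{σ₁}`.
`L` = all `d` occurring in these finite sets, `N` = product of all `N_{σ₀}`, `N'_{σ₁}`.
Now let `K`, `c ≠ 0` be given. If `TL c i`: choose `σ₁` with `c σ₁ ≠ 0`; by (2) some index of `s'_{σ₁}` has
a nonvanishing polynomial at `c`; it is not one of the `t_{σ₀}`, so it is some `(d, D, φ)` and the determinant is
nonzero in `K`. If `¬ TL c i`: some `t_{σ₀}` does not vanish at `c` and (1) gives `(d, D, 0)`.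
-/

namespace ALK

open Equiv MLI Matrix

open Classical in
/-- The polynomial of a class of cyclic words. -/
private noncomputable def tp62 {m : ℕ} (i : Fin m) (σ₀ : Perm (Fin m)) :
    MvPolynomial (Perm (Fin m)) ℤ :=
  ∑ σ : Perm (Fin m), if wr σ i ++ wl σ i = wr σ₀ i ++ wl σ₀ i then MvPolynomial.X σ else 0

open Classical in
private theorem tp62_aeval {m : ℕ} (i : Fin m) (σ₀ : Perm (Fin m)) {K : Type} [Field K]
    (c : Perm (Fin m) → K) : MvPolynomial.aeval c (tp62 i σ₀) =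
      ∑ σ : Perm (Fin m), if wr σ i ++ wl σ i = wr σ₀ i ++ wl σ₀ i then c σ else 0 := by
  unfold tp62
  rw [map_sum]
  refine Finset.sum_congr rfl fun σ _ => ?_
  split_ifs
  · rw [MvPolynomial.aeval_X]
  · exact map_zero _

private theorem tl62_iff {m : ℕ} (i : Fin m) {K : Type} [Field K] (c : Perm (Fin m) → K) :
    TL c i ↔ ∀ σ₀, MvPolynomial.aeval c (tp62 i σ₀) = 0 := by
  unfold TL
  exact forall_congr' fun σ₀ => by rw [tp62_aeval]

/-- Integer data. -/
private abbrev J62 (m : ℕ) (i : Fin m) (X : ℕ) : Type :=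
  Σ d : {d : Dat m i // ∀ u, X < d.p u}, (Fin m → d.1.G → ℤ) × (d.1.G → ℤ)

private theorem int_data62 {m : ℕ} (i : Fin m) (X : ℕ) {Ω : Type} [Field Ω] [CharZero Ω]
    [IsAlgClosed Ω] [Algebra.IsAlgebraic ℚ Ω] (c : Perm (Fin m) → Ω) (hc : c ≠ 0) :
    ∃ y : J62 m i X, (y.2.2 = 0 ∨ TL c i) ∧ (LamD c i y.1.1.h
      (fun j a => ((y.2.1 j a : ℤ) : Ω)) (fun a => ((y.2.2 a : ℤ) : Ω))).det ≠ 0 := by
  obtain ⟨d, hd, D, φ, hφ, hdet⟩ := exists_data c hc i X
  obtain ⟨D', φ', h1, h2⟩ := int_point c d.h D φ hφ hdet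
  exact ⟨⟨⟨d, hd⟩, D', φ'⟩, h1, h2⟩

theorem uniform_data (m : ℕ) (i : Fin m) (X : ℕ) :
    ∃ (L : List (Dat m i)) (N : ℕ), N ≠ 0 ∧ (∀ d ∈ L, ∀ u, X < d.p u) ∧
      ∀ (K : Type) [Field K], (N : K) ≠ 0 → ∀ c : Perm (Fin m) → K, c ≠ 0 →
        ∃ d ∈ L, ∃ (D : Fin m → d.G → K) (φ : d.G → K), (φ = 0 ∨ TL c i) ∧
          (LamD c i d.h D φ).det ≠ 0 := by
  classical
  have halg : Algebra.IsAlgebraic ℚ (AlgebraicClosure ℚ) := by
    convert AlgebraicClosure.isAlgebraic ℚ
    · rfl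
    · exact Subsingleton.elim _ _
  choose P hP using fun y : J62 m i X => det_poly y.1.1 y.2.1 y.2.2
  -- step 1
  have h1 : ∀ σ₀ : Perm (Fin m), ∃ (s : Finset {y : J62 m i X // y.2.2 = 0}) (N : ℕ), N ≠ 0 ∧
      ∀ (K : Type) [Field K], (N : K) ≠ 0 → ∀ x : Perm (Fin m) → K,
        (∀ k ∈ s, MvPolynomial.aeval x (P k.1) = 0) →
          MvPolynomial.aeval x (tp62 i σ₀) = 0 := by
    intro σ₀
    refine cert (Ω := AlgebraicClosure ℚ) (fun k : {y : J62 m i X // y.2.2 = 0} => P k.1)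
      (tp62 i σ₀) ?_
    intro x hx
    by_contra hcon
    have hTL : ¬ TL x i := fun h => hcon ((tl62_iff i x).1 h σ₀)
    have hx0 : x ≠ 0 := by
      rintro rfl
      apply hcon
      rw [tp62_aeval]
      exact Finset.sum_eq_zero fun σ _ => by rw [Pi.zero_apply, ite_self]
    obtain ⟨y, hy1, hy2⟩ := int_data62 i X x hx0
    have hy0 : y.2.2 = 0 := hy1.resolve_right hTL
    apply hy2
    rw [← hP y]
    exact hx ⟨y, hy0⟩
  -- step 2
  have h2 : ∀ σ₁ : Perm (Fin m), ∃ (s : Finset (J62 m i X ⊕ Perm (Fin m))) (N : ℕ), N ≠ 0 ∧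
      ∀ (K : Type) [Field K], (N : K) ≠ 0 → ∀ x : Perm (Fin m) → K,
        (∀ k ∈ s, MvPolynomial.aeval x (Sum.elim P (tp62 i) k) = 0) →
          MvPolynomial.aeval x (MvPolynomial.X σ₁ : MvPolynomial (Perm (Fin m)) ℤ) = 0 := by
    intro σ₁
    refine cert (Ω := AlgebraicClosure ℚ) (Sum.elim P (tp62 i)) (MvPolynomial.X σ₁) ?_
    intro x hx
    by_contra hcon
    have hx0 : x ≠ 0 := by
      rintro rfl
      apply hcon
      rw [MvPolynomial.aeval_X]
      rfl
    obtain ⟨y, hy1, hy2⟩ := int_data62 i X x hx0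
    apply hy2
    rw [← hP y]
    exact hx (Sum.inl y)
  choose s N hN hs using h1
  choose s' N' hN' hs' using h2
  let g : J62 m i X ⊕ Perm (Fin m) → Finset (Dat m i) := Sum.elim (fun y => {y.1.1}) (fun _ => ∅)
  let L : Finset (Dat m i) := (Finset.univ.biUnion fun σ₀ => (s σ₀).image fun k => k.1.1.1) ∪
    (Finset.univ.biUnion fun σ₁ => (s' σ₁).biUnion g)
  refine ⟨L.toList, (∏ σ₀, N σ₀) * ∏ σ₁, N' σ₁, ?_, ?_, ?_⟩
  · exact mul_ne_zero (Finset.prod_ne_zero_iff.2 fun σ _ => hN σ)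
      (Finset.prod_ne_zero_iff.2 fun σ _ => hN' σ)
  · intro d hd
    rw [Finset.mem_toList, Finset.mem_union] at hd
    rcases hd with hd | hd
    · obtain ⟨σ₀, _, hd⟩ := Finset.mem_biUnion.1 hd
      obtain ⟨k, _, rfl⟩ := Finset.mem_image.1 hd
      exact k.1.1.2
    · obtain ⟨σ₁, _, hd⟩ := Finset.mem_biUnion.1 hd
      obtain ⟨k, _, hd⟩ := Finset.mem_biUnion.1 hd
      rcases k with k | k
      · have h3 : d = k.1.1 := Finset.mem_singleton.1 hd
        rw [h3]
        exact k.1.2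
      · exact absurd hd (Finset.notMem_empty _)
  · intro K _ hK c hc
    rw [Nat.cast_mul, Nat.cast_prod, Nat.cast_prod] at hK
    have hK1 : ∀ σ, (N σ : K) ≠ 0 := fun σ =>
      Finset.prod_ne_zero_iff.1 (left_ne_zero_of_mul hK) σ (Finset.mem_univ σ)
    have hK2 : ∀ σ, (N' σ : K) ≠ 0 := fun σ =>
      Finset.prod_ne_zero_iff.1 (right_ne_zero_of_mul hK) σ (Finset.mem_univ σ)
    by_cases hTL : TL c i
    · obtain ⟨σ₁, hσ₁⟩ : ∃ σ₁, c σ₁ ≠ 0 := by
        by_contra hcon
        push Not at hcon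
        exact hc (funext hcon)
      have h3 : ∃ k ∈ s' σ₁, MvPolynomial.aeval c (Sum.elim P (tp62 i) k) ≠ 0 := by
        by_contra hcon
        push Not at hcon
        have h4 := hs' σ₁ K (hK2 σ₁) c hcon
        rw [MvPolynomial.aeval_X] at h4
        exact hσ₁ h4
      obtain ⟨k, hk, hk'⟩ := h3
      rcases k with y | σ₀
      · refine ⟨y.1.1, ?_, fun j a => ((y.2.1 j a : ℤ) : K), fun a => ((y.2.2 a : ℤ) : K),
          Or.inr hTL, ?_⟩
        · rw [Finset.mem_toList, Finset.mem_union]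
          right
          refine Finset.mem_biUnion.2 ⟨σ₁, Finset.mem_univ _, Finset.mem_biUnion.2
            ⟨_, hk, ?_⟩⟩
          exact Finset.mem_singleton_self _
        · rw [← hP y]
          exact hk'
      · exact absurd ((tl62_iff i c).1 hTL σ₀) hk'
    · obtain ⟨σ₀, hσ₀⟩ : ∃ σ₀, MvPolynomial.aeval c (tp62 i σ₀) ≠ 0 := by
        by_contra hcon
        push Not at hcon
        exact hTL ((tl62_iff i c).2 hcon)
      have h3 : ∃ k ∈ s σ₀, MvPolynomial.aeval c (P k.1) ≠ 0 := by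
        by_contra hcon
        push Not at hcon
        exact hσ₀ (hs σ₀ K (hK1 σ₀) c hcon)
      obtain ⟨k, hk, hk'⟩ := h3
      refine ⟨k.1.1.1, ?_, fun j a => ((k.1.2.1 j a : ℤ) : K), fun a => ((k.1.2.2 a : ℤ) : K),
        Or.inl ?_, ?_⟩
      · rw [Finset.mem_toList, Finset.mem_union]
        left
        exact Finset.mem_biUnion.2 ⟨σ₀, Finset.mem_univ _, Finset.mem_image.2 ⟨k, hk, rfl⟩⟩
      · funext a
        rw [k.2]
        exact Int.cast_zero
      · rw [← hP k.1]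
        exact hk'

end ALK
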