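import Pool.Agent.Work.MP_05d08f_al.AS.Defs

set_option autoImplicit false

/-!
# E08: trace zero diagonal matrices are hit (size M)

Let `h i = 0`, `card G ≠ 0` in `K`, `φ = 0` or `TL c i`, `det (LamD c i h D φ) ≠ 0`, `X j = Gm (h j) (D j)`, and
`y : G → K` with `∑ y = 0`. CLAIM: `Phi c i X X z = diagonal y` for some `z`.

PROOF. By `MLI.Phi_Gm` with `c0 = -∑ j, h j`: `Phi c i X X (Gm c0 ζ) = Gm (c0 + ∑ h - h i) (Lam c i h c0 D D *ᵥ ζ)`,
and `c0 + ∑ h - h i = 0`, `Gm 0 w = diagonal w`. So we need `ζ` with `Lam *ᵥ ζ = y`, `Lam = Lam c i h c0 D D`.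
`LamD c i h D φ *ᵥ ζ = Lam *ᵥ ζ + (∑ φ a' ζ a') • 1` (the second matrix has all rows equal to `φ`). Let `ζ` be the
solution of `LamD *ᵥ ζ = y`. If `φ = 0` we are done. If `TL c i`: the column sums of `Lam` are `0`, so
`0 = ∑ y = 0 + card G * (∑ φ ζ)`, hence `∑ φ ζ = 0` and `Lam *ᵥ ζ = y`.
COLUMN SUMS (`TL c i`): `∑_a Lam a a' = ∑_σ c σ * wt h D (wl σ) (a' - s_σ) * wt h D (wr σ) (a' + c0)` with
`s_σ = sh h (wl σ)`, and `a' - s_σ = a' + c0 + sh h (wr σ)` (as `s_σ + sh h (wr σ) = ∑ h` by `sh_word`, `h i = 0`). So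
the product of the two weights is `wt h D (wr σ ++ wl σ) (a' + c0)` (lemma:
`wt h D (l ++ l') a = wt h D l a * wt h D l' (a + sh h l)`), which depends only on the list
`wr σ i ++ wl σ i`. Group the `σ` by this list (`Finset.sum_fiberwise` or
`Finset.sum_comp`): each group has coefficient sum `0` by `TL c i`.
-/

namespace ALK

open Equiv MLI Matrix

variable {m : ℕ} {K : Type*} [Field K]

private theorem wt_append' {G : Type*} [AddCommGroup G] (h : Fin m → G) (D : Fin m → G → K)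
    (l l' : List (Fin m)) (a : G) :
    wt h D (l ++ l') a = wt h D l a * wt h D l' (a + sh h l) := by
  induction l generalizing a with
  | nil => simp [wt, sh]
  | cons j l ih =>
    rw [List.cons_append]
    simp only [wt]
    rw [ih]
    have e : sh h (j :: l) = h j + sh h l := by simp [sh]
    rw [e, mul_assoc, add_assoc]

private theorem tl_sum (c : Perm (Fin m) → K) (i : Fin m) (hT : TL c i) (W : List (Fin m) → K) :
    ∑ σ : Perm (Fin m), c σ * W (wr σ i ++ wl σ i) = 0 := by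
  classical
  rw [← Finset.sum_fiberwise_of_maps_to (s := Finset.univ) (t := Finset.univ.image
    fun σ : Perm (Fin m) => wr σ i ++ wl σ i) (g := fun σ => wr σ i ++ wl σ i)
    (fun σ _ => Finset.mem_image_of_mem _ (Finset.mem_univ σ))]
  refine Finset.sum_eq_zero fun l hl => ?_
  obtain ⟨σ₀, -, rfl⟩ := Finset.mem_image.1 hl
  have h1 := hT σ₀
  have h2 : ∑ σ : Perm (Fin m) with wr σ i ++ wl σ i = wr σ₀ i ++ wl σ₀ i,
      c σ * W (wr σ i ++ wl σ i) =
      (∑ σ : Perm (Fin m) with wr σ i ++ wl σ i = wr σ₀ i ++ wl σ₀ i, c σ) *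
        W (wr σ₀ i ++ wl σ₀ i) := by
    rw [Finset.sum_mul]
    refine Finset.sum_congr rfl fun σ hσ => ?_
    rw [(Finset.mem_filter.1 hσ).2]
  rw [h2, Finset.sum_filter]
  have h3 : (∑ σ : Perm (Fin m), if wr σ i ++ wl σ i = wr σ₀ i ++ wl σ₀ i then c σ else 0) = 0 := by
    convert h1
  rw [h3, zero_mul]

private theorem col_sum {G : Type*} [AddCommGroup G] [Fintype G] [DecidableEq G]
    (c : Perm (Fin m) → K) (i : Fin m) (h : Fin m → G) (hi : h i = 0) (D : Fin m → G → K)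
    (hT : TL c i) (a' : G) : ∑ a : G, Lam c i h (-∑ j, h j) D D a a' = 0 := by
  simp only [Lam, Matrix.of_apply]
  rw [Finset.sum_comm]
  refine Eq.trans (Finset.sum_congr rfl fun σ _ => ?_)
    (tl_sum c i hT (fun l => wt h D l (a' + -∑ j, h j)))
  have hw := sh_word h σ i
  rw [hi, add_zero] at hw
  rw [Finset.sum_eq_single (a' - sh h (wl σ i))]
  · rw [if_pos (by abel), wt_append']
    have e : a' + -∑ j, h j + sh h (wr σ i) = a' - sh h (wl σ i) := by
      rw [← hw]; abel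
    rw [e]; ring
  · intro x _ hx
    rw [if_neg]
    intro h1
    exact hx (by rw [h1]; abel)
  · intro h1; exact absurd (Finset.mem_univ _) h1

theorem diag_hit {G : Type*} [AddCommGroup G] [Fintype G] [DecidableEq G] (c : Perm (Fin m) → K)
    (i : Fin m) (h : Fin m → G) (hi : h i = 0) (D : Fin m → G → K) (φ : G → K)
    (hφ : φ = 0 ∨ TL c i) (hdet : (LamD c i h D φ).det ≠ 0) (hcard : (Fintype.card G : K) ≠ 0)
    (y : G → K) (hy : ∑ x, y x = 0) :
    ∃ z : Matrix G G K, Phi c i (fun j => Gm (h j) (D j)) (fun j => Gm (h j) (D j)) z =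
      Matrix.diagonal y := by
  obtain ⟨ζ, hζ⟩ : ∃ ζ : G → K, LamD c i h D φ *ᵥ ζ = y := by
    refine ⟨(LamD c i h D φ)⁻¹ *ᵥ y, ?_⟩
    rw [Matrix.mulVec_mulVec, Matrix.mul_nonsing_inv _ (isUnit_iff_ne_zero.2 hdet),
      Matrix.one_mulVec]
  have hsplit : ∀ x, (Lam c i h (-∑ j, h j) D D *ᵥ ζ) x + ∑ a', φ a' * ζ a' = y x := by
    intro x
    rw [← hζ, LamD, Matrix.add_mulVec]
    rfl
  have hz : ∑ a', φ a' * ζ a' = 0 := by
    rcases hφ with h0 | hT
    · rw [h0]; simp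
    · have h1 : ∑ x, ((Lam c i h (-∑ j, h j) D D *ᵥ ζ) x + ∑ a', φ a' * ζ a') = 0 := by
        rw [← hy]
        exact Finset.sum_congr rfl fun x _ => hsplit x
      rw [Finset.sum_add_distrib] at h1
      have h2 : ∑ x, (Lam c i h (-∑ j, h j) D D *ᵥ ζ) x = 0 := by
        simp only [Matrix.mulVec, dotProduct]
        rw [Finset.sum_comm]
        refine Finset.sum_eq_zero fun a' _ => ?_
        rw [← Finset.sum_mul, col_sum c i h hi D hT a', zero_mul]
      rw [h2, zero_add, Finset.sum_const, Finset.card_univ, nsmul_eq_mul] at h1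
      exact (mul_eq_zero.1 h1).resolve_left hcard
  refine ⟨Gm (-∑ j, h j) ζ, ?_⟩
  rw [Phi_Gm]
  have h1 : Lam c i h (-∑ j, h j) D D *ᵥ ζ = y := by
    funext x
    rw [← hsplit x, hz, add_zero]
  rw [h1, hi, sub_zero, neg_add_cancel]
  ext a b
  rw [Gm_apply, add_zero, Matrix.diagonal_apply]
  by_cases hab : a = b
  · simp [hab]
  · simp [hab, Ne.symm hab]

end ALK
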