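import Pool.Agent.Work.MP_05d08f_al.AS.Defs

set_option autoImplicit false

/-!
# E09: bijective off-diagonal blocks (size M)

Let `g : Fin m → G`, `h : Fin m → H` have pairwise different subset sums off `i`, `c ≠ 0`, `K` infinite. CLAIM: for suitable
`D, D'` the matrix `Pmat c i (Gm (g j) (D j)) (Gm (h j) (D' j))` of the operator `Phi` is invertible.

PROOF. Choose `σ₀` with `c σ₀ ≠ 0` and let `P` be the set of the letters of `wl σ₀ i`. For functions `E, E'` take
`D j = E j` for `j ∈ P`, `D j = 0` otherwise, and `D' j = 0` for `j ∈ P`, `D' j = E' j` otherwise; so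
`Gm (g j) (D j) = if j ∈ P then Gm (g j) (E j) else 0` etc. (`Gm _ 0 = 0`). By `MLI.Phi_sel`
`Phi z a b = gam c i P g h E E' a (b - s') * z (a + s) (b - s')`. So if `gam c i P g h E E' a b ≠ 0` for all `a, b`, every
target matrix is hit, and `det_of_Phi_surj` gives `det ≠ 0`. By `IsPoly.gam` and `exists_common` (variables: the
values of `E` and `E'`) it suffices to find, for each fixed `a, b`, one pair `E, E'` with `gam … a b ≠ 0`.
Fix `a, b`. For `j ∈ wl σ₀ i` let `A_j` be the set of the letters before `j` in the list `wl σ₀ i` and put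
`E j x = 1` if `x = a + ∑_{l ∈ A_j} g l`, and `0` otherwise; similarly `E' j y = 1` if `y = b + ∑_{l ∈ A'_j} h l`,
`A'_j` the set of the letters before `j` in `wr σ₀ i`. `gam … a b` is the sum over the `σ` with `Good P i σ` of
`c σ * (wt g E (wl σ) a * wt h E' (wr σ) b)`. For `σ` with `Good P i σ` the list `wl σ i` is a rearrangement of `wl σ₀ i`, and
`wt g E (wl σ i) a` is `1` if for every `j ∈ wl σ i` the sum of `g` over the letters before `j` in `wl σ i` equals
`∑_{A_j} g`, i.e. (different subset sums; the sets do not contain `i`) if the set of the letters before `j` is the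
same in both lists for all `j`, i.e. if `wl σ i = wl σ₀ i`; otherwise it is `0`. The same for `wr`. So only the `σ` with
`wl σ i = wl σ₀ i`, `wr σ i = wr σ₀ i` contributes, i.e. `σ = σ₀` (`ofFn_split`), and
`gam … a b = c σ₀ ≠ 0`.
-/

namespace ALK

open Equiv MLI Matrix

variable {m : ℕ} {K : Type*} [Field K]

private def Ew {G : Type*} [AddCommGroup G] [DecidableEq G] (K : Type*) [Field K] (g : Fin m → G)
    (F : List (Fin m)) (a : G) (j : Fin m) (x : G) : K :=
  if x = a + sh g (F.take (F.idxOf j)) then 1 else 0

private theorem sh_snoc {G : Type*} [AddCommGroup G] (g : Fin m → G) (p : List (Fin m))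
    (j : Fin m) : sh g (p ++ [j]) = sh g p + g j := by simp [sh]

private theorem take_pre (p : List (Fin m)) (j : Fin m) (L : List (Fin m)) (hj : j ∉ p) :
    (p ++ j :: L).take ((p ++ j :: L).idxOf j) = p := by
  rw [List.idxOf_append_of_notMem hj, List.idxOf_cons_self, add_zero, List.take_left']
  rfl

private theorem wt_Ew_self {G : Type*} [AddCommGroup G] [DecidableEq G] (g : Fin m → G) (a : G)
    (L : List (Fin m)) : ∀ (p : List (Fin m)), (p ++ L).Nodup →
      wt g (Ew K g (p ++ L) a) L (a + sh g p) = 1 := by
  induction L with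
  | nil => intro p _; rfl
  | cons j L ih =>
    intro p hn
    have hj : j ∉ p := by
      intro h
      rw [List.nodup_append] at hn
      exact hn.2.2 j h j (by simp) rfl
    simp only [wt]
    have h1 : Ew K g (p ++ j :: L) a j (a + sh g p) = 1 := by
      unfold Ew
      rw [take_pre p j L hj, if_pos rfl]
    rw [h1, one_mul]
    have h2 := ih (p ++ [j]) (by simpa using hn)
    rw [sh_snoc] at h2
    have e1 : p ++ [j] ++ L = p ++ j :: L := by simp
    rw [e1, ← add_assoc] at h2
    exact h2

private theorem sh_toFinset {G : Type*} [AddCommGroup G] (g : Fin m → G) {l : List (Fin m)}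
    (hl : l.Nodup) : sh g l = ∑ j ∈ l.toFinset, g j :=
  (List.sum_toFinset g hl).symm

private theorem eq_of_wt {G : Type*} [AddCommGroup G] [DecidableEq G] (g : Fin m → G) (a : G)
    (i : Fin m)
    (hg : ∀ A A' : Finset (Fin m), i ∉ A → i ∉ A' → ∑ j ∈ A, g j = ∑ j ∈ A', g j → A = A')
    (l : List (Fin m)) : ∀ (p L : List (Fin m)), (p ++ L).Nodup → (p ++ l).Nodup →
      i ∉ p ++ L → (∀ j, j ∈ l ↔ j ∈ L) →
      wt g (Ew K g (p ++ L) a) l (a + sh g p) ≠ 0 → l = L := by
  induction l with
  | nil =>
    intro p L _ _ _ hm _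
    cases L with
    | nil => rfl
    | cons k L => exact absurd ((hm k).2 (by simp)) (by simp)
  | cons j l ih =>
    intro p L hnL hnl hi hm hw
    simp only [wt] at hw
    have hw1 : Ew K g (p ++ L) a j (a + sh g p) ≠ 0 := left_ne_zero_of_mul hw
    have hw2 := right_ne_zero_of_mul hw
    have hjL : j ∈ L := (hm j).1 (by simp)
    have hjp : j ∉ p := by
      intro h
      rw [List.nodup_append] at hnl
      exact hnl.2.2 j h j (by simp) rfl
    cases L with
    | nil => exact absurd hjL (by simp)
    | cons k L =>
      have hkp : k ∉ p := by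
        intro h
        rw [List.nodup_append] at hnL
        exact hnL.2.2 k h k (by simp) rfl
      have hjk : j = k := by
        by_contra hne
        unfold Ew at hw1
        split_ifs at hw1 with h1
        · have h2 : sh g p = sh g ((p ++ k :: L).take ((p ++ k :: L).idxOf j)) := add_left_cancel h1
          have hp : p.Nodup := (List.nodup_append.1 hnL).1
          have hF : ((p ++ k :: L).take ((p ++ k :: L).idxOf j)).Nodup :=
            hnL.sublist (List.take_sublist _ _)
          rw [sh_toFinset g hp, sh_toFinset g hF] at h2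
          have h3 := hg _ _ (by
            rw [List.mem_toFinset]; intro h; exact hi (List.mem_append_left _ h)) (by
            rw [List.mem_toFinset]; intro h; exact hi (List.mem_of_mem_take h)) h2
          have h4 : (p ++ k :: L).idxOf j = p.length + ((L.idxOf j) + 1) := by
            rw [List.idxOf_append_of_notMem hjp, List.idxOf_cons_ne _ (Ne.symm hne)]
          have h5 : k ∈ (p ++ k :: L).take ((p ++ k :: L).idxOf j) := by
            rw [h4, List.take_length_add_append, List.take_succ_cons]
            simp
          have h6 : k ∈ p.toFinset := by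
            rw [h3, List.mem_toFinset]; exact h5
          exact hkp (List.mem_toFinset.1 h6)
        · exact hw1 rfl
      subst hjk
      have e1 : p ++ [j] ++ L = p ++ j :: L := by simp
      have e2 : p ++ [j] ++ l = p ++ j :: l := by simp
      have hjl : j ∉ l := by
        have := (List.nodup_append.1 hnl).2.1
        exact (List.nodup_cons.1 this).1
      have hjL' : j ∉ L := by
        have := (List.nodup_append.1 hnL).2.1
        exact (List.nodup_cons.1 this).1
      have h7 := ih (p ++ [j]) L (by rw [e1]; exact hnL) (by rw [e2]; exact hnl)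
        (by rw [e1]; exact hi) (by
          intro x
          constructor
          · intro hx
            have := (hm x).1 (List.mem_cons_of_mem _ hx)
            rcases List.mem_cons.1 this with h | h
            · exact absurd (h ▸ hx) hjl
            · exact h
          · intro hx
            have := (hm x).2 (List.mem_cons_of_mem _ hx)
            rcases List.mem_cons.1 this with h | h
            · exact absurd (h ▸ hx) hjL'
            · exact h) (by
          rw [e1, sh_snoc, ← add_assoc]; exact hw2)
      rw [h7]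

theorem exists_bij [Infinite K] {G H : Type*} [AddCommGroup G] [Fintype G] [DecidableEq G]
    [AddCommGroup H] [Fintype H] [DecidableEq H] (c : Perm (Fin m) → K) (hc : c ≠ 0) (i : Fin m)
    (g : Fin m → G) (h : Fin m → H)
    (hg : ∀ A A' : Finset (Fin m), i ∉ A → i ∉ A' → ∑ j ∈ A, g j = ∑ j ∈ A', g j → A = A')
    (hh : ∀ A A' : Finset (Fin m), i ∉ A → i ∉ A' → ∑ j ∈ A, h j = ∑ j ∈ A', h j → A = A') :
    ∃ (D : Fin m → G → K) (D' : Fin m → H → K),
      (Pmat c i (fun j => Gm (g j) (D j)) (fun j => Gm (h j) (D' j))).det ≠ 0 := by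
  classical
  obtain ⟨σ₀, hσ₀⟩ : ∃ σ₀, c σ₀ ≠ 0 := by
    by_contra h0
    push Not at h0
    exact hc (funext h0)
  let P : Finset (Fin m) := (wl σ₀ i).toFinset
  have hP : ∀ j, j ∈ P ↔ j ∈ wl σ₀ i := fun j => List.mem_toFinset
  have hG₀ : Good P i σ₀ :=
    ⟨fun j hj => (hP j).2 hj, fun j hj h => wl_wr_disjoint σ₀ i j ((hP j).1 h) hj⟩
  -- the words of the good permutations
  have hwl : ∀ σ, Good P i σ → ∀ j, j ∈ wl σ i ↔ j ∈ wl σ₀ i := by
    intro σ hσ j
    constructor
    · intro hj; exact (hP j).1 (hσ.1 j hj)
    · intro hj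
      have hji : j ≠ i := fun h => not_mem_wl σ₀ i (h ▸ hj)
      rcases mem_wl_or_wr σ i j hji with h | h
      · exact h
      · exact absurd ((hP j).2 hj) (hσ.2 j h)
  have hwr : ∀ σ, Good P i σ → ∀ j, j ∈ wr σ i ↔ j ∈ wr σ₀ i := by
    intro σ hσ j
    constructor
    · intro hj
      have hji : j ≠ i := fun h => not_mem_wr σ i (h ▸ hj)
      rcases mem_wl_or_wr σ₀ i j hji with h | h
      · exact absurd ((hP j).2 h) (hσ.2 j hj)
      · exact h
    · intro hj
      have hji : j ≠ i := fun h => not_mem_wr σ₀ i (h ▸ hj)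
      rcases mem_wl_or_wr σ i j hji with h | h
      · exact absurd ((hP j).1 (hσ.1 j h)) (fun h' => wl_wr_disjoint σ₀ i j h' hj)
      · exact h
  -- one point for each coefficient
  have hpt : ∀ a b, gam c i P g h (Ew K g (wl σ₀ i) a) (Ew K h (wr σ₀ i) b) a b ≠ 0 := by
    intro a b
    unfold gam
    rw [Finset.sum_eq_single σ₀]
    · rw [if_pos hG₀]
      have h1 := wt_Ew_self (K := K) g a (wl σ₀ i) [] (by simpa using nodup_wl σ₀ i)
      have h2 := wt_Ew_self (K := K) h b (wr σ₀ i) [] (by simpa using nodup_wr σ₀ i)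
      simp only [List.nil_append, sh, List.map_nil, List.sum_nil, add_zero] at h1 h2
      have h1' : wt g (Ew K g (wl σ₀ i) a) (wl σ₀ i) a = 1 := h1
      have h2' : wt h (Ew K h (wr σ₀ i) b) (wr σ₀ i) b = 1 := h2
      rw [h1', h2', mul_one, mul_one]
      exact hσ₀
    · intro σ _ hne
      by_cases hσ : Good P i σ
      · rw [if_pos hσ]
        by_contra hcon
        have h1 := right_ne_zero_of_mul hcon
        have h2 := left_ne_zero_of_mul h1
        have h3 := right_ne_zero_of_mul h1
        have e1 : wl σ i = wl σ₀ i := by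
          refine eq_of_wt (K := K) g a i hg (wl σ i) [] (wl σ₀ i) (by simpa using nodup_wl σ₀ i)
            (by simpa using nodup_wl σ i) (by simpa using not_mem_wl σ₀ i) (hwl σ hσ) ?_
          simpa [sh] using h2
        have e2 : wr σ i = wr σ₀ i := by
          refine eq_of_wt (K := K) h b i hh (wr σ i) [] (wr σ₀ i) (by simpa using nodup_wr σ₀ i)
            (by simpa using nodup_wr σ i) (by simpa using not_mem_wr σ₀ i) (hwr σ hσ) ?_
          simpa [sh] using h3
        apply hne
        have h4 : (List.ofFn fun k => σ k) = List.ofFn fun k => σ₀ k := by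
          rw [ofFn_split σ i, ofFn_split σ₀ i, e1, e2]
        exact Equiv.ext fun k => congrFun (List.ofFn_injective h4) k
      · rw [if_neg hσ]
    · intro h1; exact absurd (Finset.mem_univ _) h1
  -- a common point
  obtain ⟨x, hx⟩ := exists_common (J := (Fin m × G) ⊕ (Fin m × H)) (Finset.univ : Finset (G × H))
    (P := fun q x => gam c i P g h (fun j a => x (Sum.inl (j, a))) (fun j b => x (Sum.inr (j, b))) q.1 q.2)
    (fun q _ => IsPoly.gam c i P g h (fun j a => IsPoly.coord _) (fun j b => IsPoly.coord _) q.1 q.2)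
    (fun q _ => ⟨fun y => match y with
      | Sum.inl (j, a) => Ew K g (wl σ₀ i) q.1 j a
      | Sum.inr (j, b) => Ew K h (wr σ₀ i) q.2 j b, hpt q.1 q.2⟩)
  let E : Fin m → G → K := fun j a => x (Sum.inl (j, a))
  let E' : Fin m → H → K := fun j b => x (Sum.inr (j, b))
  have hE : ∀ a b, gam c i P g h E E' a b ≠ 0 := fun a b => hx (a, b) (Finset.mem_univ _)
  refine ⟨fun j => if j ∈ P then E j else 0, fun j => if j ∈ P then 0 else E' j, ?_⟩
  have e1 : (fun j => Gm (g j) (if j ∈ P then E j else 0)) =
      fun j => if j ∈ P then Gm (g j) (E j) else 0 := by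
    funext j
    by_cases hj : j ∈ P
    · simp only [if_pos hj]
    · simp only [if_neg hj]
      ext a b
      simp [Gm_apply]
  have e2 : (fun j => Gm (h j) (if j ∈ P then 0 else E' j)) =
      fun j => if j ∈ P then 0 else Gm (h j) (E' j) := by
    funext j
    by_cases hj : j ∈ P
    · simp only [if_pos hj]
      ext a b
      simp [Gm_apply]
    · simp only [if_neg hj]
  rw [e1, e2]
  apply det_of_Phi_surj
  intro w
  refine ⟨Matrix.of fun a b => (gam c i P g h E E' (a - ∑ j ∈ P.erase i, g j) b)⁻¹ *
    w (a - ∑ j ∈ P.erase i, g j) (b + ∑ j ∈ (Pᶜ).erase i, h j), ?_⟩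
  ext a b
  rw [Phi_sel, Matrix.of_apply, add_sub_cancel_right, sub_add_cancel, mul_inv_cancel_left₀ (hE _ _)]

end ALK
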