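import Pool.Agent.Work.MP_05d08f_al.AS.E08
import Pool.Agent.Work.MP_05d08f_al.AS.E09

set_option autoImplicit false

/-!
# E10: matrices with diagonal trace zero diagonal blocks are values (size M)

PROOF (compare `MLI.zero_blocks`). Variables: `w : (Σ b, Fin m × (d b).G) → K`; put `D_w b j x = w ⟨b, (j, x)⟩` and
`X_w j b = Gm ((d b).h j) (D_w b j)`. Consider the finite family of polynomial functions of `w`
(`exists_common`, index set `β × β`): for `(b, b')` with `b ≠ b'` the determinant of
`Pmat c i (X_w · b) (X_w · b')` (`IsPoly.Pmat`; the entries of `Gm` are coordinates or `0`), not identically zero by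
`exists_bij` (the variables of `b` and `b'` are disjoint, so the values of `D, D'` of `exists_bij` can be
prescribed independently; the subset sum condition is `Dat.hsub`); for `b = b'` the determinant of
`LamD c i (d b).h (D_w b) φ_b` (`IsPoly.det`, entries as in `IsPoly.Lam_det` plus the constant `φ_b`), not
identically zero by hypothesis. Take `w` where none vanishes. By `MLI.hit_of_blocks` it suffices to solve
`Phi c i (X · p) (X · q) z = A_{pq}` for all `p, q`: for `p ≠ q` by `Phi_surj_of_det`, for `p = q` by `diag_hit`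
(`Dat.hi`; the block is `diagonal y`).
-/

namespace ALK

open Equiv MLI Matrix

variable {m : ℕ} {K : Type*} [Field K]

theorem hit_diag [Infinite K] (c : Perm (Fin m) → K) (hc : c ≠ 0) (i : Fin m) {β : Type}
    [Fintype β] [DecidableEq β] (d : β → Dat m i)
    (hd : ∀ b, (Fintype.card (d b).G : K) ≠ 0 ∧ ∃ (D : Fin m → (d b).G → K) (φ : (d b).G → K),
      (φ = 0 ∨ TL c i) ∧ (LamD c i (d b).h D φ).det ≠ 0)
    (A : Matrix (Σ b, (d b).G) (Σ b, (d b).G) K)
    (hA : ∀ b, ∃ y : (d b).G → K, ∑ x, y x = 0 ∧
      ∀ x x', A ⟨b, x⟩ ⟨b, x'⟩ = if x = x' then y x else 0) :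
    ∃ a : Fin m → Matrix (Σ b, (d b).G) (Σ b, (d b).G) K, ev c a = A := by
  have hcard : ∀ b, (Fintype.card (d b).G : K) ≠ 0 := fun b => (hd b).1
  choose D0 φ hφ hdet using fun b => (hd b).2
  let J : Type := Σ b : β, Fin m × (d b).G
  let Dw : (J → K) → ∀ b, Fin m → (d b).G → K := fun w b j x => w ⟨b, (j, x)⟩
  have hDw : ∀ b j x, IsPoly (fun w : J → K => Dw w b j x) := fun b j x => IsPoly.coord _
  obtain ⟨w, hw⟩ := exists_common (J := J) (K := K) (ι := β × β) Finset.univ
    (P := fun t w => if t.1 = t.2 then (LamD c i (d t.1).h (Dw w t.1) (φ t.1)).det else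
      (Pmat c i (fun j => Gm ((d t.1).h j) (Dw w t.1 j))
        (fun j => Gm ((d t.2).h j) (Dw w t.2 j))).det) (by
      intro t _
      refine MLI.IsPoly.ite _ ?_ ?_
      · refine MLI.IsPoly.det fun a a' => ?_
        simp only [LamD, Lam, Matrix.add_apply, Matrix.of_apply]
        refine MLI.IsPoly.add (MLI.IsPoly.sum _ fun σ _ => MLI.IsPoly.ite _
          ((MLI.IsPoly.const _).mul ((IsPoly.wt _ (hDw t.1) _ _).mul (IsPoly.wt _ (hDw t.1) _ _)))
          (MLI.IsPoly.const _)) (MLI.IsPoly.const _)
      · refine IsPoly.Pmat c i (X := fun w j => Gm ((d t.1).h j) (Dw w t.1 j))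
          (Y := fun w j => Gm ((d t.2).h j) (Dw w t.2 j)) (fun j a b => ?_) (fun j a b => ?_)
        · simp only [Gm_apply]
          exact MLI.IsPoly.ite _ (hDw _ _ _) (MLI.IsPoly.const _)
        · simp only [Gm_apply]
          exact MLI.IsPoly.ite _ (hDw _ _ _) (MLI.IsPoly.const _)) (by
      rintro ⟨p, q⟩ _
      by_cases hpq : p = q
      · refine ⟨fun t => D0 t.1 t.2.1 t.2.2, ?_⟩
        simp only [if_pos hpq]
        exact hdet p
      · obtain ⟨E, E', hE⟩ := exists_bij c hc i (d p).h (d q).h (d p).hsub (d q).hsub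
        let F : ∀ b, Fin m → (d b).G → K :=
          Function.update (Function.update (fun _ _ _ => 0) q E') p E
        have hFp : F p = E := Function.update_self _ _ _
        have hFq : F q = E' := by
          have h1 : F q = Function.update (fun b => (fun _ _ => 0 : Fin m → (d b).G → K)) q E' q :=
            Function.update_of_ne (fun h => hpq h.symm) _ _
          rw [h1, Function.update_self]
        refine ⟨fun t => F t.1 t.2.1 t.2.2, ?_⟩
        simp only [if_neg hpq]
        have h2 : Dw (fun t => F t.1 t.2.1 t.2.2) p = E := hFp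
        have h3 : Dw (fun t => F t.1 t.2.1 t.2.2) q = E' := hFq
        rw [h2, h3]
        exact hE)
  refine hit_of_blocks (s := fun b : β => (d b).G) c i
    (fun j b => Gm ((d b).h j) (Dw w b j)) A fun p q => ?_
  by_cases hpq : p = q
  · subst hpq
    have h1 := hw (p, p) (Finset.mem_univ _)
    simp only [if_true] at h1
    obtain ⟨y, hy, hAy⟩ := hA p
    obtain ⟨z, hz⟩ := diag_hit c i (d p).h (d p).hi (Dw w p) (φ p) (hφ p) h1 (hcard p) y hy
    refine ⟨z, hz.trans ?_⟩
    ext x x'
    rw [Matrix.diagonal_apply, Matrix.of_apply, hAy]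
  · have h1 := hw (p, q) (Finset.mem_univ _)
    simp only [if_neg hpq] at h1
    exact Phi_surj_of_det c i _ _ h1 _

end ALK
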