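import Pool.Agent.Work.MP_05d08f_al.AS.A01

set_option autoImplicit false

/-!
# F01: values and similarity (size S)

`Sim.value`: if `Sim B A` (`P * Q = 1`, `Q * P = 1`, `Q * B * P = A`) and `ev c a = A` then
`a' j = P * a j * Q` satisfies `ev c a' = P * A * Q = B`: the product of `P * x_k * Q` over a list is
`P * (∏ x_k) * Q` because `Q * P = 1` (for the empty list because `P * Q = 1`); compare `MLI.ev_conj`.

`zb_value`: let `ZB r A`, `c ≠ 0`, `0 < m`, `m < 4 * r`, `K` infinite. Then `A` is a value: take the witnesses `A'`, `κ`;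
`MLI.phi_of_hyp` gives `i, X, Y, z` with `Phi c i X Y z ≠ 0`, and `MLI.zero_blocks` with the class function
`x ↦ ⟨κ x, _⟩ : ι → Set.range κ` (see the proof of the second part of
`Pool.Agent.Results.MP_05d08f_al.CyclicSmallDegree.result`) shows that `A'` is a value; then `Sim.value`.

`exists_rep`: for coprime `a, b ≥ 1` every `n ≥ a * b` is `x * a + y * b` with `x, y : ℕ`.
-/

namespace ALK

open Matrix Equiv MLI

variable {K : Type*} [Field K] {m : ℕ} {ι κ : Type*} [Fintype ι] [DecidableEq ι] [Fintype κ]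
  [DecidableEq κ]

theorem Sim.value (c : Perm (Fin m) → K) {B : Matrix ι ι K} {A : Matrix κ κ K} (h : Sim B A)
    (hA : ∃ a : Fin m → Matrix κ κ K, ev c a = A) : ∃ a : Fin m → Matrix ι ι K, ev c a = B := by
  obtain ⟨P, Q, h1, h2, h3⟩ := h
  obtain ⟨a, ha⟩ := hA
  refine ⟨fun j => P * a j * Q, ?_⟩
  have key : ∀ l : List (Matrix κ κ K), (l.map fun x => P * x * Q).prod = P * l.prod * Q := by
    intro l
    induction l with
    | nil => simp [h1]
    | cons x l ih =>
      rw [List.map_cons, List.prod_cons, ih, List.prod_cons]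
      calc P * x * Q * (P * l.prod * Q) = P * x * (Q * P) * l.prod * Q := by
            simp only [Matrix.mul_assoc]
        _ = P * (x * l.prod) * Q := by rw [h2, Matrix.mul_one]; simp only [Matrix.mul_assoc]
  have h4 : ev c (fun j => P * a j * Q) = P * ev c a * Q := by
    unfold ev
    rw [Matrix.mul_sum, Matrix.sum_mul]
    refine Finset.sum_congr rfl fun σ _ => ?_
    rw [Matrix.mul_smul, Matrix.smul_mul]
    congr 1
    have h5 : (List.ofFn fun k => P * a (σ k) * Q) =
        (List.ofFn fun k => a (σ k)).map fun x => P * x * Q := by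
      rw [List.map_ofFn]
      rfl
    rw [h5, key]
  rw [h4, ha, ← h3]
  calc P * (Q * B * P) * Q = (P * Q) * B * (P * Q) := by simp only [Matrix.mul_assoc]
    _ = B := by rw [h1, Matrix.one_mul, Matrix.mul_one]

theorem zb_value [Infinite K] {r : ℕ} (hm : 0 < m) (hmr : m < 4 * r) (c : Perm (Fin m) → K)
    (hc : c ≠ 0) {A : Matrix ι ι K} (h : ZB r A) : ∃ a : Fin m → Matrix ι ι K, ev c a = A := by
  classical
  obtain ⟨A', κ', hS, h1, h2⟩ := h
  refine Sim.value c hS ?_
  obtain ⟨i, X, Y, z, hz⟩ := MLI.phi_of_hyp (r := r) hm c (Or.inl ⟨hc, hmr⟩)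
  refine MLI.zero_blocks c i X Y z hz (B := Set.range κ') (fun x => ⟨κ' x, x, rfl⟩) ?_ _ ?_
  · rintro ⟨b, x, rfl⟩
    exact le_of_le_of_eq (h1 x)
      (Fintype.card_congr (Equiv.subtypeEquivRight fun y => (Subtype.mk_eq_mk).symm))
  · intro x y hxy
    exact h2 x y (congrArg Subtype.val hxy)

theorem exists_rep {a b n : ℕ} (ha : 1 ≤ a) (hb : 1 ≤ b) (hab : Nat.Coprime a b)
    (hn : a * b ≤ n) : ∃ x y : ℕ, n = x * a + y * b := by
  have h1 := (Nat.chineseRemainder hab 0 n).2
  have h2 := Nat.chineseRemainder_lt_mul hab 0 n (by omega) (by omega)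
  generalize ((Nat.chineseRemainder hab 0 n : {k // k ≡ 0 [MOD a] ∧ k ≡ n [MOD b]}) : ℕ) = k
    at h1 h2
  obtain ⟨x, hx⟩ := (Nat.modEq_zero_iff_dvd.1 h1.1)
  obtain ⟨y, hy⟩ := (Nat.modEq_iff_dvd' (by omega)).1 h1.2
  refine ⟨x, y, ?_⟩
  rw [mul_comm x a, ← hx, mul_comm y b, ← hy]
  omega

end ALK
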