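import Pool.Agent.Work.MP_05d08f_al.AS.A14
import Pool.Agent.Work.MP_05d08f_al.AS.A16
import Pool.Agent.Work.MP_05d08f_al.AS.A18
import Pool.Agent.Work.MP_05d08f_al.AS.E07
import Pool.Agent.Work.MP_05d08f_al.AS.E10
import Pool.Agent.Work.MP_05d08f_al.AS.F01

set_option autoImplicit false

/-!
# Main: assembly of the asymptotic theorem
-/

namespace ALK

open Matrix Equiv MLI

/-- Scalar plus small rank. -/
theorem low_value {m : ℕ} {i : Fin m} {K : Type} [Field K] [Infinite K] (c : Perm (Fin m) → K)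
    (hc : c ≠ 0) (d₁ d₂ : Dat m i) (σ : ℕ)
    (h₁ : (Fintype.card d₁.G : K) ≠ 0 ∧ ∃ (D : Fin m → d₁.G → K) (φ : d₁.G → K),
      (φ = 0 ∨ TL c i) ∧ (LamD c i d₁.h D φ).det ≠ 0)
    (h₂ : (Fintype.card d₂.G : K) ≠ 0 ∧ ∃ (D : Fin m → d₂.G → K) (φ : d₂.G → K),
      (φ = 0 ∨ TL c i) ∧ (LamD c i d₂.h D φ).det ≠ 0)
    (hcop : Nat.Coprime (Fintype.card d₁.G) (Fintype.card d₂.G)) (n : ℕ)
    (hn : Fintype.card d₁.G * Fintype.card d₂.G ≤ n)
    (hn' : (2 * σ + 1) * (Fintype.card d₁.G + Fintype.card d₂.G) ≤ n)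
    (B : Matrix (Fin n) (Fin n) K) (t : K) (htr : B.trace = 0)
    (hrank : (B - t • (1 : Matrix (Fin n) (Fin n) K)).rank ≤ σ)
    (hne : B ≠ t • (1 : Matrix (Fin n) (Fin n) K)) :
    ∃ a : Fin m → Matrix (Fin n) (Fin n) K, ev c a = B := by
  obtain ⟨x, y, hxy⟩ := exists_rep (a := Fintype.card d₁.G) (b := Fintype.card d₂.G)
    Fintype.card_pos Fintype.card_pos hcop hn
  let d : Fin x ⊕ Fin y → Dat m i := Sum.elim (fun _ => d₁) (fun _ => d₂)
  have hcard : Fintype.card (Fin n) = ∑ b, Fintype.card (d b).G := by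
    have e1 : ∑ b : Fin x, Fintype.card (d (Sum.inl b)).G = x * Fintype.card d₁.G := by
      rw [show (fun b : Fin x => Fintype.card (d (Sum.inl b)).G) = fun _ => Fintype.card d₁.G
        from rfl, Finset.sum_const, Finset.card_univ, Fintype.card_fin, smul_eq_mul]
    have e2 : ∑ b : Fin y, Fintype.card (d (Sum.inr b)).G = y * Fintype.card d₂.G := by
      rw [show (fun b : Fin y => Fintype.card (d (Sum.inr b)).G) = fun _ => Fintype.card d₂.G
        from rfl, Finset.sum_const, Finset.card_univ, Fintype.card_fin, smul_eq_mul]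
    rw [Fintype.card_fin, Fintype.sum_sum_type, e1, e2]
    exact hxy
  have hβ : 2 * σ + 1 ≤ Fintype.card (Fin x ⊕ Fin y) := by
    rw [Fintype.card_sum, Fintype.card_fin, Fintype.card_fin]
    by_contra hlt
    push Not at hlt
    have h1 : n < (2 * σ + 1) * (Fintype.card d₁.G + Fintype.card d₂.G) := by
      have hp1 : 0 < Fintype.card d₁.G := Fintype.card_pos
      calc n = x * Fintype.card d₁.G + y * Fintype.card d₂.G := hxy
        _ ≤ (x + y) * (Fintype.card d₁.G + Fintype.card d₂.G) := by nlinarith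
        _ < (2 * σ + 1) * (Fintype.card d₁.G + Fintype.card d₂.G) := by
            apply Nat.mul_lt_mul_of_pos_right hlt
            omega
    omega
  obtain ⟨A, hBA, hA⟩ := scalar_low (fun b => (d b).G) B t σ hrank hne htr hcard hβ
  refine Sim.value c hBA (hit_diag c hc i d ?_ A hA)
  rintro (b | b)
  · exact h₁
  · exact h₂

theorem card_G {m : ℕ} {i : Fin m} (d : Dat m i) : Fintype.card d.G = ∏ u, d.p u := by
  rw [Fintype.card_pi]
  exact Finset.prod_congr rfl fun u _ => ZMod.card _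

theorem coprime_card {m : ℕ} {i : Fin m} (d₁ d₂ : Dat m i)
    (h : ∀ u, Fintype.card d₁.G < d₂.p u) :
    Nat.Coprime (Fintype.card d₁.G) (Fintype.card d₂.G) := by
  rw [card_G d₂]
  refine Nat.Coprime.prod_right fun u _ => ?_
  refine Nat.Coprime.symm ((Nat.Prime.coprime_iff_not_dvd (d₂.hp u)).2 fun hd => ?_)
  exact absurd (Nat.le_of_dvd Fintype.card_pos hd) (not_le.2 (h u))

theorem main (m : ℕ) (hm : 0 < m) : ∃ N P : ℕ, ∀ (K : Type) [Field K] [Infinite K],
    (∀ q : ℕ, 0 < q → q ≤ P → (q : K) ≠ 0) →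
    ∀ c : Perm (Fin m) → K, c ≠ 0 → ∀ n : ℕ, N ≤ n → ∀ B : Matrix (Fin n) (Fin n) K,
      B.trace = 0 → ((n : K) ≠ 0 ∨ B = 0 ∨ ∀ t : K, B ≠ t • (1 : Matrix (Fin n) (Fin n) K)) →
      ∃ a : Fin m → Matrix (Fin n) (Fin n) K, ev c a = B := by
  classical
  let i : Fin m := ⟨0, hm⟩
  obtain ⟨L₁, N₁, hN₁, hL₁, hU₁⟩ := uniform_data m i 0
  let M₁ : ℕ := (L₁.map fun d => Fintype.card d.G).sum
  have hM₁ : ∀ d ∈ L₁, Fintype.card d.G ≤ M₁ := fun d hd =>
    List.single_le_sum (by simp) _ (List.mem_map_of_mem hd)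
  obtain ⟨L₂, N₂, hN₂, hL₂, hU₂⟩ := uniform_data m i M₁
  let M₂ : ℕ := (L₂.map fun d => Fintype.card d.G).sum
  have hM₂ : ∀ d ∈ L₂, Fintype.card d.G ≤ M₂ := fun d hd =>
    List.single_le_sum (by simp) _ (List.mem_map_of_mem hd)
  refine ⟨(2 * sig m + 1) * (m + 1) + M₁ * M₂ + (2 * sig m + 1) * (M₁ + M₂),
    N₁ + N₂ + M₁ + M₂, ?_⟩
  intro K _ _ hK c hc n hn B htr hB
  -- reduce the last hypothesis
  have hB' : B = 0 ∨ ∀ t : K, B ≠ t • (1 : Matrix (Fin n) (Fin n) K) := by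
    rcases hB with h | h | h
    · by_cases h0 : ∃ t : K, B = t • (1 : Matrix (Fin n) (Fin n) K)
      · obtain ⟨t, ht⟩ := h0
        rw [ht, Matrix.trace_smul, Matrix.trace_one, Fintype.card_fin, smul_eq_mul,
          mul_eq_zero] at htr
        rcases htr with h1 | h1
        · left; rw [ht, h1, zero_smul]
        · exact absurd h1 h
      · right
        push Not at h0
        exact h0
    · exact Or.inl h
    · exact Or.inr h
  rcases hB' with rfl | hB'
  · refine zb_value hm (show m < 4 * m by omega) c hc (ZB.zero ?_)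
    rw [Fintype.card_fin]
    have : m + 1 ≤ (2 * sig m + 1) * (m + 1) := Nat.le_mul_of_pos_left _ (by omega)
    omega
  by_cases hfar : ∀ μ : K, sig m ≤ (B - μ • (1 : Matrix (Fin n) (Fin n) K)).rank
  · exact zb_value hm (by omega) c hc (la_main hm B htr hfar)
  push Not at hfar
  obtain ⟨t, ht⟩ := hfar
  by_cases ht0 : t = 0
  · subst ht0
    rw [zero_smul, sub_zero] at ht
    exact zb_value hm (show m < 4 * m by omega) c hc
      (low_zb (r := m) (ρ := sig m) B htr ht.le (by rw [Fintype.card_fin]; omega))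
  · obtain ⟨d₁, hd₁, h₁⟩ := hU₁ K (hK N₁ (Nat.pos_of_ne_zero hN₁) (by omega)) c hc
    obtain ⟨d₂, hd₂, h₂⟩ := hU₂ K (hK N₂ (Nat.pos_of_ne_zero hN₂) (by omega)) c hc
    have hc1 := hM₁ d₁ hd₁
    have hc2 := hM₂ d₂ hd₂
    refine low_value c hc d₁ d₂ (sig m) ⟨hK _ Fintype.card_pos (by omega), h₁⟩
      ⟨hK _ Fintype.card_pos (by omega), h₂⟩
      (coprime_card d₁ d₂ fun u => lt_of_le_of_lt hc1 (hL₂ d₂ hd₂ u)) n ?_ ?_ B t htr ht.le
      (hB' t)
    · have : Fintype.card d₁.G * Fintype.card d₂.G ≤ M₁ * M₂ := Nat.mul_le_mul hc1 hc2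
      omega
    · have : (2 * sig m + 1) * (Fintype.card d₁.G + Fintype.card d₂.G) ≤
          (2 * sig m + 1) * (M₁ + M₂) := Nat.mul_le_mul_left _ (by omega)
      omega

end ALK
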