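import Pool.Agent.Work.MP_05d08f_al.AS.Defs
import Pool.Agent.Work.MP_05d08f_al.AS.N01
import Pool.Agent.Work.MP_05d08f_al.AS.N02

set_option autoImplicit false

/-!
# N04: generic integers (size M)

CLAIM: there are `h, ω : ι → ℤ` with `h i = 0` such that
(i) different sets `A, A'` of letters, `i ∉ A, A'`, have different sums `∑_A h`, `∑_{A'} h`;
(ii) `alp i (B σ) h ω ≠ alp i (B τ) h ω` whenever `B σ, B τ` differ off `i`;
(iii) `alp i v h ω * bet i v' h ≠ alp i v' h ω * bet i v h` for all differences `v = B σ - B τ`,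
`v' = B σ' - B τ'` with `NzI i v`, `NzI i v'`, `NzO i v`, `v' ≠ v`, `v' ≠ -v`.

PROOF. Let `J = ι ⊕ ι` and for `x : J → ℤ` let `h_x a = if a = i then 0 else x (inl a)`, `ω_x j = x (inr j)`.
The (finitely many) functions of `x` given by the differences of the two sides in (i), (ii), (iii) are
polynomial (`IsP`), and none of them is identically zero:
(i) there is `a` in exactly one of `A, A'`; take `h = e_a` (the indicator function of `a`).
(ii) if `B σ a j ≠ B τ a j`, `a, j ≠ i`, take `h = e_a`, `ω = e_j`: `alp i (B σ) h ω = B σ a j`.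
(iii) if it vanished identically, then `par` (note `Dif (B σ - B τ)` for two `Tour`s) would give
`v' = ± v`.
Conclude with `IsP.common` over `ℤ` (index set: the disjoint union of the three finite index sets; where
the side conditions fail use the constant function `1`).
-/

namespace ALK

variable {ι : Type*} [Fintype ι] [DecidableEq ι]

theorem Tour.dif {B B' : ι → ι → ℤ} (hB : Tour B) (hB' : Tour B') : Dif (B - B') where
  diag a := by simp [hB.diag, hB'.diag]
  ent a j := by
    simp only [Pi.sub_apply]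
    rcases hB.zo a j with h | h <;> rcases hB'.zo a j with h' | h' <;> simp [h, h']
  anti a j := by
    simp only [Pi.sub_apply]
    by_cases haj : a = j
    · subst haj
      simp [hB.diag, hB'.diag]
    · have h1 := hB.anti a j haj
      have h2 := hB'.anti a j haj
      omega

private theorem isP_bet {J : Type*} (i : ι) (v : ι → ι → ℤ) {H : (J → ℤ) → ι → ℤ}
    (hH : ∀ a, IsP (fun x => H x a)) : IsP (fun x => bet i v (H x)) := by
  unfold bet
  exact IsP.sum _ fun a _ => (IsP.const _).mul (hH a)

private theorem isP_alp {J : Type*} (i : ι) (v : ι → ι → ℤ) {H W : (J → ℤ) → ι → ℤ}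
    (hH : ∀ a, IsP (fun x => H x a)) (hW : ∀ a, IsP (fun x => W x a)) :
    IsP (fun x => alp i v (H x) (W x)) := by
  unfold alp
  exact IsP.sum _ fun j _ => IsP.sum _ fun a _ => ((IsP.const _).mul (hH a)).mul (hW j)

private theorem alp_single (i : ι) (v : ι → ι → ℤ) (a j : ι) (hj : j ≠ i) :
    alp i v (Pi.single a (1 : ℤ)) (Pi.single j (1 : ℤ)) = v a j := by
  unfold alp
  rw [Finset.sum_eq_single j]
  · rw [Finset.sum_eq_single a]
    · simp
    · intro b _ hb
      simp [Pi.single_eq_of_ne hb]
    · intro h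
      exact absurd (Finset.mem_univ _) h
  · intro b _ hb
    refine Finset.sum_eq_zero fun a _ => ?_
    simp [Pi.single_eq_of_ne hb]
  · intro h
    exact absurd (Finset.mem_erase.2 ⟨hj, Finset.mem_univ _⟩) h

theorem int_last {S : Type*} [Fintype S] (i : ι) (B : S → ι → ι → ℤ) (hB : ∀ σ, Tour (B σ)) :
    ∃ h ω : ι → ℤ, h i = 0 ∧
      (∀ A A' : Finset ι, i ∉ A → i ∉ A' → A ≠ A' → ∑ j ∈ A, h j ≠ ∑ j ∈ A', h j) ∧
      (∀ σ τ, (∃ a j, a ≠ i ∧ j ≠ i ∧ B σ a j ≠ B τ a j) →
        alp i (B σ) h ω ≠ alp i (B τ) h ω) ∧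
      (∀ σ τ σ' τ', NzI i (B σ - B τ) → NzI i (B σ' - B τ') → NzO i (B σ - B τ) →
        B σ' - B τ' ≠ B σ - B τ → B σ' - B τ' ≠ -(B σ - B τ) →
        alp i (B σ - B τ) h ω * bet i (B σ' - B τ') h ≠
          alp i (B σ' - B τ') h ω * bet i (B σ - B τ) h) := by
  classical
  set H : (ι ⊕ ι → ℤ) → ι → ℤ := fun x a => if a = i then 0 else x (Sum.inl a) with hHdef
  set W : (ι ⊕ ι → ℤ) → ι → ℤ := fun x a => x (Sum.inr a) with hWdef
  have hH : ∀ a, IsP (fun x => H x a) := by
    intro a
    by_cases ha : a = i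
    · have : (fun x => H x a) = fun _ => 0 := by
        funext x
        simp [hHdef, ha]
      rw [this]
      exact IsP.const 0
    · have : (fun x => H x a) = fun x => x (Sum.inl a) := by
        funext x
        simp [hHdef, ha]
      rw [this]
      exact IsP.coord _
  have hW : ∀ a, IsP (fun x => W x a) := fun a => IsP.coord (Sum.inr a)
  have hHi : ∀ x, H x i = 0 := by
    intro x
    simp [hHdef]
  have hsurj : ∀ h ω : ι → ℤ, h i = 0 → H (Sum.elim h ω) = h ∧ W (Sum.elim h ω) = ω := by
    intro h ω hi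
    constructor
    · funext a
      by_cases ha : a = i
      · simp [hHdef, ha, hi]
      · simp [hHdef, ha]
    · funext a
      simp [hWdef]
  set C1 : Finset ι × Finset ι → Prop := fun p => i ∉ p.1 ∧ i ∉ p.2 ∧ p.1 ≠ p.2 with hC1
  set C2 : S × S → Prop := fun p => ∃ a j, a ≠ i ∧ j ≠ i ∧ B p.1 a j ≠ B p.2 a j with hC2
  set C3 : S × S × S × S → Prop := fun p => NzI i (B p.1 - B p.2.1) ∧ NzI i (B p.2.2.1 - B p.2.2.2) ∧
    NzO i (B p.1 - B p.2.1) ∧ B p.2.2.1 - B p.2.2.2 ≠ B p.1 - B p.2.1 ∧
    B p.2.2.1 - B p.2.2.2 ≠ -(B p.1 - B p.2.1) with hC3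
  set P1 : Finset ι × Finset ι → (ι ⊕ ι → ℤ) → ℤ := fun p x =>
    if C1 p then ∑ j ∈ p.1, H x j - ∑ j ∈ p.2, H x j else 1 with hP1
  set P2 : S × S → (ι ⊕ ι → ℤ) → ℤ := fun p x =>
    if C2 p then alp i (B p.1) (H x) (W x) - alp i (B p.2) (H x) (W x) else 1 with hP2
  set P3 : S × S × S × S → (ι ⊕ ι → ℤ) → ℤ := fun p x =>
    if C3 p then alp i (B p.1 - B p.2.1) (H x) (W x) * bet i (B p.2.2.1 - B p.2.2.2) (H x) -
      alp i (B p.2.2.1 - B p.2.2.2) (H x) (W x) * bet i (B p.1 - B p.2.1) (H x) else 1 with hP3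
  have key : ∃ x, ∀ k ∈ (Finset.univ : Finset ((Finset ι × Finset ι) ⊕ ((S × S) ⊕ (S × S × S × S)))),
      Sum.elim P1 (Sum.elim P2 P3) k x ≠ 0 := by
    refine IsP.common _ ?_ ?_
    · rintro (p | (p | p)) -
      · show IsP (P1 p)
        by_cases hc : C1 p
        · have : P1 p = fun x => ∑ j ∈ p.1, H x j - ∑ j ∈ p.2, H x j := by
            funext x
            simp only [hP1, if_pos hc]
          rw [this]
          exact (IsP.sum _ fun j _ => hH j).sub (IsP.sum _ fun j _ => hH j)
        · have : P1 p = fun x => 1 := by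
            funext x
            simp only [hP1, if_neg hc]
          rw [this]
          exact IsP.const 1
      · show IsP (P2 p)
        by_cases hc : C2 p
        · have : P2 p = fun x => alp i (B p.1) (H x) (W x) - alp i (B p.2) (H x) (W x) := by
            funext x
            simp only [hP2, if_pos hc]
          rw [this]
          exact (isP_alp i _ hH hW).sub (isP_alp i _ hH hW)
        · have : P2 p = fun x => 1 := by
            funext x
            simp only [hP2, if_neg hc]
          rw [this]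
          exact IsP.const 1
      · show IsP (P3 p)
        by_cases hc : C3 p
        · have : P3 p = fun x => alp i (B p.1 - B p.2.1) (H x) (W x) *
              bet i (B p.2.2.1 - B p.2.2.2) (H x) -
              alp i (B p.2.2.1 - B p.2.2.2) (H x) (W x) * bet i (B p.1 - B p.2.1) (H x) := by
            funext x
            simp only [hP3, if_pos hc]
          rw [this]
          exact ((isP_alp i _ hH hW).mul (isP_bet i _ hH)).sub
            ((isP_alp i _ hH hW).mul (isP_bet i _ hH))
        · have : P3 p = fun x => 1 := by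
            funext x
            simp only [hP3, if_neg hc]
          rw [this]
          exact IsP.const 1
    · rintro (p | (p | p)) -
      · show ∃ x, P1 p x ≠ 0
        by_cases hc : C1 p
        · obtain ⟨h1, h2, h3⟩ := hc
          have key1 : ∀ A : Finset ι, ∀ a, ∑ j ∈ A, (Pi.single a (1 : ℤ) : ι → ℤ) j =
              if a ∈ A then 1 else 0 := by
            intro A a
            rw [← Finset.sum_ite_eq' A a (fun _ => (1 : ℤ))]
            refine Finset.sum_congr rfl fun j _ => ?_
            rw [Pi.single_apply]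
          obtain ⟨a, ha⟩ : ∃ a, ¬ (a ∈ p.1 ↔ a ∈ p.2) := by
            by_contra hcon
            push Not at hcon
            exact h3 (Finset.ext hcon)
          have hai : a ≠ i := by
            rintro rfl
            exact ha ⟨fun h => absurd h h1, fun h => absurd h h2⟩
          have hi0 : (Pi.single a (1 : ℤ) : ι → ℤ) i = 0 := Pi.single_eq_of_ne hai.symm _
          refine ⟨Sum.elim (Pi.single a 1) 0, ?_⟩
          simp only [hP1]
          rw [if_pos (show C1 p from ⟨h1, h2, h3⟩), (hsurj _ _ hi0).1, key1, key1]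
          by_cases e1 : a ∈ p.1 <;> by_cases e2 : a ∈ p.2
          · exact absurd ⟨fun _ => e2, fun _ => e1⟩ ha
          · simp [e1, e2]
          · simp [e1, e2]
          · exact absurd ⟨fun h => absurd h e1, fun h => absurd h e2⟩ ha
        · exact ⟨0, by simp only [hP1, if_neg hc]; exact one_ne_zero⟩
      · show ∃ x, P2 p x ≠ 0
        by_cases hc : C2 p
        · obtain ⟨a, j, hai, hji, hne⟩ := hc
          have hi0 : (Pi.single a (1 : ℤ) : ι → ℤ) i = 0 := Pi.single_eq_of_ne hai.symm _
          refine ⟨Sum.elim (Pi.single a 1) (Pi.single j 1), ?_⟩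
          simp only [hP2]
          rw [if_pos (show C2 p from ⟨a, j, hai, hji, hne⟩), (hsurj _ _ hi0).1, (hsurj _ _ hi0).2,
            alp_single i _ a j hji, alp_single i _ a j hji]
          exact sub_ne_zero.2 hne
        · exact ⟨0, by simp only [hP2, if_neg hc]; exact one_ne_zero⟩
      · show ∃ x, P3 p x ≠ 0
        by_cases hc : C3 p
        · by_contra hcon
          push Not at hcon
          obtain ⟨h1, h2, h3, h4, h5⟩ := hc
          have hpar := par i (B p.1 - B p.2.1) (B p.2.2.1 - B p.2.2.2) ((hB _).dif (hB _))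
            ((hB _).dif (hB _)) h1 h2 h3 (by
              intro h ω hi
              have h6 := hcon (Sum.elim h ω)
              simp only [hP3] at h6
              rw [if_pos (show C3 p from ⟨h1, h2, h3, h4, h5⟩), (hsurj _ _ hi).1, (hsurj _ _ hi).2] at h6
              exact sub_eq_zero.1 h6)
          rcases hpar with h6 | h6
          · exact h4 h6
          · exact h5 h6
        · exact ⟨0, by simp only [hP3, if_neg hc]; exact one_ne_zero⟩
  obtain ⟨x, hx⟩ := key
  refine ⟨H x, W x, hHi x, ?_, ?_, ?_⟩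
  · intro A A' hA hA' hne
    have h1 := hx (Sum.inl (A, A')) (Finset.mem_univ _)
    simp only [Sum.elim_inl, hP1] at h1
    rw [if_pos (show C1 (A, A') from ⟨hA, hA', hne⟩)] at h1
    exact sub_ne_zero.1 h1
  · intro σ τ hne
    have h1 := hx (Sum.inr (Sum.inl (σ, τ))) (Finset.mem_univ _)
    simp only [Sum.elim_inl, Sum.elim_inr, hP2] at h1
    rw [if_pos (show C2 (σ, τ) from hne)] at h1
    exact sub_ne_zero.1 h1
  · intro σ τ σ' τ' h1 h2 h3 h4 h5
    have h6 := hx (Sum.inr (Sum.inr (σ, τ, σ', τ'))) (Finset.mem_univ _)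
    simp only [Sum.elim_inr, hP3] at h6
    rw [if_pos (show C3 (σ, τ, σ', τ') from ⟨h1, h2, h3, h4, h5⟩)] at h6
    exact sub_ne_zero.1 h6

end ALK
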