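import Mathlib

set_option autoImplicit false

/-!
# N06: few powers of `ζ_p` are linearly independent over a number field (Mathlib only, size M-L)

`Ω` is an algebraically closed field of characteristic 0. Let `F` be a finite extension of `ℚ` in `Ω`,
`D = [F : ℚ]`, and `n₀, X` natural numbers. CLAIM: there are a prime `p > X` and a primitive `p`-th root of
unity `ζ ∈ Ω` such that every relation `∑_{s < p} C_s ζ ^ s = 0` with `C_s ∈ F` and at most `n₀` nonzero
`C_s` is trivial.

PROOF. Put `q = 4 D` and let `p` be a prime `> max (X, q ^ n₀, 8 D + 8, 2)`; `ζ` any primitive `p`-th root of unity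
(`IsAlgClosed`, characteristic 0: `HasEnoughRootsOfUnity` or a root of `cyclotomic p Ω`).
(1) If `ζ'` is a primitive `p`-th root of unity and `g ∈ F[x]`, `g ≠ 0`, `g(ζ') = 0`, then
`deg g ≥ (p - 1) / D`, i.e. `p - 1 ≤ D deg g`: the minimal polynomial of `ζ'` over `F` has degree
`[F(ζ') : F] ≤ deg g`, and `p - 1 = [ℚ(ζ') : ℚ] ≤ [F(ζ') : ℚ] = D [F(ζ') : F]`
(`minpoly ℚ ζ' = cyclotomic p ℚ`, `Polynomial.cyclotomic_eq_minpoly_rat`).
(2) Let `s_1, …, s_k` (`k ≤ n₀`) be the indices with `C_s ≠ 0`. Pigeonhole: for `u = 0, …, p - 1` consider the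
`k`-tuple `(⌊q (u s_j mod p) / p⌋)_j ∈ {0, …, q - 1}^k`; as `q ^ k < p` two values `u < u'` give the same
tuple. Let `w = u' - u`, `0 < w < p`. Then `w s_j ≡ e_j (mod p)` with integers
`e_j = (u' s_j mod p) - (u s_j mod p)`, `|e_j| < p / q`, so `|e_j| ≤ M := ⌊p / q⌋`.
(3) Let `w'` be inverse to `w` modulo `p` and `ζ' = ζ ^ {w'}`, primitive. `ζ ^ {s_j} = ζ' ^ {w s_j} = ζ' ^ {e_j}`.
Multiply the relation by `ζ' ^ M`: `g(ζ') = 0` with `g = ∑_j C_{s_j} x ^ {e_j + M}`, a polynomial over `F`
of degree `≤ 2 M ≤ 2 p / q = p / (2 D)`. The exponents `e_j + M` are pairwise different because the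
`s_j` are different modulo `p` and `w` is invertible. As `D deg g ≤ p / 2 < p - 1`, (1) gives `g = 0`, so all
`C_{s_j} = 0`: there is no nonzero `C_s`.

(Alternative: for all but finitely many primes `p` the field `F ∩ ℚ(ζ_p)` is `ℚ` and `Φ_p` is irreducible
over `F`; then `n₀ < p` suffices. Any proof is welcome; only the statement matters.)
-/

namespace ALK

variable {Ω : Type*} [Field Ω] [CharZero Ω] [IsAlgClosed Ω]

private theorem deg_mul (K F L : Type*) [Field K] [Field F] [Field L] [Algebra K F] [Algebra F L] [Algebra K L]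
    [IsScalarTower K F L] [FiniteDimensional K F] (ζ : L) (hint : IsIntegral F ζ) :
    (minpoly K ζ).natDegree ≤ Module.finrank K F * (minpoly F ζ).natDegree := by
  have h1 : Module.finrank F (IntermediateField.adjoin F {ζ}) = (minpoly F ζ).natDegree :=
    IntermediateField.adjoin.finrank hint
  have : FiniteDimensional F (IntermediateField.adjoin F {ζ}) :=
    IntermediateField.adjoin.finiteDimensional hint
  have : FiniteDimensional K (IntermediateField.adjoin F {ζ}) :=
    FiniteDimensional.trans K F (IntermediateField.adjoin F {ζ})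
  have h3 : Module.finrank K F * Module.finrank F (IntermediateField.adjoin F {ζ}) =
      Module.finrank K (IntermediateField.adjoin F {ζ}) := Module.finrank_mul_finrank _ _ _
  have h4 : (minpoly K (IntermediateField.AdjoinSimple.gen F ζ)).natDegree ≤
      Module.finrank K (IntermediateField.adjoin F {ζ}) := minpoly.natDegree_le _
  have h5 : minpoly K (IntermediateField.AdjoinSimple.gen F ζ) = minpoly K ζ := by
    have ht : IsScalarTower K (IntermediateField.adjoin F {ζ}) L :=
      IsScalarTower.of_algebraMap_eq fun x => by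
        rw [IsScalarTower.algebraMap_apply K F L x, IsScalarTower.algebraMap_apply K F
          (IntermediateField.adjoin F {ζ}) x]
        rfl
    have := minpoly.algebraMap_eq (A := K) (B := IntermediateField.adjoin F {ζ}) (B' := L)
      (FaithfulSMul.algebraMap_injective _ _) (IntermediateField.AdjoinSimple.gen F ζ)
    rw [IntermediateField.AdjoinSimple.algebraMap_gen] at this
    exact this.symm
  rw [h5, ← h3, h1] at h4
  exact h4

open Polynomial in
/-- a polynomial over `F` that vanishes at a primitive `p`-th root of unity has degree at least `(p-1)/D` -/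
private theorem deg_ge (F : IntermediateField ℚ Ω) [FiniteDimensional ℚ F] {p : ℕ} (hp : p.Prime) {ζ : Ω}
    (hζ : IsPrimitiveRoot ζ p) (g : F[X]) (hg : g ≠ 0) (h0 : aeval ζ g = 0) :
    p - 1 ≤ Module.finrank ℚ F * g.natDegree := by
  have hint : IsIntegral F ζ := (hζ.isIntegral hp.pos).tower_top
  have h2 : (minpoly F ζ).natDegree ≤ g.natDegree := by
    apply Polynomial.natDegree_le_natDegree
    exact minpoly.degree_le_of_ne_zero F ζ hg h0
  have h6 : (minpoly ℚ ζ).natDegree = p - 1 := by
    rw [← Polynomial.cyclotomic_eq_minpoly_rat hζ hp.pos, Polynomial.natDegree_cyclotomic,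
      Nat.totient_prime hp]
  have h4 := deg_mul ℚ F Ω ζ hint
  rw [h6] at h4
  exact h4.trans (Nat.mul_le_mul_left _ h2)

theorem few_ind (F : IntermediateField ℚ Ω) [FiniteDimensional ℚ F] (n₀ X : ℕ) :
    ∃ (p : ℕ) (ζ : Ω), p.Prime ∧ X < p ∧ IsPrimitiveRoot ζ p ∧
      ∀ C : ℕ → Ω, (∀ s, C s ∈ F) →
        {s | s < p ∧ C s ≠ 0}.ncard ≤ n₀ →
        ∑ s ∈ Finset.range p, C s * ζ ^ s = 0 → ∀ s, s < p → C s = 0 := by
  classical
  set D := Module.finrank ℚ F with hD
  have hDpos : 0 < D := Module.finrank_pos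
  set q := 4 * D with hq
  obtain ⟨p, hpge, hp⟩ := Nat.exists_infinite_primes (X + q ^ n₀ + 3)
  have : NeZero (p : Ω) := ⟨Nat.cast_ne_zero.2 hp.ne_zero⟩
  have : NeZero p := ⟨hp.ne_zero⟩
  obtain ⟨ζ, hζ⟩ := HasEnoughRootsOfUnity.exists_primitiveRoot Ω p
  refine ⟨p, ζ, hp, by omega, hζ, ?_⟩
  intro C hC hcard hsum
  set S := (Finset.range p).filter (fun s => C s ≠ 0) with hS
  have hScard : S.card ≤ n₀ := by
    have : {s | s < p ∧ C s ≠ 0} = (S : Set ℕ) := by
      ext s
      simp [hS]
    rw [this, Set.ncard_coe_finset] at hcard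
    exact hcard
  -- pigeonhole
  have hq0 : 0 < q := by omega
  have hbd : ∀ r, r < p → q * r / p < q := fun r hr => by
    rw [Nat.div_lt_iff_lt_mul hp.pos]
    exact Nat.mul_lt_mul_of_pos_left hr hq0
  let f : Fin p → (S → Fin q) := fun u s => ⟨q * (u.1 * s.1 % p) / p, hbd _ (Nat.mod_lt _ hp.pos)⟩
  have hpig : ∃ u u' : ℕ, u < u' ∧ u' < p ∧ ∀ s ∈ S, q * (u * s % p) / p = q * (u' * s % p) / p := by
    have hc : Fintype.card (S → Fin q) < Fintype.card (Fin p) := by
      rw [Fintype.card_fun, Fintype.card_fin, Fintype.card_fin, Fintype.card_coe]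
      calc q ^ S.card ≤ q ^ n₀ := Nat.pow_le_pow_right hq0 hScard
        _ < p := by omega
    obtain ⟨u, u', hne, he⟩ := Fintype.exists_ne_map_eq_of_card_lt f hc
    have he' : ∀ s ∈ S, q * (u.1 * s % p) / p = q * (u'.1 * s % p) / p := by
      intro s hs
      have := congrFun he ⟨s, hs⟩
      exact Fin.mk.inj_iff.1 this
    rcases lt_or_gt_of_ne (fun h => hne (Fin.ext h)) with h | h
    · exact ⟨u.1, u'.1, h, u'.2, he'⟩
    · exact ⟨u'.1, u.1, h, u.2, fun s hs => (he' s hs).symm⟩
  obtain ⟨u, u', huu, hu', hf⟩ := hpig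
  -- the exponents
  set M := p / q with hM
  have hclose : ∀ s ∈ S, u * s % p ≤ u' * s % p + M ∧ u' * s % p ≤ u * s % p + M := by
    intro s hs
    have h1 := hf s hs
    set a := u * s % p
    set b := u' * s % p
    have ha1 : p * (q * a / p) ≤ q * a := Nat.mul_div_le _ _
    have ha2 : q * a < p * (q * a / p) + p := by
      have e1 := Nat.div_add_mod (q * a) p
      have e2 := Nat.mod_lt (q * a) hp.pos
      omega
    have hb1 : p * (q * b / p) ≤ q * b := Nat.mul_div_le _ _
    have hb2 : q * b < p * (q * b / p) + p := by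
      have e1 := Nat.div_add_mod (q * b) p
      have e2 := Nat.mod_lt (q * b) hp.pos
      omega
    rw [h1] at ha1 ha2
    have e1 : q * a < q * b + p := by omega
    have e2 : q * b < q * a + p := by omega
    constructor
    · by_contra hcon
      push Not at hcon
      have : a - b ≤ p / q := by
        rw [Nat.le_div_iff_mul_le hq0, Nat.mul_comm, Nat.mul_sub]
        omega
      omega
    · by_contra hcon
      push Not at hcon
      have : b - a ≤ p / q := by
        rw [Nat.le_div_iff_mul_le hq0, Nat.mul_comm, Nat.mul_sub]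
        omega
      omega
  let m : ℕ → ℕ := fun s => u' * s % p + M - u * s % p
  have hm : ∀ s ∈ S, m s + u * s % p = u' * s % p + M := by
    intro s hs
    have := (hclose s hs).1
    show u' * s % p + M - u * s % p + u * s % p = u' * s % p + M
    omega
  have hm2 : ∀ s ∈ S, m s ≤ 2 * M := by
    intro s hs
    have h1 := (hclose s hs).2
    have h2 := hm s hs
    omega
  -- the root
  set w := u' - u with hw
  have hwp : Nat.Coprime w p := by
    apply Nat.Coprime.symm
    rw [Nat.Prime.coprime_iff_not_dvd hp]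
    intro hdvd
    have := Nat.le_of_dvd (by omega) hdvd
    omega
  obtain ⟨w', _, hw'⟩ := Nat.exists_mul_mod_eq_one_of_coprime hwp hp.one_lt
  set η := ζ ^ w' with hη
  have hηw : η ^ w = ζ := by
    rw [hη, ← pow_mul, Nat.mul_comm, ← Nat.div_add_mod (w * w') p, hw', pow_add, pow_mul, hζ.pow_eq_one,
      one_pow, one_mul, pow_one]
  have hηp : η ^ p = 1 := by
    rw [hη, ← pow_mul, Nat.mul_comm, pow_mul, hζ.pow_eq_one, one_pow]
  have hη1 : η ≠ 1 := by
    intro h
    rw [h, one_pow] at hηw
    exact hζ.ne_one hp.one_lt hηw.symm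
  have : Fact p.Prime := ⟨hp⟩
  have hηprim : IsPrimitiveRoot η p := by
    have := orderOf_eq_prime hηp hη1
    rw [← this]
    exact IsPrimitiveRoot.orderOf η
  have hη0 : η ≠ 0 := hηprim.ne_zero hp.ne_zero
  have hmod : ∀ k, η ^ (k % p) = η ^ k := by
    intro k
    conv_rhs => rw [← Nat.div_add_mod k p, pow_add, pow_mul, hηp, one_pow, one_mul]
  have hmη : ∀ s ∈ S, η ^ m s = ζ ^ s * η ^ M := by
    intro s hs
    have h1 : η ^ (m s + u * s % p) = η ^ (u' * s % p + M) := by rw [hm s hs]
    rw [pow_add, hmod, pow_add, hmod] at h1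
    have h2 : η ^ (u' * s) = η ^ (u * s) * ζ ^ s := by
      rw [← hηw]
      clear_value η
      rw [← pow_mul, ← pow_add, ← Nat.add_mul]
      congr 2
      omega
    rw [h2] at h1
    have h3 : η ^ (u * s) ≠ 0 := pow_ne_zero _ hη0
    apply mul_right_cancel₀ h3
    rw [h1]
    ring
  have hminj : ∀ s ∈ S, ∀ t ∈ S, m s = m t → s = t := by
    intro s hs t ht hst
    have h1 := hmη s hs
    rw [hst, hmη t ht] at h1
    have h2 : ζ ^ t = ζ ^ s := mul_right_cancel₀ (pow_ne_zero _ hη0) h1
    exact (hζ.pow_inj (Finset.mem_range.1 (Finset.mem_filter.1 ht).1)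
      (Finset.mem_range.1 (Finset.mem_filter.1 hs).1) h2).symm
  -- the polynomial
  let g : Polynomial F := ∑ s ∈ S, Polynomial.monomial (m s) (⟨C s, hC s⟩ : F)
  have hg0 : Polynomial.aeval η g = 0 := by
    show Polynomial.aeval η (∑ s ∈ S, Polynomial.monomial (m s) (⟨C s, hC s⟩ : F)) = 0
    rw [map_sum]
    have h1 : ∀ s ∈ S, Polynomial.aeval η (Polynomial.monomial (m s) (⟨C s, hC s⟩ : F)) =
        C s * ζ ^ s * η ^ M := by
      intro s hs
      rw [Polynomial.aeval_monomial, hmη s hs, mul_assoc]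
      rfl
    rw [Finset.sum_congr rfl h1, ← Finset.sum_mul]
    have h2 : ∑ s ∈ S, C s * ζ ^ s = ∑ s ∈ Finset.range p, C s * ζ ^ s := by
      apply Finset.sum_subset (Finset.filter_subset _ _)
      intro s hs hs'
      have : C s = 0 := by
        by_contra h
        exact hs' (Finset.mem_filter.2 ⟨hs, h⟩)
      rw [this, zero_mul]
    rw [h2, hsum, zero_mul]
  have hgdeg : g.natDegree ≤ 2 * M := by
    apply Polynomial.natDegree_sum_le_of_forall_le
    intro s hs
    exact (Polynomial.natDegree_monomial_le _).trans (hm2 s hs)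
  have hgz : g = 0 := by
    by_contra hne
    have h1 := deg_ge F hp hηprim g hne hg0
    rw [← hD] at h1
    have h2 : D * g.natDegree ≤ D * (2 * M) := Nat.mul_le_mul_left _ hgdeg
    have h3 : q * M ≤ p := Nat.mul_div_le _ _
    have h4 : q * M = 2 * (D * (2 * M)) := by rw [hq]; ring
    omega
  intro s hs
  by_contra hcs
  have hsS : s ∈ S := Finset.mem_filter.2 ⟨Finset.mem_range.2 hs, hcs⟩
  have h1 : g.coeff (m s) = (⟨C s, hC s⟩ : F) := by
    show (∑ t ∈ S, Polynomial.monomial (m t) (⟨C t, hC t⟩ : F)).coeff (m s) = _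
    rw [Polynomial.finsetSum_coeff, Finset.sum_eq_single s]
    · rw [Polynomial.coeff_monomial, if_pos rfl]
    · intro t ht hts
      rw [Polynomial.coeff_monomial, if_neg]
      intro h
      exact hts (hminj t ht s hsS h)
    · intro h
      exact absurd hsS h
  rw [hgz, Polynomial.coeff_zero] at h1
  exact hcs (congrArg Subtype.val h1).symm

end ALK
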